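import Mathlib

/-!
# Open unions of absolute neighbourhood extensors
-/

namespace Pool.Agent.Lib.MP_271836_gt

open Topology Set

/-- The subset `V` of `P` is an absolute neighbourhood extensor for metrizable spaces
(phrased with partially continuous total functions). -/
def ANEOn {P : Type*} [TopologicalSpace P] (V : Set P) : Prop :=
  ∀ (Z : Type) [TopologicalSpace Z] [TopologicalSpace.MetrizableSpace Z] (A : Set Z),
    IsClosed A → ∀ f : Z → P, ContinuousOn f A → MapsTo f A V →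
      ∃ U, IsOpen U ∧ A ⊆ U ∧ ∃ F : Z → P, ContinuousOn F U ∧ MapsTo F U V ∧ EqOn F f A

theorem aneOn_mono {P : Type*} [TopologicalSpace P] {V W : Set P} (hV : ANEOn V)
    (hW : IsOpen W) (hWV : W ⊆ V) : ANEOn W := by
  intro Z _ _ A hA f hf hfA
  obtain ⟨U, hU, hAU, F, hF, -, hFf⟩ := hV Z A hA f hf (fun z hz => hWV (hfA hz))
  refine ⟨U ∩ F ⁻¹' W, hF.isOpen_inter_preimage hU hW, ?_, F, hF.mono inter_subset_left,
    fun z hz => hz.2, hFf⟩
  intro z hz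
  refine ⟨hAU hz, ?_⟩
  show F z ∈ W
  rw [hFf hz]
  exact hfA hz

theorem aneOn_empty {P : Type*} [TopologicalSpace P] : ANEOn (∅ : Set P) := by
  intro Z _ _ A _ f _ hfA
  refine ⟨∅, isOpen_empty, fun z hz => (hfA hz).elim, f, ?_, ?_, fun z _ => rfl⟩
  · simp
  · intro z hz; exact hz.elim

theorem aneOn_source {P : Type*} [TopologicalSpace P] {n : ℕ}
    (e : OpenPartialHomeomorph P (EuclideanSpace ℝ (Fin n))) : ANEOn e.source := by
  intro Z _ _ A hA f hf hfA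
  letI := TopologicalSpace.metrizableSpaceMetric Z
  have hcont : ContinuousOn (fun z => e (f z)) A := e.continuousOn.comp hf hfA
  let g : C(A, EuclideanSpace ℝ (Fin n)) := ⟨fun a => e (f a), hcont.restrict⟩
  obtain ⟨G, hG⟩ := ContinuousMap.exists_restrict_eq hA g
  have hGA : ∀ z ∈ A, G z = e (f z) := by
    intro z hz
    have := congrArg (fun h : C(A, EuclideanSpace ℝ (Fin n)) => h ⟨z, hz⟩) hG
    simpa [g] using this
  refine ⟨G ⁻¹' e.target, e.open_target.preimage G.continuous, ?_, fun z => e.symm (G z), ?_, ?_, ?_⟩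
  · intro z hz
    show G z ∈ e.target
    rw [hGA z hz]
    exact e.map_source (hfA hz)
  · exact e.continuousOn_symm.comp G.continuous.continuousOn (fun z hz => hz)
  · intro z hz
    exact e.map_target hz
  · intro z hz
    show e.symm (G z) = f z
    rw [hGA z hz]
    exact e.left_inv (hfA hz)

theorem aneOn_union {P : Type*} [TopologicalSpace P] {V₁ V₂ : Set P} (h₁ : IsOpen V₁)
    (h₂ : IsOpen V₂) (hV₁ : ANEOn V₁) (hV₂ : ANEOn V₂) : ANEOn (V₁ ∪ V₂) := by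
  classical
  intro Z _ _ A hA f hf hfA
  letI := TopologicalSpace.metrizableSpaceMetric Z
  -- the parts which map outside one of the two sets
  obtain ⟨O₂, hO₂, hO₂'⟩ := (continuousOn_iff'.1 hf) V₂ h₂
  obtain ⟨O₁, hO₁, hO₁'⟩ := (continuousOn_iff'.1 hf) V₁ h₁
  set A₁ : Set Z := A ∩ O₂ᶜ with hA₁
  set A₂ : Set Z := A ∩ O₁ᶜ with hA₂
  have hA₁c : IsClosed A₁ := hA.inter hO₂.isClosed_compl
  have hA₂c : IsClosed A₂ := hA.inter hO₁.isClosed_compl
  have memV₂ : ∀ z ∈ A, z ∉ A₁ → f z ∈ V₂ := by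
    intro z hz hz1
    have : z ∈ O₂ := by
      by_contra h
      exact hz1 ⟨hz, h⟩
    have h3 : z ∈ O₂ ∩ A := ⟨this, hz⟩
    rw [← hO₂'] at h3
    exact h3.1
  have memV₁ : ∀ z ∈ A, z ∉ A₂ → f z ∈ V₁ := by
    intro z hz hz1
    have : z ∈ O₁ := by
      by_contra h
      exact hz1 ⟨hz, h⟩
    have h3 : z ∈ O₁ ∩ A := ⟨this, hz⟩
    rw [← hO₁'] at h3
    exact h3.1
  have hdisj : Disjoint A₁ A₂ := by
    rw [Set.disjoint_left]
    intro z hz1 hz2
    have h1 : f z ∉ V₂ := by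
      intro h
      have h3 : z ∈ f ⁻¹' V₂ ∩ A := ⟨h, hz1.1⟩
      rw [hO₂'] at h3
      exact hz1.2 h3.1
    have h2 : f z ∉ V₁ := by
      intro h
      have h3 : z ∈ f ⁻¹' V₁ ∩ A := ⟨h, hz1.1⟩
      rw [hO₁'] at h3
      exact hz2.2 h3.1
    rcases hfA hz1.1 with h | h
    · exact h2 h
    · exact h1 h
  obtain ⟨lam, hlam0, hlam1, -⟩ := exists_continuous_zero_one_of_isClosed hA₁c hA₂c hdisj
  set Z₁ : Set Z := {z | lam z ≤ 1 / 2} with hZ₁
  set Z₂ : Set Z := {z | 1 / 2 ≤ lam z} with hZ₂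
  have hZ₁c : IsClosed Z₁ := isClosed_le lam.continuous continuous_const
  have hZ₂c : IsClosed Z₂ := isClosed_le continuous_const lam.continuous
  have hZ₁A₂ : ∀ z ∈ Z₁, z ∉ A₂ := by
    intro z hz h
    have h1 : lam z = 1 := hlam1 h
    have h2 : lam z ≤ 1 / 2 := hz
    linarith
  have hZ₂A₁ : ∀ z ∈ Z₂, z ∉ A₁ := by
    intro z hz h
    have h1 : lam z = 0 := hlam0 h
    have h2 : 1 / 2 ≤ lam z := hz
    linarith
  -- extension near the interface
  have hV₀ : ANEOn (V₁ ∩ V₂) := aneOn_mono hV₁ (h₁.inter h₂) inter_subset_left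
  obtain ⟨U₀, hU₀, hAU₀, F₀, hF₀, hF₀V, hF₀f⟩ := hV₀ Z (A ∩ (Z₁ ∩ Z₂))
    (hA.inter (hZ₁c.inter hZ₂c)) f (hf.mono inter_subset_left)
    (fun z hz => ⟨memV₁ z hz.1 (hZ₁A₂ z hz.2.1), memV₂ z hz.1 (hZ₂A₁ z hz.2.2)⟩)
  obtain ⟨C, hCn, hCc, hCU⟩ : ∃ C : Set Z, A ∩ (Z₁ ∩ Z₂) ⊆ interior C ∧ IsClosed C ∧ C ⊆ U₀ := by
    obtain ⟨W, hW, hAW, hWU⟩ := normal_exists_closure_subset (hA.inter (hZ₁c.inter hZ₂c)) hU₀ hAU₀
    exact ⟨closure W, hAW.trans (interior_maximal subset_closure hW), isClosed_closure, hWU⟩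
  -- extension on the two sides
  have side : ∀ (Z' : Set Z) (V : Set P), IsClosed Z' → ANEOn V → Z₁ ∩ Z₂ ⊆ Z' →
      (∀ z ∈ A, z ∈ Z' → f z ∈ V) → (V₁ ∩ V₂ ⊆ V) → (Z' ⊆ Z₁ ∨ Z' ⊆ Z₂) →
      ∃ U, IsOpen U ∧ (A ∩ Z') ∪ (C ∩ (Z₁ ∩ Z₂)) ⊆ U ∧ ∃ F : Z → P, ContinuousOn F U ∧
        MapsTo F U V ∧ EqOn F f (A ∩ Z') ∧ EqOn F F₀ (C ∩ (Z₁ ∩ Z₂)) := by
    intro Z' V hZ' hV hsub hmem hVV hZ'sub
    set f' : Z → P := fun z => if z ∈ C ∩ (Z₁ ∩ Z₂) then F₀ z else f z with hf'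
    have heq1 : EqOn f' f (A ∩ Z') := by
      intro z hz
      by_cases h : z ∈ C ∩ (Z₁ ∩ Z₂)
      · show (if z ∈ C ∩ (Z₁ ∩ Z₂) then F₀ z else f z) = f z
        rw [if_pos h]
        exact hF₀f ⟨hz.1, h.2⟩
      · show (if z ∈ C ∩ (Z₁ ∩ Z₂) then F₀ z else f z) = f z
        rw [if_neg h]
    have heq2 : EqOn f' F₀ (C ∩ (Z₁ ∩ Z₂)) := by
      intro z hz
      show (if z ∈ C ∩ (Z₁ ∩ Z₂) then F₀ z else f z) = F₀ z
      rw [if_pos hz]
    have hc1 : ContinuousOn f' (A ∩ Z') := (hf.mono inter_subset_left).congr heq1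
    have hc2 : ContinuousOn f' (C ∩ (Z₁ ∩ Z₂)) :=
      (hF₀.mono (inter_subset_left.trans hCU)).congr heq2
    have hcl1 : IsClosed (A ∩ Z') := hA.inter hZ'
    have hcl2 : IsClosed (C ∩ (Z₁ ∩ Z₂)) := hCc.inter (hZ₁c.inter hZ₂c)
    have hc : ContinuousOn f' ((A ∩ Z') ∪ (C ∩ (Z₁ ∩ Z₂))) :=
      hc1.union_of_isClosed hc2 hcl1 hcl2
    obtain ⟨U, hU, hAU, F, hF, hFV, hFf⟩ := hV Z _ (hcl1.union hcl2) f' hc (by
      rintro z (hz | hz)
      · rw [heq1 hz]; exact hmem z hz.1 hz.2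
      · rw [heq2 hz]; exact hVV (hF₀V (hCU hz.1)))
    refine ⟨U, hU, hAU, F, hF, hFV, ?_, ?_⟩
    · intro z hz
      rw [hFf (Or.inl hz), heq1 hz]
    · intro z hz
      rw [hFf (Or.inr hz), heq2 hz]
  obtain ⟨U₁, hU₁, hAU₁, F₁, hF₁, hF₁V, hF₁f, hF₁0⟩ := side Z₁ V₁ hZ₁c hV₁ inter_subset_left
    (fun z hz hz1 => memV₁ z hz (hZ₁A₂ z hz1)) inter_subset_left (Or.inl subset_rfl)
  obtain ⟨U₂, hU₂, hAU₂, F₂, hF₂, hF₂V, hF₂f, hF₂0⟩ := side Z₂ V₂ hZ₂c hV₂ inter_subset_right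
    (fun z hz hz1 => memV₂ z hz (hZ₂A₁ z hz1)) inter_subset_right (Or.inr subset_rfl)
  -- the final neighbourhood
  set Ua : Set Z := U₁ ∩ {z | lam z < 1 / 2} with hUa
  set Ub : Set Z := U₂ ∩ {z | 1 / 2 < lam z} with hUb
  set Uc : Set Z := interior C ∩ (U₁ ∩ U₂) with hUc
  have hUao : IsOpen Ua := hU₁.inter (isOpen_lt lam.continuous continuous_const)
  have hUbo : IsOpen Ub := hU₂.inter (isOpen_lt continuous_const lam.continuous)
  have hUco : IsOpen Uc := isOpen_interior.inter (hU₁.inter hU₂)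
  set F : Z → P := fun z => if lam z ≤ 1 / 2 then F₁ z else F₂ z with hFdef
  refine ⟨Ua ∪ Ub ∪ Uc, (hUao.union hUbo).union hUco, ?_, F, ?_, ?_, ?_⟩
  · intro z hz
    rcases lt_trichotomy (lam z) (1 / 2) with h | h | h
    · exact Or.inl (Or.inl ⟨hAU₁ (Or.inl ⟨hz, h.le⟩), h⟩)
    · have hz1 : z ∈ Z₁ := h.le
      have hz2 : z ∈ Z₂ := h.ge
      exact Or.inr ⟨hCn ⟨hz, hz1, hz2⟩, hAU₁ (Or.inl ⟨hz, hz1⟩), hAU₂ (Or.inl ⟨hz, hz2⟩)⟩
    · exact Or.inl (Or.inr ⟨hAU₂ (Or.inl ⟨hz, h.le⟩), h⟩)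
  · apply ContinuousOn.union_of_isOpen _ _ (hUao.union hUbo) hUco
    · apply ContinuousOn.union_of_isOpen _ _ hUao hUbo
      · apply (hF₁.mono inter_subset_left).congr
        intro z hz
        show (if lam z ≤ 1 / 2 then F₁ z else F₂ z) = F₁ z
        rw [if_pos (le_of_lt hz.2)]
      · apply (hF₂.mono inter_subset_left).congr
        intro z hz
        show (if lam z ≤ 1 / 2 then F₁ z else F₂ z) = F₂ z
        rw [if_neg (not_le.2 hz.2)]
    · -- near the interface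
      have hagree : ∀ z ∈ Uc, lam z = 1 / 2 → F₁ z = F₂ z := by
        intro z hz h
        have hz1 : z ∈ Z₁ := h.le
        have hz2 : z ∈ Z₂ := h.ge
        have hzC : z ∈ C ∩ (Z₁ ∩ Z₂) := ⟨interior_subset hz.1, hz1, hz2⟩
        rw [hF₁0 hzC, hF₂0 hzC]
      rw [continuousOn_iff_continuous_restrict]
      show Continuous (fun z : Uc => if lam z ≤ 1 / 2 then F₁ z else F₂ z)
      apply Continuous.if_le
      · exact continuousOn_iff_continuous_restrict.1 (hF₁.mono (fun z hz => hz.2.1))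
      · exact continuousOn_iff_continuous_restrict.1 (hF₂.mono (fun z hz => hz.2.2))
      · exact lam.continuous.comp continuous_subtype_val
      · exact continuous_const
      · intro z hz
        exact hagree z z.2 hz
  · intro z hz
    by_cases h : lam z ≤ 1 / 2
    · have hFz : F z = F₁ z := if_pos h
      rw [hFz]
      rcases hz with (hz | hz) | hz
      · exact Or.inl (hF₁V hz.1)
      · exact absurd hz.2 (not_lt.2 h)
      · exact Or.inl (hF₁V hz.2.1)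
    · have hFz : F z = F₂ z := if_neg h
      rw [hFz]
      rcases hz with (hz | hz) | hz
      · exact absurd (le_of_lt hz.2) h
      · exact Or.inr (hF₂V hz.1)
      · exact Or.inr (hF₂V hz.2.2)
  · intro z hz
    by_cases h : lam z ≤ 1 / 2
    · have hFz : F z = F₁ z := if_pos h
      rw [hFz]; exact hF₁f ⟨hz, h⟩
    · have hFz : F z = F₂ z := if_neg h
      rw [hFz]; exact hF₂f ⟨hz, (not_le.1 h).le⟩

theorem aneOn_univ_of_charted {P : Type*} [TopologicalSpace P] [CompactSpace P] {n : ℕ}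
    [ChartedSpace (EuclideanSpace ℝ (Fin n)) P] : ANEOn (univ : Set P) := by
  classical
  have hcov : (univ : Set P) ⊆ ⋃ x : P, (chartAt (EuclideanSpace ℝ (Fin n)) x).source :=
    fun x _ => mem_iUnion.2 ⟨x, mem_chart_source _ x⟩
  obtain ⟨t, ht⟩ := isCompact_univ.elim_finite_subcover _
    (fun x : P => (chartAt (EuclideanSpace ℝ (Fin n)) x).open_source) hcov
  have key : ∀ t : Finset P,
      ANEOn (⋃ x ∈ t, (chartAt (EuclideanSpace ℝ (Fin n)) x).source) := by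
    intro t
    induction t using Finset.induction_on with
    | empty => simpa using aneOn_empty
    | insert a s _ ih =>
      rw [Finset.set_biUnion_insert]
      exact aneOn_union (chartAt _ a).open_source
        (isOpen_biUnion (fun x _ => (chartAt _ x).open_source)) (aneOn_source _) ih
  have h1 := key t
  have h2 : (⋃ x ∈ t, (chartAt (EuclideanSpace ℝ (Fin n)) x).source) = univ :=
    subset_antisymm (subset_univ _) ht
  rwa [h2] at h1

end Pool.Agent.Lib.MP_271836_gt
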