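import Mathlib

/-!
# Discrete cocompact groups of isometries of Euclidean space: commuting rotations
-/

namespace Pool.Agent.Lib.MP_271836_gt.Flat

open Topology Set

variable {E : Type*} [NormedAddCommGroup E] [InnerProductSpace ℝ E]

/-- The linear isometry `a` moves no vector by more than `δ` times its length. -/
def Near (δ : ℝ) (a : E ≃ₗᵢ[ℝ] E) : Prop := ∀ x, ‖a x - x‖ ≤ δ * ‖x‖

theorem conj_pow (G : Type*) [Group G] (a b c : G) (hc : a * b * a⁻¹ = c * b) (hac : a * c = c * a)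
    (k : ℕ) : a ^ k * b * (a ^ k)⁻¹ = c ^ k * b := by
  induction k with
  | zero => simp
  | succ k ih =>
    have h1 : a ^ (k + 1) * b * (a ^ (k + 1))⁻¹ = a * (a ^ k * b * (a ^ k)⁻¹) * a⁻¹ := by
      rw [pow_succ']; group
    have h2 : a * c ^ k = c ^ k * a := (Commute.pow_right (show Commute a c from hac) k)
    rw [h1, ih, ← mul_assoc, h2, mul_assoc, mul_assoc, ← mul_assoc a, hc, pow_succ]
    group

/-- If `a` commutes with the commutator of `a` and `b`, and `b` is near the identity, then `a` and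
`b` commute. -/
theorem commutator_eq_one (a b c : E ≃ₗᵢ[ℝ] E) (hc : a * b * a⁻¹ = c * b) (hac : a * c = c * a)
    {δ : ℝ} (hδ : δ < 1) (hb : Near δ b) : c = 1 := by
  have hk := conj_pow _ a b c hc hac
  have h1 : ∀ (k : ℕ) (x : E), ‖(c ^ k * b) x - x‖ ≤ δ * ‖x‖ := by
    intro k x
    rw [← hk k]
    have h2 : (a ^ k * b * (a ^ k)⁻¹) x = (a ^ k) (b ((a ^ k)⁻¹ x)) := rfl
    have h3 : x = (a ^ k) ((a ^ k)⁻¹ x) := ((a ^ k).apply_symm_apply x).symm
    rw [h2]
    conv_lhs => rw [h3]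
    have h4 : (a ^ k)⁻¹ ((a ^ k) ((a ^ k)⁻¹ x)) = (a ^ k)⁻¹ x := by rw [← h3]
    rw [h4, ← map_sub, LinearIsometryEquiv.norm_map]
    refine (hb _).trans_eq ?_
    rw [LinearIsometryEquiv.norm_map]
  ext z
  show c z = z
  set x : E := b⁻¹ (c z - z) with hx
  have hbx : b x = c z - z := b.apply_symm_apply _
  have hsum : ∀ N : ℕ, ∑ k ∈ Finset.range N, (c ^ k * b) x = (c ^ N) z - z := by
    intro N
    have h2 : ∀ k, (c ^ k * b) x = (c ^ (k + 1)) z - (c ^ k) z := by
      intro k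
      show (c ^ k) (b x) = _
      rw [hbx, map_sub]
      rfl
    rw [Finset.sum_congr rfl fun k _ => h2 k, Finset.sum_range_sub (fun k => (c ^ k) z) N]
    rfl
  have hbound : ∀ N : ℕ, (N : ℝ) * ((1 - δ) * ‖x‖) ≤ 2 * ‖z‖ := by
    intro N
    have h2 : ‖(N : ℝ) • x‖ ≤ ‖(c ^ N) z - z‖ + N * (δ * ‖x‖) := by
      have h3 : (N : ℝ) • x = ((c ^ N) z - z) - ∑ k ∈ Finset.range N, ((c ^ k * b) x - x) := by
        rw [Finset.sum_sub_distrib, hsum, Finset.sum_const, Finset.card_range,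
          Nat.cast_smul_eq_nsmul]
        abel
      rw [h3]
      refine (norm_sub_le _ _).trans ?_
      gcongr
      refine (norm_sum_le _ _).trans ?_
      refine (Finset.sum_le_sum fun k _ => h1 k x).trans ?_
      simp
    have h4 : ‖(c ^ N) z - z‖ ≤ 2 * ‖z‖ := by
      refine (norm_sub_le _ _).trans ?_
      rw [LinearIsometryEquiv.norm_map]
      linarith
    rw [norm_smul, Real.norm_natCast] at h2
    nlinarith
  have hx0 : ‖x‖ = 0 := by
    by_contra hne
    have hpos : 0 < (1 - δ) * ‖x‖ := mul_pos (by linarith) (lt_of_le_of_ne (norm_nonneg _) (Ne.symm hne))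
    obtain ⟨N, hN⟩ := exists_nat_gt (2 * ‖z‖ / ((1 - δ) * ‖x‖))
    have := hbound N
    rw [div_lt_iff₀ hpos] at hN
    linarith
  have h5 : b x = 0 := by rw [norm_eq_zero.1 hx0, map_zero]
  rw [hbx] at h5
  exact sub_eq_zero.1 h5

/-- The rotational part of an isometry. -/
noncomputable def rot : (E ≃ᵢ E) →* (E ≃ₗᵢ[ℝ] E) where
  toFun g := g.toRealLinearIsometryEquiv
  map_one' := by
    ext x
    rw [IsometryEquiv.toRealLinearIsometryEquiv_apply]
    show x - 0 = x
    rw [sub_zero]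
  map_mul' g h := by
    ext x
    have h1 : ∀ y z, g y - g z = g.toRealLinearIsometryEquiv (y - z) := by
      intro y z
      rw [map_sub]
      simp
    rw [IsometryEquiv.toRealLinearIsometryEquiv_apply, IsometryEquiv.mul_apply,
      IsometryEquiv.mul_apply, h1, ← IsometryEquiv.toRealLinearIsometryEquiv_apply h]
    rfl

theorem rot_apply (g : E ≃ᵢ E) (x : E) : rot g x = g x - g 0 :=
  IsometryEquiv.toRealLinearIsometryEquiv_apply g x

theorem apply_eq (g : E ≃ᵢ E) (x : E) : g x = rot g x + g 0 := by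
  rw [rot_apply]; abel

theorem rot_sub (g : E ≃ᵢ E) (x y : E) : g x - g y = rot g (x - y) := by
  rw [map_sub, rot_apply, rot_apply]; abel

theorem eq_one_of (g : E ≃ᵢ E) (h1 : rot g = 1) (h0 : g 0 = 0) : g = 1 := by
  ext x
  rw [apply_eq, h1, h0]
  simp

end Pool.Agent.Lib.MP_271836_gt.Flat
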