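import Pool.Agent.Lib.MP_271836_gt.Bieb1

/-!
# Iterated commutators in discrete groups of isometries
-/

namespace Pool.Agent.Lib.MP_271836_gt.Flat

open Topology Set

variable {E : Type*} [NormedAddCommGroup E] [InnerProductSpace ℝ E]

/-- Discreteness of a group of isometries. -/
def Disc (Γ : Subgroup (E ≃ᵢ E)) : Prop := ∀ r : ℝ, {g : E ≃ᵢ E | g ∈ Γ ∧ ‖g 0‖ ≤ r}.Finite

/-- Cocompactness of a group of isometries. -/
def Coc (Γ : Subgroup (E ≃ᵢ E)) : Prop := ∃ D : ℝ, ∀ x : E, ∃ g ∈ Γ, ‖g 0 - x‖ ≤ D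

theorem Near.mono {δ δ' : ℝ} {a : E ≃ₗᵢ[ℝ] E} (h : Near δ a) (hδ : δ ≤ δ') : Near δ' a :=
  fun x => (h x).trans (by gcongr)

/-- Elements of a discrete group which are close to the identity are trivial. -/
theorem Disc.near_zero {Γ : Subgroup (E ≃ᵢ E)} (hΓ : Disc Γ) :
    ∃ η > 0, ∀ g ∈ Γ, Near η (rot g) → ‖g 0‖ ≤ η → g = 1 := by
  have hfin : {g : E ≃ᵢ E | (g ∈ Γ ∧ ‖g 0‖ ≤ 1) ∧ g ≠ 1}.Finite :=
    (hΓ 1).subset fun g hg => hg.1
  have key : ∀ g ∈ {g : E ≃ᵢ E | (g ∈ Γ ∧ ‖g 0‖ ≤ 1) ∧ g ≠ 1},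
      ∀ᶠ η in 𝓝[>] (0 : ℝ), ¬ (Near η (rot g) ∧ ‖g 0‖ ≤ η) := by
    rintro g ⟨-, hg⟩
    by_cases h0 : g 0 = 0
    · have h1 : rot g ≠ 1 := fun h => hg (eq_one_of g h h0)
      obtain ⟨x, hx⟩ : ∃ x, rot g x ≠ x := by
        by_contra hcon
        push Not at hcon
        exact h1 (LinearIsometryEquiv.ext hcon)
      have hpos : 0 < ‖rot g x - x‖ := norm_pos_iff.2 (sub_ne_zero.2 hx)
      have h2 : 0 < ‖rot g x - x‖ / (‖x‖ + 1) := div_pos hpos (by positivity)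
      filter_upwards [Ioo_mem_nhdsGT h2] with η hη hcon
      have h3 := hcon.1 x
      have h4 := (lt_div_iff₀ (by positivity : 0 < ‖x‖ + 1)).1 hη.2
      nlinarith [norm_nonneg x, hη.1]
    · have h2 : 0 < ‖g 0‖ := norm_pos_iff.2 h0
      filter_upwards [Ioo_mem_nhdsGT h2] with η hη hcon
      exact absurd hcon.2 (not_le.2 hη.2)
  have h3 := ((Filter.eventually_all_finite hfin).2 key).and (Ioo_mem_nhdsGT one_pos)
  obtain ⟨η, hη, hη1⟩ := h3.exists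
  refine ⟨η, hη1.1, fun g hg hn h0 => ?_⟩
  by_contra hne
  exact hη g ⟨⟨hg, h0.trans hη1.2.le⟩, hne⟩ ⟨hn, h0⟩

theorem near_commutator {a b : E ≃ₗᵢ[ℝ] E} {ε r : ℝ} (ha : Near ε a) (hb : Near r b) :
    Near (2 * ε * r) (a * b * a⁻¹ * b⁻¹) := by
  intro x
  set y : E := a⁻¹ (b⁻¹ x) with hy
  have hay : a y = b⁻¹ x := a.apply_symm_apply _
  have hbay : b (a y) = x := by rw [hay]; exact b.apply_symm_apply _
  have hn : ‖y‖ = ‖x‖ := by
    have h0 := congrArg norm hbay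
    rwa [LinearIsometryEquiv.norm_map, LinearIsometryEquiv.norm_map] at h0
  have h1 : (a * b * a⁻¹ * b⁻¹) x - x = (a (b y - y) - (b y - y)) - (b (a y - y) - (a y - y)) := by
    show a (b y) - x = _
    rw [map_sub, map_sub, hbay]
    abel
  rw [h1]
  refine (norm_sub_le _ _).trans ?_
  have h2 : ‖a (b y - y) - (b y - y)‖ ≤ |ε| * (|r| * ‖y‖) := by
    refine (ha _).trans ?_
    have := hb y
    calc ε * ‖b y - y‖ ≤ |ε| * ‖b y - y‖ := by gcongr; exact le_abs_self _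
      _ ≤ |ε| * (|r| * ‖y‖) := by
          gcongr
          exact this.trans (by gcongr; exact le_abs_self _)
  have h3 : ‖b (a y - y) - (a y - y)‖ ≤ |ε| * (|r| * ‖y‖) := by
    refine (hb _).trans ?_
    have := ha y
    calc r * ‖a y - y‖ ≤ |r| * ‖a y - y‖ := by gcongr; exact le_abs_self _
      _ ≤ |r| * (|ε| * ‖y‖) := by
          gcongr
          exact this.trans (by gcongr; exact le_abs_self _)
      _ = |ε| * (|r| * ‖y‖) := by ring
  rcases eq_or_ne ‖x‖ 0 with hx | hx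
  · rw [hn, hx] at h2 h3
    rw [hx]
    simpa using add_le_add h2 h3
  · have hpos : 0 < ‖x‖ := lt_of_le_of_ne (norm_nonneg _) (Ne.symm hx)
    have e1 : 0 ≤ ε := by
      by_contra hcon
      have := (norm_nonneg _).trans (ha x)
      nlinarith
    have e2 : 0 ≤ r := by
      by_contra hcon
      have := (norm_nonneg _).trans (hb x)
      nlinarith
    rw [abs_of_nonneg e1, abs_of_nonneg e2, hn] at h2 h3
    linarith

theorem norm_inv_zero (g : E ≃ᵢ E) : ‖g⁻¹ 0‖ = ‖g 0‖ := by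
  have h1 : g (g⁻¹ 0) = 0 := g.apply_symm_apply 0
  rw [apply_eq] at h1
  have h2 : rot g (g⁻¹ 0) = -(g 0) := eq_neg_of_add_eq_zero_left h1
  rw [← (rot g).norm_map, h2, norm_neg]

theorem norm_commutator {α γ : E ≃ᵢ E} {ε r : ℝ} (ha : Near ε (rot α)) (hb : Near r (rot γ))
    (hr : 0 ≤ r) :
    ‖(α * γ * α⁻¹ * γ⁻¹) 0‖ ≤ r * (ε * ‖γ 0‖ + ‖α 0‖) + ε * ‖γ 0‖ := by
  set y : E := γ⁻¹ 0 with hy
  have hγy : γ y = 0 := γ.apply_symm_apply 0
  set w : E := α⁻¹ y with hw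
  have hαw : α w = y := α.apply_symm_apply y
  have hny : ‖y‖ = ‖γ 0‖ := norm_inv_zero γ
  set u : E := w - y with hu
  have h1 : (α * γ * α⁻¹ * γ⁻¹) 0 = α (γ w) := rfl
  have h2 : γ w = rot γ u := by rw [hu, ← rot_sub, hγy, sub_zero]
  have h3 : α (γ w) = rot α (γ w - w) + y := by rw [← rot_sub, hαw]; abel
  have h4 : α (γ w) = rot α (rot γ u - u) - (rot α y - y) := by
    rw [h3, h2]
    have : rot γ u - w = (rot γ u - u) - y := by rw [hu]; abel
    rw [this, map_sub (rot α)]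
    abel
  have h5 : rot α u = -(rot α y - y) - α 0 := by
    have h6 : y = rot α w + α 0 := by rw [← apply_eq, hαw]
    have h7 : rot α w = y - α 0 := by rw [eq_sub_iff_add_eq, ← h6]
    rw [hu, map_sub, h7]
    abel
  have h6 : ‖u‖ ≤ ε * ‖y‖ + ‖α 0‖ := by
    rw [← (rot α).norm_map u, h5]
    refine (norm_sub_le _ _).trans ?_
    rw [norm_neg]
    gcongr
    exact ha y
  rw [h1, h4]
  refine (norm_sub_le _ _).trans ?_
  rw [LinearIsometryEquiv.norm_map, ← hny]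
  have h7 := hb u
  have h8 := ha y
  have h9 : r * ‖u‖ ≤ r * (ε * ‖y‖ + ‖α 0‖) := by gcongr
  linarith

/-- The iterated commutators. -/
def itc (α β : E ≃ᵢ E) : ℕ → (E ≃ᵢ E)
  | 0 => β
  | k + 1 => α * itc α β k * α⁻¹ * (itc α β k)⁻¹

omit [InnerProductSpace ℝ E] in
theorem itc_mem {Γ : Subgroup (E ≃ᵢ E)} {α β : E ≃ᵢ E} (hα : α ∈ Γ) (hβ : β ∈ Γ) (k : ℕ) :
    itc α β k ∈ Γ := by
  induction k with
  | zero => exact hβ
  | succ k ih => exact mul_mem (mul_mem (mul_mem hα ih) (inv_mem hα)) (inv_mem ih)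

theorem itc_near {α β : E ≃ᵢ E} {δ : ℝ} (hα : Near (1 / 4) (rot α)) (hβ : Near δ (rot β)) (k : ℕ) :
    Near (δ / 2 ^ k) (rot (itc α β k)) := by
  induction k with
  | zero => simpa [itc] using hβ
  | succ k ih =>
    have h1 := near_commutator hα ih
    have h2 : rot (itc α β (k + 1)) = rot α * rot (itc α β k) * (rot α)⁻¹ * (rot (itc α β k))⁻¹ := by
      show rot (α * itc α β k * α⁻¹ * (itc α β k)⁻¹) = _
      simp only [map_mul, map_inv]
    rw [h2]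
    refine h1.mono (le_of_eq ?_)
    rw [pow_succ]
    ring

theorem itc_zero_bound {α β : E ≃ᵢ E} {δ : ℝ} (hα : Near (1 / 4) (rot α)) (hβ : Near δ (rot β))
    (hδ0 : 0 ≤ δ) (hδ : δ ≤ 1) (k : ℕ) :
    ‖itc α β k 0‖ + 4 * (δ / 2 ^ k) * ‖α 0‖ ≤ (3 / 4) ^ k * (‖β 0‖ + 4 * δ * ‖α 0‖) := by
  induction k with
  | zero => simp [itc]
  | succ k ih =>
    have hr : 0 ≤ δ / 2 ^ k := by positivity
    have hr1 : δ / 2 ^ k ≤ 1 := by
      rw [div_le_one (by positivity)]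
      exact hδ.trans (one_le_pow₀ one_le_two)
    have h1 := norm_commutator hα (itc_near hα hβ k) hr
    have h2 : ‖itc α β (k + 1) 0‖ ≤ δ / 2 ^ k * (1 / 4 * ‖itc α β k 0‖ + ‖α 0‖)
        + 1 / 4 * ‖itc α β k 0‖ := h1
    have h3 : δ / 2 ^ (k + 1) = (δ / 2 ^ k) / 2 := by rw [pow_succ]; field_simp
    rw [h3, pow_succ]
    set r := δ / 2 ^ k
    have h4 : r * (1 / 4 * ‖itc α β k 0‖) ≤ 1 * (1 / 4 * ‖itc α β k 0‖) := by gcongr
    have h5 := mul_le_mul_of_nonneg_left ih (by norm_num : (0 : ℝ) ≤ 3 / 4)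
    have h6 : 0 ≤ r * ‖α 0‖ := by positivity
    nlinarith [norm_nonneg (itc α β k 0), norm_nonneg (α 0)]

/-- In a discrete group the iterated commutators are eventually trivial. -/
theorem exists_itc_eq_one {Γ : Subgroup (E ≃ᵢ E)} (hΓ : Disc Γ) {α β : E ≃ᵢ E} (hαΓ : α ∈ Γ)
    (hβΓ : β ∈ Γ) {δ : ℝ} (hα : Near (1 / 4) (rot α)) (hβ : Near δ (rot β))
    (hδ0 : 0 ≤ δ) (hδ : δ ≤ 1) : ∃ k, itc α β k = 1 := by
  obtain ⟨η, hη, h⟩ := hΓ.near_zero
  have h1 : Filter.Tendsto (fun k : ℕ => (3 / 4 : ℝ) ^ k * (‖β 0‖ + 4 * δ * ‖α 0‖))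
      Filter.atTop (𝓝 (0 * (‖β 0‖ + 4 * δ * ‖α 0‖))) :=
    (tendsto_pow_atTop_nhds_zero_of_lt_one (by norm_num) (by norm_num)).mul_const _
  have h2 : Filter.Tendsto (fun k : ℕ => δ / 2 ^ k) Filter.atTop (𝓝 (δ * 0)) := by
    have h3 : (fun k : ℕ => δ / 2 ^ k) = fun k : ℕ => δ * (1 / 2) ^ k := by
      funext k
      rw [one_div, inv_pow]
      rfl
    rw [h3]
    exact (tendsto_pow_atTop_nhds_zero_of_lt_one (by norm_num) (by norm_num)).const_mul _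
  rw [zero_mul] at h1
  rw [mul_zero] at h2
  obtain ⟨k, hk1, hk2⟩ := ((h1.eventually (gt_mem_nhds hη)).and
    (h2.eventually (gt_mem_nhds hη))).exists
  refine ⟨k, h _ (itc_mem hαΓ hβΓ k) ((itc_near hα hβ k).mono hk2.le) ?_⟩
  have h3 := itc_zero_bound hα hβ hδ0 hδ k
  have h4 : 0 ≤ 4 * (δ / 2 ^ k) * ‖α 0‖ := by positivity
  linarith

/-- Elements of a discrete group with small rotational parts have commuting rotational parts. -/
theorem rot_comm {Γ : Subgroup (E ≃ᵢ E)} (hΓ : Disc Γ) {α β : E ≃ᵢ E} (hαΓ : α ∈ Γ)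
    (hβΓ : β ∈ Γ) {δ : ℝ} (hα : Near (1 / 4) (rot α)) (hβ : Near δ (rot β))
    (hδ0 : 0 ≤ δ) (hδ : δ < 1) : rot α * rot β = rot β * rot α := by
  classical
  have hex : ∃ k, rot (itc α β k) = 1 := by
    obtain ⟨k, hk⟩ := exists_itc_eq_one hΓ hαΓ hβΓ hα hβ hδ0 hδ.le
    exact ⟨k, by rw [hk, map_one]⟩
  have hstep : ∀ k, rot (itc α β (k + 1)) =
      rot α * rot (itc α β k) * (rot α)⁻¹ * (rot (itc α β k))⁻¹ := by
    intro k
    show rot (α * itc α β k * α⁻¹ * (itc α β k)⁻¹) = _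
    simp only [map_mul, map_inv]
  have hcomm : ∀ k, rot (itc α β (k + 1)) = 1 →
      rot α * rot (itc α β k) = rot (itc α β k) * rot α := by
    intro k hk
    rw [hstep k] at hk
    rw [mul_inv_eq_one, mul_inv_eq_iff_eq_mul] at hk
    exact hk
  obtain ⟨k, hk⟩ : ∃ k, Nat.find hex = k := ⟨_, rfl⟩
  have hspec := Nat.find_spec hex
  rw [hk] at hspec
  rcases k with _ | _ | k
  · have h1 : rot β = 1 := hspec
    rw [h1, mul_one, one_mul]
  · exact hcomm 0 hspec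
  · exfalso
    have hlt : k + 1 < Nat.find hex := by omega
    apply Nat.find_min hex hlt
    have hr1 : δ / 2 ^ k < 1 := by
      rw [div_lt_one (by positivity)]
      exact hδ.trans_le (one_le_pow₀ one_le_two)
    refine commutator_eq_one (rot α) (rot (itc α β k)) (rot (itc α β (k + 1))) ?_
      (hcomm (k + 1) hspec) hr1 (itc_near hα hβ k)
    rw [hstep k]
    group

end Pool.Agent.Lib.MP_271836_gt.Flat
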