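import Pool.Agent.Lib.MP_271836_gt.Bieb2

/-!
# Small rotational parts in discrete cocompact groups are trivial
-/

namespace Pool.Agent.Lib.MP_271836_gt.Flat

open Topology Set
open scoped RealInnerProductSpace

variable {E : Type*} [NormedAddCommGroup E] [InnerProductSpace ℝ E]

theorem eq_zero_of_iter (a : E ≃ₗᵢ[ℝ] E) (k : ℕ) (x : E)
    (h : (fun y => a y - y)^[k + 1] x = 0) : a x - x = 0 := by
  induction k generalizing x with
  | zero => exact h
  | succ k ih =>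
    rw [Function.iterate_succ_apply] at h
    have h1 : a (a x - x) - (a x - x) = 0 := ih (a x - x) h
    set w : E := a x - x with hw
    have h2 : a w = w := sub_eq_zero.1 h1
    have h3 : ⟪w, w⟫ = 0 := by
      have h4 : ⟪a x, w⟫ = ⟪x, w⟫ := by
        conv_lhs => rw [← h2]
        exact a.inner_map_map x w
      have h5 : ⟪w, w⟫ = ⟪a x, w⟫ - ⟪x, w⟫ := by
        conv_lhs => rw [hw, inner_sub_left]
      rw [h5, h4, sub_self]
    exact inner_self_eq_zero.1 h3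

/-- If `α, β` have commuting rotational parts, then the commutator is the translation by this
vector. -/
theorem commutator_translation {α β : E ≃ᵢ E} (hc : rot α * rot β = rot β * rot α) :
    rot (α * β * α⁻¹ * β⁻¹) = 1 ∧
      (α * β * α⁻¹ * β⁻¹) 0 = (rot α (β 0) - β 0) - (rot β (α 0) - α 0) := by
  have h1 : rot (α * β * α⁻¹ * β⁻¹) = 1 := by
    simp only [map_mul, map_inv]
    rw [hc]
    group
  refine ⟨h1, ?_⟩
  have h2 : (α * β * α⁻¹ * β⁻¹) (β (α 0)) = α (β 0) := by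
    have : (α * β * α⁻¹ * β⁻¹) * (β * α) = α * β := by group
    exact congrArg (fun g : E ≃ᵢ E => g 0) this
  rw [apply_eq (α * β * α⁻¹ * β⁻¹) (β (α 0)), h1] at h2
  have h3 : β (α 0) + (α * β * α⁻¹ * β⁻¹) 0 = α (β 0) := h2
  rw [apply_eq β (α 0), apply_eq α (β 0)] at h3
  rw [eq_sub_of_add_eq' h3]
  abel

/-- The translation obtained from a commutator is fixed by the rotational part. -/
theorem commutator_fixed {Γ : Subgroup (E ≃ᵢ E)} (hΓ : Disc Γ) {α τ : E ≃ᵢ E} (hαΓ : α ∈ Γ)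
    (hτΓ : τ ∈ Γ) (hα : Near (1 / 4) (rot α)) (hτ : rot τ = 1) : rot α (τ 0) - τ 0 = 0 := by
  have h1 : ∀ k : ℕ, ∃ g ∈ Γ, rot g = 1 ∧ g 0 = (fun y => rot α y - y)^[k] (τ 0) := by
    intro k
    induction k with
    | zero => exact ⟨τ, hτΓ, hτ, rfl⟩
    | succ k ih =>
      obtain ⟨g, hg, hr, h0⟩ := ih
      obtain ⟨h2, h3⟩ := commutator_translation (α := α) (β := g) (by rw [hr, mul_one, one_mul])
      refine ⟨α * g * α⁻¹ * g⁻¹, mul_mem (mul_mem (mul_mem hαΓ hg) (inv_mem hαΓ)) (inv_mem hg),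
        h2, ?_⟩
      rw [h3, hr, Function.iterate_succ_apply', ← h0]
      show _ - (α 0 - α 0) = _
      rw [sub_self, sub_zero]
  have h2 : ∀ k : ℕ, ‖(fun y => rot α y - y)^[k] (τ 0)‖ ≤ (1 / 4) ^ k * ‖τ 0‖ := by
    intro k
    induction k with
    | zero => simp
    | succ k ih =>
      rw [Function.iterate_succ_apply']
      refine (hα _).trans ?_
      rw [pow_succ]
      calc (1 / 4 : ℝ) * ‖(fun y => rot α y - y)^[k] (τ 0)‖ ≤ 1 / 4 * ((1 / 4) ^ k * ‖τ 0‖) := by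
            gcongr
        _ = _ := by ring
  obtain ⟨η, hη, h⟩ := hΓ.near_zero
  have h3 : Filter.Tendsto (fun k : ℕ => (1 / 4 : ℝ) ^ k * ‖τ 0‖) Filter.atTop
      (𝓝 (0 * ‖τ 0‖)) :=
    (tendsto_pow_atTop_nhds_zero_of_lt_one (by norm_num) (by norm_num)).mul_const _
  rw [zero_mul] at h3
  obtain ⟨k, hk⟩ := (h3.eventually (gt_mem_nhds hη)).exists
  obtain ⟨g, hg, hr, h0⟩ := h1 k
  have h4 : g = 1 := by
    apply h g hg
    · rw [hr]
      intro x
      show ‖x - x‖ ≤ _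
      rw [sub_self, norm_zero]
      positivity
    · rw [h0]
      exact (h2 k).trans hk.le
  have h5 : (fun y => rot α y - y)^[k] (τ 0) = 0 := by
    rw [← h0, h4]
    rfl
  apply eq_zero_of_iter (rot α) k
  rw [Function.iterate_succ_apply', h5]
  show rot α 0 - 0 = 0
  rw [map_zero, sub_zero]

/-- Bounds for the translational parts of the elements with small rotational part. -/
theorem norm_rot_sub_le {Γ : Subgroup (E ≃ᵢ E)} (hΓ : Disc Γ) {α β : E ≃ᵢ E} (hαΓ : α ∈ Γ)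
    (hβΓ : β ∈ Γ) (hα : Near (1 / 4) (rot α)) (hβ : Near (1 / 2) (rot β)) :
    ‖rot α (β 0) - β 0‖ ≤ ‖α 0‖ := by
  have hc := rot_comm hΓ hαΓ hβΓ hα hβ (by norm_num) (by norm_num)
  obtain ⟨h1, h2⟩ := commutator_translation hc
  have h3 := commutator_fixed hΓ hαΓ
    (mul_mem (mul_mem (mul_mem hαΓ hβΓ) (inv_mem hαΓ)) (inv_mem hβΓ)) hα h1
  rw [h2] at h3
  set w : E := rot α (β 0) - β 0 with hw
  set s : E := rot β (α 0) - α 0 with hs
  have h4 : rot α (w - s) = w - s := sub_eq_zero.1 h3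
  have h5 : ⟪w, w - s⟫ = 0 := by
    have h6 : ⟪rot α (β 0), w - s⟫ = ⟪β 0, w - s⟫ := by
      conv_lhs => rw [← h4]
      exact (rot α).inner_map_map _ _
    rw [show ⟪w, w - s⟫ = ⟪rot α (β 0), w - s⟫ - ⟪β 0, w - s⟫ by rw [hw, inner_sub_left], h6,
      sub_self]
  have h6 : ‖w‖ * ‖w‖ ≤ ‖w‖ * ‖s‖ := by
    rw [inner_sub_right, real_inner_self_eq_norm_mul_norm, sub_eq_zero] at h5
    rw [h5]
    exact real_inner_le_norm w s
  have h7 : ‖s‖ ≤ ‖α 0‖ := by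
    refine (hβ (α 0)).trans ?_
    linarith [norm_nonneg (α 0)]
  rcases eq_or_ne ‖w‖ 0 with h | h
  · rw [h]; exact norm_nonneg _
  · exact (le_of_mul_le_mul_left h6 (lt_of_le_of_ne (norm_nonneg _) (Ne.symm h))).trans h7

/-- Among infinitely many rotations two are close to each other. -/
theorem exists_near [FiniteDimensional ℝ E] (u : ℕ → (E ≃ₗᵢ[ℝ] E)) {δ : ℝ} (hδ : 0 < δ) :
    ∃ i j, i < j ∧ Near δ (u j * (u i)⁻¹) := by
  haveI : ProperSpace (E →L[ℝ] E) := FiniteDimensional.proper ℝ _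
  let U : ℕ → (E →L[ℝ] E) := fun k => ((u k).toContinuousLinearEquiv : E →L[ℝ] E)
  have hU : ∀ k, U k ∈ Metric.closedBall (0 : E →L[ℝ] E) 1 := by
    intro k
    rw [mem_closedBall_zero_iff]
    refine ContinuousLinearMap.opNorm_le_bound _ zero_le_one fun x => ?_
    rw [one_mul]
    exact ((u k).norm_map x).le
  obtain ⟨a, -, φ, hφ, ha⟩ := tendsto_subseq_of_bounded Metric.isBounded_closedBall hU
  obtain ⟨N, hN⟩ := Metric.cauchySeq_iff.1 ha.cauchySeq δ hδ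
  refine ⟨φ N, φ (N + 1), hφ (Nat.lt_succ_self N), fun x => ?_⟩
  have h1 := hN (N + 1) (Nat.le_succ N) N le_rfl
  rw [dist_eq_norm] at h1
  have h2 : (u (φ (N + 1)) * (u (φ N))⁻¹) x - x =
      (U (φ (N + 1)) - U (φ N)) ((u (φ N))⁻¹ x) := by
    have h3 : U (φ N) ((u (φ N))⁻¹ x) = x := (u (φ N)).apply_symm_apply x
    rw [ContinuousLinearMap.sub_apply, h3]
    rfl
  rw [h2]
  refine (ContinuousLinearMap.le_opNorm _ _).trans ?_
  rw [LinearIsometryEquiv.norm_map]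
  exact mul_le_mul_of_nonneg_right h1.le (norm_nonneg _)

/-- In a discrete cocompact group, small rotational parts are trivial. -/
theorem rot_eq_one_of_near [FiniteDimensional ℝ E] {Γ : Subgroup (E ≃ᵢ E)} (hΓ : Disc Γ)
    (hc : Coc Γ) {α : E ≃ᵢ E} (hαΓ : α ∈ Γ) (hα : Near (1 / 4) (rot α)) : rot α = 1 := by
  by_contra hne
  obtain ⟨z, hz⟩ : ∃ z, rot α z ≠ z := by
    by_contra hcon
    push Not at hcon
    exact hne (LinearIsometryEquiv.ext hcon)
  set u : E := (rot α)⁻¹ z - z with hu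
  have hu0 : 0 < ‖u‖ := by
    rw [norm_pos_iff]
    intro h
    apply hz
    have h1 : (rot α)⁻¹ z = z := sub_eq_zero.1 h
    conv_lhs => rw [← h1]
    exact (rot α).apply_symm_apply z
  have key : ∀ β ∈ Γ, Near (1 / 2) (rot β) → ⟪β 0, u⟫ ≤ ‖α 0‖ * ‖z‖ := by
    intro β hβΓ hβ
    have h1 : ⟪β 0, u⟫ = ⟪rot α (β 0) - β 0, z⟫ := by
      rw [hu, inner_sub_right, inner_sub_left]
      congr 1
      have h2 : z = rot α ((rot α)⁻¹ z) := ((rot α).apply_symm_apply z).symm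
      conv_rhs => rw [h2]
      exact ((rot α).inner_map_map _ _).symm
    rw [h1]
    refine (real_inner_le_norm _ _).trans ?_
    gcongr
    exact norm_rot_sub_le hΓ hαΓ hβΓ hα hβ
  obtain ⟨D, hD⟩ := hc
  obtain ⟨M, hM⟩ : ∃ M : ℝ, ‖α 0‖ * ‖z‖ + 2 * D * ‖u‖ < M * (‖u‖ * ‖u‖) := by
    refine ⟨(‖α 0‖ * ‖z‖ + 2 * D * ‖u‖ + 1) / (‖u‖ * ‖u‖), ?_⟩
    rw [div_mul_cancel₀ _ (by positivity)]
    linarith
  have hM0 : 0 ≤ M := by
    have hD0 : 0 ≤ D := by
      obtain ⟨g, -, hg⟩ := hD 0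
      exact (norm_nonneg _).trans hg
    by_contra hcon
    have h1 : 0 ≤ ‖α 0‖ * ‖z‖ + 2 * D * ‖u‖ := by positivity
    have h2 : 0 < ‖u‖ * ‖u‖ := by positivity
    nlinarith
  choose β hβΓ hβ using fun k : ℕ => hD (((k : ℝ) * M) • u)
  obtain ⟨i, j, hij, hn⟩ := exists_near (fun k => rot (β k)) (by norm_num : (0 : ℝ) < 1 / 2)
  have h1 := key (β j * (β i)⁻¹) (mul_mem (hβΓ j) (inv_mem (hβΓ i))) (by
    rw [map_mul, map_inv]
    exact hn)
  have h2 : (β j * (β i)⁻¹) 0 = β j 0 - rot (β j * (β i)⁻¹) (β i 0) := by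
    have h3 : β j 0 = (β j * (β i)⁻¹) (β i 0) := by
      show β j 0 = β j ((β i)⁻¹ (β i 0))
      rw [IsometryEquiv.inv_apply_self]
    rw [h3, apply_eq (β j * (β i)⁻¹) (β i 0)]
    abel
  rw [h2, inner_sub_left] at h1
  have h4 : (j : ℝ) * M * (‖u‖ * ‖u‖) - D * ‖u‖ ≤ ⟪β j 0, u⟫ := by
    have h5 : ⟪β j 0, u⟫ = ⟪β j 0 - ((j : ℝ) * M) • u, u⟫ + (j : ℝ) * M * (‖u‖ * ‖u‖) := by
      rw [inner_sub_left, inner_smul_left, real_inner_self_eq_norm_mul_norm]
      simp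
    have h6 : |⟪β j 0 - ((j : ℝ) * M) • u, u⟫| ≤ D * ‖u‖ :=
      (abs_real_inner_le_norm _ _).trans (by gcongr; exact hβ j)
    rw [h5]
    have := (abs_le.1 h6).1
    linarith
  have h5 : ⟪rot (β j * (β i)⁻¹) (β i 0), u⟫ ≤ ((i : ℝ) * M * ‖u‖ + D) * ‖u‖ := by
    refine (real_inner_le_norm _ _).trans ?_
    rw [LinearIsometryEquiv.norm_map]
    gcongr
    have h6 : β i 0 = ((i : ℝ) * M) • u + (β i 0 - ((i : ℝ) * M) • u) := by abel
    rw [h6]
    refine (norm_add_le _ _).trans ?_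
    rw [norm_smul, Real.norm_eq_abs, abs_of_nonneg (by positivity)]
    gcongr
    exact hβ i
  have h6 : (i : ℝ) + 1 ≤ j := by exact_mod_cast hij
  have h7 : ((i : ℝ) + 1) * (M * (‖u‖ * ‖u‖)) ≤ j * (M * (‖u‖ * ‖u‖)) := by
    apply mul_le_mul_of_nonneg_right h6
    positivity
  nlinarith

end Pool.Agent.Lib.MP_271836_gt.Flat
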