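import Pool.Agent.Lib.MP_271836_gt.Bieb3

/-!
# The translation lattice and linearization of equivariant maps
-/

namespace Pool.Agent.Lib.MP_271836_gt.Flat

open Topology Set
open scoped RealInnerProductSpace

variable {E : Type*} [NormedAddCommGroup E] [InnerProductSpace ℝ E] [FiniteDimensional ℝ E]

/-- Bieberbach's first theorem, first half: the rotational parts form a finite set. -/
theorem finite_rot {Γ : Subgroup (E ≃ᵢ E)} (hΓ : Disc Γ) (hc : Coc Γ) :
    (rot '' (Γ : Set (E ≃ᵢ E))).Finite := by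
  by_contra hinf
  rw [← Set.Infinite] at hinf
  let u := hinf.natEmbedding
  obtain ⟨i, j, hij, hn⟩ := exists_near (fun k => (u k : E ≃ₗᵢ[ℝ] E))
    (by norm_num : (0 : ℝ) < 1 / 4)
  obtain ⟨gi, hgi, hi⟩ := (u i).2
  obtain ⟨gj, hgj, hj⟩ := (u j).2
  have h1 : rot (gj * gi⁻¹) = 1 := by
    refine rot_eq_one_of_near hΓ hc (mul_mem hgj (inv_mem hgi)) ?_
    rw [map_mul, map_inv, hi, hj]
    exact hn
  rw [map_mul, map_inv, hi, hj, mul_inv_eq_one] at h1
  exact absurd (u.injective (Subtype.ext h1)) hij.ne'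

/-- Bieberbach's first theorem, second half: the translations in the group span. -/
theorem span_translations {Γ : Subgroup (E ≃ᵢ E)} (hΓ : Disc Γ) (hc : Coc Γ) :
    Submodule.span ℝ {v : E | ∃ g ∈ Γ, rot g = 1 ∧ g 0 = v} = ⊤ := by
  classical
  rw [← Submodule.orthogonal_eq_bot_iff, Submodule.eq_bot_iff]
  intro u hu
  by_contra hne
  have hu0 : 0 < ‖u‖ := norm_pos_iff.2 hne
  have horth : ∀ g ∈ Γ, rot g = 1 → ⟪g 0, u⟫ = 0 := fun g hg hr =>
    (Submodule.mem_orthogonal _ _).1 hu _ (Submodule.subset_span ⟨g, hg, hr, rfl⟩)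
  have hfin := finite_rot hΓ hc
  -- representatives
  have hrep : ∀ a ∈ rot '' (Γ : Set (E ≃ᵢ E)), ∃ g ∈ Γ, rot g = a := fun a ha => ha
  choose! s hsΓ hs using hrep
  obtain ⟨K, hK⟩ := (hfin.image fun a => ⟪s a 0, u⟫).bddAbove
  obtain ⟨D, hD⟩ := hc
  obtain ⟨M, hM⟩ : ∃ M : ℝ, K + D * ‖u‖ < M * (‖u‖ * ‖u‖) := by
    refine ⟨(K + D * ‖u‖ + 1) / (‖u‖ * ‖u‖), ?_⟩
    rw [div_mul_cancel₀ _ (by positivity)]
    linarith
  obtain ⟨g, hg, hgM⟩ := hD (M • u)
  have hra : rot g ∈ rot '' (Γ : Set (E ≃ᵢ E)) := ⟨g, hg, rfl⟩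
  set f := s (rot g) with hf
  have hfΓ : f ∈ Γ := hsΓ _ hra
  have hfr : rot f = rot g := hs _ hra
  have h1 : rot (g * f⁻¹) = 1 := by rw [map_mul, map_inv, hfr, mul_inv_cancel]
  have h2 : g 0 = f 0 + (g * f⁻¹) 0 := by
    have h3 : g 0 = (g * f⁻¹) (f 0) := by
      show g 0 = g (f⁻¹ (f 0))
      rw [IsometryEquiv.inv_apply_self]
    rw [h3, apply_eq (g * f⁻¹) (f 0), h1]
    rfl
  have h3 : ⟪g 0, u⟫ ≤ K := by
    rw [h2, inner_add_left, horth _ (mul_mem hg (inv_mem hfΓ)) h1, add_zero]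
    exact hK ⟨rot g, hra, rfl⟩
  have h5 : ⟪g 0, u⟫ = ⟪g 0 - M • u, u⟫ + M * (‖u‖ * ‖u‖) := by
    rw [inner_sub_left, inner_smul_left, real_inner_self_eq_norm_mul_norm]
    simp
  have h6 : |⟪g 0 - M • u, u⟫| ≤ D * ‖u‖ :=
    (abs_real_inner_le_norm _ _).trans (by gcongr)
  have := (abs_le.1 h6).1
  linarith

omit [FiniteDimensional ℝ E] in
/-- A bounded linear map vanishes. -/
theorem linear_eq_zero_of_bounded (T : E →ₗ[ℝ] E) (K : ℝ) (h : ∀ x, ‖T x‖ ≤ K) : T = 0 := by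
  ext x
  show T x = 0
  by_contra hne
  have hpos : 0 < ‖T x‖ := norm_pos_iff.2 hne
  obtain ⟨N, hN⟩ := exists_nat_gt (K / ‖T x‖)
  rw [div_lt_iff₀ hpos] at hN
  have h1 := h ((N : ℝ) • x)
  rw [map_smul, norm_smul, Real.norm_natCast] at h1
  linarith

/-- Equivariance of a map between two groups of isometries. -/
def Equivar (Γ Γ' : Subgroup (E ≃ᵢ E)) (f : E → E) : Prop :=
  ∀ γ ∈ Γ, ∃ γ' ∈ Γ', ∀ x, f (γ x) = γ' (f x)

/-- An equivariant map is at bounded distance from a linear map. -/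
theorem exists_linear {Γ Γ' : Subgroup (E ≃ᵢ E)} (hΓ : Disc Γ) (hc : Coc Γ) (hΓ' : Disc Γ')
    (hc' : Coc Γ') {f : E → E} (hf : Continuous f) (he : Equivar Γ Γ' f) :
    ∃ (M : E →ₗ[ℝ] E) (C : ℝ), ∀ x, ‖f x - M x‖ ≤ C := by
  classical
  set L : Set E := {v | ∃ w, ∀ x, f (x + v) = f x + w} with hL
  have hspan : Submodule.span ℝ L = ⊤ := by
    rw [eq_top_iff, ← span_translations hΓ hc, Submodule.span_le]
    rintro v ⟨g, hg, hr, rfl⟩
    obtain ⟨γ', hγ', hfγ⟩ := he g hg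
    -- a power of `γ'` is a translation
    obtain ⟨N, hN, hNr⟩ : ∃ N : ℕ, 0 < N ∧ (rot γ') ^ N = 1 := by
      have hfin : Finite (rot '' (Γ' : Set (E ≃ᵢ E))) := finite_rot hΓ' hc'
      obtain ⟨i, j, hne, hij⟩ := Finite.exists_ne_map_eq_of_infinite
        (fun k : ℕ => (⟨(rot γ') ^ k, γ' ^ k, pow_mem hγ' k, map_pow _ _ _⟩ :
          rot '' (Γ' : Set (E ≃ᵢ E))))
      have hij' : (rot γ') ^ i = (rot γ') ^ j := congrArg Subtype.val hij
      rcases lt_or_gt_of_ne hne with h | h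
      · exact ⟨j - i, by omega, by rw [pow_sub _ h.le, ← hij', mul_inv_cancel]⟩
      · exact ⟨i - j, by omega, by rw [pow_sub _ h.le, ← hij', mul_inv_cancel]⟩
    have h1 : ∀ (k : ℕ) x, f (x + (k : ℝ) • g 0) = (γ' ^ k) (f x) := by
      intro k
      induction k with
      | zero => intro x; simp
      | succ k ih =>
        intro x
        have h2 : x + ((k + 1 : ℕ) : ℝ) • g 0 = g (x + (k : ℝ) • g 0) := by
          rw [apply_eq g (x + (k : ℝ) • g 0), hr]
          show _ = x + (k : ℝ) • g 0 + g 0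
          push_cast
          rw [add_smul, one_smul, add_assoc]
        rw [h2, hfγ, ih, pow_succ']
        rfl
    have h2 : (N : ℝ) • g 0 ∈ L := by
      refine ⟨(γ' ^ N) 0, fun x => ?_⟩
      rw [h1 N x, apply_eq (γ' ^ N) (f x), map_pow, hNr]
      rfl
    have h3 : g 0 = (N : ℝ)⁻¹ • ((N : ℝ) • g 0) := by
      rw [smul_smul, inv_mul_cancel₀ (by positivity), one_smul]
    rw [h3]
    exact Submodule.smul_mem _ _ (Submodule.subset_span h2)
  obtain ⟨s, hs, hsspan, hli⟩ := exists_linearIndependent ℝ L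
  let b : Module.Basis s ℝ E := Module.Basis.mk hli (by
    rw [Subtype.range_coe, hsspan, hspan])
  have hb : ∀ i, b i = i := fun i => Module.Basis.mk_apply hli _ i
  haveI : Fintype s := FiniteDimensional.fintypeBasisIndex b
  choose w hw using fun i : s => hs i.2
  let M : E →ₗ[ℝ] E := b.constr ℝ w
  have hM : ∀ i, M (b i) = w i := fun i => b.constr_basis ℝ w i
  have hper : ∀ v ∈ Submodule.span ℤ (range b), Function.Periodic (fun x => f x - M x) v := by
    intro v hv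
    induction hv using Submodule.span_induction with
    | mem v hv =>
      obtain ⟨i, rfl⟩ := hv
      intro x
      show f (x + b i) - M (x + b i) = f x - M x
      rw [map_add, hM, hb i, hw i x]
      abel
    | zero => exact Function.periodic_with_period_zero _
    | add v v' _ _ h h' => exact h.add_period h'
    | smul n v _ h => exact h.zsmul n
  have hcont : Continuous fun x => f x - M x :=
    hf.sub (LinearMap.continuous_of_finiteDimensional M)
  haveI : ProperSpace E := FiniteDimensional.proper ℝ E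
  obtain ⟨C, hC⟩ := (isCompact_closedBall (0 : E) (∑ i, ‖b i‖)).exists_bound_of_continuousOn
    hcont.continuousOn
  refine ⟨M, C, fun x => ?_⟩
  have h1 : x = ZSpan.fract b x + (ZSpan.floor b x : E) := by
    rw [ZSpan.fract_apply]; abel
  have h2 : f x - M x = f (ZSpan.fract b x) - M (ZSpan.fract b x) := by
    have h3 := hper _ (ZSpan.floor b x).2 (ZSpan.fract b x)
    have h4 : (fun x => f x - M x) (ZSpan.fract b x + (ZSpan.floor b x : E)) = f x - M x := by
      rw [← h1]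
    rw [← h4, h3]
  rw [h2]
  apply hC
  rw [mem_closedBall_zero_iff]
  exact ZSpan.norm_fract_le b x

/-- The linear part intertwines the rotational parts. -/
theorem linear_intertwine {f : E → E} {M : E →ₗ[ℝ] E} {C : ℝ} (hM : ∀ x, ‖f x - M x‖ ≤ C)
    {γ γ' : E ≃ᵢ E} (h : ∀ x, f (γ x) = γ' (f x)) (x : E) : M (rot γ x) = rot γ' (M x) := by
  have h1 : M ∘ₗ ((rot γ).toLinearEquiv : E →ₗ[ℝ] E) - ((rot γ').toLinearEquiv : E →ₗ[ℝ] E) ∘ₗ M = 0 := by
    apply linear_eq_zero_of_bounded _ (C + C + ‖γ' 0 - M (γ 0)‖)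
    intro y
    have h2 : (M ∘ₗ ((rot γ).toLinearEquiv : E →ₗ[ℝ] E) -
        ((rot γ').toLinearEquiv : E →ₗ[ℝ] E) ∘ₗ M) y = M (rot γ y) - rot γ' (M y) := rfl
    have h3 : M (rot γ y) - rot γ' (M y) =
        (rot γ' (f y - M y) - (f (γ y) - M (γ y))) + (γ' 0 - M (γ 0)) := by
      rw [h y, apply_eq γ' (f y), map_sub (rot γ'), apply_eq γ y, map_add M]
      abel
    rw [h2, h3]
    refine (norm_add_le _ _).trans ?_
    gcongr
    refine (norm_sub_le _ _).trans ?_
    rw [LinearIsometryEquiv.norm_map]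
    exact add_le_add (hM y) (hM _)
  have h2 := congrArg (fun T : E →ₗ[ℝ] E => T x) h1
  exact sub_eq_zero.1 h2

end Pool.Agent.Lib.MP_271836_gt.Flat
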