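import Pool.Agent.Lib.MP_271836_gt.Bieb4

/-!
# Equivariant affine maps
-/

namespace Pool.Agent.Lib.MP_271836_gt.Flat

open Topology Set
open scoped RealInnerProductSpace

variable {E : Type*} [NormedAddCommGroup E] [InnerProductSpace ℝ E] [FiniteDimensional ℝ E]

/-- The circumcentre of a bounded set is fixed by all isometries preserving the set. -/
theorem exists_circumcentre {S : Set E} (hne : S.Nonempty) (hb : Bornology.IsBounded S) :
    ∃ c : E, ∀ φ : E → E, Isometry φ → φ '' S = S → φ c = c := by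
  haveI : ProperSpace E := FiniteDimensional.proper ℝ E
  haveI : Nonempty S := hne.to_subtype
  have hbdd : ∀ x : E, BddAbove (range fun s : S => dist x s) := by
    intro x
    obtain ⟨r, hr⟩ := hb.subset_closedBall x
    refine ⟨r, ?_⟩
    rintro _ ⟨s, rfl⟩
    have := hr s.2
    rwa [Metric.mem_closedBall, dist_comm] at this
  let R : E → ℝ := fun x => ⨆ s : S, dist x s
  have hle : ∀ (x : E) (s : S), dist x s ≤ R x := fun x s => le_ciSup (hbdd x) s
  have hlip : ∀ x y : E, R x ≤ R y + dist x y := by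
    intro x y
    refine ciSup_le fun s => ?_
    have := hle y s
    linarith [dist_triangle x y (s : E)]
  have hcont : Continuous R := by
    refine LipschitzWith.continuous (K := 1) (LipschitzWith.of_le_add fun x y => hlip x y)
  have hcoer : Filter.Tendsto R (Filter.cocompact E) Filter.atTop := by
    obtain ⟨s⟩ := (inferInstance : Nonempty S)
    exact Filter.tendsto_atTop_mono (fun x => hle x s) (tendsto_dist_right_cocompact_atTop (s : E))
  obtain ⟨c, hc⟩ := hcont.exists_forall_le hcoer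
  have huniq : ∀ y, R y ≤ R c → y = c := by
    intro y hy
    by_contra hyc
    set d : ℝ := ‖y - c‖ with hd
    have hd0 : 0 < d := norm_pos_iff.2 (sub_ne_zero.2 hyc)
    set m : E := (1 / 2 : ℝ) • (y + c) with hm
    have h1 : ∀ s : S, dist m s ^ 2 ≤ R c ^ 2 - d ^ 2 / 4 := by
      intro s
      have h2 : (m - s) + (m - s) = (y - s) + (c - s) := by
        rw [hm, ← two_smul ℝ ((1 / 2 : ℝ) • (y + c) - (s : E)), smul_sub, smul_smul]
        norm_num
        rw [two_smul]
        abel
      have h3 := parallelogram_law_with_norm ℝ (y - (s : E)) (c - s)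
      have h4 : (y - (s : E)) - (c - s) = y - c := by abel
      rw [h4, ← h2, ← two_smul ℝ (m - (s : E)), norm_smul, Real.norm_ofNat] at h3
      rw [dist_eq_norm]
      have h5 : ‖y - (s : E)‖ ≤ R c := by
        rw [← dist_eq_norm]; exact (hle y s).trans hy
      have h6 : ‖c - (s : E)‖ ≤ R c := by
        rw [← dist_eq_norm]; exact hle c s
      nlinarith [norm_nonneg (y - (s : E)), norm_nonneg (c - (s : E))]
    have hR0 : 0 ≤ R c := by
      obtain ⟨s⟩ := (inferInstance : Nonempty S)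
      exact dist_nonneg.trans (hle c s)
    have hsub : 0 ≤ R c ^ 2 - d ^ 2 / 4 := by
      obtain ⟨s⟩ := (inferInstance : Nonempty S)
      exact (sq_nonneg _).trans (h1 s)
    have h7 : R m ≤ √(R c ^ 2 - d ^ 2 / 4) :=
      ciSup_le fun s => Real.le_sqrt_of_sq_le (h1 s)
    have h8 : √(R c ^ 2 - d ^ 2 / 4) < R c := by
      rw [Real.sqrt_lt' (by nlinarith)]
      nlinarith
    exact absurd (hc m) (not_le.2 (h7.trans_lt h8))
  refine ⟨c, fun φ hφ hS => huniq _ ?_⟩
  refine ciSup_le fun s => ?_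
  obtain ⟨s', hs', hss⟩ : (s : E) ∈ φ '' S := by rw [hS]; exact s.2
  rw [← hss, hφ.dist_eq]
  exact hle c ⟨s', hs'⟩

/-- Every equivariant map can be replaced by an affine one. -/
theorem exists_affine {Γ Γ' : Subgroup (E ≃ᵢ E)} (hΓ : Disc Γ) (hc : Coc Γ) (hΓ' : Disc Γ')
    (hc' : Coc Γ') {f : E → E} (hf : Continuous f) (he : Equivar Γ Γ' f) :
    ∃ (M : E →ₗ[ℝ] E) (c : E), (∃ C : ℝ, ∀ x, ‖f x - M x‖ ≤ C) ∧
      ∀ γ ∈ Γ, ∀ γ' ∈ Γ', (∀ x, f (γ x) = γ' (f x)) → ∀ x, M (γ x) + c = γ' (M x + c) := by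
  obtain ⟨M, C, hM⟩ := exists_linear hΓ hc hΓ' hc' hf he
  have hb : Bornology.IsBounded (range fun x => f x - M x) := by
    rw [isBounded_iff_forall_norm_le]
    refine ⟨C, ?_⟩
    rintro _ ⟨x, rfl⟩
    exact hM x
  obtain ⟨c, hcc⟩ := exists_circumcentre (range_nonempty _) hb
  refine ⟨M, c, ⟨C, hM⟩, fun γ hγ γ' hγ' h x => ?_⟩
  have hlin := linear_intertwine hM h
  let φ : E → E := fun y => γ' y - M (γ 0)
  have hφ : Isometry φ := by
    intro a b
    show edist (γ' a - M (γ 0)) (γ' b - M (γ 0)) = edist a b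
    rw [edist_sub_right]
    exact γ'.isometry a b
  have hφg : ∀ y, φ (f y - M y) = f (γ y) - M (γ y) := by
    intro y
    have h1 : γ' (f y - M y) = γ' (f y) - rot γ' (M y) := by
      have h2 := rot_sub γ' (f y) (f y - M y)
      rw [sub_sub_cancel] at h2
      rw [← h2]
      abel
    show γ' (f y - M y) - M (γ 0) = _
    rw [h1, h y, ← hlin y, apply_eq γ y, map_add M]
    abel
  have hS : φ '' (range fun x => f x - M x) = range fun x => f x - M x := by
    apply Subset.antisymm
    · rintro _ ⟨_, ⟨y, rfl⟩, rfl⟩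
      exact ⟨γ y, (hφg y).symm⟩
    · rintro _ ⟨y, rfl⟩
      refine ⟨_, ⟨γ.symm y, rfl⟩, ?_⟩
      show φ (f (γ.symm y) - M (γ.symm y)) = f y - M y
      rw [hφg, γ.apply_symm_apply]
  have hfix : γ' c - M (γ 0) = c := hcc φ hφ hS
  have h3 := rot_sub γ' (M x + c) c
  rw [add_sub_cancel_right] at h3
  have h4 : γ' (M x + c) = rot γ' (M x) + γ' c := by rw [← h3]; abel
  have h5 : γ' c = c + M (γ 0) := sub_eq_iff_eq_add.1 hfix
  rw [h4, h5, ← hlin x, apply_eq γ x, map_add M]
  abel

end Pool.Agent.Lib.MP_271836_gt.Flat
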