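import Pool.Agent.Lib.MP_271836_gt.Defs

/-!
# Lifting and improving maps to covering maps
-/

namespace Pool.Agent.Lib.MP_271836_gt

open Topology Set unitInterval

/-- Lifting a homotopy: a map which becomes homotopic to `g` after a covering can be deformed so
that it becomes equal to `g`. -/
theorem exists_homotopic_lift {A E X : Type} [TopologicalSpace A] [TopologicalSpace E]
    [TopologicalSpace X] (p : C(E, X)) (hp : IsCoveringMap p) (f : C(A, E)) (g : C(A, X))
    (h : (p.comp f).Homotopic g) : ∃ f' : C(A, E), f.Homotopic f' ∧ p.comp f' = g := by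
  obtain ⟨H⟩ := h
  have H_0 : ∀ a, H.toContinuousMap (0, a) = p (f a) := fun a => H.apply_zero a
  set L := hp.liftHomotopy H.toContinuousMap f H_0 with hL
  have hlift := hp.liftHomotopy_lifts H.toContinuousMap f H_0
  have hzero := hp.liftHomotopy_zero H.toContinuousMap f H_0
  refine ⟨⟨fun a => L (1, a), by fun_prop⟩, ⟨⟨L, ?_, ?_⟩⟩, ?_⟩
  · intro a; exact hzero a
  · intro a; rfl
  · ext a
    have := congrFun hlift (1, a)
    show p (L (1, a)) = g a
    rw [← H.apply_one a]
    exact this

theorem covering_of_local {E X : Type} [TopologicalSpace E] [TopologicalSpace X] [T2Space E]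
    [T2Space X] [CompactSpace E] {f : E → X} (h : IsLocalHomeomorph f) : IsCoveringMap f :=
  isLocalHomeomorph_iff_isCoveringMap.1 h

theorem finite_fibre {E X : Type} [TopologicalSpace E] [TopologicalSpace X] [T2Space E]
    [T2Space X] [CompactSpace E] {f : E → X} (h : IsLocalHomeomorph f) (x : X) :
    (f ⁻¹' {x}).Finite := by
  have hc := covering_of_local h
  have hd : DiscreteTopology (f ⁻¹' {x}) := (hc x).discreteTopology_fiber
  have hcomp : IsCompact (f ⁻¹' {x}) := (isClosed_singleton.preimage h.continuous).isCompact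
  exact hcomp.finite (isDiscrete_iff_discreteTopology.2 hd)

/-- A self map of a finite connected covering space over the base is a homeomorphism. -/
theorem exists_homeo_of_deck {Y W : Type} [TopologicalSpace Y] [TopologicalSpace W] [T2Space Y]
    [T2Space W] [CompactSpace Y] [ConnectedSpace Y] (c : C(Y, W)) (hc : IsLocalHomeomorph c)
    (e : C(Y, Y)) (he : c.comp e = c) : ∃ φ : Y ≃ₜ Y, ∀ y, φ y = e y := by
  have he' : ∀ y, c (e y) = c y := fun y => congrArg (fun k : C(Y, W) => k y) he
  have hloc : IsLocalHomeomorph e := by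
    apply IsLocalHomeomorph.of_comp _ hc e.continuous
    have : (c ∘ e : Y → W) = c := funext he'
    rw [this]; exact hc
  have hopen : IsOpen (range e) := hloc.isOpenMap.isOpen_range
  have hclosed : IsClosed (range e) := (isCompact_range e.continuous).isClosed
  have hsurj : Function.Surjective e := by
    rw [← range_eq_univ]
    rcases isClopen_iff.1 ⟨hclosed, hopen⟩ with h | h
    · exfalso
      obtain ⟨y⟩ := (inferInstance : Nonempty Y)
      have : e y ∈ range e := mem_range_self y
      rw [h] at this
      exact this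
    · exact h
  have hinj : Function.Injective e := by
    intro a b hab
    have hab' : c a = c b := by rw [← he' a, ← he' b, hab]
    set S : Set Y := c ⁻¹' {c b} with hS
    have hfin : S.Finite := finite_fibre hc (c b)
    have hmaps : MapsTo e S S := fun y hy => by
      show c (e y) = c b
      rw [he' y]; exact hy
    have hsurjS : SurjOn e S S := by
      intro y hy
      obtain ⟨z, rfl⟩ := hsurj y
      refine ⟨z, ?_, rfl⟩
      show c z = c b
      rw [← he' z]; exact hy
    haveI : Finite S := hfin
    have hs : Function.Surjective (hmaps.restrict e S S) := by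
      intro y
      obtain ⟨z, hz, hzy⟩ := hsurjS y.2
      exact ⟨⟨z, hz⟩, Subtype.ext hzy⟩
    have hi := Finite.injective_iff_surjective.2 hs
    have h1 : hmaps.restrict e S S ⟨a, hab'⟩ = hmaps.restrict e S S ⟨b, rfl⟩ := Subtype.ext hab
    exact congrArg Subtype.val (hi h1)
  exact ⟨hloc.toHomeomorphOfBijective ⟨hinj, hsurj⟩, fun y => rfl⟩

section Pullback

variable {X Y Z : Type} [TopologicalSpace X] [TopologicalSpace Y] [TopologicalSpace Z]

/-- The pullback of `q` along `f`. -/
def Pb (f : C(Y, Z)) (q : C(X, Z)) : Set (Y × X) := {z | f z.1 = q z.2}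

theorem isClosed_Pb [T2Space Z] (f : C(Y, Z)) (q : C(X, Z)) : IsClosed (Pb f q) :=
  isClosed_eq (f.continuous.comp continuous_fst) (q.continuous.comp continuous_snd)

open Classical in
/-- The local inverse of the projection of a pullback. -/
noncomputable def pbChart (f : C(Y, Z)) (q : C(X, Z)) (e : OpenPartialHomeomorph X Z)
    (he : (e : X → Z) = q) (z₀ : Pb f q) : OpenPartialHomeomorph (Pb f q) Y where
  toFun z := z.1.1
  invFun y := if h : f y ∈ e.target then ⟨(y, e.symm (f y)), by
    show f y = q (e.symm (f y))
    rw [← he, e.right_inv h]⟩ else z₀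
  source := {z | z.1.2 ∈ e.source}
  target := {y | f y ∈ e.target}
  map_source' := by
    intro z hz
    show f z.1.1 ∈ e.target
    have h1 : f z.1.1 = q z.1.2 := z.2
    rw [h1, ← he]
    exact e.map_source hz
  map_target' := by
    intro y hy
    have h : f y ∈ e.target := hy
    show (if h : f y ∈ e.target then (⟨(y, e.symm (f y)), _⟩ : Pb f q) else z₀).1.2 ∈ e.source
    rw [dif_pos h]
    exact e.map_target h
  left_inv' := by
    intro z hz
    have h1 : f z.1.1 = q z.1.2 := z.2
    have h : f z.1.1 ∈ e.target := by
      rw [h1, ← he]; exact e.map_source hz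
    show (if h : f z.1.1 ∈ e.target then (⟨(z.1.1, e.symm (f z.1.1)), _⟩ : Pb f q) else z₀) = z
    rw [dif_pos h]
    apply Subtype.ext
    apply Prod.ext
    · rfl
    · show e.symm (f z.1.1) = z.1.2
      rw [h1, ← he]
      exact e.left_inv hz
  right_inv' := by
    intro y hy
    have h : f y ∈ e.target := hy
    show (if h : f y ∈ e.target then (⟨(y, e.symm (f y)), _⟩ : Pb f q) else z₀).1.1 = y
    rw [dif_pos h]
  open_source := e.open_source.preimage (continuous_snd.comp continuous_subtype_val)
  open_target := e.open_target.preimage f.continuous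
  continuousOn_toFun := (continuous_fst.comp continuous_subtype_val).continuousOn
  continuousOn_invFun := by
    rw [continuousOn_iff_continuous_restrict]
    have h1 : (fun y : {y : Y | f y ∈ e.target} =>
        if h : f y.1 ∈ e.target then (⟨(y.1, e.symm (f y.1)), by
          show f y = q (e.symm (f y))
          rw [← he, e.right_inv h]⟩ : Pb f q) else z₀) =
        fun y : {y : Y | f y ∈ e.target} => (⟨(y.1, e.symm (f y.1)), by
          show f y = q (e.symm (f y))
          rw [← he, e.right_inv y.2]⟩ : Pb f q) := by
      ext1 y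
      rw [dif_pos (show f y.1 ∈ e.target from y.2)]
    show Continuous (fun y : {y : Y | f y ∈ e.target} =>
        if h : f y.1 ∈ e.target then (⟨(y.1, e.symm (f y.1)), by
          show f y = q (e.symm (f y))
          rw [← he, e.right_inv h]⟩ : Pb f q) else z₀)
    rw [h1]
    apply Continuous.subtype_mk
    apply Continuous.prodMk continuous_subtype_val
    have h2 : ContinuousOn (fun y : Y => e.symm (f y)) {y : Y | f y ∈ e.target} :=
      e.continuousOn_symm.comp f.continuous.continuousOn (fun y hy => hy)
    exact continuousOn_iff_continuous_restrict.1 h2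

theorem isLocalHomeomorph_Pb_fst (f : C(Y, Z)) (q : C(X, Z)) (hq : IsLocalHomeomorph q) :
    IsLocalHomeomorph (fun z : Pb f q => z.1.1) := by
  intro z
  obtain ⟨e, hez, he⟩ := hq z.1.2
  exact ⟨pbChart f q e he.symm z, hez, rfl⟩

theorem locallyConnected_of_local {E X : Type} [TopologicalSpace E] [TopologicalSpace X]
    [LocallyConnectedSpace X] {f : E → X} (h : IsLocalHomeomorph f) :
    LocallyConnectedSpace E := by
  letI : ChartedSpace X E :=
    { atlas := Set.univ
      chartAt := fun z => (h z).choose
      mem_chart_source := fun z => (h z).choose_spec.1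
      chart_mem_atlas := fun z => mem_univ _ }
  exact ChartedSpace.locallyConnectedSpace X E

end Pullback

/-- The main lemma: in a ladder `X → Y → Z → W` whose two composites are homotopic to finite
coverings, the map `X → Y` is homotopic to a finite covering, if homotopy equivalences between
`X` and finite covers of `Y` are homotopic to homeomorphisms. -/
theorem improve {X Y Z W : Type} [TopologicalSpace X] [TopologicalSpace Y] [TopologicalSpace Z]
    [TopologicalSpace W] [CompactSpace X] [T2Space X] [ConnectedSpace X]
    [CompactSpace Y] [T2Space Y] [LocallyConnectedSpace Y] [T2Space Z] [T2Space W]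
    (g : C(X, Y)) (f : C(Y, Z)) (h : C(Z, W)) (q : C(X, Z)) (q' : C(Y, W))
    (hq : IsLocalHomeomorph q) (hq' : IsLocalHomeomorph q')
    (hfg : (f.comp g).Homotopic q) (hhf : (h.comp f).Homotopic q')
    (rigid : ∀ (E : Type) [TopologicalSpace E], ConnectedSpace E → CompactSpace E → T2Space E →
      ∀ p : C(E, Y), IsLocalHomeomorph p → ∀ k : ContinuousMap.HomotopyEquiv X E,
        ∃ ψ : X ≃ₜ E, k.toFun.Homotopic (ψ : C(X, E))) :
    ∃ g' : C(X, Y), IsLocalHomeomorph g' ∧ g.Homotopic g' := by
  -- lift `f ∘ g` through `q`
  obtain ⟨u, hu, hqu⟩ := exists_homotopic_lift q (covering_of_local hq) (ContinuousMap.id X)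
    (f.comp g) (by rw [ContinuousMap.comp_id]; exact hfg.symm)
  have hqu' : ∀ x, q (u x) = f (g x) := fun x => congrArg (fun k : C(X, Z) => k x) hqu
  -- the pullback
  haveI : CompactSpace (Pb f q) := isCompact_iff_compactSpace.1 (isClosed_Pb f q).isCompact
  have hloc := isLocalHomeomorph_Pb_fst f q hq
  haveI : LocallyConnectedSpace (Pb f q) := locallyConnected_of_local hloc
  let γ : C(X, Pb f q) := ⟨fun x => ⟨(g x, u x), (hqu' x).symm⟩, by fun_prop⟩
  obtain ⟨x₀⟩ := (inferInstance : Nonempty X)
  set E : Set (Pb f q) := connectedComponent (γ x₀) with hE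
  have hEopen : IsOpen E := isOpen_connectedComponent
  have hEclosed : IsClosed E := isClosed_connectedComponent
  haveI : CompactSpace E := isCompact_iff_compactSpace.1 hEclosed.isCompact
  haveI : ConnectedSpace E := isConnected_iff_connectedSpace.1 isConnected_connectedComponent
  have hγE : ∀ x, γ x ∈ E := by
    intro x
    have h1 : IsPreconnected (range γ) := isPreconnected_range γ.continuous
    exact h1.subset_connectedComponent (mem_range_self x₀) (mem_range_self x)
  let p : C(E, Y) := ⟨fun z => z.1.1.1, by fun_prop⟩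
  have hp : IsLocalHomeomorph p :=
    hloc.comp (hEopen.isOpenEmbedding_subtypeVal.isLocalHomeomorph)
  let ft : C(E, X) := ⟨fun z => z.1.1.2, by fun_prop⟩
  let gt : C(X, E) := ⟨fun x => ⟨γ x, hγE x⟩, by fun_prop⟩
  have hpg : p.comp gt = g := ContinuousMap.ext fun x => rfl
  have hfgt : ft.comp gt = u := ContinuousMap.ext fun x => rfl
  have hfp : f.comp p = q.comp ft := ContinuousMap.ext fun z => z.1.2
  -- the self map of `E`
  set e : C(E, E) := gt.comp ft with he
  set c : C(E, W) := q'.comp p with hc
  have hcloc : IsLocalHomeomorph c := hq'.comp hp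
  have hce : (c.comp e).Homotopic c := by
    have h1 : c.comp e = q'.comp (g.comp ft) := by
      rw [hc, he, ← hpg]; rfl
    have h2 : (q'.comp (g.comp ft)).Homotopic ((h.comp f).comp (g.comp ft)) :=
      hhf.symm.comp (ContinuousMap.Homotopic.refl _)
    have h3 : (h.comp f).comp (g.comp ft) = h.comp ((f.comp g).comp ft) := rfl
    have h4 : (h.comp ((f.comp g).comp ft)).Homotopic (h.comp (q.comp ft)) :=
      (ContinuousMap.Homotopic.refl h).comp (hfg.comp (ContinuousMap.Homotopic.refl ft))
    have h5 : h.comp (q.comp ft) = (h.comp f).comp p := by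
      rw [← hfp]; rfl
    have h6 : ((h.comp f).comp p).Homotopic (q'.comp p) :=
      hhf.comp (ContinuousMap.Homotopic.refl p)
    rw [h1]
    refine h2.trans ?_
    rw [h3]
    refine h4.trans ?_
    rw [h5]
    exact h6
  obtain ⟨e', hee', hce'⟩ := exists_homotopic_lift c (covering_of_local hcloc) e c hce
  obtain ⟨φ, hφ⟩ := exists_homeo_of_deck c hcloc e' hce'
  have hφe : (φ : C(E, E)) = e' := ContinuousMap.ext hφ
  -- the homotopy equivalence
  have hφinv : ((φ : C(E, E)).comp (φ.symm : C(E, E))) = ContinuousMap.id E :=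
    ContinuousMap.ext fun y => φ.apply_symm_apply y
  have hright : (gt.comp (ft.comp (φ.symm : C(E, E)))).Homotopic (ContinuousMap.id E) := by
    have h1 : gt.comp (ft.comp (φ.symm : C(E, E))) = e.comp (φ.symm : C(E, E)) := rfl
    rw [h1, ← hφinv, hφe]
    exact hee'.comp (ContinuousMap.Homotopic.refl _)
  have hft : (ft.comp (φ.symm : C(E, E))).Homotopic ft := by
    have h1 : (ft.comp (φ.symm : C(E, E))).Homotopic
        ((ft.comp gt).comp (ft.comp (φ.symm : C(E, E)))) := by
      have h2 : ((ContinuousMap.id X).comp (ft.comp (φ.symm : C(E, E)))).Homotopic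
          ((ft.comp gt).comp (ft.comp (φ.symm : C(E, E)))) := by
        apply ContinuousMap.Homotopic.comp _ (ContinuousMap.Homotopic.refl _)
        rw [hfgt]; exact hu
      rwa [ContinuousMap.id_comp] at h2
    have h3 : ((ft.comp gt).comp (ft.comp (φ.symm : C(E, E)))) =
        ft.comp (gt.comp (ft.comp (φ.symm : C(E, E)))) := rfl
    rw [h3] at h1
    refine h1.trans ?_
    have h4 : (ft.comp (gt.comp (ft.comp (φ.symm : C(E, E))))).Homotopic
        (ft.comp (ContinuousMap.id E)) := (ContinuousMap.Homotopic.refl ft).comp hright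
    rwa [ContinuousMap.comp_id] at h4
  have hleft : ((ft.comp (φ.symm : C(E, E))).comp gt).Homotopic (ContinuousMap.id X) := by
    have h1 : ((ft.comp (φ.symm : C(E, E))).comp gt).Homotopic (ft.comp gt) :=
      hft.comp (ContinuousMap.Homotopic.refl gt)
    refine h1.trans ?_
    rw [hfgt]
    exact hu.symm
  obtain ⟨ψ, hψ⟩ := rigid E inferInstance inferInstance inferInstance p hp
    ⟨gt, ft.comp (φ.symm : C(E, E)), hleft, hright⟩
  refine ⟨p.comp (ψ : C(X, E)), hp.comp ψ.isLocalHomeomorph, ?_⟩
  rw [← hpg]
  exact (ContinuousMap.Homotopic.refl p).comp hψ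

end Pool.Agent.Lib.MP_271836_gt
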