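import Pool.Agent.Lib.MP_271836_gt.Defs

/-!
# Definitions: Borel collections, twists, and spaces without finite coverings
-/

namespace Pool.Agent.Lib.MP_271836_gt

/-- `X` is a closed manifold of some dimension. -/
def IsClosedMfd (X : Type) [TopologicalSpace X] : Prop := ∃ k, IsClosedManifold k X

/-- A Borel collection of closed `n`-manifolds (asphericity is not required): every finite
connected covering space of a member is a member, and every closed manifold which is homotopy
equivalent to a member is homeomorphic to it. -/
structure IsBorel (n : ℕ) (𝒜 : SpaceClass) : Prop extends IsCoverClosed n 𝒜 where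
  rigid : ∀ (X Y : Type) [TopologicalSpace X] [TopologicalSpace Y], IsClosedMfd X → 𝒜 Y →
    Nonempty (ContinuousMap.HomotopyEquiv X Y) → Nonempty (X ≃ₜ Y)

/-- The twist of the weak solenoid `S.Limit` by a self map `k` of `S.B m`: the pullback of the
projection `S.Limit → S.B m` along `k`. -/
def Tower.Twist {𝒜 : SpaceClass} (S : Tower 𝒜) (m : ℕ) (k : letI := S.top; C(S.B m, S.B m)) :
    Type :=
  {z : S.B m × S.Limit // k z.1 = z.2.1 m}

instance {𝒜 : SpaceClass} (S : Tower 𝒜) (m : ℕ) (k : letI := S.top; C(S.B m, S.B m)) :
    TopologicalSpace (S.Twist m k) :=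
  letI := S.top
  instTopologicalSpaceSubtype

/-- `M` has no nontrivial finite connected covering space: every covering map with finite fibres
from a connected space to `M` is injective. -/
def NoFiniteCover (M : Type) [TopologicalSpace M] : Prop :=
  ∀ (E : Type) [TopologicalSpace E], ConnectedSpace E → ∀ p : E → M, IsCoveringMap p →
    (∀ x, (p ⁻¹' {x}).Finite) → Function.Injective p

end Pool.Agent.Lib.MP_271836_gt
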