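import Pool.Agent.Lib.MP_271836_gt.Level
import Pool.Agent.Lib.MP_271836_gt.Defs2

/-!
# Closed manifolds, Borel collections, and finite covers hidden in a ladder
-/

namespace Pool.Agent.Lib.MP_271836_gt

open Topology Set unitInterval

/-- A compact connected Hausdorff space with a local homeomorphism to a closed manifold is a closed
manifold. -/
theorem IsClosedManifold.of_local {n : ℕ} {E X : Type} [TopologicalSpace E] [TopologicalSpace X]
    (hX : IsClosedManifold n X) (hc : CompactSpace E) (hconn : ConnectedSpace E) (ht : T2Space E)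
    {f : E → X} (h : IsLocalHomeomorph f) : IsClosedManifold n E := by
  obtain ⟨-, -, -, ⟨hch⟩⟩ := hX
  letI : ChartedSpace X E :=
    { atlas := Set.univ
      chartAt := fun z => (h z).choose
      mem_chart_source := fun z => (h z).choose_spec.1
      chart_mem_atlas := fun z => mem_univ _ }
  exact ⟨hc, hconn, ht, ⟨ChartedSpace.comp (EuclideanSpace ℝ (Fin n)) X E⟩⟩

theorem IsClosedMfd.of_local {E X : Type} [TopologicalSpace E] [TopologicalSpace X]
    (hX : IsClosedMfd X) (hc : CompactSpace E) (hconn : ConnectedSpace E) (ht : T2Space E)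
    {f : E → X} (h : IsLocalHomeomorph f) : IsClosedMfd E := by
  obtain ⟨k, hk⟩ := hX
  exact ⟨k, hk.of_local hc hconn ht h⟩

/-- In a ladder `X → Y → Z → W` whose two composites are homotopic to finite coverings, the map
`X → Y` is the composite of a homotopy equivalence `X → E` and a connected finite covering
`E → Y`. -/
theorem exists_cover_equiv {X Y Z W : Type} [TopologicalSpace X] [TopologicalSpace Y]
    [TopologicalSpace Z] [TopologicalSpace W] [CompactSpace X] [T2Space X] [ConnectedSpace X]
    [CompactSpace Y] [T2Space Y] [LocallyConnectedSpace Y] [T2Space Z] [T2Space W]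
    (g : C(X, Y)) (f : C(Y, Z)) (h : C(Z, W)) (q : C(X, Z)) (q' : C(Y, W))
    (hq : IsLocalHomeomorph q) (hq' : IsLocalHomeomorph q')
    (hfg : (f.comp g).Homotopic q) (hhf : (h.comp f).Homotopic q') :
    ∃ (E : Type) (_ : TopologicalSpace E) (_ : CompactSpace E) (_ : ConnectedSpace E)
      (_ : T2Space E) (p : C(E, Y)) (k : ContinuousMap.HomotopyEquiv X E),
      IsLocalHomeomorph p ∧ p.comp k.toFun = g := by
  -- lift `f ∘ g` through `q`
  obtain ⟨u, hu, hqu⟩ := exists_homotopic_lift q (covering_of_local hq) (ContinuousMap.id X)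
    (f.comp g) (by rw [ContinuousMap.comp_id]; exact hfg.symm)
  have hqu' : ∀ x, q (u x) = f (g x) := fun x => congrArg (fun k : C(X, Z) => k x) hqu
  -- the pullback
  haveI : CompactSpace (Pb f q) := isCompact_iff_compactSpace.1 (isClosed_Pb f q).isCompact
  have hloc := isLocalHomeomorph_Pb_fst f q hq
  haveI : LocallyConnectedSpace (Pb f q) := locallyConnected_of_local hloc
  let γ : C(X, Pb f q) := ⟨fun x => ⟨(g x, u x), (hqu' x).symm⟩, by fun_prop⟩
  obtain ⟨x₀⟩ := (inferInstance : Nonempty X)
  set E : Set (Pb f q) := connectedComponent (γ x₀) with hE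
  have hEopen : IsOpen E := isOpen_connectedComponent
  have hEclosed : IsClosed E := isClosed_connectedComponent
  haveI : CompactSpace E := isCompact_iff_compactSpace.1 hEclosed.isCompact
  haveI : ConnectedSpace E := isConnected_iff_connectedSpace.1 isConnected_connectedComponent
  have hγE : ∀ x, γ x ∈ E := by
    intro x
    have h1 : IsPreconnected (range γ) := isPreconnected_range γ.continuous
    exact h1.subset_connectedComponent (mem_range_self x₀) (mem_range_self x)
  let p : C(E, Y) := ⟨fun z => z.1.1.1, by fun_prop⟩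
  have hp : IsLocalHomeomorph p :=
    hloc.comp (hEopen.isOpenEmbedding_subtypeVal.isLocalHomeomorph)
  let ft : C(E, X) := ⟨fun z => z.1.1.2, by fun_prop⟩
  let gt : C(X, E) := ⟨fun x => ⟨γ x, hγE x⟩, by fun_prop⟩
  have hpg : p.comp gt = g := ContinuousMap.ext fun x => rfl
  have hfgt : ft.comp gt = u := ContinuousMap.ext fun x => rfl
  have hfp : f.comp p = q.comp ft := ContinuousMap.ext fun z => z.1.2
  -- the self map of `E`
  set e : C(E, E) := gt.comp ft with he
  set c : C(E, W) := q'.comp p with hc
  have hcloc : IsLocalHomeomorph c := hq'.comp hp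
  have hce : (c.comp e).Homotopic c := by
    have h1 : c.comp e = q'.comp (g.comp ft) := by
      rw [hc, he, ← hpg]; rfl
    have h2 : (q'.comp (g.comp ft)).Homotopic ((h.comp f).comp (g.comp ft)) :=
      hhf.symm.comp (ContinuousMap.Homotopic.refl _)
    have h3 : (h.comp f).comp (g.comp ft) = h.comp ((f.comp g).comp ft) := rfl
    have h4 : (h.comp ((f.comp g).comp ft)).Homotopic (h.comp (q.comp ft)) :=
      (ContinuousMap.Homotopic.refl h).comp (hfg.comp (ContinuousMap.Homotopic.refl ft))
    have h5 : h.comp (q.comp ft) = (h.comp f).comp p := by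
      rw [← hfp]; rfl
    have h6 : ((h.comp f).comp p).Homotopic (q'.comp p) :=
      hhf.comp (ContinuousMap.Homotopic.refl p)
    rw [h1]
    refine h2.trans ?_
    rw [h3]
    refine h4.trans ?_
    rw [h5]
    exact h6
  obtain ⟨e', hee', hce'⟩ := exists_homotopic_lift c (covering_of_local hcloc) e c hce
  obtain ⟨φ, hφ⟩ := exists_homeo_of_deck c hcloc e' hce'
  have hφe : (φ : C(E, E)) = e' := ContinuousMap.ext hφ
  -- the homotopy equivalence
  have hφinv : ((φ : C(E, E)).comp (φ.symm : C(E, E))) = ContinuousMap.id E :=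
    ContinuousMap.ext fun y => φ.apply_symm_apply y
  have hright : (gt.comp (ft.comp (φ.symm : C(E, E)))).Homotopic (ContinuousMap.id E) := by
    have h1 : gt.comp (ft.comp (φ.symm : C(E, E))) = e.comp (φ.symm : C(E, E)) := rfl
    rw [h1, ← hφinv, hφe]
    exact hee'.comp (ContinuousMap.Homotopic.refl _)
  have hft : (ft.comp (φ.symm : C(E, E))).Homotopic ft := by
    have h1 : (ft.comp (φ.symm : C(E, E))).Homotopic
        ((ft.comp gt).comp (ft.comp (φ.symm : C(E, E)))) := by
      have h2 : ((ContinuousMap.id X).comp (ft.comp (φ.symm : C(E, E)))).Homotopic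
          ((ft.comp gt).comp (ft.comp (φ.symm : C(E, E)))) := by
        apply ContinuousMap.Homotopic.comp _ (ContinuousMap.Homotopic.refl _)
        rw [hfgt]; exact hu
      rwa [ContinuousMap.id_comp] at h2
    have h3 : ((ft.comp gt).comp (ft.comp (φ.symm : C(E, E)))) =
        ft.comp (gt.comp (ft.comp (φ.symm : C(E, E)))) := rfl
    rw [h3] at h1
    refine h1.trans ?_
    have h4 : (ft.comp (gt.comp (ft.comp (φ.symm : C(E, E))))).Homotopic
        (ft.comp (ContinuousMap.id E)) := (ContinuousMap.Homotopic.refl ft).comp hright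
    rwa [ContinuousMap.comp_id] at h4
  have hleft : ((ft.comp (φ.symm : C(E, E))).comp gt).Homotopic (ContinuousMap.id X) := by
    have h1 : ((ft.comp (φ.symm : C(E, E))).comp gt).Homotopic (ft.comp gt) :=
      hft.comp (ContinuousMap.Homotopic.refl gt)
    refine h1.trans ?_
    rw [hfgt]
    exact hu.symm
  exact ⟨E, inferInstance, inferInstance, inferInstance, inferInstance, p,
    ⟨gt, ft.comp (φ.symm : C(E, E)), hleft, hright⟩, hp, hpg⟩

end Pool.Agent.Lib.MP_271836_gt
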