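import Mathlib

/-!
# Definitions: closed manifolds, weak solenoids and shape equivalence
-/

namespace Pool.Agent.Lib.MP_271836_gt

/-- `X` is a closed `n`-manifold: a compact connected Hausdorff space which is locally
Euclidean of dimension `n`. -/
def IsClosedManifold (n : ℕ) (X : Type) [TopologicalSpace X] : Prop :=
  CompactSpace X ∧ ConnectedSpace X ∧ T2Space X ∧
    Nonempty (ChartedSpace (EuclideanSpace ℝ (Fin n)) X)

/-- A collection of topological spaces. -/
abbrev SpaceClass : Type 1 := (X : Type) → [TopologicalSpace X] → Prop

/-- A collection of closed `n`-manifolds such that every (connected) finite covering space of a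
member is a member. -/
structure IsCoverClosed (n : ℕ) (𝒜 : SpaceClass) : Prop where
  closed_manifold : ∀ (X : Type) [TopologicalSpace X], 𝒜 X → IsClosedManifold n X
  finite_cover : ∀ (X Y : Type) [TopologicalSpace X] [TopologicalSpace Y], 𝒜 Y →
    ConnectedSpace X → ∀ p : X → Y, IsCoveringMap p → (∀ y, (p ⁻¹' {y}).Finite) → 𝒜 X

/-- An inverse sequence `B 0 ← B 1 ← B 2 ← ⋯` of members of the collection `𝒜`, whose bonding
maps are finite covering maps. -/
structure Tower (𝒜 : SpaceClass) where
  /-- the spaces -/
  B : ℕ → Type
  /-- their topologies -/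
  [top : ∀ l, TopologicalSpace (B l)]
  /-- the bonding maps -/
  q : ∀ l, B (l + 1) → B l
  mem : ∀ l, 𝒜 (B l)
  covering : ∀ l, IsCoveringMap (q l)
  finite_fibres : ∀ l y, (q l ⁻¹' {y}).Finite

/-- The weak solenoid of a tower: its inverse limit, as a subspace of the product. -/
def Tower.Limit {𝒜 : SpaceClass} (S : Tower 𝒜) : Type :=
  {x : ∀ l, S.B l // ∀ l, S.q l (x (l + 1)) = x l}

instance {𝒜 : SpaceClass} (S : Tower 𝒜) : TopologicalSpace S.Limit :=
  letI := S.top
  instTopologicalSpaceSubtype

/-- `P` is an absolute neighbourhood retract for metrizable spaces, in the form of an absolute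
neighbourhood extensor: `P` is metrizable, and every continuous map from a closed subset of a
metrizable space to `P` extends continuously to a neighbourhood of this subset. -/
def IsANR (P : Type) [TopologicalSpace P] : Prop :=
  TopologicalSpace.MetrizableSpace P ∧
    ∀ (Z : Type) [TopologicalSpace Z] [TopologicalSpace.MetrizableSpace Z] (A : Set Z),
      IsClosed A → ∀ f : C(A, P), ∃ (U : Set Z) (hAU : A ⊆ U), IsOpen U ∧
        ∃ g : C(U, P), ∀ a : A, g ⟨a, hAU a.2⟩ = f a

/-- The set `[X, P]` of homotopy classes of continuous maps. -/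
def HClass (X P : Type) [TopologicalSpace X] [TopologicalSpace P] : Type :=
  Quotient (⟨ContinuousMap.Homotopic, ContinuousMap.Homotopic.equivalence⟩ : Setoid C(X, P))

/-- The homotopy class of a map. -/
def HClass.mk {X P : Type} [TopologicalSpace X] [TopologicalSpace P] (f : C(X, P)) :
    HClass X P :=
  Quotient.mk _ f

/-- Composition with a map `u : P → Q` induces `[X, P] → [X, Q]`. -/
def HClass.post {X P Q : Type} [TopologicalSpace X] [TopologicalSpace P] [TopologicalSpace Q]
    (u : C(P, Q)) : HClass X P → HClass X Q :=
  Quotient.map (fun f => u.comp f) (fun _ _ h => (ContinuousMap.Homotopic.refl u).comp h)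

/-- A shape equivalence from `Y` to `X`, in the form of Mardesic's description of the shape
category: a natural isomorphism between the functors `[X, -]` and `[Y, -]` on the homotopy
category of absolute neighbourhood retracts. -/
structure ShapeEquiv (X Y : Type) [TopologicalSpace X] [TopologicalSpace Y] where
  /-- the bijections `[X, P] ≃ [Y, P]` -/
  toEquiv : ∀ (P : Type) [TopologicalSpace P], IsANR P → HClass X P ≃ HClass Y P
  natural : ∀ (P Q : Type) [TopologicalSpace P] [TopologicalSpace Q] (hP : IsANR P)
    (hQ : IsANR Q) (u : C(P, Q)) (c : HClass X P),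
    toEquiv Q hQ (HClass.post u c) = HClass.post u (toEquiv P hP c)

/-- The shape equivalence `Φ` is induced by the map `F : Y → X`. -/
def ShapeEquiv.InducedBy {X Y : Type} [TopologicalSpace X] [TopologicalSpace Y]
    (Φ : ShapeEquiv X Y) (F : C(Y, X)) : Prop :=
  ∀ (P : Type) [TopologicalSpace P] (hP : IsANR P) (a : C(X, P)),
    Φ.toEquiv P hP (HClass.mk a) = HClass.mk (a.comp F)

end Pool.Agent.Lib.MP_271836_gt
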