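import Pool.Agent.Lib.MP_271836_gt.Bieb5

/-!
# Euclidean coverings with isometric deck transformations
-/

namespace Pool.Agent.Lib.MP_271836_gt.Flat

open Topology Set unitInterval
open scoped RealInnerProductSpace

variable {E : Type*} [NormedAddCommGroup E] [InnerProductSpace ℝ E] [FiniteDimensional ℝ E]

/-- A covering map from a Euclidean space whose fibres are orbits of a group of isometries. -/
structure FlatCov {X : Type*} [TopologicalSpace X] (π : E → X) : Prop where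
  cov : IsCoveringMap π
  surj : Function.Surjective π
  trans : ∀ x y, π x = π y → ∃ g : E ≃ᵢ E, g x = y ∧ ∀ z, π (g z) = π z

/-- The group of isometric deck transformations. -/
def deck {X : Type*} (π : E → X) : Subgroup (E ≃ᵢ E) where
  carrier := {g | ∀ z, π (g z) = π z}
  mul_mem' := by
    intro a b ha hb z
    rw [IsometryEquiv.mul_apply, ha, hb]
  one_mem' := fun z => rfl
  inv_mem' := by
    intro a ha z
    have := ha (a⁻¹ z)
    rw [IsometryEquiv.apply_inv_self] at this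
    exact this.symm

omit [FiniteDimensional ℝ E] in
theorem mem_deck {X : Type*} {π : E → X} {g : E ≃ᵢ E} : g ∈ deck π ↔ ∀ z, π (g z) = π z := Iff.rfl

section

variable {X : Type*} [TopologicalSpace X] {π : E → X}

omit [FiniteDimensional ℝ E] in
theorem FlatCov.ext_deck (h : FlatCov π) {g g' : E ≃ᵢ E} (hg : g ∈ deck π) (hg' : g' ∈ deck π)
    (x : E) (hx : g x = g' x) : g = g' := by
  have h1 := h.cov.eq_of_comp_eq (A := E) (g₁ := g) (g₂ := g') g.continuous g'.continuous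
    (by funext z; exact (hg z).trans (hg' z).symm) x hx
  exact IsometryEquiv.ext fun z => congrFun h1 z

theorem FlatCov.disc [T2Space X] (h : FlatCov π) : Disc (deck π) := by
  intro r
  haveI : ProperSpace E := FiniteDimensional.proper ℝ E
  have hcl : IsClosed (π ⁻¹' {π 0}) := isClosed_singleton.preimage h.cov.continuous
  have hK : IsCompact (Metric.closedBall (0 : E) r ∩ π ⁻¹' {π 0}) :=
    (isCompact_closedBall (0 : E) r).inter_right hcl
  have hd : IsDiscrete (π ⁻¹' {π 0}) :=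
    isDiscrete_iff_discreteTopology.2 (h.cov (π 0)).discreteTopology_fiber
  have hfin : (Metric.closedBall (0 : E) r ∩ π ⁻¹' {π 0}).Finite :=
    hK.finite (hd.mono inter_subset_right)
  refine Set.Finite.of_finite_image (f := fun g : E ≃ᵢ E => g 0) (hfin.subset ?_) ?_
  · rintro _ ⟨g, ⟨hg, hr⟩, rfl⟩
    exact ⟨mem_closedBall_zero_iff.2 hr, hg 0⟩
  · rintro g ⟨hg, -⟩ g' ⟨hg', -⟩ hgg
    exact h.ext_deck hg hg' 0 hgg

omit [FiniteDimensional ℝ E] in
theorem FlatCov.exists_ball [CompactSpace X] (h : FlatCov π) :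
    ∃ D : ℝ, ∀ x : E, ∃ y, ‖y‖ < D ∧ ∃ g ∈ deck π, g y = x := by
  have h1 : (univ : Set X) ⊆ ⋃ k : ℕ, π '' Metric.ball (0 : E) k := by
    intro x _
    obtain ⟨y, rfl⟩ := h.surj x
    obtain ⟨k, hk⟩ := exists_nat_gt ‖y‖
    exact mem_iUnion.2 ⟨k, y, mem_ball_zero_iff.2 hk, rfl⟩
  obtain ⟨t, ht⟩ := isCompact_univ.elim_finite_subcover _
    (fun k : ℕ => h.cov.isOpenMap _ Metric.isOpen_ball) h1
  obtain ⟨D, hD⟩ : ∃ D : ℕ, ∀ k ∈ t, k ≤ D := ⟨t.sup id, fun k hk => Finset.le_sup (f := id) hk⟩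
  refine ⟨D, fun x => ?_⟩
  obtain ⟨k, hk, y, hy, hyx⟩ : ∃ k ∈ t, ∃ y ∈ Metric.ball (0 : E) k, π y = π x := by
    have := ht (mem_univ (π x))
    simp only [mem_iUnion] at this
    obtain ⟨k, hk, y, hy, hyx⟩ := this
    exact ⟨k, hk, y, hy, hyx⟩
  obtain ⟨g, hgy, hg⟩ := h.trans y x hyx
  refine ⟨y, ?_, g, hg, hgy⟩
  exact (mem_ball_zero_iff.1 hy).trans_le (by exact_mod_cast hD k hk)

omit [FiniteDimensional ℝ E] in
theorem FlatCov.coc [CompactSpace X] (h : FlatCov π) : Coc (deck π) := by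
  obtain ⟨D, hD⟩ := h.exists_ball
  refine ⟨D, fun x => ?_⟩
  obtain ⟨y, hy, g, hg, hgy⟩ := hD x
  refine ⟨g, hg, ?_⟩
  rw [← hgy, rot_sub, LinearIsometryEquiv.norm_map, zero_sub, norm_neg]
  exact hy.le

end

section lifts

variable {X Y : Type*} [TopologicalSpace X] [TopologicalSpace Y] {π : E → X} {π' : E → Y}

/-- Maps lift to the Euclidean coverings. -/
theorem FlatCov.exists_lift (h : FlatCov π) (h' : FlatCov π') (k : C(X, Y)) :
    ∃ f : C(E, E), ∀ x, π' (f x) = k (π x) := by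
  obtain ⟨e, he⟩ := h'.surj (k (π 0))
  obtain ⟨f, ⟨-, hf⟩, -⟩ := h'.cov.existsUnique_continuousMap_lifts
    (k.comp ⟨π, h.cov.continuous⟩) 0 e he
  exact ⟨f, fun x => congrFun hf x⟩

omit [FiniteDimensional ℝ E] in
/-- Lifts are equivariant. -/
theorem FlatCov.equivar (h' : FlatCov π') {k : X → Y} {f : E → E} (hf : Continuous f)
    (hk : ∀ x, π' (f x) = k (π x)) : Equivar (deck π) (deck π') f := by
  intro γ hγ
  obtain ⟨γ', h0, hγ'⟩ := h'.trans (f 0) (f (γ 0)) (by rw [hk, hk, hγ])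
  refine ⟨γ', hγ', fun x => ?_⟩
  have h1 := h'.cov.eq_of_comp_eq (A := E) (g₁ := fun x => f (γ x)) (g₂ := fun x => γ' (f x))
    (hf.comp γ.continuous) (γ'.continuous.comp hf) (by
      funext z
      show π' (f (γ z)) = π' (γ' (f z))
      rw [hk, hγ, hγ', hk]) 0 h0.symm
  exact congrFun h1 x

omit [FiniteDimensional ℝ E] in
/-- A lift of a map homotopic to the identity is at bounded distance from a deck
transformation. -/
theorem FlatCov.exists_bounded [CompactSpace X] [ProperSpace E] (h : FlatCov π) {k : C(X, X)}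
    (hk : k.Homotopic (ContinuousMap.id X)) (f : C(E, E)) (hf : ∀ x, π (f x) = k (π x)) :
    ∃ δ ∈ deck π, ∃ C : ℝ, ∀ x, ‖f x - δ x‖ ≤ C := by
  obtain ⟨H⟩ := hk
  let π₁ : C(E, X) := ⟨π, h.cov.continuous⟩
  have hL0 : ∀ a : E, (H.toContinuousMap.comp ((ContinuousMap.id I).prodMap π₁)) (0, a) =
      π (f a) := fun a => (H.apply_zero (π a)).trans (hf a).symm
  set L := h.cov.liftHomotopy (H.toContinuousMap.comp ((ContinuousMap.id I).prodMap π₁)) f hL0
    with hLdef
  have hl : ∀ t z, π (L (t, z)) = H (t, π z) := fun t z =>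
    congrFun (h.cov.liftHomotopy_lifts _ f hL0) (t, z)
  have h0 : ∀ z, L (0, z) = f z := fun z => h.cov.liftHomotopy_zero _ f hL0 z
  have h1 : ∀ z, π (L (1, z)) = π z := fun z => (hl 1 z).trans (H.apply_one (π z))
  obtain ⟨δ, hδ0, hδ⟩ := h.trans 0 (L (1, 0)) (h1 0).symm
  have hL1 : ∀ z, L (1, z) = δ z := by
    have h2 := h.cov.eq_of_comp_eq (A := E) (g₁ := fun z => L (1, z)) (g₂ := δ)
      (L.continuous.comp (Continuous.prodMk_right 1)) δ.continuous (by
        funext z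
        show π (L (1, z)) = π (δ z)
        rw [h1, hδ]) 0 hδ0.symm
    exact fun z => congrFun h2 z
  have hinv : ∀ γ ∈ deck π, ∃ γ' : E ≃ᵢ E, ∀ t z, L (t, γ z) = γ' (L (t, z)) := by
    intro γ hγ
    obtain ⟨γ', h3, hγ'⟩ := h.trans (L (0, 0)) (L (0, γ 0)) (by rw [hl, hl, hγ])
    refine ⟨γ', fun t z => ?_⟩
    have h4 := h.cov.eq_of_comp_eq (A := I × E) (g₁ := fun p => L (p.1, γ p.2))
      (g₂ := fun p => γ' (L p))
      (L.continuous.comp (continuous_fst.prodMk (γ.continuous.comp continuous_snd)))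
      (γ'.continuous.comp L.continuous) (by
        funext p
        show π (L (p.1, γ p.2)) = π (γ' (L p))
        rw [hl, hγ, hγ']
        exact (hl p.1 p.2).symm) (0, 0) h3.symm
    exact congrFun h4 (t, z)
  obtain ⟨D, hD⟩ := h.exists_ball
  have hcont : Continuous fun x => f x - δ x := f.continuous.sub δ.continuous
  obtain ⟨C, hC⟩ := (isCompact_closedBall (0 : E) D).exists_bound_of_continuousOn
    hcont.continuousOn
  refine ⟨δ, hδ, C, fun x => ?_⟩
  obtain ⟨y, hy, g, hg, rfl⟩ := hD x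
  obtain ⟨γ', hγ'⟩ := hinv g hg
  have h3 : f (g y) - δ (g y) = rot γ' (f y - δ y) := by
    rw [← h0 (g y), ← hL1 (g y), hγ', hγ', rot_sub, h0, hL1]
  rw [h3, LinearIsometryEquiv.norm_map]
  exact hC y (mem_closedBall_zero_iff.2 hy.le)

end lifts

end Pool.Agent.Lib.MP_271836_gt.Flat
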