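import Pool.Agent.Lib.MP_271836_gt.Flat1
import Pool.Agent.Lib.MP_271836_gt.Cover

/-!
# Homotopy equivalences between closed flat manifolds are homotopic to homeomorphisms
-/

namespace Pool.Agent.Lib.MP_271836_gt.Flat

open Topology Set unitInterval
open scoped RealInnerProductSpace

variable {E : Type} [NormedAddCommGroup E] [InnerProductSpace ℝ E] [FiniteDimensional ℝ E]
variable {X Y : Type} [TopologicalSpace X] [TopologicalSpace Y] {π : E → X} {π' : E → Y}

omit [FiniteDimensional ℝ E] in
theorem affine_comb (g : E ≃ᵢ E) (t : ℝ) (a b : E) :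
    (1 - t) • g a + t • g b = g ((1 - t) • a + t • b) := by
  rw [apply_eq g a, apply_eq g b, apply_eq g ((1 - t) • a + t • b), map_add, map_smul, map_smul,
    smul_add, smul_add, sub_smul, sub_smul, one_smul, one_smul]
  abel

/-- Homotopy equivalences between compact flat manifolds are homotopic to homeomorphisms. -/
theorem FlatCov.rigid [CompactSpace X] [T2Space X] [ConnectedSpace X] [CompactSpace Y] [T2Space Y]
    [ConnectedSpace Y] (h : FlatCov π) (h' : FlatCov π') (k : ContinuousMap.HomotopyEquiv X Y) :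
    ∃ φ : X ≃ₜ Y, k.toFun.Homotopic (φ : C(X, Y)) := by
  haveI : ProperSpace E := FiniteDimensional.proper ℝ E
  obtain ⟨f, hf⟩ := h.exists_lift h' k.toFun
  obtain ⟨f', hf'⟩ := h'.exists_lift h k.invFun
  have he := h'.equivar (π := π) f.continuous hf
  have he' := h.equivar (π := π') f'.continuous hf'
  obtain ⟨M, c, ⟨C, hC⟩, hMc⟩ := exists_affine h.disc h.coc h'.disc h'.coc f.continuous he
  obtain ⟨M', C', hC'⟩ := exists_linear h'.disc h'.coc h.disc h.coc f'.continuous he'
  obtain ⟨δ, hδ, K, hK⟩ := h.exists_bounded k.left_inv (f'.comp f) (fun x => by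
    show π (f' (f x)) = k.invFun (k.toFun (π x))
    rw [hf', hf])
  -- the linear part is invertible
  have hMM : ∀ x, M' (M x) = rot δ x := by
    have h1 : M' ∘ₗ M - ((rot δ).toLinearEquiv : E →ₗ[ℝ] E) = 0 := by
      apply linear_eq_zero_of_bounded _
        (‖LinearMap.toContinuousLinearMap M'‖ * C + C' + K + ‖δ 0‖)
      intro x
      have h2 : (M' ∘ₗ M - ((rot δ).toLinearEquiv : E →ₗ[ℝ] E)) x = M' (M x) - rot δ x := rfl
      have h3 : M' (M x) - rot δ x =
          (-(LinearMap.toContinuousLinearMap M' (f x - M x)) - (f' (f x) - M' (f x)))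
            + (f' (f x) - δ x) + δ 0 := by
        rw [apply_eq δ x, LinearMap.coe_toContinuousLinearMap', map_sub M']
        abel
      rw [h2, h3]
      refine (norm_add_le _ _).trans (add_le_add ((norm_add_le _ _).trans (add_le_add ?_ (hK x)))
        le_rfl)
      refine (norm_sub_le _ _).trans (add_le_add ?_ (hC' _))
      rw [norm_neg]
      refine (ContinuousLinearMap.le_opNorm _ _).trans ?_
      gcongr
      exact hC x
    intro x
    exact sub_eq_zero.1 (congrArg (fun T : E →ₗ[ℝ] E => T x) h1)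
  have hinj : Function.Injective M := by
    intro x y hxy
    have h1 : rot δ x = rot δ y := by rw [← hMM, ← hMM, hxy]
    exact (rot δ).injective h1
  let Me : E ≃ₗ[ℝ] E := LinearEquiv.ofInjectiveEndo M hinj
  let F : E ≃ₜ E := (Me.toContinuousLinearEquiv.toHomeomorph).trans (Homeomorph.addRight c)
  have hF : ∀ x, F x = M x + c := fun x => rfl
  -- the homotopy
  let π₁ : C(E, X) := ⟨π, h.cov.continuous⟩
  let π₁' : C(E, Y) := ⟨π', h'.cov.continuous⟩
  have hquot : IsOpenQuotientMap π := ⟨h.surj, h.cov.continuous, h.cov.isOpenMap⟩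
  have hprod : IsOpenQuotientMap (Prod.map (id : I → I) π) := IsOpenQuotientMap.id.prodMap hquot
  let G₀ : C(I × E, Y) := ⟨fun p => π' ((1 - (p.1 : ℝ)) • f p.2 + (p.1 : ℝ) • F p.2), by
    have := h'.cov.continuous
    fun_prop⟩
  have hG₀ : Function.FactorsThrough G₀ (Prod.map (id : I → I) π) := by
    rintro ⟨t, x⟩ ⟨s, y⟩ hxy
    obtain ⟨h1, h2⟩ := Prod.mk.inj hxy
    have hts : t = s := h1
    have hxy' : π x = π y := h2
    subst hts
    obtain ⟨g, rfl, hg⟩ := h.trans x y hxy'
    obtain ⟨g', hg', hfg⟩ := he g hg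
    have hFg := hMc g hg g' hg' hfg
    show π' ((1 - (t : ℝ)) • f x + (t : ℝ) • F x) =
      π' ((1 - (t : ℝ)) • f (g x) + (t : ℝ) • F (g x))
    rw [hF, hF, hfg, hFg, affine_comb, hg']
  let G : C(I × X, Y) := hprod.isQuotientMap.lift (f := ⟨Prod.map id π, hprod.continuous⟩) G₀ hG₀
  have hG : ∀ t x, G (t, π x) = π' ((1 - (t : ℝ)) • f x + (t : ℝ) • F x) := by
    intro t x
    exact congrArg (fun v : C(I × E, Y) => v (t, x))
      (hprod.isQuotientMap.lift_comp (f := ⟨Prod.map id π, hprod.continuous⟩) G₀ hG₀)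
  let φ : C(X, Y) := ⟨fun x => G (1, x), by fun_prop⟩
  have hφ : ∀ x, φ (π x) = π' (F x) := by
    intro x
    show G (1, π x) = _
    rw [hG]
    simp
  have hkφ : k.toFun.Homotopic φ := by
    refine ⟨⟨G, fun x => ?_, fun x => rfl⟩⟩
    obtain ⟨y, rfl⟩ := h.surj x
    show G (0, π y) = k.toFun (π y)
    rw [hG, ← hf]
    simp
  -- `φ` is a local homeomorphism
  have hloc : IsLocalHomeomorph φ := by
    rw [isLocalHomeomorph_iff_isLocalHomeomorphOn_univ]
    have h1 : IsLocalHomeomorph (φ ∘ π) := by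
      have h2 : φ ∘ π = π' ∘ F := funext hφ
      rw [h2]
      exact h'.cov.isLocalHomeomorph.comp F.isLocalHomeomorph
    have h3 := IsLocalHomeomorphOn.of_comp_right (s := univ) (f := π) (g := φ)
      h1.isLocalHomeomorphOn h.cov.isLocalHomeomorph.isLocalHomeomorphOn
    rwa [image_univ, h.surj.range_eq] at h3
  -- it has a section
  obtain ⟨s, -, hs⟩ := exists_homotopic_lift φ (covering_of_local hloc) k.invFun
    (ContinuousMap.id Y)
    ((hkφ.symm.comp (ContinuousMap.Homotopic.refl k.invFun)).trans k.right_inv)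
  have hs' : ∀ y, φ (s y) = y := fun y => congrArg (fun v : C(Y, Y) => v y) hs
  have hsloc : IsLocalHomeomorph s := by
    apply IsLocalHomeomorph.of_comp _ hloc s.continuous
    have h1 : (φ ∘ s : Y → Y) = id := funext hs'
    rw [h1]
    exact (Homeomorph.refl Y).isLocalHomeomorph
  have hssurj : Function.Surjective s := by
    have h1 : IsOpen (range s) := hsloc.isOpenMap.isOpen_range
    have h2 : IsClosed (range s) := (isCompact_range s.continuous).isClosed
    rcases isClopen_iff.1 ⟨h2, h1⟩ with h | h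
    · exfalso
      obtain ⟨z⟩ := (inferInstance : Nonempty Y)
      have : s z ∈ range s := mem_range_self z
      rw [h] at this
      exact this
    · exact range_eq_univ.1 h
  have hbij : Function.Bijective φ := by
    constructor
    · intro x y hxy
      obtain ⟨a, rfl⟩ := hssurj x
      obtain ⟨b, rfl⟩ := hssurj y
      rw [hs', hs'] at hxy
      rw [hxy]
    · intro y
      exact ⟨s y, hs' y⟩
  exact ⟨hloc.toHomeomorphOfBijective hbij, hkφ⟩

end Pool.Agent.Lib.MP_271836_gt.Flat
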