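import Pool.Agent.Lib.MP_271836_gt.Flat2

/-!
# Finite coverings of closed flat manifolds
-/

namespace Pool.Agent.Lib.MP_271836_gt.Flat

open Topology Set unitInterval
open scoped RealInnerProductSpace

variable {E : Type} [NormedAddCommGroup E] [InnerProductSpace ℝ E]
variable {X X' : Type} [TopologicalSpace X] [TopologicalSpace X'] {π : E → X} {p : X' → X}

/-- Lifting the Euclidean covering to a covering space. -/
theorem FlatCov.exists_lift_cov (h : FlatCov π) (hp : IsCoveringMap p) (a : E) (x' : X')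
    (hx : p x' = π a) : ∃ s : C(E, X'), s a = x' ∧ ∀ z, p (s z) = π z := by
  obtain ⟨s, ⟨h0, hs⟩, -⟩ := hp.existsUnique_continuousMap_lifts
    (⟨π, h.cov.continuous⟩ : C(E, X)) a x' hx
  exact ⟨s, h0, fun z => congrFun hs z⟩

/-- Lifts which agree at one point agree. -/
theorem lift_unique (hp : IsCoveringMap p) {s s' : E → X'} (hs : Continuous s) (hs' : Continuous s')
    (h : ∀ z, p (s z) = p (s' z)) (a : E) (ha : s a = s' a) : s = s' :=
  hp.eq_of_comp_eq (A := E) hs hs' (by funext z; exact h z) a ha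

/-- A lift of the Euclidean covering to a connected covering space is again such a covering. -/
theorem FlatCov.flatCov_lift [ConnectedSpace X'] (h : FlatCov π) (hp : IsCoveringMap p)
    (s : C(E, X')) (hs : ∀ z, p (s z) = π z) : FlatCov s := by
  have hsloc : IsLocalHomeomorph s := by
    apply IsLocalHomeomorph.of_comp _ hp.isLocalHomeomorph s.continuous
    have h1 : p ∘ s = π := funext hs
    rw [h1]
    exact h.cov.isLocalHomeomorph
  have htrans : ∀ x y, s x = s y → ∃ g : E ≃ᵢ E, g x = y ∧ ∀ z, s (g z) = s z := by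
    intro x y hxy
    obtain ⟨g, hgx, hg⟩ := h.trans x y (by rw [← hs, ← hs, hxy])
    refine ⟨g, hgx, fun z => ?_⟩
    have h1 := lift_unique hp (s := fun z => s (g z)) (s' := s) (s.continuous.comp g.continuous)
      s.continuous (fun z => by rw [hs, hs, hg]) x (by
        show s (g x) = s x
        rw [hgx, hxy])
    exact congrFun h1 z
  have hopen : IsOpen (range s) := hsloc.isOpenMap.isOpen_range
  have hclosed : IsClosed (range s) := by
    rw [← isOpen_compl_iff, isOpen_iff_mem_nhds]
    intro x' hx'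
    obtain ⟨a, ha⟩ := h.surj (p x')
    obtain ⟨s', hs'a, hs'⟩ := h.exists_lift_cov hp a x' ha.symm
    have hs'loc : IsLocalHomeomorph s' := by
      apply IsLocalHomeomorph.of_comp _ hp.isLocalHomeomorph s'.continuous
      have h1 : p ∘ s' = π := funext hs'
      rw [h1]
      exact h.cov.isLocalHomeomorph
    refine Filter.mem_of_superset (hs'loc.isOpenMap.isOpen_range.mem_nhds ⟨a, hs'a⟩) ?_
    rintro _ ⟨b, rfl⟩ ⟨c, hc⟩
    apply hx'
    obtain ⟨g, hgc, hg⟩ := h.trans c b (by rw [← hs, ← hs', hc])
    have h1 := lift_unique hp (s := fun z => s' (g z)) (s' := s) (s'.continuous.comp g.continuous)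
      s.continuous (fun z => by rw [hs, hs', hg]) c (by
        show s' (g c) = s c
        rw [hgc, hc])
    refine ⟨g⁻¹ a, ?_⟩
    have h2 := congrFun h1 (g⁻¹ a)
    have h3 : s' (g (g⁻¹ a)) = s (g⁻¹ a) := h2
    rw [← h3, IsometryEquiv.apply_inv_self, hs'a]
  have hsurj : Function.Surjective s := by
    rcases isClopen_iff.1 ⟨hclosed, hopen⟩ with h | h
    · exfalso
      have : s 0 ∈ range s := mem_range_self 0
      rw [h] at this
      exact this
    · exact range_eq_univ.1 h
  refine ⟨?_, hsurj, htrans⟩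
  letI : MulAction (deck s) E :=
    { smul := fun g x => g.1 x
      one_smul := fun x => rfl
      mul_smul := fun g g' x => rfl }
  have hq : IsQuotientCoveringMap s (deck s) :=
    { hsloc.isOpenMap.isQuotientMap s.continuous hsurj with
      continuous_const_smul := fun g => g.1.continuous
      apply_eq_iff_mem_orbit := by
        intro e₁ e₂
        constructor
        · intro he
          obtain ⟨g, hg, hgs⟩ := htrans e₂ e₁ he.symm
          exact ⟨⟨g, hgs⟩, hg⟩
        · rintro ⟨g, rfl⟩
          exact g.2 e₂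
      disjoint := by
        intro e
        obtain ⟨U, hU, hinj⟩ := (isLocallyInjective_iff_nhds.1 hsloc.isLocallyInjective) e
        refine ⟨U, hU, ?_⟩
        rintro g ⟨_, ⟨u, hu, rfl⟩, hgu⟩
        have h1 : g.1 u = u := hinj hgu hu (g.2 u)
        apply Subtype.ext
        have hgπ : g.1 ∈ deck π := fun z => by rw [← hs, ← hs, g.2]
        exact h.ext_deck hgπ (one_mem _) u h1 }
  exact hq.isCoveringMap

/-- A covering space with finite fibres of a compact space with a Euclidean covering is
compact. -/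
theorem FlatCov.compact_cov [CompactSpace X] [ProperSpace E] (h : FlatCov π)
    (hp : IsCoveringMap p) (hfin : ∀ x, (p ⁻¹' {x}).Finite) : CompactSpace X' := by
  classical
  obtain ⟨D, hD⟩ := h.exists_ball
  have hlift : ∀ e' ∈ p ⁻¹' {π 0}, ∃ s : C(E, X'), s 0 = e' ∧ ∀ z, p (s z) = π z :=
    fun e' he' => h.exists_lift_cov hp 0 e' he'
  haveI : Nonempty (C(E, X')) ∨ IsEmpty X' := by
    rcases isEmpty_or_nonempty X' with hX | ⟨⟨x'⟩⟩
    · exact Or.inr hX
    · exact Or.inl ⟨ContinuousMap.const _ x'⟩
  rcases this with hne | hemp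
  swap
  · infer_instance
  choose! s hs0 hs using hlift
  have hcomp : IsCompact (⋃ e' ∈ p ⁻¹' {π 0}, s e' '' Metric.closedBall (0 : E) D) :=
    (hfin (π 0)).isCompact_biUnion fun e' _ =>
      (isCompact_closedBall (0 : E) D).image (s e').continuous
  refine ⟨?_⟩
  convert hcomp
  symm
  rw [eq_univ_iff_forall]
  intro x'
  obtain ⟨b, hb⟩ := h.surj (p x')
  obtain ⟨y, hy, g, hg, hgy⟩ := hD b
  have hy' : π y = p x' := by rw [← hb, ← hgy, hg]
  obtain ⟨s', hs'y, hs'⟩ := h.exists_lift_cov hp y x' hy'.symm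
  have he' : s' 0 ∈ p ⁻¹' {π 0} := hs' 0
  have h1 := lift_unique hp (s := s') (s' := s (s' 0)) s'.continuous (s (s' 0)).continuous
    (fun z => by rw [hs', hs _ he']) 0 (hs0 _ he').symm
  simp only [mem_iUnion]
  refine ⟨s' 0, he', y, mem_closedBall_zero_iff.2 hy.le, ?_⟩
  rw [← hs'y]
  exact (congrFun h1 y).symm

omit [InnerProductSpace ℝ E] in
/-- Covering spaces of Hausdorff spaces are Hausdorff. -/
theorem t2_cov [T2Space X] (hp : IsCoveringMap p) : T2Space X' := by
  refine ⟨fun x y hxy => ?_⟩
  by_cases h : p x = p y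
  · exact hp.isSeparatedMap x y h hxy
  · obtain ⟨u, v, hu, hv, hxu, hyv, huv⟩ := t2_separation h
    exact ⟨p ⁻¹' u, p ⁻¹' v, hu.preimage hp.continuous, hv.preimage hp.continuous, hxu, hyv,
      huv.preimage p⟩

end Pool.Agent.Lib.MP_271836_gt.Flat
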