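import Pool.Agent.Lib.MP_271836_gt.Defs

/-!
# Closed flat manifolds
-/

namespace Pool.Agent.Lib.MP_271836_gt

/-- `X` is (homeomorphic to) a closed flat Riemannian `n`-manifold: a closed `n`-manifold with a
surjective covering map `π` from Euclidean space `ℝⁿ`, whose deck transformations are isometries:
for any two points `x`, `y` of `ℝⁿ` with the same image there is an isometry `g` of `ℝⁿ` with
`g x = y` and `π ∘ g = π`. So `X` is the quotient of `ℝⁿ` by a discrete group of isometries acting
freely and cocompactly. -/
def IsFlatManifold (n : ℕ) (X : Type) [TopologicalSpace X] : Prop :=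
  IsClosedManifold n X ∧
    ∃ π : EuclideanSpace ℝ (Fin n) → X, IsCoveringMap π ∧ Function.Surjective π ∧
      ∀ x y, π x = π y → ∃ g : EuclideanSpace ℝ (Fin n) ≃ᵢ EuclideanSpace ℝ (Fin n),
        g x = y ∧ ∀ z, π (g z) = π z

end Pool.Agent.Lib.MP_271836_gt
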