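import Pool.Agent.Lib.MP_271836_gt.Ladder

/-!
# The main theorem on weak solenoids
-/

namespace Pool.Agent.Lib.MP_271836_gt

open Topology Set unitInterval

variable {n : ℕ} {𝒜 : SpaceClass}

/-- The bonding maps of a tower as bundled continuous maps. -/
def Tower.bond (S : Tower 𝒜) : letI := S.top; ∀ l, C(S.B (l + 1), S.B l) :=
  letI := S.top
  fun l => ⟨S.q l, (S.covering l).continuous⟩

/-- Rigidity of the members implies that shape equivalences are induced by homeomorphisms. -/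
theorem realize_of_rigid (h𝒜 : IsCoverClosed n 𝒜)
    (rigid : ∀ (X Y : Type) [TopologicalSpace X] [TopologicalSpace Y], 𝒜 X → 𝒜 Y →
      ∀ k : ContinuousMap.HomotopyEquiv X Y, ∃ φ : X ≃ₜ Y, k.toFun.Homotopic (φ : C(X, Y)))
    (S T : Tower 𝒜) (Φ : ShapeEquiv S.Limit T.Limit) :
    ∃ F : T.Limit ≃ₜ S.Limit, Φ.InducedBy (F : C(T.Limit, S.Limit)) := by
  letI := S.top
  letI := T.top
  have mS := fun l => h𝒜.closed_manifold _ (S.mem l)
  have mT := fun l => h𝒜.closed_manifold _ (T.mem l)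
  haveI : ∀ l, CompactSpace (S.B l) := fun l => (mS l).1
  haveI : ∀ l, CompactSpace (T.B l) := fun l => (mT l).1
  haveI : ∀ l, ConnectedSpace (S.B l) := fun l => (mS l).2.1
  haveI : ∀ l, ConnectedSpace (T.B l) := fun l => (mT l).2.1
  haveI : ∀ l, T2Space (S.B l) := fun l => (mS l).2.2.1
  haveI : ∀ l, T2Space (T.B l) := fun l => (mT l).2.2.1
  haveI : ∀ l, TopologicalSpace.MetrizableSpace (S.B l) := fun l => (mS l).metrizable
  haveI : ∀ l, TopologicalSpace.MetrizableSpace (T.B l) := fun l => (mT l).metrizable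
  haveI : ∀ l, LocallyConnectedSpace (T.B l) := fun l => (mT l).locallyConnected
  have hB : ∀ l, IsANR (S.B l) := fun l => (mS l).isANR
  have hB' : ∀ l, IsANR (T.B l) := fun l => (mT l).isANR
  have pt : ∀ l, S.B l := fun l => Classical.choice inferInstance
  have pt' : ∀ l, T.B l := fun l => Classical.choice inferInstance
  set q : ∀ l, C(S.B (l + 1), S.B l) := S.bond with hq
  set q' : ∀ l, C(T.B (l + 1), T.B l) := T.bond with hq'
  have lq : ∀ l, IsLocalHomeomorph (q l) := fun l => (S.covering l).isLocalHomeomorph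
  have lq' : ∀ l, IsLocalHomeomorph (q' l) := fun l => (T.covering l).isLocalHomeomorph
  change ShapeEquiv (lim q) (lim q') at Φ
  -- three steps of the ladder
  obtain ⟨a, ha⟩ := HClass.exists_rep (Φ.symm.toEquiv _ (hB' 0) (HClass.mk (prj q' 0)))
  obtain ⟨m₀, hm₀⟩ := exists_factor q (hB' 0) pt a
  obtain ⟨h, hah⟩ := hm₀ m₀ le_rfl
  have hh : Φ.toEquiv _ (hB' 0) (HClass.mk (h.comp (prj q m₀))) = HClass.mk (prj q' 0) := by
    have h1 : (Φ.toEquiv _ (hB' 0)).symm (HClass.mk (prj q' 0)) = HClass.mk a := ha.symm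
    rw [Equiv.symm_apply_eq] at h1
    rw [h1]
    congr 1
    exact HClass.mk_eq_iff.2 hah.symm
  obtain ⟨n₀, hn₀⟩ := exists_next Φ pt' hB hB' m₀ 0 h hh
  obtain ⟨h0n, f, hf, hhf⟩ := hn₀ n₀ le_rfl
  have hf' : Φ.symm.toEquiv _ (hB m₀) (HClass.mk (f.comp (prj q' n₀))) = HClass.mk (prj q m₀) := by
    show (Φ.toEquiv _ (hB m₀)).symm _ = _
    rw [Equiv.symm_apply_eq]
    exact hf.symm
  obtain ⟨m₁, hm₁⟩ := exists_next Φ.symm pt hB' hB n₀ m₀ f hf'
  obtain ⟨hmm, g, hg, hfg⟩ := hm₁ m₁ le_rfl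
  obtain ⟨g', hg'loc, hgg'⟩ := improve g f h (qm q m₀ hmm) (qm q' 0 h0n)
    (qm_isLocalHomeomorph q lq m₀ hmm) (qm_isLocalHomeomorph q' lq' 0 h0n) hfg hhf (by
      intro E _ hconn hcomp ht2 p hp k
      have hE : 𝒜 E := h𝒜.finite_cover E (T.B n₀) (T.mem n₀) hconn p (covering_of_local hp)
        (finite_fibre hp)
      exact rigid _ _ (S.mem m₁) hE k)
  refine exists_homeo_of_stage Φ pt pt' hB hB' lq lq' ⟨m₁, n₀, g', hg'loc, ?_⟩
  have h2 : (Φ.toEquiv _ (hB' n₀)).symm (HClass.mk (prj q' n₀))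
      = HClass.mk (g.comp (prj q m₁)) := hg
  rw [Equiv.symm_apply_eq] at h2
  rw [h2]
  congr 1
  exact HClass.mk_eq_iff.2 (hgg'.symm.comp (ContinuousMap.Homotopic.refl _))

/-- A homotopy equivalence induces a shape equivalence. -/
def ShapeEquiv.ofHomotopyEquiv {X Y : Type} [TopologicalSpace X] [TopologicalSpace Y]
    (h : ContinuousMap.HomotopyEquiv Y X) : ShapeEquiv X Y where
  toEquiv P _ _ :=
    { toFun := Quotient.map (fun f => f.comp h.toFun)
        (fun _ _ k => k.comp (ContinuousMap.Homotopic.refl _))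
      invFun := Quotient.map (fun f => f.comp h.invFun)
        (fun _ _ k => k.comp (ContinuousMap.Homotopic.refl _))
      left_inv := by
        intro c
        obtain ⟨f, rfl⟩ := HClass.exists_rep c
        show HClass.mk ((f.comp h.toFun).comp h.invFun) = HClass.mk f
        rw [HClass.mk_eq_iff, ContinuousMap.comp_assoc]
        have := (ContinuousMap.Homotopic.refl f).comp h.right_inv
        rwa [ContinuousMap.comp_id] at this
      right_inv := by
        intro c
        obtain ⟨f, rfl⟩ := HClass.exists_rep c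
        show HClass.mk ((f.comp h.invFun).comp h.toFun) = HClass.mk f
        rw [HClass.mk_eq_iff, ContinuousMap.comp_assoc]
        have := (ContinuousMap.Homotopic.refl f).comp h.left_inv
        rwa [ContinuousMap.comp_id] at this }
  natural P Q _ _ hP hQ u c := by
    obtain ⟨f, rfl⟩ := HClass.exists_rep c
    rfl

theorem ShapeEquiv.ofHomotopyEquiv_mk {X Y : Type} [TopologicalSpace X] [TopologicalSpace Y]
    (h : ContinuousMap.HomotopyEquiv Y X) (P : Type) [TopologicalSpace P] (hP : IsANR P)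
    (a : C(X, P)) : (ShapeEquiv.ofHomotopyEquiv h).toEquiv P hP (HClass.mk a)
      = HClass.mk (a.comp h.toFun) := rfl

/-- The constant tower. -/
def constTower (h𝒜 : IsCoverClosed n 𝒜) (X : Type) [TopologicalSpace X] (hX : 𝒜 X) :
    Tower 𝒜 where
  B _ := X
  top _ := inferInstance
  q _ := id
  mem _ := hX
  covering _ := by
    haveI := (h𝒜.closed_manifold X hX).1
    haveI := (h𝒜.closed_manifold X hX).2.2.1
    exact covering_of_local (Homeomorph.refl X).isLocalHomeomorph
  finite_fibres _ y := finite_singleton y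

/-- The limit of the constant tower. -/
def constLimit (h𝒜 : IsCoverClosed n 𝒜) (X : Type) [TopologicalSpace X] (hX : 𝒜 X) :
    X ≃ₜ (constTower h𝒜 X hX).Limit where
  toFun x := ⟨fun _ => x, fun _ => rfl⟩
  invFun y := y.1 0
  left_inv _ := rfl
  right_inv y := by
    apply Subtype.ext
    funext l
    show y.1 0 = y.1 l
    induction l with
    | zero => rfl
    | succ l ih => rw [ih]; exact (y.2 l).symm
  continuous_toFun := by
    letI := (constTower h𝒜 X hX).top
    apply Continuous.subtype_mk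
    exact continuous_pi fun _ => continuous_id
  continuous_invFun := by
    letI := (constTower h𝒜 X hX).top
    exact (continuous_apply 0).comp continuous_subtype_val

/-- If shape equivalences are induced by homeomorphisms, then homotopy equivalences between
members are homotopic to homeomorphisms. -/
theorem rigid_of_realize (h𝒜 : IsCoverClosed n 𝒜)
    (real : ∀ (S T : Tower 𝒜) (Φ : ShapeEquiv S.Limit T.Limit),
      ∃ F : T.Limit ≃ₜ S.Limit, Φ.InducedBy (F : C(T.Limit, S.Limit)))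
    (X Y : Type) [TopologicalSpace X] [TopologicalSpace Y] (hX : 𝒜 X) (hY : 𝒜 Y)
    (k : ContinuousMap.HomotopyEquiv X Y) :
    ∃ φ : X ≃ₜ Y, k.toFun.Homotopic (φ : C(X, Y)) := by
  set ιX := constLimit h𝒜 X hX with hιX
  set ιY := constLimit h𝒜 Y hY with hιY
  let h : ContinuousMap.HomotopyEquiv (constTower h𝒜 Y hY).Limit (constTower h𝒜 X hX).Limit :=
    (ιY.symm.toHomotopyEquiv.trans k.symm).trans ιX.toHomotopyEquiv
  obtain ⟨F, hF⟩ := real _ _ (ShapeEquiv.ofHomotopyEquiv h)
  have hANR : IsANR X := (h𝒜.closed_manifold X hX).isANR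
  have h1 := hF X hANR (ιX.symm : C((constTower h𝒜 X hX).Limit, X))
  rw [ShapeEquiv.ofHomotopyEquiv_mk, HClass.mk_eq_iff] at h1
  -- `ψ : Y → X` is a homeomorphism homotopic to the homotopy inverse of `k`
  set ψ : Y ≃ₜ X := (ιY.trans F).trans ιX.symm with hψ
  have h2 : k.invFun.Homotopic (ψ : C(Y, X)) := by
    have h3 := h1.comp (ContinuousMap.Homotopic.refl (ιY : C(Y, (constTower h𝒜 Y hY).Limit)))
    have h4 : ((ιX.symm : C((constTower h𝒜 X hX).Limit, X)).comp h.toFun).comp
        (ιY : C(Y, (constTower h𝒜 Y hY).Limit)) = k.invFun := by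
      apply ContinuousMap.ext
      intro y
      show ιX.symm (ιX (k.invFun (ιY.symm (ιY y)))) = k.invFun y
      rw [ιX.symm_apply_apply, ιY.symm_apply_apply]
    have h5 : ((ιX.symm : C((constTower h𝒜 X hX).Limit, X)).comp
        (F : C((constTower h𝒜 Y hY).Limit, (constTower h𝒜 X hX).Limit))).comp
        (ιY : C(Y, (constTower h𝒜 Y hY).Limit)) = (ψ : C(Y, X)) := rfl
    rw [h4, h5] at h3
    exact h3
  refine ⟨ψ.symm, ?_⟩
  have h6 : k.toFun = (k.toFun.comp (ψ : C(Y, X))).comp (ψ.symm : C(X, Y)) := by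
    apply ContinuousMap.ext
    intro x
    show k.toFun x = k.toFun (ψ (ψ.symm x))
    rw [ψ.apply_symm_apply]
  have h7 : ((k.toFun.comp (ψ : C(Y, X))).comp (ψ.symm : C(X, Y))).Homotopic
      ((k.toFun.comp k.invFun).comp (ψ.symm : C(X, Y))) :=
    ((ContinuousMap.Homotopic.refl _).comp h2.symm).comp (ContinuousMap.Homotopic.refl _)
  have h8 : ((k.toFun.comp k.invFun).comp (ψ.symm : C(X, Y))).Homotopic
      ((ContinuousMap.id Y).comp (ψ.symm : C(X, Y))) :=
    k.right_inv.comp (ContinuousMap.Homotopic.refl _)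
  rw [h6]
  refine h7.trans ?_
  rw [ContinuousMap.id_comp] at h8
  exact h8

theorem main_iff (h𝒜 : IsCoverClosed n 𝒜) :
    (∀ (S T : Tower 𝒜) (Φ : ShapeEquiv S.Limit T.Limit),
      ∃ F : T.Limit ≃ₜ S.Limit, Φ.InducedBy (F : C(T.Limit, S.Limit))) ↔
    (∀ (X Y : Type) [TopologicalSpace X] [TopologicalSpace Y], 𝒜 X → 𝒜 Y →
      ∀ k : ContinuousMap.HomotopyEquiv X Y, ∃ φ : X ≃ₜ Y, k.toFun.Homotopic (φ : C(X, Y))) :=
  ⟨fun real X Y _ _ hX hY k => rigid_of_realize h𝒜 real X Y hX hY k,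
    fun rigid S T Φ => realize_of_rigid h𝒜 rigid S T Φ⟩

end Pool.Agent.Lib.MP_271836_gt
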