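import Pool.Agent.Lib.MP_271836_gt.Flat3
import Pool.Agent.Lib.MP_271836_gt.FlatDefs
import Pool.Agent.Lib.MP_271836_gt.Main
import Pool.Agent.Lib.MP_271836_gt.CoverEquiv

/-!
# Weak solenoids over closed flat manifolds
-/

namespace Pool.Agent.Lib.MP_271836_gt

open Topology Set

theorem isFlatManifold_iff {n : ℕ} {X : Type} [TopologicalSpace X] :
    IsFlatManifold n X ↔ IsClosedManifold n X ∧
      ∃ π : EuclideanSpace ℝ (Fin n) → X, Flat.FlatCov π := by
  constructor
  · rintro ⟨h, π, h1, h2, h3⟩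
    exact ⟨h, π, h1, h2, h3⟩
  · rintro ⟨h, π, hπ⟩
    exact ⟨h, π, hπ.cov, hπ.surj, hπ.trans⟩

/-- The closed flat manifolds contain all finite connected covering spaces of their members. -/
theorem flat_isCoverClosed (n : ℕ) : IsCoverClosed n (fun X _ => IsFlatManifold n X) where
  closed_manifold X _ h := h.1
  finite_cover X Y _ _ hY hX p hp hfin := by
    obtain ⟨hm, π, hπ⟩ := isFlatManifold_iff.1 hY
    haveI : CompactSpace Y := hm.1
    haveI : T2Space Y := hm.2.2.1
    haveI : ConnectedSpace X := hX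
    haveI : CompactSpace X := hπ.compact_cov hp hfin
    haveI : T2Space X := Flat.t2_cov hp
    obtain ⟨x⟩ := (inferInstance : Nonempty X)
    obtain ⟨a, ha⟩ := hπ.surj (p x)
    obtain ⟨s, -, hs⟩ := hπ.exists_lift_cov hp a x ha.symm
    exact isFlatManifold_iff.2
      ⟨hm.of_local inferInstance inferInstance inferInstance hp.isLocalHomeomorph,
        s, hπ.flatCov_lift hp s hs⟩

/-- Homotopy equivalences between closed flat manifolds are homotopic to homeomorphisms. -/
theorem flat_rigid (n : ℕ) (X Y : Type) [TopologicalSpace X] [TopologicalSpace Y]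
    (hX : IsFlatManifold n X) (hY : IsFlatManifold n Y)
    (k : ContinuousMap.HomotopyEquiv X Y) : ∃ φ : X ≃ₜ Y, k.toFun.Homotopic (φ : C(X, Y)) := by
  obtain ⟨hm, π, hπ⟩ := isFlatManifold_iff.1 hX
  obtain ⟨hm', π', hπ'⟩ := isFlatManifold_iff.1 hY
  haveI : CompactSpace X := hm.1
  haveI : ConnectedSpace X := hm.2.1
  haveI : T2Space X := hm.2.2.1
  haveI : CompactSpace Y := hm'.1
  haveI : ConnectedSpace Y := hm'.2.1
  haveI : T2Space Y := hm'.2.2.1
  exact hπ.rigid hπ' k

/-- Every shape equivalence between weak solenoids over closed flat manifolds is induced by a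
homeomorphism. -/
theorem flat_realize (n : ℕ) (S T : Tower (fun X _ => IsFlatManifold n X))
    (Φ : ShapeEquiv S.Limit T.Limit) :
    ∃ F : T.Limit ≃ₜ S.Limit, Φ.InducedBy (F : C(T.Limit, S.Limit)) :=
  realize_of_rigid (flat_isCoverClosed n) (fun X Y _ _ hX hY k => flat_rigid n X Y hX hY k) S T Φ

end Pool.Agent.Lib.MP_271836_gt
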