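import Pool.Agent.Lib.MP_271836_gt.Limit
import Pool.Agent.Lib.MP_271836_gt.Cover

/-!
# Strictly commuting ladders
-/

namespace Pool.Agent.Lib.MP_271836_gt

open Topology Set unitInterval

theorem HClass.mk_eq_iff {X P : Type} [TopologicalSpace X] [TopologicalSpace P] {f g : C(X, P)} :
    HClass.mk f = HClass.mk g ↔ f.Homotopic g :=
  Quotient.eq

theorem HClass.post_mk {X P Q : Type} [TopologicalSpace X] [TopologicalSpace P]
    [TopologicalSpace Q] (u : C(P, Q)) (f : C(X, P)) :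
    HClass.post u (HClass.mk f) = HClass.mk (u.comp f) := rfl

theorem HClass.exists_rep {X P : Type} [TopologicalSpace X] [TopologicalSpace P]
    (c : HClass X P) : ∃ f : C(X, P), HClass.mk f = c :=
  Quotient.exists_rep c

/-- The inverse shape equivalence. -/
def ShapeEquiv.symm {X Y : Type} [TopologicalSpace X] [TopologicalSpace Y]
    (Φ : ShapeEquiv X Y) : ShapeEquiv Y X where
  toEquiv P _ hP := (Φ.toEquiv P hP).symm
  natural P Q _ _ hP hQ u c := by
    rw [Equiv.symm_apply_eq, Φ.natural P Q hP hQ, Equiv.apply_symm_apply]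

section

variable {B : ℕ → Type} [∀ l, TopologicalSpace (B l)] [∀ l, CompactSpace (B l)]
  [∀ l, TopologicalSpace.MetrizableSpace (B l)]
variable {B' : ℕ → Type} [∀ l, TopologicalSpace (B' l)] [∀ l, CompactSpace (B' l)]
  [∀ l, TopologicalSpace.MetrizableSpace (B' l)]
variable {q : ∀ l, C(B (l + 1), B l)} {q' : ∀ l, C(B' (l + 1), B' l)}

omit [∀ l, CompactSpace (B l)] [∀ l, TopologicalSpace.MetrizableSpace (B l)] in
/-- One further step of the homotopy commutative ladder. -/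
theorem exists_next (Φ : ShapeEquiv (lim q) (lim q')) (pt' : ∀ l, B' l)
    (hB : ∀ m, IsANR (B m)) (hB' : ∀ n, IsANR (B' n)) (m n : ℕ) (h : C(B m, B' n))
    (hh : Φ.toEquiv _ (hB' n) (HClass.mk (h.comp (prj q m))) = HClass.mk (prj q' n)) :
    ∃ n₀, ∀ n₁ ≥ n₀, ∃ (hn : n ≤ n₁) (f : C(B' n₁, B m)),
      Φ.toEquiv _ (hB m) (HClass.mk (prj q m)) = HClass.mk (f.comp (prj q' n₁)) ∧
      (h.comp f).Homotopic (qm q' n hn) := by
  obtain ⟨a, ha⟩ := HClass.exists_rep (Φ.toEquiv _ (hB m) (HClass.mk (prj q m)))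
  obtain ⟨m₀, hm₀⟩ := exists_factor q' (hB m) pt' a
  obtain ⟨N, hmN, hnN⟩ : ∃ N, m₀ ≤ N ∧ n ≤ N := ⟨max m₀ n, le_max_left _ _, le_max_right _ _⟩
  obtain ⟨b, hb⟩ := hm₀ N hmN
  have h0 : HClass.mk (prj q' n) = HClass.mk (h.comp (b.comp (prj q' N))) := by
    rw [← hh, ← HClass.post_mk h (prj q m), Φ.natural _ _ (hB m) (hB' n), ← ha,
      HClass.post_mk, HClass.mk_eq_iff]
    exact (ContinuousMap.Homotopic.refl h).comp hb
  have h1 : ((h.comp b).comp (prj q' N)).Homotopic ((qm q' n hnN).comp (prj q' N)) := by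
    rw [qm_comp_prj, ContinuousMap.comp_assoc]
    exact (HClass.mk_eq_iff.1 h0).symm
  obtain ⟨M, hM⟩ := homotopic_of_limit q' (hB' n) N pt' _ _ h1
  refine ⟨max M N, fun n₁ hn₁ => ?_⟩
  have hNn₁ : N ≤ n₁ := (le_max_right _ _).trans hn₁
  refine ⟨hnN.trans hNn₁, b.comp (qm q' N hNn₁), ?_, ?_⟩
  · rw [← ha, HClass.mk_eq_iff, ContinuousMap.comp_assoc, qm_comp_prj]
    exact hb
  · have h2 := hM n₁ ((le_max_left _ _).trans hn₁) hNn₁
    rw [qm_trans] at h2
    exact h2

/-- One further step of the strictly commutative ladder of coverings. -/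
theorem exists_next_cov (Φ : ShapeEquiv (lim q) (lim q')) (pt' : ∀ l, B' l)
    (hB : ∀ m, IsANR (B m)) (hB' : ∀ n, IsANR (B' n))
    (hq' : ∀ l, IsLocalHomeomorph (q' l)) (m n : ℕ) (h : C(B m, B' n))
    (hloc : IsLocalHomeomorph h)
    (hh : Φ.toEquiv _ (hB' n) (HClass.mk (h.comp (prj q m))) = HClass.mk (prj q' n)) :
    ∃ (n₁ : ℕ) (hn : n < n₁) (f : C(B' n₁, B m)), IsLocalHomeomorph f ∧
      Φ.toEquiv _ (hB m) (HClass.mk (prj q m)) = HClass.mk (f.comp (prj q' n₁)) ∧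
      h.comp f = qm q' n hn.le := by
  obtain ⟨n₀, hn₀⟩ := exists_next Φ pt' hB hB' m n h hh
  obtain ⟨hn, f₀, hf₀, hhf⟩ := hn₀ (max n₀ (n + 1)) (le_max_left _ _)
  have hlt : n < max n₀ (n + 1) := lt_of_lt_of_le (Nat.lt_succ_self n) (le_max_right _ _)
  obtain ⟨f, hf, hhf'⟩ := exists_homotopic_lift h (covering_of_local hloc) f₀ _ hhf
  refine ⟨_, hlt, f, ?_, ?_, hhf'⟩
  · apply IsLocalHomeomorph.of_comp _ hloc f.continuous
    have h1 : (h ∘ f : B' _ → B' n) = qm q' n hn := by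
      rw [← hhf']; rfl
    rw [h1]
    exact qm_isLocalHomeomorph q' hq' n hn
  · rw [hf₀, HClass.mk_eq_iff]
    exact hf.comp (ContinuousMap.Homotopic.refl _)

/-- A stage of the ladder of coverings. -/
structure Stage (Φ : ShapeEquiv (lim q) (lim q')) (hB' : ∀ n, IsANR (B' n)) where
  m : ℕ
  n : ℕ
  u : C(B m, B' n)
  loc : IsLocalHomeomorph u
  cls : Φ.toEquiv _ (hB' n) (HClass.mk (u.comp (prj q m))) = HClass.mk (prj q' n)

/-- Consecutive stages of the ladder of coverings. -/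
structure Stage.Next {Φ : ShapeEquiv (lim q) (lim q')} {hB' : ∀ n, IsANR (B' n)}
    (hB : ∀ m, IsANR (B m)) (s s' : Stage Φ hB') : Prop where
  hm : s.m < s'.m
  hn : s.n < s'.n
  ex : ∃ v : C(B' s'.n, B s.m), s.u.comp v = qm q' s.n hn.le ∧ v.comp s'.u = qm q s.m hm.le ∧
    Φ.toEquiv _ (hB s.m) (HClass.mk (prj q s.m)) = HClass.mk (v.comp (prj q' s'.n))

theorem exists_next_stage (Φ : ShapeEquiv (lim q) (lim q')) (pt : ∀ l, B l) (pt' : ∀ l, B' l)
    (hB : ∀ m, IsANR (B m)) (hB' : ∀ n, IsANR (B' n)) (hq : ∀ l, IsLocalHomeomorph (q l))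
    (hq' : ∀ l, IsLocalHomeomorph (q' l)) (s : Stage Φ hB') :
    ∃ s' : Stage Φ hB', s.Next hB s' := by
  obtain ⟨n₁, hn, v, hv, hvc, huv⟩ := exists_next_cov Φ pt' hB hB' hq' s.m s.n s.u s.loc s.cls
  obtain ⟨m₁, hm, w, hw, hwc, hvw⟩ := exists_next_cov Φ.symm pt hB' hB hq n₁ s.m v hv (by
    show (Φ.toEquiv _ (hB s.m)).symm _ = _
    rw [Equiv.symm_apply_eq]
    exact hvc.symm)
  refine ⟨⟨m₁, n₁, w, hw, ?_⟩, hm, hn, v, huv, hvw, hvc⟩
  have h1 : (Φ.toEquiv _ (hB' n₁)).symm (HClass.mk (prj q' n₁))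
      = HClass.mk (w.comp (prj q m₁)) := hwc
  rw [Equiv.symm_apply_eq] at h1
  exact h1.symm

section Glue

omit [∀ l, CompactSpace (B l)] [∀ l, TopologicalSpace.MetrizableSpace (B l)]

/-- The point of the inverse limit determined by a cofinal family of coordinates. -/
def glue (q : ∀ l, C(B (l + 1), B l)) (m : ℕ → ℕ) (hm : StrictMono m) (t : ∀ k, B (m k)) :
    ∀ i, B i :=
  fun i => qm q i (hm.le_apply) (t i)

theorem qm_succ_self (q : ∀ l, C(B (l + 1), B l)) (i : ℕ) (h : i ≤ i + 1) : qm q i h = q i := by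
  have := qm_succ q i (le_refl i)
  rw [qm_self] at this
  exact this

theorem glue_mem_lim (q : ∀ l, C(B (l + 1), B l)) (m : ℕ → ℕ) (hm : StrictMono m)
    (t : ∀ k, B (m k))
    (ht : ∀ k, qm q (m k) (hm.monotone (Nat.le_succ k)) (t (k + 1)) = t k) :
    glue q m hm t ∈ lim q := by
  intro i
  have h1 : q i (glue q m hm t (i + 1))
      = ((qm q i (Nat.le_succ i)).comp (qm q (i + 1) hm.le_apply)) (t (i + 1)) := by
    rw [qm_succ_self q i]; rfl
  have h2 : glue q m hm t i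
      = ((qm q i hm.le_apply).comp (qm q (m i) (hm.monotone (Nat.le_succ i)))) (t (i + 1)) := by
    show qm q i _ (t i) = _
    rw [ContinuousMap.comp_apply, ht i]
  rw [h1, h2, qm_trans, qm_trans]

theorem glue_apply (q : ∀ l, C(B (l + 1), B l)) (m : ℕ → ℕ) (hm : StrictMono m)
    (t : ∀ k, B (m k))
    (ht : ∀ k, qm q (m k) (hm.monotone (Nat.le_succ k)) (t (k + 1)) = t k) (k : ℕ) :
    glue q m hm t (m k) = t k := by
  have key : ∀ k' (h : k ≤ k'), qm q (m k) (hm.monotone h) (t k') = t k := by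
    intro k' h
    induction k', h using Nat.le_induction with
    | base => rw [qm_self]; rfl
    | succ j hj ih =>
      have h3 : qm q (m k) (hm.monotone (Nat.le_succ_of_le hj)) (t (j + 1))
          = ((qm q (m k) (hm.monotone hj)).comp
            (qm q (m j) (hm.monotone (Nat.le_succ j)))) (t (j + 1)) := by
        rw [qm_trans]
      rw [h3, ContinuousMap.comp_apply, ht j]
      exact ih
  exact key (m k) hm.le_apply

theorem eq_glue (q : ∀ l, C(B (l + 1), B l)) (m : ℕ → ℕ) (hm : StrictMono m)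
    (t : ∀ k, B (m k)) {x : ∀ i, B i} (hx : x ∈ lim q) (hxt : ∀ k, x (m k) = t k) :
    glue q m hm t = x := by
  ext i
  show qm q i _ (t i) = x i
  rw [← hxt i]
  exact qm_apply_of_mem q i _ (lim_subset_plim q _ hx)

theorem qm_lim (q : ∀ l, C(B (l + 1), B l)) {x : ∀ i, B i} (hx : x ∈ lim q) {i j : ℕ}
    (h : i ≤ j) : qm q i h (x j) = x i :=
  qm_apply_of_mem q i _ (lim_subset_plim q _ hx)

end Glue

/-- A stage of the ladder of coverings yields a homeomorphism inducing the shape equivalence. -/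
theorem exists_homeo_of_stage (Φ : ShapeEquiv (lim q) (lim q')) (pt : ∀ l, B l)
    (pt' : ∀ l, B' l) (hB : ∀ m, IsANR (B m)) (hB' : ∀ n, IsANR (B' n))
    (hq : ∀ l, IsLocalHomeomorph (q l)) (hq' : ∀ l, IsLocalHomeomorph (q' l))
    (s₀ : Stage Φ hB') : ∃ F : lim q' ≃ₜ lim q, Φ.InducedBy (F : C(lim q', lim q)) := by
  classical
  choose nx hnx using exists_next_stage Φ pt pt' hB hB' hq hq'
  let s : ℕ → Stage Φ hB' := fun k => Nat.rec s₀ (fun _ t => nx t) k
  have hs : ∀ k, (s k).Next hB (s (k + 1)) := fun k => hnx (s k)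
  choose v huv hvu hcls using fun k => (hs k).ex
  set m : ℕ → ℕ := fun k => (s k).m with hm
  set n : ℕ → ℕ := fun k => (s k).n with hn
  have hmm : StrictMono m := strictMono_nat_of_lt_succ fun k => (hs k).hm
  have hnm : StrictMono n := strictMono_nat_of_lt_succ fun k => (hs k).hn
  have huv' : ∀ k y, (s k).u (v k y) = qm q' (n k) (hnm.monotone (Nat.le_succ k)) y :=
    fun k y => congrArg (fun w : C(B' (n (k + 1)), B' (n k)) => w y) (huv k)
  have hvu' : ∀ k y, v k ((s (k + 1)).u y) = qm q (m k) (hmm.monotone (Nat.le_succ k)) y :=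
    fun k y => congrArg (fun w : C(B (m (k + 1)), B (m k)) => w y) (hvu k)
  -- the two maps
  have hF : ∀ x' : lim q', ∀ k, qm q (m k) (hmm.monotone (Nat.le_succ k))
      (v (k + 1) (x'.1 (n (k + 1 + 1)))) = v k (x'.1 (n (k + 1))) := by
    intro x' k
    rw [← hvu' k, huv' (k + 1), qm_lim q' x'.2]
  have hG : ∀ x : lim q, ∀ k, qm q' (n k) (hnm.monotone (Nat.le_succ k))
      ((s (k + 1)).u (x.1 (m (k + 1)))) = (s k).u (x.1 (m k)) := by
    intro x k
    rw [← huv' k, hvu' k, qm_lim q x.2]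
  let F : lim q' → lim q := fun x' =>
    ⟨glue q m hmm (fun k => v k (x'.1 (n (k + 1)))), glue_mem_lim q m hmm _ (hF x')⟩
  let G : lim q → lim q' := fun x =>
    ⟨glue q' n hnm (fun k => (s k).u (x.1 (m k))), glue_mem_lim q' n hnm _ (hG x)⟩
  have hFk : ∀ x' k, (F x').1 (m k) = v k (x'.1 (n (k + 1))) := fun x' k =>
    glue_apply q m hmm (fun k => v k (x'.1 (n (k + 1)))) (hF x') k
  have hGk : ∀ x k, (G x).1 (n k) = (s k).u (x.1 (m k)) := fun x k =>
    glue_apply q' n hnm (fun k => (s k).u (x.1 (m k))) (hG x) k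
  have hFG : ∀ x, F (G x) = x := by
    intro x
    apply Subtype.ext
    apply eq_glue q m hmm _ x.2
    intro k
    show x.1 (m k) = v k ((G x).1 (n (k + 1)))
    rw [hGk x (k + 1), hvu' k, qm_lim q x.2]
  have hGF : ∀ x', G (F x') = x' := by
    intro x'
    apply Subtype.ext
    apply eq_glue q' n hnm _ x'.2
    intro k
    show x'.1 (n k) = (s k).u ((F x').1 (m k))
    rw [hFk x' k, huv' k, qm_lim q' x'.2]
  have hFc : Continuous F := by
    apply Continuous.subtype_mk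
    apply continuous_pi
    intro i
    exact (qm q i _).continuous.comp ((v i).continuous.comp
      ((continuous_apply _).comp continuous_subtype_val))
  have hGc : Continuous G := by
    apply Continuous.subtype_mk
    apply continuous_pi
    intro i
    exact (qm q' i _).continuous.comp ((s i).u.continuous.comp
      ((continuous_apply _).comp continuous_subtype_val))
  refine ⟨⟨⟨F, G, hGF, hFG⟩, hFc, hGc⟩, ?_⟩
  intro P _ hP a
  obtain ⟨m₀, hm₀⟩ := exists_factor q hP pt a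
  have hle : m₀ ≤ m m₀ := hmm.le_apply
  obtain ⟨b, hb⟩ := hm₀ (m m₀) hle
  have h1 : HClass.mk a = HClass.post b (HClass.mk (prj q (m m₀))) := by
    rw [HClass.post_mk, HClass.mk_eq_iff]; exact hb
  rw [h1, Φ.natural _ _ (hB (m m₀)) hP]
  have h2 : Φ.toEquiv _ (hB (m m₀)) (HClass.mk (prj q (m m₀)))
      = HClass.mk ((v m₀).comp (prj q' (n (m₀ + 1)))) := hcls m₀
  rw [h2, HClass.post_mk, HClass.mk_eq_iff]
  have h3 : b.comp ((v m₀).comp (prj q' (n (m₀ + 1))))
      = (b.comp (prj q (m m₀))).comp (⟨F, hFc⟩ : C(lim q', lim q)) := by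
    apply ContinuousMap.ext
    intro x'
    show b (v m₀ (x'.1 (n (m₀ + 1)))) = b ((F x').1 (m m₀))
    rw [hFk]
  rw [h3]
  exact hb.symm.comp (ContinuousMap.Homotopic.refl _)

end

end Pool.Agent.Lib.MP_271836_gt
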