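import Pool.Agent.Lib.MP_271836_gt.PullEquiv
import Pool.Agent.Lib.MP_271836_gt.Main

/-!
# Levelwise homotopy equivalences, shifted and pulled back towers
-/

namespace Pool.Agent.Lib.MP_271836_gt

open Topology Set unitInterval

/-- Composition of shape equivalences. -/
def ShapeEquiv.trans {X Y Z : Type} [TopologicalSpace X] [TopologicalSpace Y] [TopologicalSpace Z]
    (Φ : ShapeEquiv X Y) (Ψ : ShapeEquiv Y Z) : ShapeEquiv X Z where
  toEquiv P _ hP := (Φ.toEquiv P hP).trans (Ψ.toEquiv P hP)
  natural P Q _ _ hP hQ u c := by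
    show Ψ.toEquiv Q hQ (Φ.toEquiv Q hQ _) = _
    rw [Φ.natural P Q hP hQ, Ψ.natural P Q hP hQ]
    rfl

/-- The shape equivalence of a homeomorphism. -/
def ShapeEquiv.ofHomeo {X Y : Type} [TopologicalSpace X] [TopologicalSpace Y] (f : Y ≃ₜ X) :
    ShapeEquiv X Y :=
  ShapeEquiv.ofHomotopyEquiv f.toHomotopyEquiv

theorem ShapeEquiv.ofHomeo_mk {X Y : Type} [TopologicalSpace X] [TopologicalSpace Y] (f : Y ≃ₜ X)
    (P : Type) [TopologicalSpace P] (hP : IsANR P) (a : C(X, P)) :
    (ShapeEquiv.ofHomeo f).toEquiv P hP (HClass.mk a) = HClass.mk (a.comp (f : C(Y, X))) := rfl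

section level

variable {B : ℕ → Type} [∀ l, TopologicalSpace (B l)] [∀ l, CompactSpace (B l)]
  [∀ l, TopologicalSpace.MetrizableSpace (B l)]
variable {B' : ℕ → Type} [∀ l, TopologicalSpace (B' l)] [∀ l, CompactSpace (B' l)]
  [∀ l, TopologicalSpace.MetrizableSpace (B' l)]
variable (q : ∀ l, C(B (l + 1), B l)) (q' : ∀ l, C(B' (l + 1), B' l))

omit [∀ l, CompactSpace (B l)] [∀ l, TopologicalSpace.MetrizableSpace (B l)]
  [∀ l, CompactSpace (B' l)] [∀ l, TopologicalSpace.MetrizableSpace (B' l)] in
theorem level_qm (κ : ∀ l, C(B' l, B l)) (hκ : ∀ l, (κ l).comp (q' l) = (q l).comp (κ (l + 1)))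
    (i : ℕ) {j : ℕ} (h : i ≤ j) : (κ i).comp (qm q' i h) = (qm q i h).comp (κ j) := by
  induction j, h using Nat.le_induction with
  | base => rw [qm_self, qm_self]; rfl
  | succ j hj ih =>
    rw [qm_succ q' i hj, qm_succ q i hj, ← ContinuousMap.comp_assoc, ih, ContinuousMap.comp_assoc,
      hκ j, ContinuousMap.comp_assoc]

/-- The map of the limits induced by a strictly commuting family. -/
def levelMap (κ : ∀ l, C(B' l, B l)) (hκ : ∀ l, (κ l).comp (q' l) = (q l).comp (κ (l + 1))) :
    C(lim q', lim q) where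
  toFun x := ⟨fun l => κ l (x.1 l), fun l => by
    have h1 : κ l (q' l (x.1 (l + 1))) = q l (κ (l + 1) (x.1 (l + 1))) :=
      congrArg (fun f : C(B' (l + 1), B l) => f (x.1 (l + 1))) (hκ l)
    rw [← h1, x.2 l]⟩
  continuous_toFun := by
    apply Continuous.subtype_mk
    apply continuous_pi
    intro l
    exact (κ l).continuous.comp ((continuous_apply l).comp continuous_subtype_val)

/-- A strictly commuting family of homotopy equivalences induces a shape equivalence. -/
theorem exists_levelShape (pt : ∀ l, B l) (pt' : ∀ l, B' l) (κ : ∀ l, C(B' l, B l))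
    (hκ : ∀ l, (κ l).comp (q' l) = (q l).comp (κ (l + 1)))
    (he : ∀ l, ∃ s : C(B l, B' l), (s.comp (κ l)).Homotopic (ContinuousMap.id _) ∧
      ((κ l).comp s).Homotopic (ContinuousMap.id _)) :
    ∃ Φ : ShapeEquiv (lim q) (lim q'), ∀ (P : Type) [TopologicalSpace P] (hP : IsANR P)
      (a : C(lim q, P)), Φ.toEquiv P hP (HClass.mk a) = HClass.mk (a.comp (levelMap q q' κ hκ)) := by
  choose s hs1 hs2 using he
  have hprj : ∀ l, (prj q l).comp (levelMap q q' κ hκ) = (κ l).comp (prj q' l) := fun l => rfl
  let F : ∀ (P : Type) [TopologicalSpace P], HClass (lim q) P → HClass (lim q') P := fun P _ =>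
    Quotient.map (fun f => f.comp (levelMap q q' κ hκ))
      (fun _ _ h => h.comp (ContinuousMap.Homotopic.refl _))
  have hF : ∀ (P : Type) [TopologicalSpace P] (a : C(lim q, P)),
      F P (HClass.mk a) = HClass.mk (a.comp (levelMap q q' κ hκ)) := fun P _ a => rfl
  have hbij : ∀ (P : Type) [TopologicalSpace P], IsANR P → Function.Bijective (F P) := by
    intro P _ hP
    constructor
    · intro c d hcd
      obtain ⟨f, rfl⟩ := HClass.exists_rep c
      obtain ⟨g, rfl⟩ := HClass.exists_rep d
      rw [hF, hF, HClass.mk_eq_iff] at hcd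
      rw [HClass.mk_eq_iff]
      obtain ⟨m₁, hm₁⟩ := exists_factor q hP pt f
      obtain ⟨m₂, hm₂⟩ := exists_factor q hP pt g
      obtain ⟨m, h1m, h2m⟩ : ∃ m, m₁ ≤ m ∧ m₂ ≤ m := ⟨max m₁ m₂, le_max_left _ _, le_max_right _ _⟩
      obtain ⟨b, hb⟩ := hm₁ m h1m
      obtain ⟨b', hb'⟩ := hm₂ m h2m
      have h1 : ((b.comp (κ m)).comp (prj q' m)).Homotopic ((b'.comp (κ m)).comp (prj q' m)) := by
        rw [ContinuousMap.comp_assoc, ContinuousMap.comp_assoc, ← hprj, ← ContinuousMap.comp_assoc,
          ← ContinuousMap.comp_assoc]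
        exact (hb.symm.comp (ContinuousMap.Homotopic.refl _)).trans
          (hcd.trans (hb'.comp (ContinuousMap.Homotopic.refl _)))
      obtain ⟨m₀, hm₀⟩ := homotopic_of_limit q' hP m pt' _ _ h1
      obtain ⟨k, h0k, hmk⟩ : ∃ k, m₀ ≤ k ∧ m ≤ k := ⟨max m₀ m, le_max_left _ _, le_max_right _ _⟩
      have h2 := hm₀ k h0k hmk
      rw [ContinuousMap.comp_assoc, ContinuousMap.comp_assoc, level_qm q q' κ hκ m hmk] at h2
      have h3 : (b.comp (qm q m hmk)).Homotopic (b'.comp (qm q m hmk)) := by
        have h4 := h2.comp (ContinuousMap.Homotopic.refl (s k))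
        have h5 : ∀ v : C(B m, P), ((v.comp ((qm q m hmk).comp (κ k))).comp (s k)).Homotopic
            (v.comp (qm q m hmk)) := by
          intro v
          have h6 := (ContinuousMap.Homotopic.refl (v.comp (qm q m hmk))).comp (hs2 k)
          rwa [ContinuousMap.comp_id] at h6
        exact (h5 b).symm.trans (h4.trans (h5 b'))
      have h7 := h3.comp (ContinuousMap.Homotopic.refl (prj q k))
      rw [ContinuousMap.comp_assoc, ContinuousMap.comp_assoc, qm_comp_prj] at h7
      exact hb.trans (h7.trans hb'.symm)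
    · intro c
      obtain ⟨f, rfl⟩ := HClass.exists_rep c
      obtain ⟨m, hm⟩ := exists_factor q' hP pt' f
      obtain ⟨b, hb⟩ := hm m le_rfl
      refine ⟨HClass.mk ((b.comp (s m)).comp (prj q m)), ?_⟩
      rw [hF, HClass.mk_eq_iff]
      refine ContinuousMap.Homotopic.trans ?_ hb.symm
      have h1 : ((b.comp (s m)).comp (prj q m)).comp (levelMap q q' κ hκ) =
          (b.comp ((s m).comp (κ m))).comp (prj q' m) := rfl
      rw [h1]
      have h2 := ((ContinuousMap.Homotopic.refl b).comp (hs1 m)).comp
        (ContinuousMap.Homotopic.refl (prj q' m))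
      rwa [ContinuousMap.comp_id] at h2
  refine ⟨{ toEquiv := fun P _ hP => Equiv.ofBijective (F P) (hbij P hP)
            natural := ?_ }, ?_⟩
  · intro P Q _ _ hP hQ u c
    obtain ⟨f, rfl⟩ := HClass.exists_rep c
    rfl
  · intro P _ hP a
    rfl

end level

section shift

variable {B : ℕ → Type} [∀ l, TopologicalSpace (B l)] (q : ∀ l, C(B (l + 1), B l)) (m : ℕ)

theorem add_smono (m : ℕ) : StrictMono fun j : ℕ => m + j := fun _ _ h => Nat.add_lt_add_left h m

theorem shift_ht (y : lim (B := fun j => B (m + j)) (fun j => q (m + j))) (k : ℕ) :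
    qm q (m + k) ((add_smono m).monotone (Nat.le_succ k)) (y.1 (k + 1)) = y.1 k :=
  (congrArg (fun f : C(B (m + k + 1), B (m + k)) => f (y.1 (k + 1)))
    (qm_succ_self q (m + k) (Nat.le_succ (m + k)))).trans (y.2 k)

/-- The shifted sequence has the same limit. -/
def shiftHomeo : lim (B := fun j => B (m + j)) (fun j => q (m + j)) ≃ₜ lim q where
  toFun y := ⟨glue q (fun j => m + j) (add_smono m) (fun j => y.1 j),
    glue_mem_lim q (fun j => m + j) (add_smono m) (fun j => y.1 j) (shift_ht q m y)⟩
  invFun x := ⟨fun j => x.1 (m + j), fun j => x.2 (m + j)⟩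
  left_inv y := by
    apply Subtype.ext
    funext j
    exact glue_apply q (fun j => m + j) (add_smono m) (fun j => y.1 j) (shift_ht q m y) j
  right_inv x := by
    apply Subtype.ext
    exact eq_glue q (fun j => m + j) (add_smono m) (fun j => x.1 (m + j)) x.2 fun k => rfl
  continuous_toFun := by
    apply Continuous.subtype_mk
    apply continuous_pi
    intro i
    exact (qm q i _).continuous.comp ((continuous_apply i).comp continuous_subtype_val)
  continuous_invFun := by
    apply Continuous.subtype_mk
    apply continuous_pi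
    intro i
    exact (continuous_apply (m + i)).comp continuous_subtype_val

end shift

section pull

variable {B : ℕ → Type} [∀ l, TopologicalSpace (B l)] (q : ∀ l, C(B (l + 1), B l)) (m : ℕ)
  {E : Type} [TopologicalSpace E] (k : C(E, B m))

/-- The levels of the pulled back tower. -/
abbrev PB (j : ℕ) : Type := Pb k (qm q m (Nat.le_add_right m j))

/-- The bonding maps of the pulled back tower. -/
def pq (j : ℕ) : C(PB q m k (j + 1), PB q m k j) where
  toFun z := ⟨(z.1.1, q (m + j) z.1.2), by
    have h1 : k z.1.1 = qm q m (Nat.le_add_right m (j + 1)) z.1.2 := z.2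
    have h2 : qm q m (Nat.le_add_right m (j + 1)) = (qm q m (Nat.le_add_right m j)).comp (q (m + j)) :=
      qm_succ q m (Nat.le_add_right m j)
    exact h1.trans (congrArg (fun f : C(B (m + j + 1), B m) => f z.1.2) h2)⟩
  continuous_toFun := by fun_prop

/-- The limit of the pulled back tower is the pullback of the limit. -/
def pullHomeo : lim (B := PB q m k) (pq q m k) ≃ₜ {z : E × lim q // k z.1 = z.2.1 m} where
  toFun y := ⟨((y.1 0).1.1, shiftHomeo q m ⟨fun j => (y.1 j).1.2, fun j =>
      congrArg (fun z : PB q m k j => z.1.2) (y.2 j)⟩), by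
    have h0 : k (y.1 0).1.1 = qm q m (Nat.le_add_right m 0) (y.1 0).1.2 := (y.1 0).2
    have h1 : qm q m (Nat.le_add_right m 0) = ContinuousMap.id (B m) := qm_self q m
    have h2 : ((shiftHomeo q m).symm (shiftHomeo q m ⟨fun j => (y.1 j).1.2, fun j =>
        congrArg (fun z : PB q m k j => z.1.2) (y.2 j)⟩)).1 0 = (y.1 0).1.2 := by
      rw [Homeomorph.symm_apply_apply]
    exact (h0.trans (congrArg (fun f : C(B m, B m) => f (y.1 0).1.2) h1)).trans h2.symm⟩
  invFun z := ⟨fun j => ⟨(z.1.1, z.1.2.1 (m + j)), by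
    have h1 : k z.1.1 = z.1.2.1 m := z.2
    show k z.1.1 = qm q m (Nat.le_add_right m j) (z.1.2.1 (m + j))
    rw [h1]
    exact (qm_lim q z.1.2.2 (Nat.le_add_right m j)).symm⟩, fun j => by
      apply Subtype.ext
      exact Prod.ext rfl (z.1.2.2 (m + j))⟩
  left_inv y := by
    apply Subtype.ext
    funext j
    apply Subtype.ext
    apply Prod.ext
    · show (y.1 0).1.1 = (y.1 j).1.1
      induction j with
      | zero => rfl
      | succ j ih =>
        rw [ih]
        exact (congrArg (fun z : PB q m k j => z.1.1) (y.2 j)).symm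
    · exact congrFun (congrArg Subtype.val ((shiftHomeo q m).symm_apply_apply
        ⟨fun j => (y.1 j).1.2, fun j => congrArg (fun z : PB q m k j => z.1.2) (y.2 j)⟩)) j
  right_inv z := by
    apply Subtype.ext
    apply Prod.ext
    · rfl
    · exact (shiftHomeo q m).apply_symm_apply z.1.2
  continuous_toFun := by
    apply Continuous.subtype_mk
    apply Continuous.prodMk
    · exact continuous_fst.comp (continuous_subtype_val.comp
        ((continuous_apply 0).comp continuous_subtype_val))
    · apply (shiftHomeo q m).continuous.comp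
      apply Continuous.subtype_mk
      apply continuous_pi
      intro j
      exact continuous_snd.comp (continuous_subtype_val.comp
        ((continuous_apply j).comp continuous_subtype_val))
  continuous_invFun := by
    apply Continuous.subtype_mk
    apply continuous_pi
    intro j
    apply Continuous.subtype_mk
    apply Continuous.prodMk
    · exact continuous_fst.comp continuous_subtype_val
    · exact (continuous_apply (m + j)).comp (continuous_subtype_val.comp
        (continuous_snd.comp continuous_subtype_val))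

end pull

end Pool.Agent.Lib.MP_271836_gt
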