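import Pool.Agent.Lib.MP_271836_gt.Defs
import Pool.Agent.Lib.MP_271836_gt.ANE

/-!
# Maps from inverse limits into absolute neighbourhood retracts
-/

namespace Pool.Agent.Lib.MP_271836_gt

open Topology Set unitInterval

theorem IsANR.aneOn {P : Type} [TopologicalSpace P] (hP : IsANR P) : ANEOn (univ : Set P) := by
  classical
  intro Z _ _ A hA f hf _
  obtain ⟨U, hAU, hU, g, hg⟩ := hP.2 Z A hA ⟨fun a => f a, hf.restrict⟩
  refine ⟨U, hU, hAU, fun z => if h : z ∈ U then g ⟨z, h⟩ else f z, ?_, fun _ _ => mem_univ _, ?_⟩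
  · rw [continuousOn_iff_continuous_restrict]
    have : (fun z : U => if h : (z : Z) ∈ U then g ⟨z, h⟩ else f z) = fun z : U => g z := by
      ext z
      rw [dif_pos z.2]
    show Continuous (fun z : U => if h : (z : Z) ∈ U then g ⟨z, h⟩ else f z)
    rw [this]
    exact g.continuous
  · intro z hz
    show (if h : z ∈ U then g ⟨z, h⟩ else f z) = f z
    rw [dif_pos (hAU hz)]
    exact hg ⟨z, hz⟩

theorem isANR_of_aneOn {P : Type} [TopologicalSpace P]
    (hm : TopologicalSpace.MetrizableSpace P) (h : ANEOn (univ : Set P)) : IsANR P := by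
  classical
  refine ⟨hm, fun Z _ _ A hA f => ?_⟩
  rcases A.eq_empty_or_nonempty with hne | ⟨a₀, ha₀⟩
  · subst hne
    refine ⟨∅, subset_rfl, isOpen_empty, f, fun a => rfl⟩
  · set f' : Z → P := fun z => if h : z ∈ A then f ⟨z, h⟩ else f ⟨a₀, ha₀⟩ with hf'
    have hcont : ContinuousOn f' A := by
      rw [continuousOn_iff_continuous_restrict]
      have : (fun z : A => if h : (z : Z) ∈ A then f ⟨z, h⟩ else f ⟨a₀, ha₀⟩) = fun z : A => f z := by
        ext z
        rw [dif_pos z.2]
      show Continuous (fun z : A => if h : (z : Z) ∈ A then f ⟨z, h⟩ else f ⟨a₀, ha₀⟩)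
      rw [this]
      exact f.continuous
    obtain ⟨U, hU, hAU, F, hF, -, hFf⟩ := h Z A hA f' hcont (fun _ _ => mem_univ _)
    refine ⟨U, hAU, hU, ⟨fun z => F z, hF.restrict⟩, fun a => ?_⟩
    show F a = f a
    rw [hFf a.2]
    exact dif_pos a.2

theorem IsClosedManifold.metrizable {n : ℕ} {X : Type} [TopologicalSpace X]
    (h : IsClosedManifold n X) : TopologicalSpace.MetrizableSpace X := by
  obtain ⟨hc, hconn, ht2, ⟨hch⟩⟩ := h
  haveI : SecondCountableTopology X :=
    ChartedSpace.secondCountable_of_sigmaCompact (EuclideanSpace ℝ (Fin n)) X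
  exact TopologicalSpace.metrizableSpace_of_t3_secondCountable X

theorem IsClosedManifold.isANR {n : ℕ} {X : Type} [TopologicalSpace X]
    (h : IsClosedManifold n X) : IsANR X := by
  apply isANR_of_aneOn h.metrizable
  obtain ⟨hc, hconn, ht2, ⟨hch⟩⟩ := h
  exact aneOn_univ_of_charted (n := n)

theorem IsClosedManifold.locallyConnected {n : ℕ} {X : Type} [TopologicalSpace X]
    (h : IsClosedManifold n X) : LocallyConnectedSpace X := by
  obtain ⟨hc, hconn, ht2, ⟨hch⟩⟩ := h
  exact ChartedSpace.locallyConnectedSpace (EuclideanSpace ℝ (Fin n)) X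

/-- Absolute neighbourhood extensors are locally equiconnected. -/
theorem exists_equiconnecting {P : Type} [TopologicalSpace P]
    (hm : TopologicalSpace.MetrizableSpace P) (h : ANEOn (univ : Set P)) :
    ∃ W : Set (P × P), IsOpen W ∧ (∀ p, (p, p) ∈ W) ∧ ∃ F : (P × P) × I → P,
      ContinuousOn F (W ×ˢ univ) ∧ (∀ p p', F ((p, p'), 0) = p) ∧ ∀ p p', F ((p, p'), 1) = p' := by
  classical
  letI := TopologicalSpace.metrizableSpaceMetric P
  set f : (P × P) × I → P := fun z => if z.2 = 1 then z.1.2 else z.1.1 with hf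
  set A₁ : Set ((P × P) × I) := {z | z.2 = 0} with hA₁
  set A₂ : Set ((P × P) × I) := {z | z.2 = 1} with hA₂
  set A₃ : Set ((P × P) × I) := {z | z.1.1 = z.1.2} with hA₃
  have h01 : (0 : I) ≠ 1 := zero_ne_one
  have c₁ : ContinuousOn f A₁ := by
    have : EqOn f (fun z => z.1.1) A₁ := by
      intro z hz
      have h1 : z.2 = 0 := hz
      show (if z.2 = 1 then z.1.2 else z.1.1) = z.1.1
      rw [h1, if_neg h01]
    exact (Continuous.continuousOn (by fun_prop)).congr this
  have c₂ : ContinuousOn f A₂ := by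
    have : EqOn f (fun z => z.1.2) A₂ := by
      intro z hz
      have h1 : z.2 = 1 := hz
      show (if z.2 = 1 then z.1.2 else z.1.1) = z.1.2
      rw [h1, if_pos rfl]
    exact (Continuous.continuousOn (by fun_prop)).congr this
  have c₃ : ContinuousOn f A₃ := by
    have : EqOn f (fun z => z.1.1) A₃ := by
      intro z hz
      have h1 : z.1.1 = z.1.2 := hz
      show (if z.2 = 1 then z.1.2 else z.1.1) = z.1.1
      split_ifs
      · exact h1.symm
      · rfl
    exact (Continuous.continuousOn (by fun_prop)).congr this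
  have cl₁ : IsClosed A₁ := isClosed_eq continuous_snd continuous_const
  have cl₂ : IsClosed A₂ := isClosed_eq continuous_snd continuous_const
  have cl₃ : IsClosed A₃ := isClosed_eq (by fun_prop) (by fun_prop)
  have c : ContinuousOn f ((A₁ ∪ A₂) ∪ A₃) :=
    (c₁.union_of_isClosed c₂ cl₁ cl₂).union_of_isClosed c₃ (cl₁.union cl₂) cl₃
  obtain ⟨U, hU, hAU, F, hF, -, hFf⟩ := h _ _ ((cl₁.union cl₂).union cl₃) f c
    (fun _ _ => mem_univ _)
  refine ⟨(Prod.fst '' Uᶜ)ᶜ, ?_, ?_, F, ?_, ?_, ?_⟩
  · exact (isClosedMap_fst_of_compactSpace _ hU.isClosed_compl).isOpen_compl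
  · rintro p ⟨z, hz, hzp⟩
    apply hz
    apply hAU
    right
    show z.1.1 = z.1.2
    rw [hzp]
  · apply hF.mono
    rintro z ⟨hz, -⟩
    by_contra hcon
    exact hz ⟨z, hcon, rfl⟩
  · intro p p'
    have h1 : ((p, p'), (0 : I)) ∈ (A₁ ∪ A₂) ∪ A₃ := Or.inl (Or.inl rfl)
    rw [hFf h1]
    show (if (0 : I) = 1 then p' else p) = p
    rw [if_neg h01]
  · intro p p'
    have h1 : ((p, p'), (1 : I)) ∈ (A₁ ∪ A₂) ∪ A₃ := Or.inl (Or.inr rfl)
    rw [hFf h1]
    show (if (1 : I) = 1 then p' else p) = p'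
    rw [if_pos rfl]

section Sequence

variable {B : ℕ → Type} [∀ l, TopologicalSpace (B l)]

/-- The inverse limit. -/
def lim (q : ∀ l, C(B (l + 1), B l)) : Set (∀ l, B l) := {x | ∀ l, q l (x (l + 1)) = x l}

/-- The partial inverse limits. -/
def plim (q : ∀ l, C(B (l + 1), B l)) (m : ℕ) : Set (∀ l, B l) :=
  {x | ∀ l < m, q l (x (l + 1)) = x l}

variable (q : ∀ l, C(B (l + 1), B l))

theorem lim_subset_plim (m : ℕ) : lim q ⊆ plim q m := fun _ hx l _ => hx l

theorem plim_anti : Antitone (plim q) := fun _ _ h _ hx l hl => hx l (hl.trans_le h)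

theorem iInter_plim : ⋂ m, plim q m = lim q := by
  ext x
  rw [mem_iInter]
  exact ⟨fun h l => h (l + 1) l (Nat.lt_succ_self l), fun h m => lim_subset_plim q m h⟩

theorem isClosed_plim [∀ l, T2Space (B l)] (m : ℕ) : IsClosed (plim q m) := by
  have : plim q m = ⋂ (l : ℕ) (_ : l < m), {x : ∀ l, B l | q l (x (l + 1)) = x l} := by
    ext x; simp [plim]
  rw [this]
  refine isClosed_iInter fun l => isClosed_iInter fun _ => ?_
  exact isClosed_eq ((q l).continuous.comp (continuous_apply (l + 1))) (continuous_apply l)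

theorem isClosed_lim [∀ l, T2Space (B l)] : IsClosed (lim q) := by
  rw [← iInter_plim]
  exact isClosed_iInter (isClosed_plim q)

/-- The section of the partial limit. -/
noncomputable def sec (pt : ∀ l, B l) : ∀ m, B m → ∀ l, B l
  | 0, y => Function.update pt 0 y
  | m + 1, y => Function.update (sec pt m (q m y)) (m + 1) y

variable (pt : ∀ l, B l)

theorem continuous_sec (m : ℕ) : Continuous (sec q pt m) := by
  induction m with
  | zero =>
    show Continuous (fun y => Function.update pt 0 y)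
    exact continuous_const.update 0 continuous_id
  | succ m ih =>
    show Continuous (fun y => Function.update (sec q pt m (q m y)) (m + 1) y)
    exact (ih.comp (q m).continuous).update (m + 1) continuous_id

theorem sec_self (m : ℕ) (y : B m) : sec q pt m y m = y := by
  cases m with
  | zero => exact Function.update_self _ _ _
  | succ m => exact Function.update_self _ _ _

theorem sec_succ_of_ne (m : ℕ) (y : B (m + 1)) {i : ℕ} (h : i ≠ m + 1) :
    sec q pt (m + 1) y i = sec q pt m (q m y) i :=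
  Function.update_of_ne h _ _

theorem sec_mem_plim (m : ℕ) (y : B m) : sec q pt m y ∈ plim q m := by
  induction m with
  | zero => intro l hl; omega
  | succ m ih =>
    intro l hl
    rcases Nat.lt_succ_iff_lt_or_eq.1 hl with h | h
    · rw [sec_succ_of_ne q pt m y (by omega), sec_succ_of_ne q pt m y (by omega)]
      exact ih (q m y) l h
    · subst h
      rw [sec_self q pt (l + 1) y, sec_succ_of_ne q pt l y (i := l) (by omega), sec_self]

theorem sec_eq (m : ℕ) {x : ∀ l, B l} (hx : x ∈ plim q m) :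
    ∀ i ≤ m, sec q pt m (x m) i = x i := by
  induction m with
  | zero =>
    intro i hi
    have : i = 0 := by omega
    subst this
    exact sec_self q pt 0 _
  | succ m ih =>
    intro i hi
    rcases Nat.lt_or_eq_of_le hi with h | h
    · rw [sec_succ_of_ne q pt m _ (by omega), hx m (Nat.lt_succ_self m)]
      exact ih (plim_anti q (Nat.le_succ m) hx) i (by omega)
    · subst h
      exact sec_self q pt (m + 1) _

/-- The composite bonding maps. -/
def qm (i : ℕ) {j : ℕ} (h : i ≤ j) : C(B j, B i) :=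
  Nat.leRec (motive := fun m _ => C(B m, B i)) (ContinuousMap.id _)
    (fun {m} _ f => f.comp (q m)) h

theorem qm_self (i : ℕ) : qm q i le_rfl = ContinuousMap.id (B i) :=
  Nat.leRec_self _ _

theorem qm_succ (i : ℕ) {j : ℕ} (h : i ≤ j) :
    qm q i (Nat.le_succ_of_le h) = (qm q i h).comp (q j) :=
  Nat.leRec_succ _ _ _

theorem qm_apply_of_mem (i : ℕ) {j : ℕ} (h : i ≤ j) :
    ∀ {x : ∀ l, B l}, x ∈ plim q j → qm q i h (x j) = x i := by
  induction j, h using Nat.le_induction with
  | base => intro x _; rw [qm_self]; rfl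
  | succ j hj ih =>
    intro x hx
    rw [qm_succ q i hj]
    show qm q i hj (q j (x (j + 1))) = x i
    rw [hx j (by omega)]
    exact ih (plim_anti q (by omega) hx)

theorem sec_apply_eq_qm (i : ℕ) {j : ℕ} (h : i ≤ j) (y : B j) :
    sec q pt j y i = qm q i h y := by
  have h1 := qm_apply_of_mem q i h (sec_mem_plim q pt j y)
  rw [sec_self] at h1
  exact h1.symm

theorem qm_trans (i : ℕ) {j k : ℕ} (hij : i ≤ j) (hjk : j ≤ k) :
    (qm q i hij).comp (qm q j hjk) = qm q i (hij.trans hjk) := by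
  induction k, hjk using Nat.le_induction with
  | base => rw [qm_self]; rfl
  | succ k hk ih =>
    rw [qm_succ q j hk, qm_succ q i (hij.trans hk), ← ContinuousMap.comp_assoc, ih]

theorem qm_isLocalHomeomorph (hq : ∀ l, IsLocalHomeomorph (q l)) (i : ℕ) {j : ℕ} (h : i ≤ j) :
    IsLocalHomeomorph (qm q i h) := by
  induction j, h using Nat.le_induction with
  | base => rw [qm_self]; exact (Homeomorph.refl _).isLocalHomeomorph
  | succ j hj ih =>
    rw [qm_succ q i hj]
    exact ih.comp (hq j)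

/-- The projection of the inverse limit. -/
def prj (l : ℕ) : C(lim q, B l) := ⟨fun x => x.1 l, (continuous_apply l).comp continuous_subtype_val⟩

theorem qm_comp_prj (i : ℕ) {j : ℕ} (h : i ≤ j) : (qm q i h).comp (prj q j) = prj q i := by
  ext x
  exact qm_apply_of_mem q i h (lim_subset_plim q _ x.2)

variable [∀ l, CompactSpace (B l)] [∀ l, TopologicalSpace.MetrizableSpace (B l)]

theorem exists_plim_subset {Y : Type*} [TopologicalSpace Y] [CompactSpace Y]
    {U : Set ((∀ l, B l) × Y)} (hU : IsOpen U) (h : ∀ x ∈ lim q, ∀ y, (x, y) ∈ U) :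
    ∃ m, ∀ x ∈ plim q m, ∀ y, (x, y) ∈ U := by
  have hcl : ∀ m, IsClosed ((Prod.fst ⁻¹' (plim q m)) ∩ Uᶜ : Set ((∀ l, B l) × Y)) := fun m =>
    ((isClosed_plim q m).preimage continuous_fst).inter hU.isClosed_compl
  have hdir : Directed (· ⊇ ·)
      (fun m => ((Prod.fst ⁻¹' (plim q m)) ∩ Uᶜ : Set ((∀ l, B l) × Y))) := by
    apply directed_of_isDirected_le
    intro a b hab z hz
    exact ⟨plim_anti q hab hz.1, hz.2⟩
  have hempty : (univ : Set ((∀ l, B l) × Y)) ∩
      ⋂ m, ((Prod.fst ⁻¹' (plim q m)) ∩ Uᶜ : Set ((∀ l, B l) × Y)) = ∅ := by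
    rw [univ_inter]
    ext z
    simp only [mem_iInter, mem_empty_iff_false, iff_false]
    intro hz
    have h1 : z.1 ∈ lim q := by
      rw [← iInter_plim]
      exact mem_iInter.2 (fun m => (hz m).1)
    exact (hz 0).2 (h z.1 h1 z.2)
  obtain ⟨m, hm⟩ := isCompact_univ.elim_directed_family_closed _ hcl hempty hdir
  refine ⟨m, fun x hx y => ?_⟩
  by_contra hcon
  have : ((x, y) : (∀ l, B l) × Y) ∈ (univ : Set ((∀ l, B l) × Y)) ∩
      ((Prod.fst ⁻¹' (plim q m)) ∩ Uᶜ) := ⟨trivial, hx, hcon⟩
  rw [hm] at this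
  exact this

/-- Homotopies on the limit are realised at a finite stage. -/
theorem homotopic_of_limit {P : Type} [TopologicalSpace P] (hP : IsANR P) (l : ℕ)
    (pt : ∀ l, B l) (b₀ b₁ : C(B l, P))
    (h : (b₀.comp (prj q l)).Homotopic (b₁.comp (prj q l))) :
    ∃ m₀, ∀ m ≥ m₀, ∀ hm : l ≤ m,
      (b₀.comp (qm q l hm)).Homotopic (b₁.comp (qm q l hm)) := by
  classical
  obtain ⟨G⟩ := h
  have hane := hP.aneOn
  set f : (∀ l, B l) × I → P := fun z =>
    if hz : z.1 ∈ lim q then G (z.2, ⟨z.1, hz⟩) else if z.2 = 0 then b₀ (z.1 l) else b₁ (z.1 l)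
    with hf
  set A₁ : Set ((∀ l, B l) × I) := {z | z.1 ∈ lim q} with hA₁
  set A₂ : Set ((∀ l, B l) × I) := {z | z.2 = 0} with hA₂
  set A₃ : Set ((∀ l, B l) × I) := {z | z.2 = 1} with hA₃
  have h01 : (1 : I) ≠ 0 := one_ne_zero
  have c₁ : ContinuousOn f A₁ := by
    rw [continuousOn_iff_continuous_restrict]
    have h1 : (fun z : A₁ => if hz : z.1.1 ∈ lim q then G (z.1.2, ⟨z.1.1, hz⟩) else
        if z.1.2 = 0 then b₀ (z.1.1 l) else b₁ (z.1.1 l))
        = fun z : A₁ => G (z.1.2, ⟨z.1.1, z.2⟩) := by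
      ext z
      rw [dif_pos (show z.1.1 ∈ lim q from z.2)]
    show Continuous (fun z : A₁ => if hz : z.1.1 ∈ lim q then G (z.1.2, ⟨z.1.1, hz⟩) else
        if z.1.2 = 0 then b₀ (z.1.1 l) else b₁ (z.1.1 l))
    rw [h1]
    exact G.continuous.comp (by fun_prop)
  have e₂ : EqOn f (fun z => b₀ (z.1 l)) A₂ := by
    intro z hz
    have hz0 : z.2 = 0 := hz
    by_cases hzl : z.1 ∈ lim q
    · have : f z = G (z.2, ⟨z.1, hzl⟩) := dif_pos hzl
      rw [this, hz0]
      exact G.apply_zero _
    · have : f z = if z.2 = 0 then b₀ (z.1 l) else b₁ (z.1 l) := dif_neg hzl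
      rw [this, if_pos hz0]
  have e₃ : EqOn f (fun z => b₁ (z.1 l)) A₃ := by
    intro z hz
    have hz0 : z.2 = 1 := hz
    by_cases hzl : z.1 ∈ lim q
    · have : f z = G (z.2, ⟨z.1, hzl⟩) := dif_pos hzl
      rw [this, hz0]
      exact G.apply_one _
    · have : f z = if z.2 = 0 then b₀ (z.1 l) else b₁ (z.1 l) := dif_neg hzl
      rw [this, hz0, if_neg h01]
  have c₂ : ContinuousOn f A₂ := (Continuous.continuousOn (by fun_prop)).congr e₂
  have c₃ : ContinuousOn f A₃ := (Continuous.continuousOn (by fun_prop)).congr e₃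
  have cl₁ : IsClosed A₁ := (isClosed_lim q).preimage continuous_fst
  have cl₂ : IsClosed A₂ := isClosed_eq continuous_snd continuous_const
  have cl₃ : IsClosed A₃ := isClosed_eq continuous_snd continuous_const
  have c : ContinuousOn f ((A₁ ∪ A₂) ∪ A₃) :=
    (c₁.union_of_isClosed c₂ cl₁ cl₂).union_of_isClosed c₃ (cl₁.union cl₂) cl₃
  obtain ⟨U, hU, hAU, F, hF, -, hFf⟩ := hane _ _ ((cl₁.union cl₂).union cl₃) f c
    (fun _ _ => mem_univ _)
  obtain ⟨m, hm⟩ := exists_plim_subset q hU (fun x hx y => hAU (Or.inl (Or.inl hx)))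
  refine ⟨m, fun k hk hlk => ?_⟩
  have hmem : ∀ (y : B k) (t : I), (sec q pt k y, t) ∈ U := fun y t =>
    hm _ (plim_anti q hk (sec_mem_plim q pt k y)) t
  refine ⟨⟨⟨fun z => F (sec q pt k z.2, z.1), ?_⟩, ?_, ?_⟩⟩
  · rw [← continuousOn_univ]
    apply hF.comp
    · apply Continuous.continuousOn
      exact ((continuous_sec q pt k).comp continuous_snd).prodMk continuous_fst
    · intro z _
      exact hmem z.2 z.1
  · intro y
    show F (sec q pt k y, 0) = b₀ (qm q l hlk y)
    rw [hFf (Or.inl (Or.inr rfl)), e₂ rfl]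
    show b₀ (sec q pt k y l) = _
    rw [sec_apply_eq_qm]
  · intro y
    show F (sec q pt k y, 1) = b₁ (qm q l hlk y)
    rw [hFf (Or.inr rfl), e₃ rfl]
    show b₁ (sec q pt k y l) = _
    rw [sec_apply_eq_qm]

/-- Maps on the limit factor up to homotopy through a finite stage. -/
theorem exists_factor {P : Type} [TopologicalSpace P] (hP : IsANR P)
    (pt : ∀ l, B l) (a : C(lim q, P)) :
    ∃ m₀, ∀ m ≥ m₀, ∃ b : C(B m, P), a.Homotopic (b.comp (prj q m)) := by
  classical
  have hane := hP.aneOn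
  obtain ⟨W, hW, hWd, E, hE, hE0, hE1⟩ := exists_equiconnecting hP.1 hane
  -- extend `a` to a neighbourhood
  rcases (lim q).eq_empty_or_nonempty with hemp | ⟨x₀, hx₀⟩
  · haveI : IsEmpty (lim q) := isEmpty_coe_sort.2 hemp
    -- then some partial limit is empty, which is absurd
    exfalso
    obtain ⟨m, hm⟩ := exists_plim_subset (Y := Unit) (U := ∅) q isOpen_empty
      (fun x hx => by rw [hemp] at hx; exact hx.elim)
    exact hm _ (sec_mem_plim q pt m (pt m)) ()
  set f : (∀ l, B l) → P := fun z => if hz : z ∈ lim q then a ⟨z, hz⟩ else a ⟨x₀, hx₀⟩ with hf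
  have hfa : ∀ x : lim q, f x = a x := fun x => dif_pos x.2
  have hfc : ContinuousOn f (lim q) := by
    rw [continuousOn_iff_continuous_restrict]
    have h1 : (fun z : lim q => if hz : z.1 ∈ lim q then a ⟨z, hz⟩ else a ⟨x₀, hx₀⟩)
        = fun z : lim q => a z := by
      ext z
      rw [dif_pos z.2]
    show Continuous (fun z : lim q => if hz : z.1 ∈ lim q then a ⟨z, hz⟩ else a ⟨x₀, hx₀⟩)
    rw [h1]
    exact a.continuous
  obtain ⟨U, hU, hAU, F, hF, -, hFf⟩ := hane _ _ (isClosed_lim q) f hfc (fun _ _ => mem_univ _)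
  -- closeness
  set O : Set (lim q × (∀ l, B l)) := {z | z.2 ∈ U ∧ (a z.1, F z.2) ∈ W} with hO
  have hOopen : IsOpen O := by
    have h1 : ContinuousOn (fun z : lim q × (∀ l, B l) => (a z.1, F z.2))
        (Prod.snd ⁻¹' U) := by
      apply ContinuousOn.prodMk
      · exact (a.continuous.comp continuous_fst).continuousOn
      · exact hF.comp continuous_snd.continuousOn (fun z hz => hz)
    exact h1.isOpen_inter_preimage (hU.preimage continuous_snd) hW
  haveI : CompactSpace (lim q) := isCompact_iff_compactSpace.1 (isClosed_lim q).isCompact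
  have hcl : ∀ m, IsClosed ({z | ∀ i ≤ m, z.2 i = z.1.1 i} ∩ Oᶜ :
      Set (lim q × (∀ l, B l))) := by
    intro m
    apply IsClosed.inter _ hOopen.isClosed_compl
    have : {z : lim q × (∀ l, B l) | ∀ i ≤ m, z.2 i = z.1.1 i}
        = ⋂ (i : ℕ) (_ : i ≤ m), {z | z.2 i = z.1.1 i} := by
      ext z; simp
    rw [this]
    refine isClosed_iInter fun i => isClosed_iInter fun _ => ?_
    exact isClosed_eq ((continuous_apply i).comp continuous_snd)
      ((continuous_apply i).comp (continuous_subtype_val.comp continuous_fst))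
  have hdir : Directed (· ⊇ ·) (fun m => ({z | ∀ i ≤ m, z.2 i = z.1.1 i} ∩ Oᶜ :
      Set (lim q × (∀ l, B l)))) := by
    apply directed_of_isDirected_le
    intro a b hab z hz
    exact ⟨fun i hi => hz.1 i (hi.trans hab), hz.2⟩
  have hempty : (univ : Set (lim q × (∀ l, B l))) ∩
      ⋂ m, ({z | ∀ i ≤ m, z.2 i = z.1.1 i} ∩ Oᶜ : Set (lim q × (∀ l, B l))) = ∅ := by
    rw [univ_inter]
    ext z
    simp only [mem_iInter, mem_empty_iff_false, iff_false]
    intro hz
    have h1 : z.2 = z.1.1 := by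
      ext i
      exact (hz i).1 i le_rfl
    apply (hz 0).2
    refine ⟨?_, ?_⟩
    · rw [h1]; exact hAU z.1.2
    · rw [h1, hFf z.1.2, hfa]; exact hWd _
  obtain ⟨m₁, hm₁⟩ := isCompact_univ.elim_directed_family_closed _ hcl hempty hdir
  obtain ⟨m₂, hm₂⟩ := exists_plim_subset (Y := Unit) (U := Prod.fst ⁻¹' U) q
    (hU.preimage continuous_fst) (fun x hx _ => hAU hx)
  refine ⟨max m₁ m₂, fun m hm => ?_⟩
  have hmU : ∀ y : B m, sec q pt m y ∈ U := fun y =>
    hm₂ _ (plim_anti q ((le_max_right _ _).trans hm) (sec_mem_plim q pt m y)) ()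
  refine ⟨⟨fun y => F (sec q pt m y), ?_⟩, ?_⟩
  · rw [← continuousOn_univ]
    exact hF.comp (continuous_sec q pt m).continuousOn (fun y _ => hmU y)
  · have hWm : ∀ x : lim q, (a x, F (sec q pt m (x.1 m))) ∈ W := by
      intro x
      by_contra hcon
      have : ((x, sec q pt m (x.1 m)) : lim q × (∀ l, B l)) ∈ (univ : Set (lim q × (∀ l, B l))) ∩
          ({z | ∀ i ≤ m₁, z.2 i = z.1.1 i} ∩ Oᶜ) := by
        refine ⟨trivial, ?_, ?_⟩
        · intro i hi
          exact sec_eq q pt m (lim_subset_plim q m x.2) i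
            (hi.trans ((le_max_left _ _).trans hm))
        · intro h
          exact hcon h.2
      rw [hm₁] at this
      exact this
    refine ⟨⟨⟨fun z => E ((a z.2, F (sec q pt m (z.2.1 m))), z.1), ?_⟩, ?_, ?_⟩⟩
    · rw [← continuousOn_univ]
      apply hE.comp
      · apply Continuous.continuousOn
        apply Continuous.prodMk _ continuous_fst
        apply Continuous.prodMk
        · exact a.continuous.comp continuous_snd
        · rw [← continuousOn_univ]
          apply hF.comp
          · apply Continuous.continuousOn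
            exact (continuous_sec q pt m).comp
              ((continuous_apply m).comp (continuous_subtype_val.comp continuous_snd))
          · intro z _
            exact hmU _
      · intro z _
        exact ⟨hWm z.2, trivial⟩
    · intro x
      exact hE0 _ _
    · intro x
      exact hE1 _ _

end Sequence

end Pool.Agent.Lib.MP_271836_gt
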