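import Pool.Agent.Lib.MP_271836_gt.NilDefs

/-!
# Basic properties of triangular polynomial group laws
-/

namespace Pool.Agent.Lib.MP_271836_gt

open Topology Set
open scoped commutatorElement

variable {n : ℕ}

/-- The group of a triangular law. -/
def NilLaw.G (_N : NilLaw n) : Type := Fin n → ℝ

namespace NilLaw

variable (N : NilLaw n)

instance : TopologicalSpace N.G := inferInstanceAs (TopologicalSpace (Fin n → ℝ))

instance : T2Space N.G := inferInstanceAs (T2Space (Fin n → ℝ))

noncomputable instance : Group N.G :=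
  letI : Mul N.G := ⟨N.mul⟩
  letI : One N.G := ⟨(0 : Fin n → ℝ)⟩
  letI : Inv N.G := ⟨fun x => (N.exists_inv x).choose⟩
  Group.ofLeftAxioms N.assoc N.one_left fun x => (N.exists_inv x).choose_spec

variable {N}

/-- The coordinates. -/
def co (x : N.G) : Fin n → ℝ := x

/-- The point with given coordinates. -/
def pt (N : NilLaw n) (x : Fin n → ℝ) : N.G := x

theorem co_pt (x : Fin n → ℝ) : co (N.pt x) = x := rfl

theorem pt_co (x : N.G) : N.pt (co x) = x := rfl

theorem ext' {x y : N.G} (h : ∀ i, co x i = co y i) : x = y := funext h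

theorem co_one (i : Fin n) : co (1 : N.G) i = 0 := rfl

theorem continuous_co (i : Fin n) : Continuous fun x : N.G => co x i := continuous_apply i

theorem continuous_iff {A : Type*} [TopologicalSpace A] {f : A → N.G} :
    Continuous f ↔ ∀ i, Continuous fun a => co (f a) i := continuous_pi_iff

/-- The polynomial describing the law. -/
noncomputable def pol (N : NilLaw n) (i : Fin n) : MvPolynomial (Fin n ⊕ Fin n) ℝ :=
  (N.triangular i).choose

theorem pol_vars (i : Fin n) : ∀ j ∈ (N.pol i).vars, Sum.elim id id j < i :=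
  (N.triangular i).choose_spec.1

theorem co_mul (x y : N.G) (i : Fin n) :
    co (x * y) i = co x i + co y i + MvPolynomial.eval (Sum.elim (co x) (co y)) (N.pol i) :=
  (N.triangular i).choose_spec.2 (co x) (co y)

/-- The polynomial only depends on the lower coordinates. -/
theorem eval_congr {x y x' y' : Fin n → ℝ} {i : Fin n} (hx : ∀ j < i, x j = x' j)
    (hy : ∀ j < i, y j = y' j) :
    MvPolynomial.eval (Sum.elim x y) (N.pol i) = MvPolynomial.eval (Sum.elim x' y') (N.pol i) := by
  refine MvPolynomial.eval₂Hom_congr' rfl ?_ rfl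
  rintro (j | j) hj -
  · exact hx j (pol_vars i _ hj)
  · exact hy j (pol_vars i _ hj)

theorem eval_zero_right {x y : Fin n → ℝ} {i : Fin n} (hy : ∀ j < i, y j = 0) :
    MvPolynomial.eval (Sum.elim x y) (N.pol i) = 0 := by
  have h1 : co (N.pt x * 1) i = x i := by rw [mul_one]; rfl
  rw [co_mul, co_one, co_pt] at h1
  have h2 : MvPolynomial.eval (Sum.elim x y) (N.pol i) =
      MvPolynomial.eval (Sum.elim x (co (1 : N.G))) (N.pol i) :=
    eval_congr (fun j _ => rfl) (fun j hj => hy j hj)
  rw [h2]
  linarith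

theorem eval_zero_left {x y : Fin n → ℝ} {i : Fin n} (hx : ∀ j < i, x j = 0) :
    MvPolynomial.eval (Sum.elim x y) (N.pol i) = 0 := by
  have h1 : co (1 * N.pt y) i = y i := by rw [one_mul]; rfl
  rw [co_mul, co_one, co_pt] at h1
  have h2 : MvPolynomial.eval (Sum.elim x y) (N.pol i) =
      MvPolynomial.eval (Sum.elim (co (1 : N.G)) y) (N.pol i) :=
    eval_congr (fun j hj => hx j hj) (fun j _ => rfl)
  rw [h2]
  linarith

/-- The subgroups of the flag. -/
def Fil (N : NilLaw n) (k : ℕ) : Subgroup N.G where
  carrier := {x | ∀ j : Fin n, (j : ℕ) < k → co x j = 0}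
  mul_mem' := by
    intro x y hx hy j hj
    rw [co_mul, hx j hj, hy j hj,
      eval_zero_left fun i hi => hx i (lt_trans (Fin.lt_def.1 hi) hj)]
    ring
  one_mem' := fun j _ => rfl
  inv_mem' := by
    intro x hx j hj
    have h1 : co (x⁻¹ * x) j = 0 := by rw [inv_mul_cancel]; rfl
    rw [co_mul, hx j hj, eval_zero_right fun i hi => hx i (lt_trans (Fin.lt_def.1 hi) hj)] at h1
    linarith

theorem mem_Fil {k : ℕ} {x : N.G} : x ∈ N.Fil k ↔ ∀ j : Fin n, (j : ℕ) < k → co x j = 0 := Iff.rfl

theorem Fil_anti {k l : ℕ} (h : k ≤ l) : N.Fil l ≤ N.Fil k :=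
  fun _ hx j hj => hx j (hj.trans_le h)

theorem Fil_zero : N.Fil 0 = ⊤ := by
  rw [eq_top_iff]
  intro x _ j hj
  omega

theorem Fil_n : N.Fil n = ⊥ := by
  rw [eq_bot_iff]
  intro x hx
  rw [Subgroup.mem_bot]
  exact ext' fun i => hx i i.2

/-- Right multiplication by an element of the flag. -/
theorem co_mul_right {x y : N.G} {i : Fin n} (hy : y ∈ N.Fil i) :
    co (x * y) i = co x i + co y i := by
  rw [co_mul, eval_zero_right fun j hj => hy j (Fin.lt_def.1 hj), add_zero]

theorem co_mul_left {x y : N.G} {i : Fin n} (hx : x ∈ N.Fil i) :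
    co (x * y) i = co x i + co y i := by
  rw [co_mul, eval_zero_left fun j hj => hx j (Fin.lt_def.1 hj), add_zero]

theorem co_mul_congr {x y x' y' : N.G} {i : Fin n} (hx : ∀ j ≤ i, co x j = co x' j)
    (hy : ∀ j ≤ i, co y j = co y' j) : co (x * y) i = co (x' * y') i := by
  rw [co_mul, co_mul, hx i le_rfl, hy i le_rfl,
    eval_congr (fun j hj => hx j hj.le) (fun j hj => hy j hj.le)]

/-- Elements with the same first coordinates differ by an element of the flag. -/
theorem inv_mul_mem_Fil {x y : N.G} {k : ℕ} (h : ∀ j : Fin n, (j : ℕ) < k → co x j = co y j) :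
    x⁻¹ * y ∈ N.Fil k := by
  intro j hj
  have h1 : co (x⁻¹ * y) j = co (x⁻¹ * x) j :=
    co_mul_congr (fun _ _ => rfl) fun i hi => (h i (lt_of_le_of_lt (Fin.le_def.1 hi) hj)).symm
  rw [h1, inv_mul_cancel]
  rfl

theorem co_eq_of_inv_mul_mem {x y : N.G} {k : ℕ} (h : x⁻¹ * y ∈ N.Fil k) (j : Fin n)
    (hj : (j : ℕ) < k) : co x j = co y j := by
  have h1 : y = x * (x⁻¹ * y) := by group
  have h2 : co (x * (x⁻¹ * y)) j = co x j := by
    rw [co_mul_right (Fil_anti hj.le h), h j hj, add_zero]
  rw [← h1] at h2
  exact h2.symm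

/-- Commutators with elements of the flag go down the flag. -/
theorem commutator_mem_Fil {x y : N.G} {k : ℕ} (hx : x ∈ N.Fil k) : ⁅x, y⁆ ∈ N.Fil (k + 1) := by
  have h1 : ∀ j : Fin n, (j : ℕ) < k + 1 → co (y * x) j = co (x * y) j := by
    intro j hj
    have hxj : x ∈ N.Fil j := Fil_anti (Nat.lt_succ_iff.1 hj) hx
    rw [co_mul_right hxj, co_mul_left hxj, add_comm]
  have h2 := inv_mul_mem_Fil h1
  have h3 : ⁅x, y⁆ = (y * x) * ((y * x)⁻¹ * (x * y)) * (y * x)⁻¹ := by
    rw [commutatorElement_def]; group
  rw [h3]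
  -- conjugation preserves the flag
  have h4 : ∀ (u w : N.G), w ∈ N.Fil (k + 1) → u * w * u⁻¹ ∈ N.Fil (k + 1) := by
    intro u w hw
    have h5 : ∀ j : Fin n, (j : ℕ) < k + 1 → co u j = co (u * w) j := by
      intro j hj
      rw [co_mul_right (Fil_anti (Nat.lt_succ_iff.1 hj |>.trans (Nat.le_succ k)) hw), hw j hj,
        add_zero]
    intro j hj
    have h6 : co (u * w * u⁻¹) j = co (u * u⁻¹) j :=
      co_mul_congr (fun i hi => (h5 i (lt_of_le_of_lt (Fin.le_def.1 hi) hj)).symm) fun _ _ => rfl
    rw [h6, mul_inv_cancel]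
    rfl
  exact h4 _ _ h2

instance : Group.IsNilpotent N.G := by
  rw [Subgroup.nilpotent_iff_finite_descending_central_series]
  exact ⟨n, N.Fil, ⟨Fil_zero, fun x k hx y => commutator_mem_Fil hx⟩, Fil_n⟩

theorem conj_mem_Fil {k : ℕ} {w : N.G} (hw : w ∈ N.Fil k) (u : N.G) : u * w * u⁻¹ ∈ N.Fil k := by
  have h1 : u * w * u⁻¹ = ⁅w, u⁆⁻¹ * w := by rw [commutatorElement_def]; group
  rw [h1]
  exact mul_mem (inv_mem (Fil_anti (Nat.le_succ k) (commutator_mem_Fil hw))) hw

section subalgebra

variable {A : Type*} (S : Subalgebra ℝ (A → ℝ))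

theorem eval_mem {σ : Type*} {f : σ → A → ℝ} (hf : ∀ j, f j ∈ S) (P : MvPolynomial σ ℝ) :
    (fun a => MvPolynomial.eval (fun j => f j a) P) ∈ S := by
  induction P using MvPolynomial.induction_on with
  | C r =>
    have h1 : (fun a => MvPolynomial.eval (fun j => f j a) (MvPolynomial.C r)) =
        algebraMap ℝ (A → ℝ) r := by
      funext a
      simp
    rw [h1]
    exact S.algebraMap_mem r
  | add p q hp hq =>
    have h1 : (fun a => MvPolynomial.eval (fun j => f j a) (p + q)) =
        (fun a => MvPolynomial.eval (fun j => f j a) p) +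
          fun a => MvPolynomial.eval (fun j => f j a) q := by
      funext a
      simp
    rw [h1]
    exact S.add_mem hp hq
  | mul_X p i hp =>
    have h1 : (fun a => MvPolynomial.eval (fun j => f j a) (p * MvPolynomial.X i)) =
        (fun a => MvPolynomial.eval (fun j => f j a) p) * f i := by
      funext a
      simp
    rw [h1]
    exact S.mul_mem hp (hf i)

/-- The coordinates of a function belong to a given algebra of functions. -/
def CoIn (x : A → N.G) : Prop := ∀ i, (fun a => co (x a) i) ∈ S

variable {S}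

theorem CoIn.mul {x y : A → N.G} (hx : CoIn S x) (hy : CoIn S y) : CoIn S fun a => x a * y a := by
  intro i
  have h1 : (fun a => co (x a * y a) i) = ((fun a => co (x a) i) + fun a => co (y a) i) +
      fun a => MvPolynomial.eval (fun j => (Sum.elim (fun i a => co (x a) i)
        (fun i a => co (y a) i) : Fin n ⊕ Fin n → A → ℝ) j a) (N.pol i) := by
    funext a
    have h4 : (fun j => (Sum.elim (fun i a => co (x a) i)
        (fun i a => co (y a) i) : Fin n ⊕ Fin n → A → ℝ) j a) =
          Sum.elim (co (x a)) (co (y a)) := by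
      funext j
      rcases j with j | j <;> rfl
    show co (x a * y a) i = (co (x a) i + co (y a) i) +
      MvPolynomial.eval (fun j => (Sum.elim (fun i a => co (x a) i)
        (fun i a => co (y a) i) : Fin n ⊕ Fin n → A → ℝ) j a) (N.pol i)
    rw [co_mul, h4]
  rw [h1]
  refine S.add_mem (S.add_mem (hx i) (hy i)) (eval_mem S ?_ _)
  rintro (j | j)
  · exact hx j
  · exact hy j

theorem CoIn.inv {x : A → N.G} (hx : CoIn S x) : CoIn S fun a => (x a)⁻¹ := by
  intro i
  induction i using WellFoundedLT.induction with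
  | ind i ih =>
    let z : Fin n → A → ℝ := fun j a => if j < i then co ((x a)⁻¹) j else 0
    have hz : ∀ j, z j ∈ S := by
      intro j
      by_cases hj : j < i
      · have : z j = fun a => co ((x a)⁻¹) j := by
          funext a
          exact if_pos hj
        rw [this]
        exact ih j hj
      · have : z j = 0 := by
          funext a
          exact if_neg hj
        rw [this]
        exact S.zero_mem
    have h1 : (fun a => co ((x a)⁻¹) i) = -(fun a => co (x a) i) -
        fun a => MvPolynomial.eval (fun j => (Sum.elim z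
          (fun i a => co (x a) i) : Fin n ⊕ Fin n → A → ℝ) j a) (N.pol i) := by
      funext a
      have h2 : co ((x a)⁻¹ * x a) i = 0 := by rw [inv_mul_cancel]; rfl
      rw [co_mul] at h2
      have h3 : MvPolynomial.eval (Sum.elim (co (x a)⁻¹) (co (x a))) (N.pol i) =
          MvPolynomial.eval (Sum.elim (fun j => z j a) (co (x a))) (N.pol i) :=
        eval_congr (fun j hj => (if_pos hj).symm) fun j _ => rfl
      rw [h3] at h2
      have h4 : (fun j => (Sum.elim z (fun i a => co (x a) i) : Fin n ⊕ Fin n → A → ℝ) j a) =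
          Sum.elim (fun j => z j a) (co (x a)) := by
        funext j
        rcases j with j | j <;> rfl
      show co ((x a)⁻¹) i = -co (x a) i - MvPolynomial.eval (fun j => (Sum.elim z
          (fun i a => co (x a) i) : Fin n ⊕ Fin n → A → ℝ) j a) (N.pol i)
      rw [h4]
      linarith
    rw [h1]
    refine S.sub_mem (S.neg_mem (hx i)) (eval_mem S ?_ _)
    rintro (j | j)
    · exact hz j
    · exact hx j

theorem CoIn.one : CoIn S fun _ : A => (1 : N.G) := fun _ => S.zero_mem

theorem CoIn.const (x : N.G) : CoIn S fun _ : A => x := fun i => by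
  exact S.algebraMap_mem (co x i)

theorem CoIn.npow {x : A → N.G} (hx : CoIn S x) (k : ℕ) : CoIn S fun a => (x a) ^ k := by
  induction k with
  | zero => simpa using CoIn.one
  | succ k ih =>
    simp only [pow_succ]
    exact ih.mul hx

end subalgebra

/-- The algebra of continuous functions. -/
def contSub (A : Type*) [TopologicalSpace A] : Subalgebra ℝ (A → ℝ) where
  carrier := {f | Continuous f}
  mul_mem' := fun hf hg => Continuous.mul hf hg
  add_mem' := fun hf hg => Continuous.add hf hg
  algebraMap_mem' := fun _ => continuous_const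

theorem coIn_cont {A : Type*} [TopologicalSpace A] {x : A → N.G} :
    CoIn (contSub A) x ↔ Continuous x := continuous_iff.symm

instance : IsTopologicalGroup N.G where
  continuous_mul := by
    rw [← coIn_cont]
    exact (coIn_cont.2 continuous_fst).mul (coIn_cont.2 continuous_snd)
  continuous_inv := by
    rw [← coIn_cont]
    exact (coIn_cont.2 continuous_id).inv

end NilLaw

end Pool.Agent.Lib.MP_271836_gt
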