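import Pool.Agent.Lib.MP_271836_gt.Nil1

/-!
# Polynomial curves and real powers
-/

namespace Pool.Agent.Lib.MP_271836_gt

open Topology Set Polynomial

variable {n : ℕ}

namespace NilLaw

variable {N : NilLaw n}

/-- The algebra of polynomial functions of one variable. -/
noncomputable def polySub : Subalgebra ℝ (ℝ → ℝ) := (Polynomial.aeval (fun τ : ℝ => τ)).range

theorem aeval_id_apply (p : ℝ[X]) (τ : ℝ) : (Polynomial.aeval (fun τ : ℝ => τ) p) τ = p.eval τ := by
  induction p using Polynomial.induction_on' with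
  | add p q hp hq => rw [map_add, Pi.add_apply, hp, hq, Polynomial.eval_add]
  | monomial k a => simp [Polynomial.aeval_monomial]

theorem mem_polySub {f : ℝ → ℝ} : f ∈ polySub ↔ ∃ p : ℝ[X], ∀ τ, f τ = p.eval τ := by
  constructor
  · rintro ⟨p, rfl⟩
    exact ⟨p, fun τ => aeval_id_apply p τ⟩
  · rintro ⟨p, hp⟩
    exact ⟨p, funext fun τ => (aeval_id_apply p τ).trans (hp τ).symm⟩

/-- Polynomial curves. -/
def PolyCurve (c : ℝ → N.G) : Prop := CoIn polySub c

theorem PolyCurve.mul {c d : ℝ → N.G} (hc : PolyCurve c) (hd : PolyCurve d) :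
    PolyCurve fun τ => c τ * d τ := CoIn.mul hc hd

theorem PolyCurve.inv {c : ℝ → N.G} (hc : PolyCurve c) : PolyCurve fun τ => (c τ)⁻¹ := CoIn.inv hc

theorem PolyCurve.const (x : N.G) : PolyCurve fun _ => x := CoIn.const x

theorem PolyCurve.comp {c : ℝ → N.G} (hc : PolyCurve c) {f : ℝ → ℝ} (hf : f ∈ polySub) :
    PolyCurve fun τ => c (f τ) := by
  intro i
  obtain ⟨p, hp⟩ := mem_polySub.1 (hc i)
  obtain ⟨q, hq⟩ := mem_polySub.1 hf
  refine mem_polySub.2 ⟨p.comp q, fun τ => ?_⟩
  rw [Polynomial.eval_comp, ← hq]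
  exact hp _

theorem PolyCurve.ext {c d : ℝ → N.G} (hc : PolyCurve c) (hd : PolyCurve d)
    (h : ∀ k : ℕ, c k = d k) : c = d := by
  funext τ
  apply ext'
  intro i
  obtain ⟨p, hp⟩ := mem_polySub.1 (hc i)
  obtain ⟨q, hq⟩ := mem_polySub.1 (hd i)
  have hp' : ∀ τ, co (c τ) i = p.eval τ := hp
  have hq' : ∀ τ, co (d τ) i = q.eval τ := hq
  have hpq : p = q := by
    apply Polynomial.eq_of_infinite_eval_eq
    apply Set.infinite_of_injective_forall_mem (f := fun k : ℕ => (k : ℝ)) Nat.cast_injective
    intro k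
    show p.eval (k : ℝ) = q.eval (k : ℝ)
    rw [← hp', ← hq', h k]
  rw [hp', hq', hpq]

theorem poly_bounded {p : ℝ[X]} {B : ℝ} (h : ∀ k : ℕ, |p.eval (k : ℝ)| ≤ B) (τ : ℝ) :
    p.eval τ = p.eval 0 := by
  have hdeg : ¬ 0 < p.degree := by
    intro hd
    have h1 := (Polynomial.abs_tendsto_atTop p hd).comp tendsto_natCast_atTop_atTop
    obtain ⟨k, hk⟩ := (h1.eventually_gt_atTop B).exists
    exact absurd (h k) (not_le.2 hk)
  rw [Polynomial.eq_C_of_degree_le_zero (not_lt.1 hdeg)]
  simp

/-- Bounded polynomial curves are constant. -/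
theorem PolyCurve.eq_of_bounded {c : ℝ → N.G} (hc : PolyCurve c) {B : ℝ}
    (h : ∀ (k : ℕ) i, |co (c k) i| ≤ B) (τ : ℝ) : c τ = c 0 := by
  apply ext'
  intro i
  obtain ⟨p, hp⟩ := mem_polySub.1 (hc i)
  have hp' : ∀ τ, co (c τ) i = p.eval τ := hp
  rw [hp', hp']
  exact poly_bounded (B := B) (fun k => by rw [← hp']; exact h k i) τ

/-- Sums of polynomials are polynomials. -/
theorem exists_sum_poly (q : ℝ[X]) : ∃ Q : ℝ[X], Q.natDegree ≤ q.natDegree + 1 ∧
    ∀ k : ℕ, Q.eval (k : ℝ) = ∑ l ∈ Finset.range k, q.eval (l : ℝ) := by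
  have key : ∀ p : ℕ, ∃ Q : ℝ[X], Q.natDegree ≤ p + 1 ∧
      ∀ k : ℕ, Q.eval (k : ℝ) = ∑ l ∈ Finset.range k, (l : ℝ) ^ p := by
    intro p
    refine ⟨∑ i ∈ Finset.range (p + 1),
      C ((bernoulli i : ℝ) * ((p + 1).choose i) / (p + 1)) * X ^ (p + 1 - i), ?_, fun k => ?_⟩
    · refine Polynomial.natDegree_sum_le_of_forall_le _ _ fun i _ => ?_
      refine (Polynomial.natDegree_C_mul_X_pow_le _ _).trans ?_
      omega
    · have h1 := sum_range_pow k p
      have h2 : ((∑ l ∈ Finset.range k, (l : ℚ) ^ p : ℚ) : ℝ) = ∑ l ∈ Finset.range k, (l : ℝ) ^ p := by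
        push_cast
        rfl
      rw [← h2, h1, Polynomial.eval_finset_sum]
      push_cast
      refine Finset.sum_congr rfl fun i _ => ?_
      simp only [eval_mul, eval_C, eval_pow, eval_X]
      ring
  choose Q hQ1 hQ2 using key
  refine ⟨∑ p ∈ Finset.range (q.natDegree + 1), C (q.coeff p) * Q p, ?_, fun k => ?_⟩
  · refine Polynomial.natDegree_sum_le_of_forall_le _ _ fun p hp => ?_
    refine (Polynomial.natDegree_C_mul_le _ _).trans ((hQ1 p).trans ?_)
    have := Finset.mem_range.1 hp
    omega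
  · rw [Polynomial.eval_finset_sum]
    simp only [eval_mul, eval_C, hQ2, Finset.mul_sum]
    rw [Finset.sum_comm]
    refine Finset.sum_congr rfl fun l _ => ?_
    rw [Polynomial.eval_eq_sum_range]

/-- The coordinates of the powers of `x` are polynomials in the exponent, of bounded degree. -/
theorem exists_pow_poly (N : NilLaw n) (i : Fin n) : ∃ D : ℕ, ∀ x : N.G, ∃ p : ℝ[X],
    p.natDegree ≤ D ∧ ∀ k : ℕ, co (x ^ k) i = p.eval (k : ℝ) := by
  induction i using WellFoundedLT.induction with
  | ind i ih =>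
    choose! D hD using ih
    let D' : ℕ := ∑ j, D j
    have hDD' : ∀ j, D j ≤ D' := fun j => Finset.single_le_sum (f := D) (fun _ _ => Nat.zero_le _)
      (Finset.mem_univ j)
    refine ⟨(N.pol i).totalDegree * D' + 1, fun x => ?_⟩
    have hx : ∀ j < i, ∃ p : ℝ[X], p.natDegree ≤ D' ∧ ∀ k : ℕ, co (x ^ k) j = p.eval (k : ℝ) := by
      intro j hj
      obtain ⟨p, hp1, hp2⟩ := hD j hj x
      exact ⟨p, hp1.trans (hDD' j), hp2⟩
    choose! p hp1 hp2 using hx
    let r : Fin n ⊕ Fin n → ℝ[X] := Sum.elim (fun j => if j < i then p j else 0)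
      (fun j => C (co x j))
    have hr : ∀ j, (r j).natDegree ≤ D' := by
      rintro (j | j)
      · show (if j < i then p j else 0).natDegree ≤ D'
        split_ifs with h
        · exact hp1 j h
        · simp
      · show (C (co x j)).natDegree ≤ D'
        simp
    let q : ℝ[X] := C (co x i) + MvPolynomial.aeval r (N.pol i)
    have hqdeg : q.natDegree ≤ (N.pol i).totalDegree * D' := by
      refine (Polynomial.natDegree_add_le _ _).trans (max_le (by simp) ?_)
      exact MvPolynomial.aeval_natDegree_le _ le_rfl _ hr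
    have heval : ∀ τ : ℝ, (MvPolynomial.aeval r (N.pol i)).eval τ =
        MvPolynomial.eval (fun j => (r j).eval τ) (N.pol i) := by
      intro τ
      have h1 : (Polynomial.evalRingHom τ) ((MvPolynomial.aeval r) (N.pol i)) = _ :=
        MvPolynomial.map_aeval r (Polynomial.evalRingHom τ) (N.pol i)
      rw [Polynomial.coe_evalRingHom] at h1
      rw [h1]
      have h2 : (Polynomial.evalRingHom τ).comp (algebraMap ℝ ℝ[X]) = RingHom.id ℝ := by
        ext a
        simp
      rw [h2]
      rfl
    have hq : ∀ l : ℕ, q.eval (l : ℝ) = co x i +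
        MvPolynomial.eval (Sum.elim (co (x ^ l)) (co x)) (N.pol i) := by
      intro l
      have h1 : MvPolynomial.eval (fun j => (r j).eval (l : ℝ)) (N.pol i) =
          MvPolynomial.eval (Sum.elim (co (x ^ l)) (co x)) (N.pol i) := by
        have h2 : (fun j => (r j).eval (l : ℝ)) =
            Sum.elim (fun j => (if j < i then p j else 0).eval (l : ℝ)) (co x) := by
          funext j
          rcases j with j | j
          · rfl
          · show (C (co x j)).eval (l : ℝ) = co x j
            simp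
        rw [h2]
        refine eval_congr (fun j hj => ?_) fun j _ => rfl
        rw [if_pos hj, hp2 j hj]
      show (C (co x i) + MvPolynomial.aeval r (N.pol i)).eval (l : ℝ) = _
      rw [Polynomial.eval_add, Polynomial.eval_C, heval, h1]
    obtain ⟨Q, hQ1, hQ2⟩ := exists_sum_poly q
    refine ⟨Q, hQ1.trans (by omega), fun k => ?_⟩
    rw [hQ2]
    induction k with
    | zero => simp [co_one]
    | succ k ihk =>
      rw [pow_succ, co_mul, ihk, Finset.sum_range_succ, hq k]
      ring

/-- The polynomials giving the powers. -/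
noncomputable def powPol (x : N.G) (i : Fin n) : ℝ[X] :=
  ((exists_pow_poly N i).choose_spec x).choose

theorem powPol_natDegree (x : N.G) (i : Fin n) :
    (powPol x i).natDegree ≤ (exists_pow_poly N i).choose :=
  ((exists_pow_poly N i).choose_spec x).choose_spec.1

theorem powPol_eval (x : N.G) (i : Fin n) (k : ℕ) : (powPol x i).eval (k : ℝ) = co (x ^ k) i :=
  (((exists_pow_poly N i).choose_spec x).choose_spec.2 k).symm

/-- Real powers. -/
noncomputable def rp (x : N.G) (t : ℝ) : N.G := N.pt fun i => (powPol x i).eval t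

theorem co_rp (x : N.G) (t : ℝ) (i : Fin n) : co (rp x t) i = (powPol x i).eval t := rfl

theorem rp_natCast (x : N.G) (k : ℕ) : rp x k = x ^ k := by
  apply ext'
  intro i
  rw [co_rp, powPol_eval]

theorem rp_polyCurve (x : N.G) : PolyCurve (rp x) := fun i =>
  mem_polySub.2 ⟨powPol x i, fun _ => rfl⟩

theorem const_mem (s : ℝ) : (fun _ : ℝ => s) ∈ polySub := mem_polySub.2 ⟨C s, by simp⟩

theorem id_mem : (fun τ : ℝ => τ) ∈ polySub := mem_polySub.2 ⟨X, by simp⟩

theorem add_const_mem (s : ℝ) : (fun τ : ℝ => τ + s) ∈ polySub := mem_polySub.2 ⟨X + C s, by simp⟩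

theorem const_add_mem (s : ℝ) : (fun τ : ℝ => s + τ) ∈ polySub := mem_polySub.2 ⟨C s + X, by simp⟩

theorem neg_mem : (fun τ : ℝ => -τ) ∈ polySub := mem_polySub.2 ⟨-X, by simp⟩

theorem rp_add (x : N.G) (s t : ℝ) : rp x (s + t) = rp x s * rp x t := by
  have h1 : ∀ k : ℕ, (fun s => rp x (s + k)) = fun s => rp x s * rp x k := by
    intro k
    refine PolyCurve.ext ((rp_polyCurve x).comp (add_const_mem _))
      ((rp_polyCurve x).mul (PolyCurve.const _)) fun l => ?_
    have : ((l : ℝ) + k) = ((l + k : ℕ) : ℝ) := by push_cast; rfl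
    show rp x ((l : ℝ) + k) = rp x l * rp x k
    rw [this, rp_natCast, rp_natCast, rp_natCast, pow_add]
  have h2 : (fun t => rp x (s + t)) = fun t => rp x s * rp x t := by
    refine PolyCurve.ext ((rp_polyCurve x).comp (const_add_mem _))
      ((PolyCurve.const _).mul (rp_polyCurve x)) fun k => ?_
    exact congrFun (h1 k) s
  exact congrFun h2 t

theorem rp_zero (x : N.G) : rp x 0 = 1 := by
  have := rp_natCast x 0
  simpa using this

theorem rp_one (x : N.G) : rp x 1 = x := by
  have := rp_natCast x 1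
  simpa using this

theorem rp_neg (x : N.G) (t : ℝ) : rp x (-t) = (rp x t)⁻¹ := by
  rw [eq_inv_iff_mul_eq_one, ← rp_add, neg_add_cancel, rp_zero]

theorem rp_intCast (x : N.G) (k : ℤ) : rp x k = x ^ k := by
  obtain ⟨k, rfl | rfl⟩ := k.eq_nat_or_neg
  · rw [Int.cast_natCast, rp_natCast, zpow_natCast]
  · rw [Int.cast_neg, Int.cast_natCast, rp_neg, rp_natCast, zpow_neg, zpow_natCast]

theorem rp_pow (x : N.G) (s : ℝ) (k : ℕ) : (rp x s) ^ k = rp x (k * s) := by
  induction k with
  | zero => simp [rp_zero]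
  | succ k ih =>
    rw [pow_succ, ih, ← rp_add]
    congr 1
    push_cast
    ring

theorem continuous_rp : Continuous fun p : N.G × ℝ => rp p.1 p.2 := by
  rw [continuous_iff]
  intro i
  set D := (exists_pow_poly N i).choose with hD
  have h1 : ∀ p : N.G × ℝ, co (rp p.1 p.2) i = ∑ k ∈ Finset.range (D + 1),
      co (p.1 ^ k) i * (Lagrange.basis (Finset.range (D + 1)) (fun k : ℕ => (k : ℝ)) k).eval p.2 := by
    intro p
    rw [co_rp]
    have h2 : powPol p.1 i = Lagrange.interpolate (Finset.range (D + 1)) (fun k : ℕ => (k : ℝ))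
        (fun k => (powPol p.1 i).eval (k : ℝ)) := by
      apply Lagrange.eq_interpolate
      · exact fun a _ b _ hab => Nat.cast_injective hab
      · rw [Finset.card_range]
        refine lt_of_le_of_lt Polynomial.degree_le_natDegree ?_
        exact_mod_cast Nat.lt_succ_iff.2 (powPol_natDegree p.1 i)
    rw [h2, Lagrange.interpolate_apply, Polynomial.eval_finset_sum]
    refine Finset.sum_congr rfl fun k _ => ?_
    rw [Polynomial.eval_mul, Polynomial.eval_C, powPol_eval]
  simp_rw [h1]
  refine continuous_finset_sum _ fun k _ => ?_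
  exact ((continuous_co i).comp (continuous_fst.pow k)).mul
    ((Polynomial.continuous _).comp continuous_snd)

theorem continuous_rp_right (x : N.G) : Continuous (rp x) :=
  continuous_rp.comp (continuous_const.prodMk continuous_id)

/-- Uniqueness of roots. -/
theorem pow_left_inj' {x y : N.G} {k : ℕ} (hk : 0 < k) (h : x ^ k = y ^ k) : x = y := by
  apply ext'
  intro i
  induction i using WellFoundedLT.induction with
  | ind i ih =>
    have h1 : ∀ (l : ℕ), ∀ j < i, co (x ^ l) j = co (y ^ l) j := by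
      intro l
      induction l with
      | zero => intro j _; simp
      | succ l ihl =>
        intro j hj
        rw [pow_succ, pow_succ]
        exact co_mul_congr (fun a ha => ihl a (ha.trans_lt hj)) fun a ha => ih a (ha.trans_lt hj)
    have h2 : ∀ (l : ℕ), co (x ^ l) i - l * co x i = co (y ^ l) i - l * co y i := by
      intro l
      induction l with
      | zero => simp
      | succ l ihl =>
        rw [pow_succ, pow_succ, co_mul, co_mul, eval_congr (h1 l) ih]
        push_cast
        linarith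
    have h3 := h2 k
    rw [h] at h3
    have h4 : (k : ℝ) * co x i = k * co y i := by linarith
    exact mul_left_cancel₀ (by positivity) h4

theorem pow_bijective (N : NilLaw n) (k : ℕ) (hk : 0 < k) :
    Function.Bijective fun x : N.G => x ^ k := by
  refine ⟨fun x y h => pow_left_inj' hk h, fun x => ⟨rp x (1 / k), ?_⟩⟩
  show (rp x (1 / k)) ^ k = x
  rw [rp_pow, mul_one_div_cancel (by positivity), rp_one]

theorem pow_mem_Fil_co {x : N.G} {i : Fin n} (hx : x ∈ N.Fil i) (k : ℕ) :
    co (x ^ k) i = k * co x i := by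
  induction k with
  | zero => simp [co_one]
  | succ k ih =>
    rw [pow_succ, co_mul_right hx, ih]
    push_cast
    ring

theorem co_rp_of_mem {x : N.G} {i : Fin n} (hx : x ∈ N.Fil i) (t : ℝ) :
    co (rp x t) i = t * co x i := by
  have h1 : powPol x i = C (co x i) * X := by
    apply Polynomial.eq_of_infinite_eval_eq
    apply Set.infinite_of_injective_forall_mem (f := fun k : ℕ => (k : ℝ)) Nat.cast_injective
    intro k
    show (powPol x i).eval (k : ℝ) = (C (co x i) * X).eval (k : ℝ)
    rw [powPol_eval, pow_mem_Fil_co hx, Polynomial.eval_mul, Polynomial.eval_C, Polynomial.eval_X,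
      mul_comm]
  rw [co_rp, h1, Polynomial.eval_mul, Polynomial.eval_C, Polynomial.eval_X, mul_comm]

theorem rp_mem_Fil {x : N.G} {k : ℕ} (hx : x ∈ N.Fil k) (t : ℝ) : rp x t ∈ N.Fil k := by
  intro j hj
  rw [co_rp_of_mem (Fil_anti hj.le hx), hx j hj, mul_zero]

section hom

variable {n' : ℕ} {N' : NilLaw n'}

/-- Continuous homomorphisms commute with real powers. -/
theorem map_rp {φ : N.G → N'.G} (hφ : Continuous φ) (hmul : ∀ x y, φ (x * y) = φ x * φ y)
    (x : N.G) (t : ℝ) : φ (rp x t) = rp (φ x) t := by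
  let Φ : N.G →* N'.G := MonoidHom.mk' φ hmul
  have h1 : (fun t : ℝ => φ (rp x t)) = rp (φ x) := by
    refine DenseRange.equalizer Rat.denseRange_cast (hφ.comp (continuous_rp_right x))
      (continuous_rp_right (φ x)) ?_
    funext q
    have hden : 0 < q.den := q.den_pos
    apply pow_left_inj' hden
    show (Φ (rp x (q : ℝ))) ^ q.den = (rp (Φ x) (q : ℝ)) ^ q.den
    have h2 : (q.den : ℝ) * (q : ℝ) = (q.num : ℝ) := by
      exact_mod_cast Rat.den_mul_eq_num q
    rw [← map_pow, rp_pow, rp_pow, h2, rp_intCast, rp_intCast, map_zpow]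
  exact congrFun h1 t

end hom

theorem rp_conj (u x : N.G) (t : ℝ) : u * rp x t * u⁻¹ = rp (u * x * u⁻¹) t :=
  map_rp (φ := fun x => u * x * u⁻¹) (by fun_prop) (fun x y => by group) x t

end NilLaw

end Pool.Agent.Lib.MP_271836_gt
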