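import Mathlib

/-!
# Finite groups of affine maps of uniquely divisible nilpotent groups have fixed points
-/

namespace Pool.Agent.Lib.MP_271836_gt.Nil

open scoped IsMulCommutative

/-- Every element has a unique `k`-th root. -/
def UniqRoots (G : Type*) [Group G] : Prop := ∀ k : ℕ, 0 < k → Function.Bijective fun x : G => x ^ k

theorem UniqRoots.inj {G : Type*} [Group G] (h : UniqRoots G) {k : ℕ} (hk : 0 < k) {x y : G}
    (hxy : x ^ k = y ^ k) : x = y := (h k hk).1 hxy

/-- Roots of central elements are central. -/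
theorem UniqRoots.root_center {G : Type*} [Group G] (h : UniqRoots G) {k : ℕ} (hk : 0 < k) {w : G}
    (hw : w ^ k ∈ Subgroup.center G) : w ∈ Subgroup.center G := by
  rw [Subgroup.mem_center_iff] at hw ⊢
  intro g
  have h1 : g * w * g⁻¹ = w := by
    apply h.inj hk
    rw [conj_pow, hw g]
    group
  calc g * w = (g * w * g⁻¹) * g := by group
    _ = w * g := by rw [h1]

theorem UniqRoots.quotient {G : Type*} [Group G] (h : UniqRoots G) :
    UniqRoots (G ⧸ Subgroup.center G) := by
  intro k hk
  constructor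
  · intro x y hxy
    obtain ⟨x, rfl⟩ := QuotientGroup.mk_surjective x
    obtain ⟨y, rfl⟩ := QuotientGroup.mk_surjective y
    have h1 : ((x ^ k : G) : G ⧸ Subgroup.center G) = ((y ^ k : G) : G ⧸ Subgroup.center G) := hxy
    rw [eq_comm, QuotientGroup.eq] at h1
    obtain ⟨w, hw⟩ := (h k hk).2 ((y ^ k)⁻¹ * x ^ k)
    have hw' : w ^ k = (y ^ k)⁻¹ * x ^ k := hw
    have hwc : w ∈ Subgroup.center G := h.root_center hk (by rw [hw']; exact h1)
    have h2 : x = y * w := by
      apply h.inj hk
      rw [Commute.mul_pow (Subgroup.mem_center_iff.1 hwc y), hw']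
      group
    rw [h2, eq_comm, QuotientGroup.eq]
    simpa using hwc
  · intro x
    obtain ⟨x, rfl⟩ := QuotientGroup.mk_surjective x
    obtain ⟨w, hw⟩ := (h k hk).2 x
    exact ⟨(w : G ⧸ Subgroup.center G), congrArg (fun v : G => (v : G ⧸ Subgroup.center G)) hw⟩

theorem exists_fixed (H : Type) [Group H] [Finite H] (G : Type) [Group G] [Group.IsNilpotent G] :
    UniqRoots G → ∀ (σ : H → G → G), (∀ x, σ 1 x = x) → (∀ g h x, σ (g * h) x = σ g (σ h x)) →
      (∀ g x y, σ g (x * y) = σ g x * (σ g 1)⁻¹ * σ g y) → ∃ c, ∀ g, σ g c = c := by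
  classical
  haveI := Fintype.ofFinite H
  refine Group.nilpotent_center_quotient_ind (P := fun G _ _ => UniqRoots G →
    ∀ (σ : H → G → G), (∀ x, σ 1 x = x) → (∀ g h x, σ (g * h) x = σ g (σ h x)) →
      (∀ g x y, σ g (x * y) = σ g x * (σ g 1)⁻¹ * σ g y) → ∃ c, ∀ g, σ g c = c) G ?_ ?_
  · intro G _ _ _ σ _ _ _
    exact ⟨1, fun g => Subsingleton.elim _ _⟩
  · intro G _ _ ih hr σ h1 hmul haff
    let Φ : H → G →* G := fun g => MonoidHom.mk' (fun x => (σ g 1)⁻¹ * σ g x) (by
      intro x y
      rw [haff]
      group)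
    have hΦ : ∀ g x, Φ g x = (σ g 1)⁻¹ * σ g x := fun g x => rfl
    have haff' : ∀ g x y, σ g (x * y) = σ g x * Φ g y := by
      intro g x y
      rw [haff, hΦ]
      group
    have hsurj : ∀ g, Function.Surjective (Φ g) := by
      intro g y
      refine ⟨σ g⁻¹ (σ g 1 * y), ?_⟩
      rw [hΦ, ← hmul, mul_inv_cancel, h1]
      group
    have hcen : ∀ g, ∀ z ∈ Subgroup.center G, Φ g z ∈ Subgroup.center G := by
      intro g z hz
      rw [Subgroup.mem_center_iff] at hz ⊢
      intro y
      obtain ⟨x, rfl⟩ := hsurj g y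
      rw [← map_mul, hz x, map_mul]
    let τ : H → G ⧸ Subgroup.center G → G ⧸ Subgroup.center G := fun g =>
      Quotient.map' (σ g) (by
        intro x y hxy
        rw [QuotientGroup.leftRel_apply] at hxy ⊢
        have h2 : σ g y = σ g x * Φ g (x⁻¹ * y) := by
          rw [← haff']
          congr 1
          group
        rw [h2]
        simpa using hcen g _ hxy)
    have hτ : ∀ g (x : G), τ g (x : G ⧸ Subgroup.center G) = (σ g x : G ⧸ Subgroup.center G) :=
      fun g x => rfl
    obtain ⟨c, hc⟩ := ih hr.quotient τ (by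
        intro x
        obtain ⟨x, rfl⟩ := QuotientGroup.mk_surjective x
        rw [hτ, h1]) (by
        intro g h x
        obtain ⟨x, rfl⟩ := QuotientGroup.mk_surjective x
        rw [hτ, hτ, hτ, hmul]) (by
        intro g x y
        obtain ⟨x, rfl⟩ := QuotientGroup.mk_surjective x
        obtain ⟨y, rfl⟩ := QuotientGroup.mk_surjective y
        have h2 : (1 : G ⧸ Subgroup.center G) = ((1 : G) : G ⧸ Subgroup.center G) := rfl
        rw [h2, ← QuotientGroup.mk_mul, hτ, hτ, hτ, hτ, haff]
        rfl)
    obtain ⟨c, rfl⟩ := QuotientGroup.mk_surjective c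
    let z : H → G := fun g => c⁻¹ * σ g c
    have hz : ∀ g, z g ∈ Subgroup.center G := by
      intro g
      have h2 := hc g
      rw [hτ, eq_comm, QuotientGroup.eq] at h2
      exact h2
    have hσc : ∀ g, σ g c = c * z g := fun g => by
      show σ g c = c * (c⁻¹ * σ g c)
      group
    have hcoc : ∀ g h, z (g * h) = z g * Φ g (z h) := by
      intro g h
      have h2 : c * z (g * h) = c * z g * Φ g (z h) := by
        rw [← hσc, hmul, hσc h, haff', hσc]
      rw [mul_assoc] at h2
      exact mul_left_cancel h2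
    -- work in the centre, a commutative group
    let zz : H → Subgroup.center G := fun g => ⟨z g, hz g⟩
    let ΦZ : H → Subgroup.center G →* Subgroup.center G := fun g =>
      ((Φ g).comp (Subgroup.center G).subtype).codRestrict (Subgroup.center G)
        fun x => hcen g x x.2
    have hΦZ : ∀ g (x : Subgroup.center G), ((ΦZ g x : Subgroup.center G) : G) = Φ g x :=
      fun g x => rfl
    let P : Subgroup.center G := ∏ g, zz g
    have hcard : 0 < Fintype.card H := Fintype.card_pos
    obtain ⟨w, hw⟩ := (hr _ hcard).2 (P : G)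
    have hw' : w ^ Fintype.card H = (P : G) := hw
    have hwc : w ∈ Subgroup.center G := hr.root_center hcard (by rw [hw']; exact P.2)
    have hP : ∀ g, ΦZ g P = (zz g)⁻¹ ^ Fintype.card H * P := by
      intro g
      have h2 : ∀ h, ΦZ g (zz h) = (zz g)⁻¹ * zz (g * h) := by
        intro h
        apply Subtype.ext
        rw [hΦZ]
        show Φ g (z h) = (z g)⁻¹ * z (g * h)
        rw [hcoc]
        group
      show ΦZ g (∏ h, zz h) = _
      rw [map_prod]
      simp_rw [h2]
      rw [Finset.prod_mul_distrib, Finset.prod_const, Finset.card_univ]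
      congr 1
      exact Fintype.prod_equiv (Equiv.mulLeft g) _ _ fun h => rfl
    have hww : ∀ g, Φ g w = (z g)⁻¹ * w := by
      intro g
      apply hr.inj hcard
      rw [← map_pow, hw']
      have h2 := congrArg (Subtype.val) (hP g)
      rw [hΦZ] at h2
      rw [h2]
      show ((z g)⁻¹) ^ Fintype.card H * (P : G) = _
      rw [← hw', Commute.mul_pow]
      exact (Subgroup.mem_center_iff.1 hwc _)
    refine ⟨c * w, fun g => ?_⟩
    rw [haff', hww, hσc]
    group

end Pool.Agent.Lib.MP_271836_gt.Nil
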