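import Pool.Agent.Lib.MP_271836_gt.Nil2

/-!
# Polynomial functions and products of real powers
-/

namespace Pool.Agent.Lib.MP_271836_gt

open Topology Set

variable {n : ℕ}

namespace NilLaw

variable {N : NilLaw n}

/-- Polynomial functions in the coordinates with index in `s`. -/
def polyOn {σ : Type*} (s : Set σ) : Subalgebra ℝ ((σ → ℝ) → ℝ) :=
  Algebra.adjoin ℝ ((fun (j : σ) (a : σ → ℝ) => a j) '' s)

theorem coord_mem {σ : Type*} {s : Set σ} {j : σ} (hj : j ∈ s) :
    (fun a : σ → ℝ => a j) ∈ polyOn s := Algebra.subset_adjoin ⟨j, hj, rfl⟩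

theorem polyOn_mono {σ : Type*} {s t : Set σ} (h : s ⊆ t) : polyOn s ≤ polyOn t :=
  Algebra.adjoin_mono (image_mono h)

theorem mem_polyOn_iff {σ : Type*} {s : Set σ} {f : (σ → ℝ) → ℝ} :
    f ∈ polyOn s ↔ ∃ P : MvPolynomial σ ℝ, (∀ j ∈ P.vars, j ∈ s) ∧
      ∀ a, f a = MvPolynomial.eval a P := by
  classical
  constructor
  · intro hf
    induction hf using Algebra.adjoin_induction with
    | mem x hx =>
      obtain ⟨j, hj, rfl⟩ := hx
      refine ⟨MvPolynomial.X j, ?_, fun a => ?_⟩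
      · intro k hk
        rw [MvPolynomial.vars_X, Finset.mem_singleton] at hk
        rw [hk]
        exact hj
      · rw [MvPolynomial.eval_X]
    | algebraMap r =>
      refine ⟨MvPolynomial.C r, ?_, fun a => ?_⟩
      · intro k hk
        rw [MvPolynomial.vars_C] at hk
        simp at hk
      · rw [MvPolynomial.eval_C]
        rfl
    | add f g _ _ hf hg =>
      obtain ⟨P, hP, hP'⟩ := hf
      obtain ⟨Q, hQ, hQ'⟩ := hg
      refine ⟨P + Q, ?_, fun a => ?_⟩
      · intro k hk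
        rcases Finset.mem_union.1 (MvPolynomial.vars_add_subset P Q hk) with h | h
        · exact hP k h
        · exact hQ k h
      · rw [MvPolynomial.eval_add, ← hP', ← hQ']
        rfl
    | mul f g _ _ hf hg =>
      obtain ⟨P, hP, hP'⟩ := hf
      obtain ⟨Q, hQ, hQ'⟩ := hg
      refine ⟨P * Q, ?_, fun a => ?_⟩
      · intro k hk
        rcases Finset.mem_union.1 (MvPolynomial.vars_mul P Q hk) with h | h
        · exact hP k h
        · exact hQ k h
      · rw [MvPolynomial.eval_mul, ← hP', ← hQ']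
        rfl
  · rintro ⟨P, hP, hP'⟩
    have h1 : f = fun a => MvPolynomial.eval (fun j => (if j ∈ s then (fun a : σ → ℝ => a j)
        else (0 : (σ → ℝ) → ℝ)) a) P := by
      funext a
      rw [hP']
      refine MvPolynomial.eval₂Hom_congr' rfl ?_ rfl
      intro j hj _
      rw [if_pos (hP j hj)]
    rw [h1]
    apply eval_mem
    intro j
    split_ifs with h
    · exact coord_mem h
    · exact Subalgebra.zero_mem _

/-- Polynomial functions vanish if they vanish at integral points. -/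
theorem polyOn_ext {σ : Type*} {s : Set σ} {f g : (σ → ℝ) → ℝ} (hf : f ∈ polyOn s)
    (hg : g ∈ polyOn s) (h : ∀ a : σ → ℤ, f (fun j => (a j : ℝ)) = g fun j => (a j : ℝ)) :
    f = g := by
  obtain ⟨P, -, hP⟩ := mem_polyOn_iff.1 hf
  obtain ⟨Q, -, hQ⟩ := mem_polyOn_iff.1 hg
  have hPQ : P = Q := by
    refine MvPolynomial.funext_set (fun _ => range fun k : ℤ => (k : ℝ))
      (fun _ => Set.infinite_range_of_injective Int.cast_injective) fun x hx => ?_
    have h1 : ∀ j, ∃ k : ℤ, (k : ℝ) = x j := fun j => hx j (mem_univ j)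
    choose a ha using h1
    have h2 : x = fun j => (a j : ℝ) := funext fun j => (ha j).symm
    rw [h2, ← hP, ← hQ, h a]
  funext a
  rw [hP, hQ, hPQ]

/-- Composition of polynomial functions with functions of a given algebra. -/
theorem polyOn_comp {σ A : Type*} {s : Set σ} {f : (σ → ℝ) → ℝ} (hf : f ∈ polyOn s)
    {S : Subalgebra ℝ (A → ℝ)} {g : A → σ → ℝ} (hg : ∀ j ∈ s, (fun a => g a j) ∈ S) :
    (fun a => f (g a)) ∈ S := by
  classical
  obtain ⟨P, hP, hP'⟩ := mem_polyOn_iff.1 hf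
  have h1 : (fun a => f (g a)) = fun a => MvPolynomial.eval (fun j => (if j ∈ s then
      (fun a => g a j) else (0 : A → ℝ)) a) P := by
    funext a
    rw [hP']
    refine MvPolynomial.eval₂Hom_congr' rfl ?_ rfl
    intro j hj _
    rw [if_pos (hP j hj)]
  rw [h1]
  apply eval_mem
  intro j
  split_ifs with h
  · exact hg j h
  · exact Subalgebra.zero_mem _

theorem poly_comp {A : Type*} {S : Subalgebra ℝ (A → ℝ)} {g : A → ℝ} (hg : g ∈ S)
    (p : Polynomial ℝ) : (fun a => p.eval (g a)) ∈ S := by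
  induction p using Polynomial.induction_on' with
  | add p q hp hq =>
    have h1 : (fun a => (p + q).eval (g a)) = (fun a => p.eval (g a)) + fun a => q.eval (g a) := by
      funext a
      simp
    rw [h1]
    exact S.add_mem hp hq
  | monomial k r =>
    have h1 : (fun a => (Polynomial.monomial k r).eval (g a)) =
        algebraMap ℝ (A → ℝ) r * g ^ k := by
      funext a
      simp
    rw [h1]
    exact S.mul_mem (S.algebraMap_mem r) (S.pow_mem hg k)

theorem CoIn.rp {A : Type*} {S : Subalgebra ℝ (A → ℝ)} {g : A → ℝ} (hg : g ∈ S) (x : N.G) :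
    CoIn S fun a => NilLaw.rp x (g a) := fun i => poly_comp hg (powPol x i)

/-- Products of real powers. -/
noncomputable def prd {m : ℕ} (μ : Fin m → N.G) (s : Fin m → ℝ) : ℕ → N.G
  | 0 => 1
  | k + 1 => if h : k < m then prd μ s k * rp (μ ⟨k, h⟩) (s ⟨k, h⟩) else prd μ s k

theorem prd_zero {m : ℕ} (μ : Fin m → N.G) (s : Fin m → ℝ) : prd μ s 0 = 1 := rfl

theorem prd_succ {m : ℕ} (μ : Fin m → N.G) (s : Fin m → ℝ) {k : ℕ} (h : k < m) :
    prd μ s (k + 1) = prd μ s k * rp (μ ⟨k, h⟩) (s ⟨k, h⟩) := dif_pos h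

theorem CoIn.prd {A : Type*} {S : Subalgebra ℝ (A → ℝ)} {m : ℕ} (μ : Fin m → N.G)
    {s : A → Fin m → ℝ} (hs : ∀ j, (fun a => s a j) ∈ S) {k : ℕ} (hk : k ≤ m) :
    CoIn S fun a => NilLaw.prd μ (s a) k := by
  induction k with
  | zero =>
    simp only [prd_zero]
    exact CoIn.one
  | succ k ih =>
    have h1 : k < m := hk
    simp only [prd_succ μ _ h1]
    exact (ih h1.le).mul (CoIn.rp (hs _) _)

theorem prd_int_mem {m : ℕ} {Λ : Subgroup N.G} {μ : Fin m → N.G} (hμ : ∀ i, μ i ∈ Λ)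
    (s : Fin m → ℤ) {k : ℕ} (hk : k ≤ m) : prd μ (fun j => (s j : ℝ)) k ∈ Λ := by
  induction k with
  | zero => exact one_mem _
  | succ k ih =>
    have h1 : k < m := hk
    rw [prd_succ μ _ h1, rp_intCast]
    exact mul_mem (ih h1.le) (zpow_mem (hμ _) _)

/-- Stripping off real powers. -/
noncomputable def strip (μ : Fin n → N.G) (g : N.G) : ℕ → N.G
  | 0 => g
  | k + 1 => if h : k < n then
      rp (μ ⟨k, h⟩) (-(co (strip μ g k) ⟨k, h⟩ / co (μ ⟨k, h⟩) ⟨k, h⟩)) * strip μ g k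
    else strip μ g k

/-- The exponents. -/
noncomputable def expo (μ : Fin n → N.G) (g : N.G) (j : Fin n) : ℝ :=
  co (strip μ g j) j / co (μ j) j

theorem strip_succ (μ : Fin n → N.G) (g : N.G) {k : ℕ} (h : k < n) :
    strip μ g (k + 1) = rp (μ ⟨k, h⟩) (-(expo μ g ⟨k, h⟩)) * strip μ g k := dif_pos h

section basis

variable {μ : Fin n → N.G} (hμ : ∀ i : Fin n, μ i ∈ N.Fil i) (hne : ∀ i : Fin n, co (μ i) i ≠ 0)

include hμ hne in
theorem strip_mem (g : N.G) {k : ℕ} (hk : k ≤ n) : strip μ g k ∈ N.Fil k := by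
  induction k with
  | zero => rw [Fil_zero]; trivial
  | succ k ih =>
    have h1 : k < n := hk
    have h2 := ih h1.le
    have h3 : rp (μ ⟨k, h1⟩) (-(expo μ g ⟨k, h1⟩)) ∈ N.Fil k := rp_mem_Fil (hμ ⟨k, h1⟩) _
    rw [strip_succ μ g h1]
    intro j hj
    rcases Nat.lt_succ_iff_lt_or_eq.1 hj with h4 | h4
    · exact mul_mem h3 h2 j h4
    · have hjk : j = ⟨k, h1⟩ := Fin.ext h4
      subst hjk
      have h5 : co (μ ⟨k, h1⟩) ⟨k, h1⟩ ≠ 0 := hne _
      rw [co_mul_left (i := ⟨k, h1⟩) h3, co_rp_of_mem (i := ⟨k, h1⟩) (hμ _)]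
      show -(co (strip μ g k) ⟨k, h1⟩ / co (μ ⟨k, h1⟩) ⟨k, h1⟩) * co (μ ⟨k, h1⟩) ⟨k, h1⟩ +
        co (strip μ g k) ⟨k, h1⟩ = 0
      field_simp
      ring

theorem prd_mul_strip (μ : Fin n → N.G) (g : N.G) {k : ℕ} (hk : k ≤ n) :
    prd μ (expo μ g) k * strip μ g k = g := by
  induction k with
  | zero =>
    show 1 * g = g
    rw [one_mul]
  | succ k ih =>
    have h1 : k < n := hk
    rw [prd_succ μ _ h1, strip_succ μ g h1, rp_neg]
    have := ih h1.le
    rw [show prd μ (expo μ g) k * rp (μ ⟨k, h1⟩) (expo μ g ⟨k, h1⟩) *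
      ((rp (μ ⟨k, h1⟩) (expo μ g ⟨k, h1⟩))⁻¹ * strip μ g k) = prd μ (expo μ g) k * strip μ g k by
        group]
    exact this

include hμ hne in
theorem prd_expo (g : N.G) : prd μ (expo μ g) n = g := by
  have h1 := prd_mul_strip μ g le_rfl
  have h2 := strip_mem hμ hne g le_rfl
  rw [Fil_n, Subgroup.mem_bot] at h2
  rw [h2, mul_one] at h1
  exact h1

theorem coIn_strip {A : Type*} {S : Subalgebra ℝ (A → ℝ)} (μ : Fin n → N.G) {x : A → N.G}
    (hx : CoIn S x) {k : ℕ} (hk : k ≤ n) : CoIn S fun a => strip μ (x a) k := by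
  induction k with
  | zero => exact hx
  | succ k ih =>
    have h1 : k < n := hk
    have h2 := ih h1.le
    simp only [strip_succ μ _ h1]
    refine CoIn.mul (CoIn.rp ?_ _) h2
    apply S.neg_mem
    have h3 : (fun a => expo μ (x a) ⟨k, h1⟩) =
        (fun a => co (strip μ (x a) k) ⟨k, h1⟩) *
          algebraMap ℝ (A → ℝ) (co (μ ⟨k, h1⟩) ⟨k, h1⟩)⁻¹ := by
      funext a
      rfl
    have h4 : (fun a => -expo μ (x a) ⟨k, h1⟩) = -(fun a => expo μ (x a) ⟨k, h1⟩) := rfl
    rw [h3]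
    exact S.mul_mem (h2 _) (S.algebraMap_mem _)

theorem expo_mem {A : Type*} {S : Subalgebra ℝ (A → ℝ)} (μ : Fin n → N.G) {x : A → N.G}
    (hx : CoIn S x) (j : Fin n) : (fun a => expo μ (x a) j) ∈ S := by
  have h3 : (fun a => expo μ (x a) j) =
      (fun a => co (strip μ (x a) j) j) * algebraMap ℝ (A → ℝ) (co (μ j) j)⁻¹ := by
    funext a
    rfl
  rw [h3]
  exact S.mul_mem (coIn_strip μ hx j.2.le _) (S.algebraMap_mem _)

end basis

end NilLaw

end Pool.Agent.Lib.MP_271836_gt
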