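import Pool.Agent.Lib.MP_271836_gt.Nil4

/-!
# Lattices in adapted coordinates and the extension of homomorphisms
-/

namespace Pool.Agent.Lib.MP_271836_gt

open Topology Set
open scoped Pointwise

variable {n : ℕ}

namespace NilLaw

variable {N : NilLaw n}

/-- The subgroup is discrete. -/
def DiscN (Λ : Subgroup N.G) : Prop := ∀ K : Set N.G, IsCompact K → ((Λ : Set N.G) ∩ K).Finite

/-- The subgroup is cocompact. -/
def CocN (Λ : Subgroup N.G) : Prop := ∃ K : Set N.G, IsCompact K ∧ ∀ x : N.G, ∃ l ∈ Λ, l * x ∈ K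

/-- A basis of a lattice adapted to the coordinates. -/
structure Basis (Λ : Subgroup N.G) (μ : Fin n → N.G) : Prop where
  mem : ∀ i, μ i ∈ Λ
  fil : ∀ i : Fin n, μ i ∈ N.Fil i
  ne : ∀ i : Fin n, co (μ i) i ≠ 0
  gen : ∀ i : Fin n, ∀ l ∈ Λ, l ∈ N.Fil i → ∃ m : ℤ, co l i = m * co (μ i) i

theorem mem_Fil_succ {x : N.G} {k : ℕ} (hk : k < n) (hx : x ∈ N.Fil k) (h : co x ⟨k, hk⟩ = 0) :
    x ∈ N.Fil (k + 1) := by
  intro j hj
  rcases Nat.lt_succ_iff_lt_or_eq.1 hj with h4 | h4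
  · exact hx j h4
  · have hjk : j = ⟨k, hk⟩ := Fin.ext h4
    rw [hjk]
    exact h

section reduction

variable {Λ : Subgroup N.G} {μ : Fin n → N.G} (hmem : ∀ i, μ i ∈ Λ)
  (hfil : ∀ i : Fin n, μ i ∈ N.Fil i) (hne : ∀ i : Fin n, co (μ i) i ≠ 0)

include hfil hne in
theorem mul_rp_mem {k : ℕ} (hk : k < n) {x : N.G} (hx : x ∈ N.Fil k) :
    x * (rp (μ ⟨k, hk⟩) (co x ⟨k, hk⟩ / co (μ ⟨k, hk⟩) ⟨k, hk⟩))⁻¹ ∈ N.Fil (k + 1) := by
  have h1 : μ ⟨k, hk⟩ ∈ N.Fil k := hfil ⟨k, hk⟩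
  rw [← rp_neg]
  refine mem_Fil_succ hk (mul_mem hx (rp_mem_Fil h1 _)) ?_
  rw [co_mul_right (i := ⟨k, hk⟩) (rp_mem_Fil h1 _), co_rp_of_mem (i := ⟨k, hk⟩) h1]
  have := hne ⟨k, hk⟩
  field_simp
  ring

include hmem hfil hne in
theorem reduce : ∀ m k : ℕ, k + m = n → ∃ K : Set N.G, IsCompact K ∧ ∀ x ∈ N.Fil k,
    ∃ l ∈ Λ, l ∈ N.Fil k ∧ l * x ∈ K := by
  intro m
  induction m with
  | zero =>
    intro k hk
    refine ⟨{1}, isCompact_singleton, fun x hx => ⟨1, one_mem _, one_mem _, ?_⟩⟩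
    have hkn : k = n := by omega
    rw [hkn, Fil_n, Subgroup.mem_bot] at hx
    rw [hx]
    simp
  | succ m ih =>
    intro k hk
    have hkn : k < n := by omega
    obtain ⟨K', hK', hK⟩ := ih (k + 1) (by omega)
    set i : Fin n := ⟨k, hkn⟩ with hi
    have hμ : μ i ∈ N.Fil k := hfil i
    refine ⟨K' * (rp (μ i) '' Icc 0 1), hK'.mul (isCompact_Icc.image (continuous_rp_right _)),
      fun x hx => ?_⟩
    let u := co x i / co (μ i) i
    have hz : (μ i) ^ (-⌊u⌋) ∈ Λ := zpow_mem (hmem i) _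
    have hz' : (μ i) ^ (-⌊u⌋) ∈ N.Fil k := zpow_mem hμ _
    set y := (μ i) ^ (-⌊u⌋) * x with hy
    have hyF : y ∈ N.Fil k := mul_mem hz' hx
    have hyc : co y i / co (μ i) i = Int.fract u := by
      have h1 : co y i = -⌊u⌋ * co (μ i) i + co x i := by
        rw [hy, co_mul_left (i := i) hz', ← rp_intCast, co_rp_of_mem (i := i) hμ]
        push_cast
        ring
      have h2 := hne i
      rw [h1, Int.fract]
      show _ = co x i / co (μ i) i - _
      field_simp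
      ring
    have hy' := mul_rp_mem hfil hne hkn hyF
    rw [← hi, hyc] at hy'
    obtain ⟨l', hl', hl'F, hl'K⟩ := hK _ hy'
    refine ⟨l' * (μ i) ^ (-⌊u⌋), mul_mem hl' hz, mul_mem (Fil_anti (Nat.le_succ k) hl'F) hz', ?_⟩
    have h3 : l' * (μ i) ^ (-⌊u⌋) * x = l' * (y * (rp (μ i) (Int.fract u))⁻¹) *
        rp (μ i) (Int.fract u) := by
      rw [hy]; group
    rw [h3]
    exact Set.mul_mem_mul hl'K ⟨_, ⟨Int.fract_nonneg _, (Int.fract_lt_one _).le⟩, rfl⟩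

end reduction

theorem exists_basis {Λ : Subgroup N.G} (hd : DiscN Λ)
    (h : ∀ i : Fin n, ∃ μ ∈ Λ, μ ∈ N.Fil i ∧ co μ i ≠ 0) : ∃ μ, Basis Λ μ := by
  choose μ hmem hfil hne using h
  have key : ∀ i : Fin n, ∃ ν ∈ Λ, ν ∈ N.Fil i ∧ co ν i ≠ 0 ∧
      ∀ l ∈ Λ, l ∈ N.Fil i → ∃ m : ℤ, co l i = m * co ν i := by
    intro i
    let S : AddSubgroup ℝ :=
      { carrier := {r | ∃ l ∈ Λ, l ∈ N.Fil i ∧ co l i = r}
        add_mem' := by
          rintro a b ⟨l, hl, hlF, rfl⟩ ⟨l', hl', hlF', rfl⟩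
          exact ⟨l * l', mul_mem hl hl', mul_mem hlF hlF', co_mul_left hlF⟩
        zero_mem' := ⟨1, one_mem _, one_mem _, rfl⟩
        neg_mem' := by
          rintro a ⟨l, hl, hlF, rfl⟩
          refine ⟨l⁻¹, inv_mem hl, inv_mem hlF, ?_⟩
          have h1 : co (l * l⁻¹) i = 0 := by rw [mul_inv_cancel]; rfl
          rw [co_mul_left hlF] at h1
          linarith }
    have hS : ∀ r, r ∈ S ↔ ∃ l ∈ Λ, l ∈ N.Fil i ∧ co l i = r := fun r => Iff.rfl
    set c := |co (μ i) i| with hc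
    have hc0 : 0 < c := abs_pos.2 (hne i)
    have hcS : c ∈ S := by
      have h1 : co (μ i) i ∈ S := ⟨μ i, hmem i, hfil i, rfl⟩
      rcases abs_choice (co (μ i) i) with h2 | h2
      · rw [hc, h2]; exact h1
      · rw [hc, h2]; exact S.neg_mem h1
    have hfin : ((S : Set ℝ) ∩ Icc (-c) c).Finite := by
      obtain ⟨K, hK, hKr⟩ := reduce hmem hfil hne (n - (i + 1)) (i + 1) (by omega)
      have hK' : IsCompact (K * (rp (μ i) '' Icc (-1) 1)) :=
        hK.mul (isCompact_Icc.image (continuous_rp_right _))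
      refine ((hd _ hK').image fun x => co x i).subset ?_
      rintro _ ⟨⟨l, hl, hlF, rfl⟩, hlc⟩
      have h1 := mul_rp_mem hfil hne i.2 hlF
      obtain ⟨l', hl', hl'F, hl'K⟩ := hKr _ h1
      set u := co l i / co (μ i) i with hu
      have hu1 : u ∈ Icc (-1 : ℝ) 1 := by
        have h2 : |u| ≤ 1 := by
          rw [hu, abs_div, div_le_one hc0]
          exact abs_le.2 hlc
        exact abs_le.1 h2
      refine ⟨l' * l, ⟨mul_mem hl' hl, ?_⟩, ?_⟩
      · have h3 : l' * l = l' * (l * (rp (μ i) u)⁻¹) * rp (μ i) u := by group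
        rw [h3]
        exact Set.mul_mem_mul hl'K ⟨u, hu1, rfl⟩
      · show co (l' * l) i = co l i
        rw [co_mul_left (Fil_anti (Nat.le_succ _) hl'F), hl'F i (Nat.lt_succ_self _), zero_add]
    -- the smallest positive element
    have hne' : ((S : Set ℝ) ∩ Ioc 0 c).Nonempty := ⟨c, hcS, hc0, le_rfl⟩
    have hfin' : ((S : Set ℝ) ∩ Ioc 0 c).Finite :=
      hfin.subset (inter_subset_inter_right _ fun r hr => ⟨by linarith [hr.1], hr.2⟩)
    obtain ⟨a, ha, hamin⟩ := hfin'.exists_minimalFor id _ hne'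
    obtain ⟨haS, ha0, hac⟩ := ha
    have hiso : Disjoint (S : Set ℝ) (Ioo 0 a) := by
      rw [Set.disjoint_left]
      rintro r hr ⟨hr0, hra⟩
      have h1 : r ∈ (S : Set ℝ) ∩ Ioc 0 c := ⟨hr, hr0, (hra.trans_le hac).le⟩
      have h2 : a ≤ r := hamin h1 hra.le
      linarith
    obtain ⟨b, hb⟩ := AddSubgroup.cyclic_of_isolated_zero ha0 hiso
    have hbS : b ∈ S := by
      rw [hb]
      exact AddSubgroup.subset_closure rfl
    obtain ⟨ν, hν, hνF, hνb⟩ := (hS b).1 hbS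
    have hcyc : ∀ r ∈ S, ∃ m : ℤ, r = m * b := by
      intro r hr
      rw [hb, ← AddSubgroup.zmultiples_eq_closure, AddSubgroup.mem_zmultiples_iff] at hr
      obtain ⟨m, hm⟩ := hr
      exact ⟨m, by rw [← hm, zsmul_eq_mul]⟩
    refine ⟨ν, hν, hνF, ?_, fun l hl hlF => ?_⟩
    · rw [hνb]
      rintro rfl
      obtain ⟨m, hm⟩ := hcyc c hcS
      rw [mul_zero] at hm
      linarith
    · rw [hνb]
      exact hcyc _ ⟨l, hl, hlF, rfl⟩
  choose ν h1 h2 h3 h4 using key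
  exact ⟨ν, h1, h2, h3, h4⟩

section extension

variable {Λ : Subgroup N.G} {μ : Fin n → N.G} (hB : Basis Λ μ)

include hB

theorem Basis.strip_mem_lattice {l : N.G} (hl : l ∈ Λ) {k : ℕ} (hk : k ≤ n) :
    strip μ l k ∈ Λ := by
  induction k with
  | zero => exact hl
  | succ k ih =>
    have h1 : k < n := hk
    have h2 := ih h1.le
    obtain ⟨m, hm⟩ := hB.gen ⟨k, h1⟩ _ h2 (strip_mem hB.fil hB.ne l h1.le)
    have h3 : expo μ l ⟨k, h1⟩ = m := by
      show co (strip μ l k) ⟨k, h1⟩ / co (μ ⟨k, h1⟩) ⟨k, h1⟩ = m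
      rw [hm]
      have := hB.ne ⟨k, h1⟩
      field_simp
    rw [strip_succ μ l h1, h3, rp_neg, rp_intCast]
    exact mul_mem (inv_mem (zpow_mem (hB.mem _) _)) h2

theorem Basis.expo_int {l : N.G} (hl : l ∈ Λ) (j : Fin n) : ∃ m : ℤ, expo μ l j = m := by
  obtain ⟨m, hm⟩ := hB.gen j _ (hB.strip_mem_lattice hl j.2.le) (strip_mem hB.fil hB.ne l j.2.le)
  refine ⟨m, ?_⟩
  show co (strip μ l j) j / co (μ j) j = m
  rw [hm]
  have := hB.ne j
  field_simp

/-- Malcev's extension theorem. -/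
theorem Basis.exists_extension {n' : ℕ} {N' : NilLaw n'} (θ : Λ →* N'.G) :
    ∃ M : N.G →* N'.G, Continuous M ∧ ∀ l : Λ, M l = θ l := by
  let ν : Fin n → N'.G := fun i => θ ⟨μ i, hB.mem i⟩
  let M₀ : N.G → N'.G := fun g => prd ν (expo μ g) n
  have hint : ∀ (s : Fin n → ℤ) (k : ℕ) (hk : k ≤ n),
      θ ⟨prd μ (fun j => (s j : ℝ)) k, prd_int_mem hB.mem s hk⟩ = prd ν (fun j => (s j : ℝ)) k := by
    intro s k hk
    induction k with
    | zero => exact map_one θ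
    | succ k ih =>
      have h1 : k < n := hk
      have h2 : (⟨prd μ (fun j => (s j : ℝ)) (k + 1), prd_int_mem hB.mem s hk⟩ : Λ) =
          ⟨prd μ (fun j => (s j : ℝ)) k, prd_int_mem hB.mem s h1.le⟩ *
            ⟨μ ⟨k, h1⟩, hB.mem _⟩ ^ (s ⟨k, h1⟩) := by
        apply Subtype.ext
        show prd μ (fun j => (s j : ℝ)) (k + 1) = prd μ (fun j => (s j : ℝ)) k *
          (μ ⟨k, h1⟩) ^ (s ⟨k, h1⟩)
        rw [prd_succ μ _ h1, rp_intCast]
      rw [h2, map_mul, ih h1.le, map_zpow, prd_succ ν _ h1, rp_intCast]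
  have hΛ : ∀ l : Λ, M₀ l = θ l := by
    intro l
    choose s hs using fun j => hB.expo_int l.2 j
    have h1 : expo μ (l : N.G) = fun j => (s j : ℝ) := funext hs
    have h2 : (⟨prd μ (fun j => (s j : ℝ)) n, prd_int_mem hB.mem s le_rfl⟩ : Λ) = l := by
      apply Subtype.ext
      show prd μ (fun j => (s j : ℝ)) n = l
      rw [← h1]
      exact prd_expo hB.fil hB.ne _
    show prd ν (expo μ (l : N.G)) n = θ l
    rw [h1, ← hint s n le_rfl, h2]
  have hmul : ∀ x y, M₀ (x * y) = M₀ x * M₀ y := by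
    let S : Subalgebra ℝ ((Fin n ⊕ Fin n → ℝ) → ℝ) := polyOn univ
    let X : (Fin n ⊕ Fin n → ℝ) → N.G := fun a => prd μ (fun j => a (Sum.inl j)) n
    let Y : (Fin n ⊕ Fin n → ℝ) → N.G := fun a => prd μ (fun j => a (Sum.inr j)) n
    have hX : CoIn S X := CoIn.prd μ (fun j => coord_mem (mem_univ _)) le_rfl
    have hY : CoIn S Y := CoIn.prd μ (fun j => coord_mem (mem_univ _)) le_rfl
    have hM : ∀ {Z : (Fin n ⊕ Fin n → ℝ) → N.G}, CoIn S Z → CoIn S fun a => M₀ (Z a) :=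
      fun hZ => CoIn.prd ν (expo_mem μ hZ) le_rfl
    have h1 : CoIn S fun a => M₀ (X a * Y a) := hM (hX.mul hY)
    have h2 : CoIn S fun a => M₀ (X a) * M₀ (Y a) := (hM hX).mul (hM hY)
    have h3 : ∀ a, M₀ (X a * Y a) = M₀ (X a) * M₀ (Y a) := by
      intro a
      apply ext'
      intro i
      refine congrFun (polyOn_ext (h1 i) (h2 i) fun b => ?_) a
      have hXb : X (fun j => (b j : ℝ)) ∈ Λ := prd_int_mem hB.mem (fun j => b (Sum.inl j)) le_rfl
      have hYb : Y (fun j => (b j : ℝ)) ∈ Λ := prd_int_mem hB.mem (fun j => b (Sum.inr j)) le_rfl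
      have h4 := hΛ (⟨_, hXb⟩ * ⟨_, hYb⟩)
      rw [map_mul, ← hΛ, ← hΛ] at h4
      exact congrArg (fun v : N'.G => co v i) h4
    intro x y
    have h4 := h3 (Sum.elim (expo μ x) (expo μ y))
    have hXx : X (Sum.elim (expo μ x) (expo μ y)) = x := prd_expo hB.fil hB.ne x
    have hYy : Y (Sum.elim (expo μ x) (expo μ y)) = y := prd_expo hB.fil hB.ne y
    rw [hXx, hYy] at h4
    exact h4
  refine ⟨MonoidHom.mk' M₀ hmul, ?_, hΛ⟩
  show Continuous M₀
  rw [← coIn_cont]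
  exact CoIn.prd ν (expo_mem μ (coIn_cont.2 continuous_id)) le_rfl

end extension

end NilLaw

end Pool.Agent.Lib.MP_271836_gt
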