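import Pool.Agent.Lib.MP_271836_gt.Nil5

/-!
# Quotients by central one-parameter groups
-/

namespace Pool.Agent.Lib.MP_271836_gt

open Topology Set

variable {n : ℕ}

namespace NilLaw

section lower

variable {N : NilLaw n} {A : Type*} {S : Subalgebra ℝ (A → ℝ)}

/-- The coordinates with index below `i` belong to the algebra `S`. -/
def CoLt (S : Subalgebra ℝ (A → ℝ)) (i : Fin n) (x : A → N.G) : Prop :=
  ∀ k < i, (fun a => co (x a) k) ∈ S

theorem evalLt {i k : Fin n} (hk : k ≤ i) {x y : A → N.G} (hx : CoLt S i x) (hy : CoLt S i y) :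
    (fun a => MvPolynomial.eval (Sum.elim (co (x a)) (co (y a))) (N.pol k)) ∈ S := by
  have hf : (fun v : Fin n ⊕ Fin n → ℝ => MvPolynomial.eval v (N.pol k)) ∈
      polyOn {j : Fin n ⊕ Fin n | Sum.elim id id j < k} :=
    mem_polyOn_iff.2 ⟨N.pol k, pol_vars k, fun _ => rfl⟩
  refine polyOn_comp hf (g := fun a => Sum.elim (co (x a)) (co (y a))) ?_
  rintro (j | j) hj
  · exact hx j (lt_of_lt_of_le hj hk)
  · exact hy j (lt_of_lt_of_le hj hk)

theorem CoLt.mul {i : Fin n} {x y : A → N.G} (hx : CoLt S i x) (hy : CoLt S i y) :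
    CoLt S i fun a => x a * y a := by
  intro k hk
  have h1 : (fun a => co (x a * y a) k) = ((fun a => co (x a) k) + fun a => co (y a) k) +
      fun a => MvPolynomial.eval (Sum.elim (co (x a)) (co (y a))) (N.pol k) := by
    funext a
    exact co_mul _ _ _
  rw [h1]
  exact S.add_mem (S.add_mem (hx k hk) (hy k hk)) (evalLt hk.le hx hy)

theorem co_mul_sub_mem {i : Fin n} {x y : A → N.G} (hx : CoLt S i x) (hy : CoLt S i y) :
    (fun a => co (x a * y a) i - co (x a) i - co (y a) i) ∈ S := by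
  have h1 : (fun a => co (x a * y a) i - co (x a) i - co (y a) i) =
      fun a => MvPolynomial.eval (Sum.elim (co (x a)) (co (y a))) (N.pol i) := by
    funext a
    rw [co_mul]
    ring
  rw [h1]
  exact evalLt le_rfl hx hy

end lower

theorem triangular_of {mul : (Fin n → ℝ) → (Fin n → ℝ) → Fin n → ℝ} {i : Fin n}
    (h : (fun a : Fin n ⊕ Fin n → ℝ => mul (fun j => a (Sum.inl j)) (fun j => a (Sum.inr j)) i -
      a (Sum.inl i) - a (Sum.inr i)) ∈ polyOn {j : Fin n ⊕ Fin n | Sum.elim id id j < i}) :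
    ∃ P : MvPolynomial (Fin n ⊕ Fin n) ℝ, (∀ j ∈ P.vars, Sum.elim id id j < i) ∧
      ∀ x y, mul x y i = x i + y i + MvPolynomial.eval (Sum.elim x y) P := by
  obtain ⟨P, hP, hP'⟩ := mem_polyOn_iff.1 h
  refine ⟨P, hP, fun x y => ?_⟩
  have h1 := hP' (Sum.elim x y)
  simp only [Sum.elim_inl, Sum.elim_inr] at h1
  have h2 : mul (fun j => x j) (fun j => y j) i = mul x y i := rfl
  rw [h2] at h1
  linarith

/-- A central element whose first nonzero coordinate has index `i₀`. -/
structure Cen (N : NilLaw (n + 1)) where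
  /-- the element -/
  z : N.G
  /-- the index -/
  i₀ : Fin (n + 1)
  central : ∀ g, g * z = z * g
  fil : z ∈ N.Fil i₀
  ne : co z i₀ ≠ 0

namespace Cen

variable {N : NilLaw (n + 1)} (C : Cen N)

theorem rp_central (g : N.G) (t : ℝ) : g * rp C.z t = rp C.z t * g := by
  have h1 : g * rp C.z t * g⁻¹ = rp C.z t := by
    rw [rp_conj, C.central]
    congr 1
    group
  calc g * rp C.z t = (g * rp C.z t * g⁻¹) * g := by group
    _ = rp C.z t * g := by rw [h1]

/-- The section. -/
def sec (x : Fin n → ℝ) : N.G := N.pt (C.i₀.insertNth 0 x)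

/-- The reduction. -/
noncomputable def red (g : N.G) : N.G := g * rp C.z (-(co g C.i₀ / co C.z C.i₀))

/-- The coordinates of the class. -/
noncomputable def quo (g : N.G) (j : Fin n) : ℝ := co (C.red g) (C.i₀.succAbove j)

theorem co_sec_i₀ (x : Fin n → ℝ) : co (C.sec x) C.i₀ = 0 :=
  Fin.insertNth_apply_same (α := fun _ => ℝ) C.i₀ 0 x

theorem co_sec (x : Fin n → ℝ) (j : Fin n) : co (C.sec x) (C.i₀.succAbove j) = x j :=
  Fin.insertNth_apply_succAbove (α := fun _ => ℝ) C.i₀ 0 x j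

theorem co_red_i₀ (g : N.G) : co (C.red g) C.i₀ = 0 := by
  have h1 := C.ne
  rw [red, co_mul_right (rp_mem_Fil C.fil _), co_rp_of_mem C.fil]
  field_simp
  ring

theorem sec_quo (g : N.G) : C.sec (C.quo g) = C.red g := by
  apply ext'
  intro k
  rcases Fin.eq_self_or_eq_succAbove C.i₀ k with rfl | ⟨j, rfl⟩
  · rw [co_sec_i₀, co_red_i₀]
  · rw [co_sec]
    rfl

theorem red_mul_rp (g : N.G) (t : ℝ) : C.red (g * rp C.z t) = C.red g := by
  have h1 := C.ne
  rw [red, red, co_mul_right (rp_mem_Fil C.fil _), co_rp_of_mem C.fil, mul_assoc, ← rp_add]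
  congr 2
  field_simp
  ring

theorem red_eq_self {g : N.G} (h : co g C.i₀ = 0) : C.red g = g := by
  rw [red, h, zero_div, neg_zero, rp_zero, mul_one]

theorem quo_mul_rp (g : N.G) (t : ℝ) : C.quo (g * rp C.z t) = C.quo g := by
  funext j
  rw [quo, quo, red_mul_rp]

theorem quo_sec (x : Fin n → ℝ) : C.quo (C.sec x) = x := by
  funext j
  rw [quo, C.red_eq_self (C.co_sec_i₀ x), co_sec]

theorem eq_red_mul (g : N.G) : g = C.red g * rp C.z (co g C.i₀ / co C.z C.i₀) := by
  rw [red, rp_neg]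
  group

theorem quo_mul (g h : N.G) : C.quo (g * h) = C.quo (C.sec (C.quo g) * C.sec (C.quo h)) := by
  rw [sec_quo, sec_quo, red, red]
  have h1 : g * rp C.z (-(co g C.i₀ / co C.z C.i₀)) * (h * rp C.z (-(co h C.i₀ / co C.z C.i₀))) =
      g * h * rp C.z (-(co g C.i₀ / co C.z C.i₀)) * rp C.z (-(co h C.i₀ / co C.z C.i₀)) := by
    rw [mul_assoc g, ← mul_assoc _ h, ← C.rp_central h]
    group
  rw [h1, quo_mul_rp, quo_mul_rp]

theorem sec_zero : C.sec 0 = 1 := by
  apply ext'
  intro k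
  rcases Fin.eq_self_or_eq_succAbove C.i₀ k with rfl | ⟨j, rfl⟩
  · rw [co_sec_i₀]; rfl
  · rw [co_sec]; rfl

theorem quo_one : C.quo 1 = 0 := by
  rw [← C.sec_zero, quo_sec]

theorem tri (j : Fin n) : (fun a : Fin n ⊕ Fin n → ℝ =>
    C.quo (C.sec (fun j => a (Sum.inl j)) * C.sec (fun j => a (Sum.inr j))) j -
      a (Sum.inl j) - a (Sum.inr j)) ∈ polyOn {k : Fin n ⊕ Fin n | Sum.elim id id k < j} := by
  set S : Subalgebra ℝ ((Fin n ⊕ Fin n → ℝ) → ℝ) :=
    polyOn {k : Fin n ⊕ Fin n | Sum.elim id id k < j} with hS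
  set i := C.i₀.succAbove j with hi
  let X : (Fin n ⊕ Fin n → ℝ) → N.G := fun a => C.sec fun j => a (Sum.inl j)
  let Y : (Fin n ⊕ Fin n → ℝ) → N.G := fun a => C.sec fun j => a (Sum.inr j)
  have hX : CoLt S i X := by
    intro k hk
    rcases Fin.eq_self_or_eq_succAbove C.i₀ k with rfl | ⟨k', rfl⟩
    · have h1 : (fun a => co (X a) C.i₀) = 0 := funext fun a => C.co_sec_i₀ _
      rw [h1]
      exact S.zero_mem
    · have h1 : (fun a => co (X a) (C.i₀.succAbove k')) = fun a => a (Sum.inl k') :=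
        funext fun a => C.co_sec _ _
      rw [h1]
      apply coord_mem
      exact (Fin.strictMono_succAbove C.i₀).lt_iff_lt.1 hk
  have hY : CoLt S i Y := by
    intro k hk
    rcases Fin.eq_self_or_eq_succAbove C.i₀ k with rfl | ⟨k', rfl⟩
    · have h1 : (fun a => co (Y a) C.i₀) = 0 := funext fun a => C.co_sec_i₀ _
      rw [h1]
      exact S.zero_mem
    · have h1 : (fun a => co (Y a) (C.i₀.succAbove k')) = fun a => a (Sum.inr k') :=
        funext fun a => C.co_sec _ _
      rw [h1]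
      apply coord_mem
      exact (Fin.strictMono_succAbove C.i₀).lt_iff_lt.1 hk
  let τ : (Fin n ⊕ Fin n → ℝ) → ℝ := fun a => -(co (X a * Y a) C.i₀ / co C.z C.i₀)
  have hR : ∀ k ≤ i, (fun a => co (rp C.z (τ a)) k) ∈ S := by
    intro k hk
    rcases lt_or_ge k C.i₀ with h1 | h1
    · have h2 : (fun a => co (rp C.z (τ a)) k) = 0 := by
        funext a
        exact rp_mem_Fil C.fil _ k h1
      rw [h2]
      exact S.zero_mem
    · have h2 : C.i₀ ≤ i := h1.trans hk
      have h3 : τ ∈ S := by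
        have h4 : τ = (fun a => MvPolynomial.eval (Sum.elim (co (X a)) (co (Y a))) (N.pol C.i₀)) *
            algebraMap ℝ _ (-(co C.z C.i₀)⁻¹) := by
          funext a
          show -(co (X a * Y a) C.i₀ / co C.z C.i₀) =
            MvPolynomial.eval (Sum.elim (co (X a)) (co (Y a))) (N.pol C.i₀) * (-(co C.z C.i₀)⁻¹)
          rw [co_mul, show co (X a) C.i₀ = 0 from C.co_sec_i₀ _,
            show co (Y a) C.i₀ = 0 from C.co_sec_i₀ _]
          ring
        rw [h4]
        exact S.mul_mem (evalLt h2 hX hY) (S.algebraMap_mem _)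
      exact CoIn.rp h3 C.z k
  have hXY : CoLt S i fun a => X a * Y a := hX.mul hY
  have hRlt : CoLt S i fun a => rp C.z (τ a) := fun k hk => hR k hk.le
  have h1 := co_mul_sub_mem hXY hRlt
  have h2 := co_mul_sub_mem hX hY
  have h3 : (fun a : Fin n ⊕ Fin n → ℝ =>
      C.quo (C.sec (fun j => a (Sum.inl j)) * C.sec (fun j => a (Sum.inr j))) j -
        a (Sum.inl j) - a (Sum.inr j)) =
      ((fun a => co (X a * Y a * rp C.z (τ a)) i - co (X a * Y a) i - co (rp C.z (τ a)) i) +
        fun a => co (X a * Y a) i - co (X a) i - co (Y a) i) +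
          fun a => co (rp C.z (τ a)) i := by
    funext a
    show co (X a * Y a * rp C.z (τ a)) i - a (Sum.inl j) - a (Sum.inr j) =
      ((co (X a * Y a * rp C.z (τ a)) i - co (X a * Y a) i - co (rp C.z (τ a)) i) +
        (co (X a * Y a) i - co (X a) i - co (Y a) i)) + co (rp C.z (τ a)) i
    rw [show co (X a) i = a (Sum.inl j) from C.co_sec _ _,
      show co (Y a) i = a (Sum.inr j) from C.co_sec _ _]
    ring
  rw [h3]
  exact S.add_mem (S.add_mem h1 h2) (hR i le_rfl)

/-- The quotient law. -/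
noncomputable def Q : NilLaw n where
  mul x y := C.quo (C.sec x * C.sec y)
  assoc x y z := by
    have h1 : C.quo (C.sec (C.quo (C.sec x * C.sec y)) * C.sec z) =
        C.quo (C.sec x * C.sec y * C.sec z) := by
      conv_rhs => rw [C.quo_mul, C.quo_sec]
    have h2 : C.quo (C.sec x * C.sec (C.quo (C.sec y * C.sec z))) =
        C.quo (C.sec x * (C.sec y * C.sec z)) := by
      conv_rhs => rw [C.quo_mul, C.quo_sec]
    rw [h1, h2, mul_assoc]
  one_left x := by rw [C.sec_zero, one_mul, C.quo_sec]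
  one_right x := by rw [C.sec_zero, mul_one, C.quo_sec]
  exists_inv x := by
    refine ⟨C.quo (C.sec x)⁻¹, ?_⟩
    have h1 : C.quo ((C.sec x)⁻¹ * C.sec x) =
        C.quo (C.sec (C.quo (C.sec x)⁻¹) * C.sec x) := by
      rw [C.quo_mul, C.quo_sec]
    rw [← h1, inv_mul_cancel, C.quo_one]
  triangular j := triangular_of (C.tri j)

/-- The quotient homomorphism. -/
noncomputable def q : N.G →* C.Q.G := MonoidHom.mk' (fun g => C.Q.pt (C.quo g)) (by
  intro g h
  exact C.quo_mul g h)

theorem co_q (g : N.G) : co (C.q g) = C.quo g := rfl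

theorem sec_co_q (g : N.G) : C.sec (co (C.q g)) = C.red g := C.sec_quo g

theorem q_sec (x : C.Q.G) : C.q (C.sec (co x)) = x := C.quo_sec (co x)

theorem q_mul_rp (g : N.G) (t : ℝ) : C.q (g * rp C.z t) = C.q g := C.quo_mul_rp g t

theorem coIn_sec {A : Type*} {S : Subalgebra ℝ (A → ℝ)} {x : A → C.Q.G} (hx : CoIn S x) :
    CoIn S fun a => C.sec (co (x a)) := by
  intro k
  rcases Fin.eq_self_or_eq_succAbove C.i₀ k with rfl | ⟨j, rfl⟩
  · have h1 : (fun a => co (C.sec (co (x a))) C.i₀) = 0 := funext fun a => C.co_sec_i₀ _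
    rw [h1]
    exact S.zero_mem
  · have h1 : (fun a => co (C.sec (co (x a))) (C.i₀.succAbove j)) = fun a => co (x a) j :=
      funext fun a => C.co_sec _ _
    rw [h1]
    exact hx j

theorem coIn_red {A : Type*} {S : Subalgebra ℝ (A → ℝ)} {x : A → N.G} (hx : CoIn S x) :
    CoIn S fun a => C.red (x a) := by
  refine hx.mul (CoIn.rp ?_ _)
  have h1 : (fun a => -(co (x a) C.i₀ / co C.z C.i₀)) =
      (fun a => co (x a) C.i₀) * algebraMap ℝ (A → ℝ) (-(co C.z C.i₀)⁻¹) := by
    funext a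
    show -(co (x a) C.i₀ / co C.z C.i₀) = co (x a) C.i₀ * (-(co C.z C.i₀)⁻¹)
    ring
  rw [h1]
  exact S.mul_mem (hx _) (S.algebraMap_mem _)

theorem coIn_q {A : Type*} {S : Subalgebra ℝ (A → ℝ)} {x : A → N.G} (hx : CoIn S x) :
    CoIn S fun a => C.q (x a) := fun j => C.coIn_red hx (C.i₀.succAbove j)

theorem continuous_q : Continuous C.q := by
  rw [← coIn_cont]
  exact C.coIn_q (coIn_cont.2 continuous_id)

theorem continuous_sec : Continuous fun x : C.Q.G => C.sec (co x) := by
  rw [← coIn_cont]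
  exact C.coIn_sec (coIn_cont.2 continuous_id)

end Cen

end NilLaw

end Pool.Agent.Lib.MP_271836_gt
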