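import Pool.Agent.Lib.MP_271836_gt.Nil6

/-!
# Coordinates adapted to a lattice
-/

namespace Pool.Agent.Lib.MP_271836_gt

open Topology Set
open scoped Pointwise commutatorElement

variable {n : ℕ}

namespace NilLaw

theorem exists_bound {N : NilLaw n} {K : Set N.G} (hK : IsCompact K) :
    ∃ B : ℝ, ∀ x ∈ K, ∀ i, |co x i| ≤ B := by
  have h1 : ∀ i : Fin n, ∃ B : ℝ, ∀ x ∈ K, |co x i| ≤ B := fun i => by
    obtain ⟨B, hB⟩ := hK.exists_bound_of_continuousOn (continuous_co i).continuousOn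
    exact ⟨B, fun x hx => by simpa [Real.norm_eq_abs] using hB x hx⟩
  choose B hB using h1
  refine ⟨∑ i, |B i|, fun x hx i => (hB i x hx).trans ((le_abs_self _).trans ?_)⟩
  exact Finset.single_le_sum (f := fun i => |B i|) (fun _ _ => abs_nonneg _) (Finset.mem_univ i)

/-- Elements commuting with a cocompact subgroup are central. -/
theorem central_of_commute {N : NilLaw n} {Λ : Subgroup N.G} (hc : CocN Λ) {z : N.G}
    (hz : ∀ l ∈ Λ, l * z = z * l) (g : N.G) : g * z = z * g := by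
  obtain ⟨K, hK, hKx⟩ := hc
  have hK' : IsCompact ((fun κ : N.G => κ⁻¹ * z * κ) '' K) := hK.image (by fun_prop)
  obtain ⟨B, hB⟩ := exists_bound hK'
  have h1 : ∀ x : N.G, x * z * x⁻¹ ∈ (fun κ : N.G => κ⁻¹ * z * κ) '' K := by
    intro x
    obtain ⟨l, hl, hlK⟩ := hKx x⁻¹
    refine ⟨l * x⁻¹, hlK, ?_⟩
    show (l * x⁻¹)⁻¹ * z * (l * x⁻¹) = x * z * x⁻¹
    have h2 : l⁻¹ * z * l = z := by rw [mul_assoc, ← hz l hl]; group
    calc (l * x⁻¹)⁻¹ * z * (l * x⁻¹) = x * (l⁻¹ * z * l) * x⁻¹ := by group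
      _ = x * z * x⁻¹ := by rw [h2]
  have h2 : PolyCurve fun τ => rp g τ * z * (rp g τ)⁻¹ :=
    ((rp_polyCurve g).mul (PolyCurve.const z)).mul (rp_polyCurve g).inv
  have h3 := h2.eq_of_bounded (B := B) (fun k i => hB _ (h1 _) i) 1
  simp only [rp_one, rp_zero, one_mul, inv_one, mul_one] at h3
  calc g * z = (g * z * g⁻¹) * g := by group
    _ = z * g := by rw [h3]

theorem exists_cen {N : NilLaw (n + 1)} {Λ : Subgroup N.G} (hc : CocN Λ) :
    ∃ C : Cen N, C.z ∈ Λ := by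
  have h0 : ∃ l ∈ Λ, l ∈ N.Fil 0 ∧ l ≠ 1 := by
    by_contra hcon
    push Not at hcon
    obtain ⟨K, hK, hKx⟩ := hc
    obtain ⟨B, hB⟩ := exists_bound hK
    obtain ⟨l, hl, hlK⟩ := hKx (N.pt fun _ => B + 1)
    have h1 : l = 1 := hcon l hl (by rw [Fil_zero]; trivial)
    rw [h1, one_mul] at hlK
    have h2 := hB _ hlK 0
    have h3 : co (N.pt fun _ => B + 1) (0 : Fin (n + 1)) = B + 1 := rfl
    rw [h3] at h2
    linarith [le_abs_self (B + 1)]
  have h1 : ∃ k, (∃ l ∈ Λ, l ∈ N.Fil k ∧ l ≠ 1) ∧ ¬ ∃ l ∈ Λ, l ∈ N.Fil (k + 1) ∧ l ≠ 1 := by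
    by_contra hcon
    push Not at hcon
    have h2 : ∀ k, ∃ l ∈ Λ, l ∈ N.Fil k ∧ l ≠ 1 := by
      intro k
      induction k with
      | zero => exact h0
      | succ k ih => exact hcon k ih
    obtain ⟨l, -, hl, hl1⟩ := h2 (n + 1)
    rw [Fil_n, Subgroup.mem_bot] at hl
    exact hl1 hl
  obtain ⟨k, ⟨z, hzΛ, hzF, hz1⟩, hk⟩ := h1
  have hcomm : ∀ l ∈ Λ, l * z = z * l := by
    intro l hl
    by_contra hne
    apply hk
    refine ⟨⁅z, l⁆, ?_, commutator_mem_Fil hzF, ?_⟩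
    · rw [commutatorElement_def]
      exact mul_mem (mul_mem (mul_mem hzΛ hl) (inv_mem hzΛ)) (inv_mem hl)
    · intro h2
      apply hne
      rw [commutatorElement_eq_one_iff_mul_comm] at h2
      exact h2.symm
  have hcen := central_of_commute hc hcomm
  have hex : {i : Fin (n + 1) | co z i ≠ 0}.Nonempty := by
    by_contra hcon
    rw [Set.not_nonempty_iff_eq_empty] at hcon
    apply hz1
    apply ext'
    intro i
    by_contra h2
    have : i ∈ {i : Fin (n + 1) | co z i ≠ 0} := h2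
    rw [hcon] at this
    exact this
  obtain ⟨i₀, hi₀, hmin⟩ := wellFounded_lt.has_min _ hex
  refine ⟨⟨z, i₀, hcen, ?_, hi₀⟩, hzΛ⟩
  intro j hj
  by_contra h2
  exact hmin j h2 (Fin.lt_def.2 hj)

namespace Cen

variable {N : NilLaw (n + 1)} (C : Cen N)

theorem cocN {Λ : Subgroup N.G} (hc : CocN Λ) : CocN (Λ.map C.q) := by
  obtain ⟨K, hK, hKx⟩ := hc
  refine ⟨C.q '' K, hK.image C.continuous_q, fun x => ?_⟩
  obtain ⟨l, hl, hlK⟩ := hKx (C.sec (co x))
  refine ⟨C.q l, ⟨l, hl, rfl⟩, _, hlK, ?_⟩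
  rw [map_mul, C.q_sec]

theorem discN {Λ : Subgroup N.G} (hd : DiscN Λ) (hz : C.z ∈ Λ) : DiscN (Λ.map C.q) := by
  intro K hK
  have hK' : IsCompact (((fun x : C.Q.G => C.sec (co x)) '' K) * (rp C.z '' Icc 0 1)) :=
    (hK.image C.continuous_sec).mul (isCompact_Icc.image (continuous_rp_right _))
  refine ((hd _ hK').image C.q).subset ?_
  rintro _ ⟨⟨l, hl, rfl⟩, hlK⟩
  set u := co l C.i₀ / co C.z C.i₀ with hu
  refine ⟨l * C.z ^ (-⌊u⌋), ⟨mul_mem hl (zpow_mem hz _), ?_⟩, ?_⟩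
  · have h1 : l * C.z ^ (-⌊u⌋) = C.sec (co (C.q l)) * rp C.z (Int.fract u) := by
      rw [C.sec_co_q]
      conv_lhs => rw [C.eq_red_mul l]
      rw [← hu, ← rp_intCast, mul_assoc, ← rp_add]
      congr 2
      rw [Int.fract]
      push_cast
      ring
    rw [h1]
    exact Set.mul_mem_mul ⟨_, hlK, rfl⟩ ⟨_, ⟨Int.fract_nonneg _, (Int.fract_lt_one _).le⟩, rfl⟩
  · rw [← rp_intCast, C.q_mul_rp]

section lift

variable {N₁ : NilLaw n} (e₁ : N₁.G ≃* C.Q.G)

/-- The new coordinates. -/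
noncomputable def E (v : Fin (n + 1) → ℝ) : N.G :=
  C.sec (co (e₁ (N₁.pt (Fin.init v)))) * rp C.z (v (Fin.last n))

/-- The inverse of the new coordinates. -/
noncomputable def D (g : N.G) : Fin (n + 1) → ℝ :=
  Fin.snoc (α := fun _ => ℝ) (co (e₁.symm (C.q g))) (co g C.i₀ / co C.z C.i₀)

theorem D_castSucc (g : N.G) (j : Fin n) : C.D e₁ g j.castSucc = co (e₁.symm (C.q g)) j :=
  Fin.snoc_castSucc (α := fun _ => ℝ) _ _ _

theorem D_last (g : N.G) : C.D e₁ g (Fin.last n) = co g C.i₀ / co C.z C.i₀ :=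
  Fin.snoc_last (α := fun _ => ℝ) _ _

theorem E_D (g : N.G) : C.E e₁ (C.D e₁ g) = g := by
  have h1 : Fin.init (C.D e₁ g) = co (e₁.symm (C.q g)) := funext fun j => C.D_castSucc e₁ g j
  rw [E, D_last, h1, pt_co, MulEquiv.apply_symm_apply, C.sec_co_q, ← C.eq_red_mul]

theorem q_E (v : Fin (n + 1) → ℝ) : C.q (C.E e₁ v) = e₁ (N₁.pt (Fin.init v)) := by
  rw [E, C.q_mul_rp, C.q_sec]

theorem D_E (v : Fin (n + 1) → ℝ) : C.D e₁ (C.E e₁ v) = v := by
  funext i
  refine Fin.lastCases ?_ (fun j => ?_) i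
  · have h1 := C.ne
    rw [D_last, E, co_mul_right (rp_mem_Fil C.fil _), C.co_sec_i₀, co_rp_of_mem C.fil]
    field_simp
    ring
  · rw [D_castSucc, q_E, MulEquiv.symm_apply_apply]
    rfl

theorem E_zero : C.E e₁ 0 = 1 := by
  have h1 : N₁.pt (Fin.init (0 : Fin (n + 1) → ℝ)) = 1 := rfl
  have h2 : (0 : Fin (n + 1) → ℝ) (Fin.last n) = 0 := rfl
  rw [E, h1, map_one, h2, rp_zero, mul_one]
  exact C.sec_zero

theorem co_E_mul (v w : Fin (n + 1) → ℝ) : co (C.E e₁ v * C.E e₁ w) C.i₀ / co C.z C.i₀ -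
    v (Fin.last n) - w (Fin.last n) = co (C.sec (co (e₁ (N₁.pt (Fin.init v)))) *
      C.sec (co (e₁ (N₁.pt (Fin.init w))))) C.i₀ / co C.z C.i₀ := by
  have h1 : C.E e₁ v * C.E e₁ w = C.sec (co (e₁ (N₁.pt (Fin.init v)))) *
      C.sec (co (e₁ (N₁.pt (Fin.init w)))) * rp C.z (v (Fin.last n) + w (Fin.last n)) := by
    rw [E, E, rp_add, mul_assoc, ← mul_assoc (rp C.z _), ← C.rp_central]
    simp only [mul_assoc]
  rw [h1, co_mul_right (rp_mem_Fil C.fil _), co_rp_of_mem C.fil]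
  have h2 := C.ne
  field_simp
  ring

variable (hpoly : CoIn (polyOn univ) fun x : Fin n → ℝ => e₁ (N₁.pt x))

include hpoly in
theorem coIn_e₁ {A : Type*} {S : Subalgebra ℝ (A → ℝ)} {g : A → Fin n → ℝ}
    (hg : ∀ j, (fun a => g a j) ∈ S) : CoIn S fun a => e₁ (N₁.pt (g a)) := fun i =>
  polyOn_comp (hpoly i) fun j _ => hg j

include hpoly in
theorem coIn_E {A : Type*} {S : Subalgebra ℝ (A → ℝ)} {g : A → Fin (n + 1) → ℝ}
    (hg : ∀ j, (fun a => g a j) ∈ S) : CoIn S fun a => C.E e₁ (g a) :=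
  (C.coIn_sec (C.coIn_e₁ e₁ hpoly (g := fun a => Fin.init (g a)) fun j => hg j.castSucc)).mul
    (CoIn.rp (hg _) _)

/-- The law in the new coordinates. -/
noncomputable def L : NilLaw (n + 1) where
  mul v w := C.D e₁ (C.E e₁ v * C.E e₁ w)
  assoc v w u := by rw [C.E_D, C.E_D, mul_assoc]
  one_left v := by rw [C.E_zero, one_mul, C.D_E]
  one_right v := by rw [C.E_zero, mul_one, C.D_E]
  exists_inv v := by
    refine ⟨C.D e₁ (C.E e₁ v)⁻¹, ?_⟩
    rw [C.E_D, inv_mul_cancel, ← C.E_zero e₁, C.D_E]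
  triangular i := by
    refine triangular_of ?_
    refine Fin.lastCases ?_ (fun j => ?_) i
    · have h1 : (fun a : Fin (n + 1) ⊕ Fin (n + 1) → ℝ =>
          C.D e₁ (C.E e₁ (fun j => a (Sum.inl j)) * C.E e₁ (fun j => a (Sum.inr j))) (Fin.last n) -
            a (Sum.inl (Fin.last n)) - a (Sum.inr (Fin.last n))) =
          (fun a : Fin (n + 1) ⊕ Fin (n + 1) → ℝ =>
            co (C.sec (co (e₁ (N₁.pt (Fin.init (n := n) (α := fun _ => ℝ) fun j => a (Sum.inl j))))) *
              C.sec (co (e₁ (N₁.pt (Fin.init (n := n) (α := fun _ => ℝ)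
                fun j => a (Sum.inr j)))))) C.i₀) * algebraMap ℝ _ (co C.z C.i₀)⁻¹ := by
        funext a
        rw [D_last]
        exact C.co_E_mul e₁ _ _
      rw [h1]
      refine Subalgebra.mul_mem _ ?_ (Subalgebra.algebraMap_mem _ _)
      refine CoIn.mul (C.coIn_sec (C.coIn_e₁ e₁ hpoly ?_)) (C.coIn_sec (C.coIn_e₁ e₁ hpoly ?_)) _
      · intro j
        exact coord_mem (j := Sum.inl j.castSucc) (Fin.castSucc_lt_last j)
      · intro j
        exact coord_mem (j := Sum.inr j.castSucc) (Fin.castSucc_lt_last j)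
    · have h1 : (fun a : Fin (n + 1) ⊕ Fin (n + 1) → ℝ =>
          C.D e₁ (C.E e₁ (fun j => a (Sum.inl j)) * C.E e₁ (fun j => a (Sum.inr j))) j.castSucc -
            a (Sum.inl j.castSucc) - a (Sum.inr j.castSucc)) =
          fun a : Fin (n + 1) ⊕ Fin (n + 1) → ℝ => MvPolynomial.eval
            (fun k : Fin n ⊕ Fin n => a (Sum.map Fin.castSucc Fin.castSucc k)) (N₁.pol j) := by
        funext a
        rw [D_castSucc, map_mul, map_mul, q_E, q_E, MulEquiv.symm_apply_apply,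
          MulEquiv.symm_apply_apply, co_mul]
        have h2 : (fun k : Fin n ⊕ Fin n => a (Sum.map Fin.castSucc Fin.castSucc k)) =
            Sum.elim (Fin.init (n := n) (α := fun _ => ℝ) fun j => a (Sum.inl j))
              (Fin.init (n := n) (α := fun _ => ℝ) fun j => a (Sum.inr j)) := by
          funext k
          rcases k with k | k <;> rfl
        rw [h2]
        show a (Sum.inl j.castSucc) + a (Sum.inr j.castSucc) + MvPolynomial.eval
          (Sum.elim (Fin.init (n := n) (α := fun _ => ℝ) fun j => a (Sum.inl j))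
              (Fin.init (n := n) (α := fun _ => ℝ) fun j => a (Sum.inr j))) (N₁.pol j) -
            a (Sum.inl j.castSucc) - a (Sum.inr j.castSucc) = _
        ring
      rw [h1]
      have hf : (fun v : Fin n ⊕ Fin n → ℝ => MvPolynomial.eval v (N₁.pol j)) ∈
          polyOn {k : Fin n ⊕ Fin n | Sum.elim id id k < j} :=
        mem_polyOn_iff.2 ⟨N₁.pol j, pol_vars j, fun _ => rfl⟩
      refine polyOn_comp hf (g := fun (a : Fin (n + 1) ⊕ Fin (n + 1) → ℝ) (k : Fin n ⊕ Fin n) =>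
        a (Sum.map Fin.castSucc Fin.castSucc k)) ?_
      rintro (k | k) hk
      · exact coord_mem (j := Sum.inl k.castSucc) (Fin.castSucc_lt_castSucc_iff.2 hk)
      · exact coord_mem (j := Sum.inr k.castSucc) (Fin.castSucc_lt_castSucc_iff.2 hk)

/-- The isomorphism. -/
noncomputable def e : (C.L e₁ hpoly).G ≃* N.G where
  toFun x := C.E e₁ (co x)
  invFun g := (C.L e₁ hpoly).pt (C.D e₁ g)
  left_inv x := C.D_E e₁ (co x)
  right_inv g := C.E_D e₁ g
  map_mul' x y := C.E_D e₁ _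

end lift

end Cen

/-- Every lattice has adapted coordinates. -/
theorem exists_adapted : ∀ (n : ℕ) (N : NilLaw n) (Λ : Subgroup N.G), DiscN Λ → CocN Λ →
    ∃ (N' : NilLaw n) (e : N'.G ≃* N.G), Continuous e ∧ Continuous e.symm ∧
      (CoIn (polyOn univ) fun x : Fin n → ℝ => e (N'.pt x)) ∧
        ∀ i : Fin n, ∃ μ ∈ N'.Fil i, e μ ∈ Λ ∧ co μ i ≠ 0 := by
  intro n
  induction n with
  | zero =>
    intro N Λ _ _
    exact ⟨N, MulEquiv.refl _, continuous_id, continuous_id, fun i => i.elim0, fun i => i.elim0⟩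
  | succ n ih =>
    intro N Λ hd hc
    obtain ⟨C, hz⟩ := exists_cen hc
    obtain ⟨N₁, e₁, he₁, he₁', hpoly, had⟩ := ih C.Q (Λ.map C.q) (C.discN hd hz) (C.cocN hc)
    refine ⟨C.L e₁ hpoly, C.e e₁ hpoly, ?_, ?_, ?_, ?_⟩
    · rw [← coIn_cont]
      exact C.coIn_E e₁ hpoly (g := fun x : (C.L e₁ hpoly).G => co x)
        (coIn_cont.2 continuous_id)
    · rw [continuous_iff]
      intro i
      refine Fin.lastCases ?_ (fun j => ?_) i
      · have h1 : (fun g => co ((C.e e₁ hpoly).symm g) (Fin.last n)) =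
            fun g => co g C.i₀ / co C.z C.i₀ := funext fun g => C.D_last e₁ g
        rw [h1]
        exact (continuous_co _).div_const _
      · have h1 : (fun g => co ((C.e e₁ hpoly).symm g) j.castSucc) =
            fun g => co (e₁.symm (C.q g)) j := funext fun g => C.D_castSucc e₁ g j
        rw [h1]
        exact (continuous_co j).comp (he₁'.comp C.continuous_q)
    · exact C.coIn_E e₁ hpoly (g := fun x : Fin (n + 1) → ℝ => x) fun j => coord_mem (mem_univ _)
    · intro i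
      refine Fin.lastCases ?_ (fun j => ?_) i
      · refine ⟨(C.e e₁ hpoly).symm C.z, ?_, ?_, ?_⟩
        · intro j hj
          rcases Fin.eq_castSucc_or_eq_last j with ⟨k, rfl⟩ | rfl
          · show C.D e₁ C.z k.castSucc = 0
            have h1 : C.q C.z = 1 := by
              have h2 := C.q_mul_rp 1 1
              rw [rp_one, one_mul, map_one] at h2
              exact h2
            rw [C.D_castSucc, h1, map_one]
            rfl
          · exact absurd hj (lt_irrefl _)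
        · rw [MulEquiv.apply_symm_apply]
          exact hz
        · show C.D e₁ C.z (Fin.last n) ≠ 0
          rw [C.D_last, div_self C.ne]
          exact one_ne_zero
      · obtain ⟨μ₁, hμF, ⟨l, hl, hlq⟩, hμne⟩ := had j
        have h1 : ∀ k : Fin n, co ((C.e e₁ hpoly).symm l) k.castSucc = co μ₁ k := by
          intro k
          show C.D e₁ l k.castSucc = co μ₁ k
          rw [C.D_castSucc, hlq, MulEquiv.symm_apply_apply]
        refine ⟨(C.e e₁ hpoly).symm l, ?_, ?_, ?_⟩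
        · intro k hk
          have hkn : (k : ℕ) < n := lt_trans hk j.2
          have h2 : k = (⟨k, hkn⟩ : Fin n).castSucc := rfl
          rw [h2, h1]
          exact hμF _ hk
        · rw [MulEquiv.apply_symm_apply]
          exact hl
        · rw [h1]
          exact hμne

end NilLaw

end Pool.Agent.Lib.MP_271836_gt
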