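import Pool.Agent.Lib.MP_271836_gt.Nil7

/-!
# Coverings by nilpotent groups with affine deck transformations
-/

namespace Pool.Agent.Lib.MP_271836_gt

open Topology Set
open scoped Pointwise

variable {n : ℕ}

namespace NilLaw

section ext

variable {N : NilLaw n}

/-- Malcev's extension theorem for arbitrary lattices. -/
theorem exists_extension {n' : ℕ} {N' : NilLaw n'} {Λ : Subgroup N.G} (hd : DiscN Λ)
    (hc : CocN Λ) (θ : Λ →* N'.G) : ∃ M : N.G →* N'.G, Continuous M ∧ ∀ l : Λ, M l = θ l := by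
  obtain ⟨N₁, e, he, he', -, had⟩ := exists_adapted n N Λ hd hc
  have hd₁ : DiscN (Λ.comap (e : N₁.G →* N.G)) := by
    intro K hK
    refine ((hd _ (hK.image he)).preimage (f := e) (e.injective.injOn)).subset ?_
    rintro x ⟨hx, hxK⟩
    exact ⟨hx, x, hxK, rfl⟩
  obtain ⟨μ, hB⟩ := exists_basis (Λ := Λ.comap (e : N₁.G →* N.G)) hd₁ (by
    intro i
    obtain ⟨μ, hμF, hμΛ, hμ⟩ := had i
    exact ⟨μ, hμΛ, hμF, hμ⟩)
  let θ₁ : Λ.comap (e : N₁.G →* N.G) →* N'.G :=
    θ.comp (((e : N₁.G →* N.G).comp (Subgroup.subtype _)).codRestrict Λ fun x => x.2)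
  obtain ⟨M₁, hM₁, hM₁θ⟩ := hB.exists_extension θ₁
  refine ⟨M₁.comp (e.symm : N.G →* N₁.G), hM₁.comp he', fun l => ?_⟩
  have hl : e (e.symm (l : N.G)) = l := e.apply_symm_apply _
  have hmem : e.symm (l : N.G) ∈ Λ.comap (e : N₁.G →* N.G) := by
    show e (e.symm (l : N.G)) ∈ Λ
    rw [hl]
    exact l.2
  have h1 := hM₁θ ⟨e.symm (l : N.G), hmem⟩
  have h2 : θ₁ ⟨e.symm (l : N.G), hmem⟩ = θ l := by
    show θ _ = θ l
    congr 1
    exact Subtype.ext hl
  rw [h2] at h1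
  exact h1

theorem DiscN.mono {Λ Λ' : Subgroup N.G} (h : Λ' ≤ Λ) (hd : DiscN Λ) : DiscN Λ' := fun K hK =>
  (hd K hK).subset (inter_subset_inter_left _ h)

instance : ContractibleSpace N.G := inferInstanceAs (ContractibleSpace (Fin n → ℝ))

instance : LocallyPathConnectedSpace N.G :=
  inferInstanceAs (LocallyPathConnectedSpace (Fin n → ℝ))

instance : LocallyCompactSpace N.G := inferInstanceAs (LocallyCompactSpace (Fin n → ℝ))

instance : Nonempty N.G := ⟨1⟩

end ext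

/-- A surjective covering map from a nilpotent group whose fibres are orbits of affine maps, with
finitely many linear parts. -/
structure NilCov {N : NilLaw n} {X : Type*} [TopologicalSpace X] (F : Set (N.G ≃ₜ* N.G))
    (π : N.G → X) : Prop where
  fin : F.Finite
  cov : IsCoveringMap π
  surj : Function.Surjective π
  trans : ∀ x y, π x = π y → ∃ a : N.G, ∃ φ ∈ F, a * φ x = y ∧ ∀ z, π (a * φ z) = π z

section

variable {N : NilLaw n} {X : Type*} [TopologicalSpace X] {F : Set (N.G ≃ₜ* N.G)} {π : N.G → X}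

theorem NilCov.ext_deck (h : NilCov F π) {g g' : N.G → N.G} (hgc : Continuous g)
    (hgc' : Continuous g') (hg : ∀ z, π (g z) = π z) (hg' : ∀ z, π (g' z) = π z) (x : N.G)
    (hx : g x = g' x) : g = g' :=
  h.cov.eq_of_comp_eq hgc hgc' (by funext z; exact (hg z).trans (hg' z).symm) x hx

/-- The translations in the group of deck transformations. -/
def trl (π : N.G → X) : Subgroup N.G where
  carrier := {a | ∀ z, π (a * z) = π z}
  mul_mem' := by
    intro a b ha hb z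
    rw [mul_assoc, ha, hb]
  one_mem' := fun z => by rw [one_mul]
  inv_mem' := by
    intro a ha z
    have h1 := ha (a⁻¹ * z)
    rw [mul_inv_cancel_left] at h1
    exact h1.symm

omit [TopologicalSpace X] in
theorem mem_trl {a : N.G} : a ∈ trl π ↔ ∀ z, π (a * z) = π z := Iff.rfl

theorem NilCov.discN [T2Space X] (h : NilCov F π) : DiscN (trl π) := by
  intro K hK
  have hcl : IsClosed (π ⁻¹' {π 1}) := isClosed_singleton.preimage h.cov.continuous
  have hd : IsDiscrete (π ⁻¹' {π 1}) :=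
    isDiscrete_iff_discreteTopology.2 (h.cov (π 1)).discreteTopology_fiber
  refine ((hK.inter_right hcl).finite (hd.mono inter_subset_right)).subset ?_
  rintro a ⟨ha, haK⟩
  refine ⟨haK, ?_⟩
  have h1 := ha 1
  rw [mul_one] at h1
  exact h1

theorem exists_compact_image {E : Type*} [TopologicalSpace E] [LocallyCompactSpace E]
    {X : Type*} [TopologicalSpace X] [CompactSpace X] {π : E → X} (hopen : IsOpenMap π)
    (hs : Function.Surjective π) : ∃ K : Set E, IsCompact K ∧ ∀ x, ∃ y ∈ K, π y = π x := by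
  classical
  choose K hK hx using fun x : E => exists_compact_mem_nhds x
  obtain ⟨t, ht⟩ := isCompact_univ.elim_finite_subcover (fun x : E => π '' interior (K x))
    (fun x => hopen _ isOpen_interior) (by
      intro y _
      obtain ⟨x, rfl⟩ := hs y
      exact mem_iUnion.2 ⟨x, x, mem_interior_iff_mem_nhds.2 (hx x), rfl⟩)
  refine ⟨⋃ x ∈ t, K x, t.finite_toSet.isCompact_biUnion fun x _ => hK x, fun x => ?_⟩
  have h1 := ht (mem_univ (π x))
  simp only [mem_iUnion] at h1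
  obtain ⟨z, hz, y, hy, hyx⟩ := h1
  exact ⟨y, mem_biUnion hz (interior_subset hy), hyx⟩

omit [TopologicalSpace X] in
/-- Deck transformations with the same linear part differ by a translation. -/
theorem mul_inv_mem_trl {a b : N.G} {φ : N.G ≃ₜ* N.G} (ha : ∀ z, π (a * φ z) = π z)
    (hb : ∀ z, π (b * φ z) = π z) : a * b⁻¹ ∈ trl π := by
  intro z
  have h1 := hb (φ.symm (b⁻¹ * z))
  have h2 := ha (φ.symm (b⁻¹ * z))
  rw [ContinuousMulEquiv.apply_symm_apply] at h1 h2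
  rw [mul_inv_cancel_left] at h1
  rw [← h1] at h2
  rw [mul_assoc]
  exact h2

theorem NilCov.cocN [CompactSpace X] (h : NilCov F π) : CocN (trl π) := by
  classical
  obtain ⟨K, hK, hKx⟩ := exists_compact_image h.cov.isOpenMap h.surj
  -- choose a deck transformation for every linear part
  have hch : ∀ φ : N.G ≃ₜ* N.G, ∃ a : N.G, (∃ b, ∀ z, π (b * φ z) = π z) →
      ∀ z, π (a * φ z) = π z := by
    intro φ
    by_cases hφ : ∃ b, ∀ z, π (b * φ z) = π z
    · obtain ⟨b, hb⟩ := hφ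
      exact ⟨b, fun _ => hb⟩
    · exact ⟨1, fun h => absurd h hφ⟩
  choose s hs using hch
  have hcomp : IsCompact (⋃ φ ∈ F, (fun y => s φ * φ y) '' K) := by
    refine h.fin.isCompact_biUnion fun φ _ => hK.image ?_
    exact continuous_const.mul φ.continuous
  refine ⟨_, hcomp, fun x => ?_⟩
  obtain ⟨y, hy, hyx⟩ := hKx x
  obtain ⟨a, φ, hφ, hax, ha⟩ := h.trans y x hyx
  have hsφ := hs φ ⟨a, ha⟩
  refine ⟨s φ * a⁻¹, mul_inv_mem_trl hsφ ha, ?_⟩
  refine mem_biUnion hφ ⟨y, hy, ?_⟩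
  show s φ * φ y = s φ * a⁻¹ * x
  rw [← hax]
  group

end

section lifts

variable {n' : ℕ} {N : NilLaw n} {N' : NilLaw n'} {X Y : Type*} [TopologicalSpace X]
  [TopologicalSpace Y] {F : Set (N.G ≃ₜ* N.G)} {F' : Set (N'.G ≃ₜ* N'.G)} {π : N.G → X}
  {π' : N'.G → Y}

/-- Maps lift to the coverings. -/
theorem NilCov.exists_lift (h : NilCov F π) (h' : NilCov F' π') (k : C(X, Y)) :
    ∃ f : C(N.G, N'.G), ∀ x, π' (f x) = k (π x) := by
  obtain ⟨e, he⟩ := h'.surj (k (π 1))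
  obtain ⟨f, ⟨-, hf⟩, -⟩ := h'.cov.existsUnique_continuousMap_lifts
    (k.comp ⟨π, h.cov.continuous⟩) 1 e he
  exact ⟨f, fun x => congrFun hf x⟩

omit [TopologicalSpace X] in
/-- Lifts are equivariant. -/
theorem NilCov.equivar (h' : NilCov F' π') {k : X → Y} {f : N.G → N'.G} (hf : Continuous f)
    (hk : ∀ x, π' (f x) = k (π x)) {g : N.G → N.G} (hgc : Continuous g)
    (hg : ∀ z, π (g z) = π z) :
    ∃ a' : N'.G, ∃ φ' ∈ F', (∀ z, π' (a' * φ' z) = π' z) ∧ ∀ x, f (g x) = a' * φ' (f x) := by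
  obtain ⟨a', φ', hφ', h0, hγ'⟩ := h'.trans (f 1) (f (g 1)) (by rw [hk, hk, hg])
  refine ⟨a', φ', hφ', hγ', fun x => ?_⟩
  have h1 := h'.cov.eq_of_comp_eq (g₁ := fun x => f (g x)) (g₂ := fun x => a' * φ' (f x))
    (hf.comp hgc) (continuous_const.mul (φ'.continuous.comp hf)) (by
      funext z
      show π' (f (g z)) = π' (a' * φ' (f z))
      rw [hk, hg, hγ', hk]) 1 h0.symm
  exact congrFun h1 x

/-- The translations which `f` transforms into translations. -/
def trl₁ (π : N.G → X) (f : N.G → N'.G) : Subgroup N.G where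
  carrier := {l | l ∈ trl π ∧ ∃ a' : N'.G, ∀ x, f (l * x) = a' * f x}
  mul_mem' := by
    rintro a b ⟨ha, a', ha'⟩ ⟨hb, b', hb'⟩
    refine ⟨mul_mem ha hb, a' * b', fun x => ?_⟩
    rw [mul_assoc, ha', hb', mul_assoc]
  one_mem' := ⟨one_mem _, 1, fun x => by rw [one_mul, one_mul]⟩
  inv_mem' := by
    rintro a ⟨ha, a', ha'⟩
    refine ⟨inv_mem ha, a'⁻¹, fun x => ?_⟩
    rw [eq_inv_mul_iff_mul_eq, ← ha', mul_inv_cancel_left]

theorem NilCov.cocN₁ [CompactSpace X] (h : NilCov F π) (h' : NilCov F' π') {k : X → Y}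
    {f : N.G → N'.G} (hf : Continuous f) (hk : ∀ x, π' (f x) = k (π x)) : CocN (trl₁ π f) := by
  classical
  obtain ⟨K, hK, hKx⟩ := h.cocN
  have hch : ∀ φ' : N'.G ≃ₜ* N'.G, ∃ l : N.G, (∃ m ∈ trl π, ∃ a', ∀ x, f (m * x) = a' * φ' (f x)) →
      l ∈ trl π ∧ ∃ a', ∀ x, f (l * x) = a' * φ' (f x) := by
    intro φ'
    by_cases hφ : ∃ m ∈ trl π, ∃ a', ∀ x, f (m * x) = a' * φ' (f x)
    · obtain ⟨m, hm, hm'⟩ := hφ
      exact ⟨m, fun _ => ⟨hm, hm'⟩⟩
    · exact ⟨1, fun h => absurd h hφ⟩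
  choose s hs using hch
  have hcomp : IsCompact (⋃ φ' ∈ F', (fun y => (s φ')⁻¹ * y) '' K) :=
    h'.fin.isCompact_biUnion fun φ' _ => hK.image (continuous_const.mul continuous_id)
  refine ⟨_, hcomp, fun x => ?_⟩
  obtain ⟨l, hl, hlK⟩ := hKx x
  obtain ⟨a', φ', hφ', -, ha'⟩ := h'.equivar hf hk (g := fun x => l * x)
    (continuous_const.mul continuous_id) hl
  obtain ⟨hsl, b', hb'⟩ := hs φ' ⟨l, hl, a', ha'⟩
  refine ⟨(s φ')⁻¹ * l, ⟨mul_mem (inv_mem hsl) hl, φ'.symm (b'⁻¹ * a'), fun y => ?_⟩, ?_⟩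
  · apply φ'.injective
    rw [map_mul, ContinuousMulEquiv.apply_symm_apply]
    have h1 := hb' ((s φ')⁻¹ * l * y)
    rw [mul_assoc, mul_inv_cancel_left] at h1
    have h2 : f (l * y) = a' * φ' (f y) := ha' y
    rw [h2] at h1
    rw [mul_assoc, mul_assoc b'⁻¹, h1]
    group
  · refine mem_biUnion hφ' ⟨l * x, hlK, ?_⟩
    show (s φ')⁻¹ * (l * x) = (s φ')⁻¹ * l * x
    group

/-- A lift is at bounded distance from a homomorphism. -/
theorem NilCov.exists_hom [T2Space X] [CompactSpace X] (h : NilCov F π) (h' : NilCov F' π')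
    {k : X → Y} {f : N.G → N'.G} (hf : Continuous f) (hk : ∀ x, π' (f x) = k (π x)) :
    ∃ M : N.G →* N'.G, Continuous M ∧ (∃ K : Set N'.G, IsCompact K ∧ ∀ x, (M x)⁻¹ * f x ∈ K) ∧
      ∀ l ∈ trl π, ∀ a', (∀ x, f (l * x) = a' * f x) → M l = a' := by
  have hd : DiscN (trl₁ π f) := h.discN.mono fun x hx => hx.1
  have hc := h.cocN₁ h' hf hk
  have huni : ∀ {l a' : _}, (∀ x, f (l * x) = a' * f x) → f l * (f 1)⁻¹ = a' := by
    intro l a' hl
    have h1 := hl 1
    rw [mul_one] at h1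
    rw [h1]
    group
  let θ : trl₁ π f →* N'.G := MonoidHom.mk' (fun l => f l * (f 1)⁻¹) (by
    rintro ⟨l, hl, a', ha'⟩ ⟨m, hm, b', hb'⟩
    show f (l * m) * (f 1)⁻¹ = f l * (f 1)⁻¹ * (f m * (f 1)⁻¹)
    rw [huni ha', huni hb', ha']
    have h1 := huni hb'
    rw [mul_assoc, h1])
  obtain ⟨M, hM, hMθ⟩ := exists_extension hd hc θ
  have hMl : ∀ l ∈ trl π, ∀ a', (∀ x, f (l * x) = a' * f x) → M l = a' := by
    intro l hl a' ha'
    rw [← huni ha']
    exact hMθ ⟨l, hl, a', ha'⟩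
  refine ⟨M, hM, ?_, hMl⟩
  obtain ⟨K, hK, hKx⟩ := hc
  have hb : Continuous fun x => (M x)⁻¹ * f x := hM.inv.mul hf
  refine ⟨_, hK.image hb, fun x => ?_⟩
  obtain ⟨l, ⟨hl, a', ha'⟩, hlK⟩ := hKx x
  refine ⟨l * x, hlK, ?_⟩
  show (M (l * x))⁻¹ * f (l * x) = (M x)⁻¹ * f x
  rw [map_mul, hMl l hl a' ha', ha']
  group

/-- A lift of a map homotopic to the identity is at bounded distance from a deck
transformation. -/
theorem NilCov.exists_bounded [CompactSpace X] (h : NilCov F π) {k : C(X, X)}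
    (hk : k.Homotopic (ContinuousMap.id X)) (f : C(N.G, N.G)) (hf : ∀ x, π (f x) = k (π x)) :
    ∃ a : N.G, ∃ φ ∈ F, ∃ K : Set N.G, IsCompact K ∧ ∀ x, (a * φ x)⁻¹ * f x ∈ K := by
  obtain ⟨H⟩ := hk
  let π₁ : C(N.G, X) := ⟨π, h.cov.continuous⟩
  have hL0 : ∀ a : N.G, (H.toContinuousMap.comp ((ContinuousMap.id unitInterval).prodMap π₁))
      (0, a) = π (f a) := fun a => (H.apply_zero (π a)).trans (hf a).symm
  set L := h.cov.liftHomotopy
    (H.toContinuousMap.comp ((ContinuousMap.id unitInterval).prodMap π₁)) f hL0 with hLdef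
  have hl : ∀ t z, π (L (t, z)) = H (t, π z) := fun t z =>
    congrFun (h.cov.liftHomotopy_lifts _ f hL0) (t, z)
  have h0 : ∀ z, L (0, z) = f z := fun z => h.cov.liftHomotopy_zero _ f hL0 z
  have h1 : ∀ z, π (L (1, z)) = π z := fun z => (hl 1 z).trans (H.apply_one (π z))
  obtain ⟨a, φ, hφ, hδ0, hδ⟩ := h.trans 1 (L (1, 1)) (h1 1).symm
  have hL1 : ∀ z, L (1, z) = a * φ z := by
    have h2 := h.cov.eq_of_comp_eq (g₁ := fun z => L (1, z)) (g₂ := fun z => a * φ z)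
      (L.continuous.comp (Continuous.prodMk_right 1)) (continuous_const.mul φ.continuous) (by
        funext z
        show π (L (1, z)) = π (a * φ z)
        rw [h1, hδ]) 1 hδ0.symm
    exact fun z => congrFun h2 z
  have hinv : ∀ l ∈ trl π, ∃ a' : N.G, ∃ φ' ∈ F, ∀ t z, L (t, l * z) = a' * φ' (L (t, z)) := by
    intro l hl'
    obtain ⟨a', φ', hφ', h3, hγ'⟩ := h.trans (L (0, 1)) (L (0, l * 1)) (by rw [hl, hl, hl'])
    refine ⟨a', φ', hφ', fun t z => ?_⟩
    have h4 := h.cov.eq_of_comp_eq (A := unitInterval × N.G) (g₁ := fun p => L (p.1, l * p.2))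
      (g₂ := fun p => a' * φ' (L p))
      (L.continuous.comp (continuous_fst.prodMk (continuous_const.mul continuous_snd)))
      (continuous_const.mul (φ'.continuous.comp L.continuous)) (by
        funext p
        show π (L (p.1, l * p.2)) = π (a' * φ' (L p))
        rw [hl, hl', hγ']
        exact (hl p.1 p.2).symm) (0, 1) h3.symm
    exact congrFun h4 (t, z)
  obtain ⟨K, hK, hKx⟩ := h.cocN
  have hcont : Continuous fun x => (a * φ x)⁻¹ * f x :=
    (continuous_const.mul φ.continuous).inv.mul f.continuous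
  refine ⟨a, φ, hφ, ⋃ φ' ∈ F, φ' '' ((fun x => (a * φ x)⁻¹ * f x) '' K),
    h.fin.isCompact_biUnion fun φ' _ => (hK.image hcont).image φ'.continuous, fun x => ?_⟩
  obtain ⟨l, hl', hlK⟩ := hKx x
  obtain ⟨a', φ', hφ', hγ'⟩ := hinv l⁻¹ (inv_mem hl')
  refine mem_biUnion hφ' ⟨_, ⟨l * x, hlK, rfl⟩, ?_⟩
  have h3 : x = l⁻¹ * (l * x) := by group
  have h4 : a * φ x = a' * φ' (a * φ (l * x)) := by
    rw [← hL1, ← hL1, ← hγ', ← h3]
  have h5 : f x = a' * φ' (f (l * x)) := by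
    rw [← h0, ← h0, ← hγ', ← h3]
  show φ' ((a * φ (l * x))⁻¹ * f (l * x)) = (a * φ x)⁻¹ * f x
  rw [h4, h5, map_mul, map_inv]
  group

end lifts

end NilLaw

end Pool.Agent.Lib.MP_271836_gt
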