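import Pool.Agent.Lib.MP_271836_gt.Nil3
import Pool.Agent.Lib.MP_271836_gt.Nil8
import Pool.Agent.Lib.MP_271836_gt.Cover

/-!
# Homotopy equivalences between infra-nilmanifolds are homotopic to homeomorphisms
-/

namespace Pool.Agent.Lib.MP_271836_gt

open Topology Set unitInterval
open scoped Pointwise

/-- A homotopy equivalence which is covered by a homotopy to a homeomorphism is homotopic to a
homeomorphism. -/
theorem exists_homeo_of_cover {E E' X Y : Type} [TopologicalSpace E] [TopologicalSpace E']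
    [TopologicalSpace X] [TopologicalSpace Y] {π : E → X} {π' : E' → Y} (hπ : IsCoveringMap π)
    (hsurj : Function.Surjective π) (hπ' : IsCoveringMap π') [CompactSpace X] [T2Space X]
    [ConnectedSpace X] [CompactSpace Y] [T2Space Y] [ConnectedSpace Y]
    (k : ContinuousMap.HomotopyEquiv X Y) (F : E ≃ₜ E') (G₀ : C(I × E, Y))
    (h0 : ∀ x, G₀ (0, x) = k.toFun (π x)) (h1 : ∀ x, G₀ (1, x) = π' (F x))
    (hinv : ∀ t x y, π x = π y → G₀ (t, x) = G₀ (t, y)) :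
    ∃ φ : X ≃ₜ Y, k.toFun.Homotopic (φ : C(X, Y)) := by
  have hquot : IsOpenQuotientMap π := ⟨hsurj, hπ.continuous, hπ.isOpenMap⟩
  have hprod : IsOpenQuotientMap (Prod.map (id : I → I) π) := IsOpenQuotientMap.id.prodMap hquot
  have hG₀ : Function.FactorsThrough G₀ (Prod.map (id : I → I) π) := by
    rintro ⟨t, x⟩ ⟨s, y⟩ hxy
    obtain ⟨h1, h2⟩ := Prod.mk.inj hxy
    have hts : t = s := h1
    have hxy' : π x = π y := h2
    subst hts
    exact hinv t x y hxy'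
  let G : C(I × X, Y) := hprod.isQuotientMap.lift (f := ⟨Prod.map id π, hprod.continuous⟩) G₀ hG₀
  have hG : ∀ t x, G (t, π x) = G₀ (t, x) := by
    intro t x
    exact congrArg (fun v : C(I × E, Y) => v (t, x))
      (hprod.isQuotientMap.lift_comp (f := ⟨Prod.map id π, hprod.continuous⟩) G₀ hG₀)
  let φ : C(X, Y) := ⟨fun x => G (1, x), by fun_prop⟩
  have hφ : ∀ x, φ (π x) = π' (F x) := by
    intro x
    show G (1, π x) = _
    rw [hG, h1]
  have hkφ : k.toFun.Homotopic φ := by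
    refine ⟨⟨G, fun x => ?_, fun x => rfl⟩⟩
    obtain ⟨y, rfl⟩ := hsurj x
    show G (0, π y) = k.toFun (π y)
    rw [hG, h0]
  -- `φ` is a local homeomorphism
  have hloc : IsLocalHomeomorph φ := by
    rw [isLocalHomeomorph_iff_isLocalHomeomorphOn_univ]
    have h1 : IsLocalHomeomorph (φ ∘ π) := by
      have h2 : φ ∘ π = π' ∘ F := funext hφ
      rw [h2]
      exact hπ'.isLocalHomeomorph.comp F.isLocalHomeomorph
    have h3 := IsLocalHomeomorphOn.of_comp_right (s := univ) (f := π) (g := φ)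
      h1.isLocalHomeomorphOn hπ.isLocalHomeomorph.isLocalHomeomorphOn
    rwa [image_univ, hsurj.range_eq] at h3
  -- it has a section
  obtain ⟨s, -, hs⟩ := exists_homotopic_lift φ (covering_of_local hloc) k.invFun
    (ContinuousMap.id Y)
    ((hkφ.symm.comp (ContinuousMap.Homotopic.refl k.invFun)).trans k.right_inv)
  have hs' : ∀ y, φ (s y) = y := fun y => congrArg (fun v : C(Y, Y) => v y) hs
  have hsloc : IsLocalHomeomorph s := by
    apply IsLocalHomeomorph.of_comp _ hloc s.continuous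
    have h1 : (φ ∘ s : Y → Y) = id := funext hs'
    rw [h1]
    exact (Homeomorph.refl Y).isLocalHomeomorph
  have hssurj : Function.Surjective s := by
    have h1 : IsOpen (range s) := hsloc.isOpenMap.isOpen_range
    have h2 : IsClosed (range s) := (isCompact_range s.continuous).isClosed
    rcases isClopen_iff.1 ⟨h2, h1⟩ with h | h
    · exfalso
      obtain ⟨z⟩ := (inferInstance : Nonempty Y)
      have : s z ∈ range s := mem_range_self z
      rw [h] at this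
      exact this
    · exact range_eq_univ.1 h
  have hbij : Function.Bijective φ := by
    constructor
    · intro x y hxy
      obtain ⟨a, rfl⟩ := hssurj x
      obtain ⟨b, rfl⟩ := hssurj y
      rw [hs', hs'] at hxy
      rw [hxy]
    · intro y
      exact ⟨s y, hs' y⟩
  exact ⟨hloc.toHomeomorphOfBijective hbij, hkφ⟩

namespace NilLaw

variable {n n' : ℕ} {N : NilLaw n} {N' : NilLaw n'}

/-- Homomorphisms which are close to each other are conjugate. -/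
theorem conj_of_bounded {A B : N.G →* N'.G} {u : N'.G}
    {K : Set N'.G} (hK : IsCompact K) (h : ∀ x, (A x)⁻¹ * u * B x ∈ K) (x : N.G) :
    (A x)⁻¹ * u * B x = u := by
  obtain ⟨C, hC⟩ := exists_bound hK
  have h1 : PolyCurve fun τ => (rp (A x) τ)⁻¹ * u * rp (B x) τ :=
    ((rp_polyCurve (A x)).inv.mul (PolyCurve.const u)).mul (rp_polyCurve (B x))
  have h2 := h1.eq_of_bounded (B := C) (fun k i => by
    have h3 : (rp (A x) k)⁻¹ * u * rp (B x) k = (A (rp x k))⁻¹ * u * B (rp x k) := by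
      rw [rp_natCast, rp_natCast, rp_natCast, map_pow, map_pow]
    rw [h3]
    exact hC _ (h _) i) 1
  simp only [rp_one, rp_zero, inv_one, one_mul, mul_one] at h2
  exact h2

variable {X Y : Type} [TopologicalSpace X] [TopologicalSpace Y] {F : Set (N.G ≃ₜ* N.G)}
  {F' : Set (N'.G ≃ₜ* N'.G)} {π : N.G → X} {π' : N'.G → Y}

/-- The composition of the two homomorphisms. -/
theorem comp_eq_conj {f : N.G → N'.G} {f' : N'.G → N.G} {M : N.G →* N'.G} {M' : N'.G →* N.G}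
    (hM' : Continuous M') {K : Set N'.G} {K' K₁ : Set N.G} (hK : IsCompact K)
    (hK' : IsCompact K') (hK₁ : IsCompact K₁) (hfM : ∀ x, (M x)⁻¹ * f x ∈ K)
    (hfM' : ∀ x, (M' x)⁻¹ * f' x ∈ K') {a : N.G} {φ : N.G ≃ₜ* N.G}
    (h : ∀ x, (a * φ x)⁻¹ * f' (f x) ∈ K₁) (x : N.G) : M' (M x) = a * φ x * a⁻¹ := by
  have hcomp : IsCompact (K₁ * K'⁻¹ * (M' '' K)⁻¹) := (hK₁.mul hK'.inv).mul (hK.image hM').inv
  let A : N.G →* N.G := (φ : N.G →* N.G)
  have h1 := conj_of_bounded (A := A) (B := M'.comp M) (u := a⁻¹) hcomp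
    (fun x => by
      have h2 : (A x)⁻¹ * a⁻¹ * (M'.comp M) x =
          (a * φ x)⁻¹ * f' (f x) * ((M' (f x))⁻¹ * f' (f x))⁻¹ * (M' ((M x)⁻¹ * f x))⁻¹ := by
        show (φ x)⁻¹ * a⁻¹ * M' (M x) = _
        rw [map_mul, map_inv]
        group
      rw [h2]
      exact Set.mul_mem_mul (Set.mul_mem_mul (h x) (Set.inv_mem_inv.2 (hfM' _)))
        (Set.inv_mem_inv.2 ⟨_, hfM x, rfl⟩)) x
  have h3 : (φ x)⁻¹ * a⁻¹ * M' (M x) = a⁻¹ := h1
  calc M' (M x) = a * φ x * ((φ x)⁻¹ * a⁻¹ * M' (M x)) := by group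
    _ = a * φ x * a⁻¹ := by rw [h3]

/-- The homomorphism intertwines the linear parts. -/
theorem intertwine {f : N.G → N'.G} {M : N.G →* N'.G} {K : Set N'.G}
    (hK : IsCompact K) (hfM : ∀ x, (M x)⁻¹ * f x ∈ K) {a : N.G} {φ : N.G ≃ₜ* N.G} {a' : N'.G}
    {φ' : N'.G ≃ₜ* N'.G} (h : ∀ x, f (a * φ x) = a' * φ' (f x)) (x : N.G) :
    M (φ x) = ((M a)⁻¹ * a') * φ' (M x) * ((M a)⁻¹ * a')⁻¹ := by
  have hcomp : IsCompact (φ' '' K * K⁻¹) := (hK.image φ'.continuous).mul hK.inv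
  let A : N.G →* N'.G := (φ' : N'.G →* N'.G).comp M
  let B : N.G →* N'.G := M.comp (φ : N.G →* N.G)
  have h1 := conj_of_bounded (A := A) (B := B) (u := a'⁻¹ * M a) hcomp (fun x => by
      have h2 : (A x)⁻¹ * (a'⁻¹ * M a) * B x =
          φ' ((M x)⁻¹ * f x) * ((M (a * φ x))⁻¹ * f (a * φ x))⁻¹ := by
        show (φ' (M x))⁻¹ * (a'⁻¹ * M a) * M (φ x) = _
        rw [h, map_mul, map_mul, map_inv]
        group
      rw [h2]
      exact Set.mul_mem_mul ⟨_, hfM x, rfl⟩ (Set.inv_mem_inv.2 (hfM _))) x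
  have h3 : (φ' (M x))⁻¹ * (a'⁻¹ * M a) * M (φ x) = a'⁻¹ * M a := h1
  calc M (φ x) = ((M a)⁻¹ * a') * φ' (M x) * ((φ' (M x))⁻¹ * (a'⁻¹ * M a) * M (φ x)) := by group
    _ = ((M a)⁻¹ * a') * φ' (M x) * ((M a)⁻¹ * a')⁻¹ := by rw [h3]; group

/-- The common fixed point. -/
theorem exists_common_fixed (h : NilCov F π) (h' : NilCov F' π') {k : X → Y} {f : N.G → N'.G}
    (hf : Continuous f) (hk : ∀ x, π' (f x) = k (π x)) {M : N.G →* N'.G}
    {K : Set N'.G} (hK : IsCompact K) (hfM : ∀ x, (M x)⁻¹ * f x ∈ K)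
    (hMl : ∀ l ∈ trl π, ∀ a', (∀ x, f (l * x) = a' * f x) → M l = a') :
    ∃ c : N'.G, ∀ a, ∀ φ ∈ F, ∀ a', ∀ φ' ∈ F', (∀ z, π (a * φ z) = π z) →
      (∀ z, π' (a' * φ' z) = π' z) → (∀ x, f (a * φ x) = a' * φ' (f x)) →
        (M a)⁻¹ * (a' * φ' c) = c := by
  let R : (N.G ≃ₜ* N.G) × (N'.G ≃ₜ* N'.G) → Equiv.Perm N'.G → Prop := fun p ρ =>
    ∃ a a', (∀ z, π (a * p.1 z) = π z) ∧ (∀ z, π' (a' * p.2 z) = π' z) ∧
      (∀ x, f (a * p.1 x) = a' * p.2 (f x)) ∧ ∀ y, ρ y = (M a)⁻¹ * (a' * p.2 y)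
  have hR : ∀ p ρ ρ', R p ρ → R p ρ' → ρ = ρ' := by
    rintro ⟨φ, φ'⟩ ρ ρ' ⟨a, a', h1, h2, h3, h4⟩ ⟨b, b', h5, h6, h7, h8⟩
    have hl := hMl _ (mul_inv_mem_trl h1 h5) (a' * b'⁻¹) (by
      intro x
      have h9 := h3 (φ.symm (b⁻¹ * x))
      have h10 := h7 (φ.symm (b⁻¹ * x))
      simp only [ContinuousMulEquiv.apply_symm_apply] at h9 h10
      rw [mul_inv_cancel_left] at h10
      rw [mul_assoc, h9, h10]
      group)
    apply Equiv.ext
    intro y
    rw [h4, h8]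
    have h9 : M a = a' * b'⁻¹ * M b := by
      rw [← hl, ← map_mul]
      congr 1
      group
    rw [h9]
    simp only [mul_inv_rev, inv_inv]
    group
  let S : Set (Equiv.Perm N'.G) := {ρ | ∃ p ∈ F ×ˢ F', R p ρ}
  have hSfin : S.Finite := by
    have h1 : S = ⋃ p ∈ F ×ˢ F', {ρ | R p ρ} := by
      ext ρ
      simp only [S, mem_setOf_eq, mem_iUnion, exists_prop]
    rw [h1]
    exact (h.fin.prod h'.fin).biUnion fun p _ =>
      Set.Subsingleton.finite fun ρ hρ ρ' hρ' => hR p ρ ρ' hρ hρ'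
  have hSone : (1 : Equiv.Perm N'.G) ∈ S := by
    obtain ⟨a, φ, hφ, h1, h2⟩ := h.trans 1 1 rfl
    rw [map_one, mul_one] at h1
    subst h1
    have hid := h.ext_deck (g := fun z => 1 * φ z) (g' := fun z => z)
      (continuous_const.mul φ.continuous) continuous_id h2 (fun z => rfl) 1 (by simp)
    obtain ⟨a', φ', hφ', h3, h4⟩ := h'.equivar hf hk (g := fun z => 1 * φ z)
      (continuous_const.mul φ.continuous) h2
    have hid' := h'.ext_deck (g := fun z => a' * φ' z) (g' := fun z => z)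
      (continuous_const.mul φ'.continuous) continuous_id h3 (fun z => rfl) (f 1) (by
        show a' * φ' (f 1) = f 1
        rw [← h4]
        show f (1 * φ 1) = f 1
        simp)
    refine ⟨(φ, φ'), ⟨hφ, hφ'⟩, 1, a', h2, h3, h4, fun y => ?_⟩
    have h5 : a' * φ' y = y := congrFun hid' y
    show y = (M 1)⁻¹ * (a' * φ' y)
    rw [h5]
    simp
  have hSmul : ∀ ρ₁ ∈ S, ∀ ρ₂ ∈ S, ρ₁ * ρ₂ ∈ S := by
    rintro ρ₁ ⟨⟨φ₁, φ₁'⟩, ⟨hφ₁, hφ₁'⟩, a₁, a₁', h1, h1', h2, h3⟩ ρ₂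
      ⟨⟨φ₂, φ₂'⟩, ⟨hφ₂, hφ₂'⟩, a₂, a₂', h4, h4', h5, h6⟩
    simp only at h1 h1' h2 h3 h4 h4' h5 h6
    obtain ⟨a₃, φ₃, hφ₃, h7, h8⟩ := h.trans 1 (a₁ * φ₁ (a₂ * φ₂ 1)) (by rw [h1, h4])
    have hg := h.ext_deck (g := fun z => a₃ * φ₃ z) (g' := fun z => a₁ * φ₁ (a₂ * φ₂ z))
      (continuous_const.mul φ₃.continuous)
      (continuous_const.mul (φ₁.continuous.comp (continuous_const.mul φ₂.continuous))) h8
      (fun z => by rw [h1, h4]) 1 h7
    have hg' : ∀ z, a₃ * φ₃ z = a₁ * φ₁ (a₂ * φ₂ z) := fun z => congrFun hg z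
    obtain ⟨a₃', φ₃', hφ₃', h9, h10⟩ := h'.equivar hf hk (g := fun z => a₃ * φ₃ z)
      (continuous_const.mul φ₃.continuous) h8
    have h10' : ∀ x, f (a₃ * φ₃ x) = a₃' * φ₃' (f x) := h10
    have hgg := h'.ext_deck (g := fun z => a₃' * φ₃' z) (g' := fun z => a₁' * φ₁' (a₂' * φ₂' z))
      (continuous_const.mul φ₃'.continuous)
      (continuous_const.mul (φ₁'.continuous.comp (continuous_const.mul φ₂'.continuous))) h9
      (fun z => by rw [h1', h4']) (f 1) (by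
        show a₃' * φ₃' (f 1) = a₁' * φ₁' (a₂' * φ₂' (f 1))
        rw [← h10', hg', h2, h5])
    have hgg' : ∀ z, a₃' * φ₃' z = a₁' * φ₁' (a₂' * φ₂' z) := fun z => congrFun hgg z
    refine ⟨(φ₃, φ₃'), ⟨hφ₃, hφ₃'⟩, a₃, a₃', h8, h9, h10, fun y => ?_⟩
    show ρ₁ (ρ₂ y) = (M a₃)⁻¹ * (a₃' * φ₃' y)
    have ha₃ : a₃ = a₁ * φ₁ a₂ := by
      have := hg' 1
      rw [map_one, map_one, mul_one, mul_one] at this
      exact this
    have hint := intertwine hK hfM h2 a₂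
    rw [h3, h6, hgg', ha₃, map_mul M, hint, map_mul φ₁', map_mul φ₁', map_inv]
    group
  have hSinv : ∀ ρ ∈ S, ρ⁻¹ ∈ S := by
    intro ρ hρ
    have hpow : ∀ m : ℕ, ρ ^ m ∈ S := by
      intro m
      induction m with
      | zero => rw [pow_zero]; exact hSone
      | succ m ih => rw [pow_succ]; exact hSmul _ ih _ hρ
    have h1 : (Submonoid.powers ρ : Set (Equiv.Perm N'.G)).Finite := by
      refine hSfin.subset ?_
      rintro _ ⟨m, rfl⟩
      exact hpow m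
    have h2 : IsOfFinOrder ρ := finite_powers.1 h1
    have h3 : ρ⁻¹ ∈ Submonoid.powers ρ := by
      rw [h2.mem_powers_iff_mem_zpowers]
      exact inv_mem (Subgroup.mem_zpowers ρ)
    obtain ⟨m, hm⟩ := h3
    rw [← hm]
    exact hpow m
  let H : Subgroup (Equiv.Perm N'.G) :=
    { carrier := S
      mul_mem' := fun ha hb => hSmul _ ha _ hb
      one_mem' := hSone
      inv_mem' := fun ha => hSinv _ ha }
  haveI : Finite H := hSfin.to_subtype
  obtain ⟨c, hc⟩ := Nil.exists_fixed H N'.G (fun m hm => pow_bijective N' m hm)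
    (fun ρ x => (ρ : Equiv.Perm N'.G) x) (fun x => rfl) (fun ρ τ x => rfl) (by
      rintro ⟨ρ, ⟨⟨φ, φ'⟩, ⟨hφ, hφ'⟩, a, a', h1, h1', h2, h3⟩⟩ x y
      show ρ (x * y) = ρ x * (ρ 1)⁻¹ * ρ y
      rw [h3, h3, h3, h3]
      show (M a)⁻¹ * (a' * φ' (x * y)) =
        (M a)⁻¹ * (a' * φ' x) * ((M a)⁻¹ * (a' * φ' 1))⁻¹ * ((M a)⁻¹ * (a' * φ' y))
      rw [map_mul, map_one]
      group)
  refine ⟨c, fun a φ hφ a' φ' hφ' h1 h2 h3 => ?_⟩
  let ρ : Equiv.Perm N'.G := (φ' : N'.G ≃* N'.G).toEquiv.trans (Equiv.mulLeft ((M a)⁻¹ * a'))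
  have hρ : ∀ y, ρ y = (M a)⁻¹ * (a' * φ' y) := fun y => mul_assoc _ _ _
  have h4 := hc ⟨ρ, ⟨(φ, φ'), ⟨hφ, hφ'⟩, a, a', h1, h2, h3, hρ⟩⟩
  have h5 : ρ c = c := h4
  rw [hρ] at h5
  exact h5

/-- Homotopy equivalences between infra-nilmanifolds are homotopic to homeomorphisms. -/
theorem NilCov.rigid [CompactSpace X] [T2Space X] [ConnectedSpace X] [CompactSpace Y] [T2Space Y]
    [ConnectedSpace Y] (h : NilCov F π) (h' : NilCov F' π') (k : ContinuousMap.HomotopyEquiv X Y) :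
    ∃ φ : X ≃ₜ Y, k.toFun.Homotopic (φ : C(X, Y)) := by
  obtain ⟨f, hf⟩ := h.exists_lift h' k.toFun
  obtain ⟨f', hf'⟩ := h'.exists_lift h k.invFun
  obtain ⟨M, hM, ⟨K, hK, hfM⟩, hMl⟩ := h.exists_hom h' f.continuous hf
  obtain ⟨M', hM', ⟨K', hK', hfM'⟩, -⟩ := h'.exists_hom h f'.continuous hf'
  obtain ⟨a, φ, -, K₁, hK₁, hb⟩ := h.exists_bounded k.left_inv (f'.comp f) (fun x => by
    show π (f' (f x)) = k.invFun (k.toFun (π x))
    rw [hf', hf])
  obtain ⟨a₂, φ₂, -, K₂, hK₂, hb₂⟩ := h'.exists_bounded k.right_inv (f.comp f') (fun x => by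
    show π' (f (f' x)) = k.toFun (k.invFun (π' x))
    rw [hf, hf'])
  have hMM := comp_eq_conj hM' hK hK' hK₁ hfM hfM' hb
  have hMM₂ := comp_eq_conj hM hK' hK hK₂ hfM' hfM hb₂
  let J : N'.G → N.G := fun y => φ.symm (a⁻¹ * M' y * a)
  have hJM : ∀ x, J (M x) = x := by
    intro x
    show φ.symm (a⁻¹ * M' (M x) * a) = x
    rw [hMM]
    have h1 : a⁻¹ * (a * φ x * a⁻¹) * a = φ x := by group
    rw [h1, ContinuousMulEquiv.symm_apply_apply]
  have hsur : Function.Surjective M := by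
    intro y
    refine ⟨M' (φ₂.symm (a₂⁻¹ * y * a₂)), ?_⟩
    rw [hMM₂, ContinuousMulEquiv.apply_symm_apply]
    group
  have hMJ : ∀ y, M (J y) = y := by
    intro y
    obtain ⟨x, rfl⟩ := hsur y
    rw [hJM]
  have hJ : Continuous J :=
    φ.symm.continuous.comp ((continuous_const.mul hM').mul continuous_const)
  obtain ⟨c, hc⟩ := exists_common_fixed h h' f.continuous hf hK hfM hMl
  let Fh : N.G ≃ₜ N'.G := (Homeomorph.mk (Equiv.mk M J hJM hMJ) hM hJ).trans (Homeomorph.mulRight c)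
  have hFh : ∀ x, Fh x = M x * c := fun x => rfl
  have hdeck : ∀ x y, π x = π y → ∃ (a' : N'.G) (φ' : N'.G ≃ₜ* N'.G),
      (∀ z, π' (a' * φ' z) = π' z) ∧ f y = a' * φ' (f x) ∧ Fh y = a' * φ' (Fh x) := by
    intro x y hxy
    obtain ⟨a, φ, hφ, rfl, h1⟩ := h.trans x y hxy
    obtain ⟨a', φ', hφ', h2, h3⟩ := h'.equivar f.continuous hf (g := fun z => a * φ z)
      (continuous_const.mul φ.continuous) h1
    have h3' : ∀ x, f (a * φ x) = a' * φ' (f x) := h3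
    refine ⟨a', φ', h2, h3' x, ?_⟩
    have h4 := hc a φ hφ a' φ' hφ' h1 h2 h3'
    have h5 := intertwine hK hfM h3' x
    rw [hFh, hFh, map_mul M, h5, map_mul φ']
    have h6 : ((M a)⁻¹ * a')⁻¹ * c = φ' c := by
      conv_lhs => rw [← h4]
      group
    calc M a * ((M a)⁻¹ * a' * φ' (M x) * ((M a)⁻¹ * a')⁻¹) * c
        = a' * φ' (M x) * (((M a)⁻¹ * a')⁻¹ * c) := by group
      _ = a' * (φ' (M x) * φ' c) := by rw [h6]; group
  let H₀ : I × N.G → N'.G := fun p => Fh p.2 * rp ((Fh p.2)⁻¹ * f p.2) (1 - (p.1 : ℝ))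
  have hH₀ : Continuous H₀ := by
    refine (Fh.continuous.comp continuous_snd).mul (continuous_rp.comp (Continuous.prodMk ?_ ?_))
    · exact (Fh.continuous.comp continuous_snd).inv.mul (f.continuous.comp continuous_snd)
    · exact continuous_const.sub (continuous_subtype_val.comp continuous_fst)
  refine exists_homeo_of_cover h.cov h.surj h'.cov k Fh ⟨fun p => π' (H₀ p),
    h'.cov.continuous.comp hH₀⟩ (fun x => ?_) (fun x => ?_) (fun t x y hxy => ?_)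
  · show π' (Fh x * rp ((Fh x)⁻¹ * f x) (1 - ((0 : I) : ℝ))) = k.toFun (π x)
    rw [← hf]
    congr 1
    rw [Set.Icc.coe_zero, sub_zero, rp_one, mul_inv_cancel_left]
  · show π' (Fh x * rp ((Fh x)⁻¹ * f x) (1 - ((1 : I) : ℝ))) = π' (Fh x)
    congr 1
    rw [Set.Icc.coe_one, sub_self, rp_zero, mul_one]
  · obtain ⟨a', φ', h1, h2, h3⟩ := hdeck x y hxy
    show π' (Fh x * rp ((Fh x)⁻¹ * f x) (1 - (t : ℝ))) =
      π' (Fh y * rp ((Fh y)⁻¹ * f y) (1 - (t : ℝ)))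
    rw [h2, h3]
    have h4 : (a' * φ' (Fh x))⁻¹ * (a' * φ' (f x)) = φ' ((Fh x)⁻¹ * f x) := by
      rw [map_mul, map_inv]
      group
    rw [h4, ← map_rp (φ := φ') φ'.continuous (fun x y => map_mul φ' x y), mul_assoc, ← map_mul, h1]

end NilLaw

end Pool.Agent.Lib.MP_271836_gt
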