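import Pool.Agent.Lib.MP_271836_gt.Defs

/-!
# Simply connected nilpotent Lie groups in coordinates, and closed infra-nilmanifolds
-/

namespace Pool.Agent.Lib.MP_271836_gt

/-- A simply connected nilpotent Lie group in triangular coordinates: a group law on `ℝⁿ` with
neutral element `0` such that the `i`-th coordinate of the product of `x` and `y` is `x i + y i`
plus a polynomial in the coordinates of `x` and `y` with index smaller than `i`. (By Malcev, every
simply connected nilpotent Lie group has such coordinates.) -/
structure NilLaw (n : ℕ) where
  /-- the product -/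
  mul : (Fin n → ℝ) → (Fin n → ℝ) → Fin n → ℝ
  assoc : ∀ x y z, mul (mul x y) z = mul x (mul y z)
  one_left : ∀ x, mul 0 x = x
  one_right : ∀ x, mul x 0 = x
  exists_inv : ∀ x, ∃ y, mul y x = 0
  triangular : ∀ i, ∃ P : MvPolynomial (Fin n ⊕ Fin n) ℝ,
    (∀ j ∈ P.vars, Sum.elim id id j < i) ∧
      ∀ x y, mul x y i = x i + y i + MvPolynomial.eval (Sum.elim x y) P

/-- `X` is (homeomorphic to) a closed infra-nilmanifold of dimension `n`: a closed `n`-manifold
with a surjective covering map `π` from a simply connected nilpotent Lie group `G` (that is, `ℝⁿ`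
with a group law `N` as above), whose deck transformations are affine with finitely many linear
parts: there is a finite set `F` of automorphisms of the topological group `G` such that for any
two points `x`, `y` of `G` with the same image there are `a` in `G` and `φ` in `F` such that the
affine map `z ↦ a * φ z` sends `x` to `y` and preserves `π`. So `X` is the quotient of `G` by a
discrete cocompact group of affine maps acting freely, whose holonomy is finite. -/
def IsInfraNilmanifold (n : ℕ) (X : Type) [TopologicalSpace X] : Prop :=
  IsClosedManifold n X ∧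
    ∃ (N : NilLaw n) (F : Set ((Fin n → ℝ) ≃ₜ (Fin n → ℝ))) (π : (Fin n → ℝ) → X),
      F.Finite ∧ (∀ φ ∈ F, ∀ x y, φ (N.mul x y) = N.mul (φ x) (φ y)) ∧
        IsCoveringMap π ∧ Function.Surjective π ∧
          ∀ x y, π x = π y → ∃ a, ∃ φ ∈ F, N.mul a (φ x) = y ∧ ∀ z, π (N.mul a (φ z)) = π z

end Pool.Agent.Lib.MP_271836_gt
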