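import Mathlib

/-!
# Regular coverings and covering spaces of their bases
-/

namespace Pool.Agent.Lib.MP_271836_gt

open Topology Set

variable {E : Type*} [TopologicalSpace E] [SimplyConnectedSpace E] [LocallyPathConnectedSpace E]
variable {X X' : Type*} [TopologicalSpace X] [TopologicalSpace X'] {π : E → X} {p : X' → X}

/-- Lifting a covering to a covering space. -/
theorem exists_lift_cov (hπ : Continuous π) (hp : IsCoveringMap p) (a : E) (x' : X')
    (hx : p x' = π a) : ∃ s : C(E, X'), s a = x' ∧ ∀ z, p (s z) = π z := by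
  obtain ⟨s, ⟨h0, hs⟩, -⟩ := hp.existsUnique_continuousMap_lifts
    (⟨π, hπ⟩ : C(E, X)) a x' hx
  exact ⟨s, h0, fun z => congrFun hs z⟩

omit [LocallyPathConnectedSpace E] in
/-- Lifts which agree at one point agree. -/
theorem lift_unique_of_cov (hp : IsCoveringMap p) {s s' : E → X'} (hs : Continuous s)
    (hs' : Continuous s') (h : ∀ z, p (s z) = p (s' z)) (a : E) (ha : s a = s' a) : s = s' :=
  hp.eq_of_comp_eq (A := E) hs hs' (by funext z; exact h z) a ha

/-- A lift of a regular covering to a connected covering space of its base is a covering. -/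
theorem cov_of_lift [ConnectedSpace X'] (hπ : IsCoveringMap π) (hsur : Function.Surjective π)
    (htr : ∀ x y, π x = π y → ∃ g : E ≃ₜ E, g x = y ∧ ∀ z, π (g z) = π z)
    (hp : IsCoveringMap p) (s : C(E, X')) (hs : ∀ z, p (s z) = π z) :
    IsCoveringMap s ∧ Function.Surjective s := by
  have hsloc : IsLocalHomeomorph s := by
    apply IsLocalHomeomorph.of_comp _ hp.isLocalHomeomorph s.continuous
    have h1 : p ∘ s = π := funext hs
    rw [h1]
    exact hπ.isLocalHomeomorph
  have htrans : ∀ x y, s x = s y → ∃ g : E ≃ₜ E, g x = y ∧ ∀ z, s (g z) = s z := by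
    intro x y hxy
    obtain ⟨g, hgx, hg⟩ := htr x y (by rw [← hs, ← hs, hxy])
    refine ⟨g, hgx, fun z => ?_⟩
    have h1 := lift_unique_of_cov hp (s := fun z => s (g z)) (s' := s)
      (s.continuous.comp g.continuous) s.continuous (fun z => by rw [hs, hs, hg]) x (by
        show s (g x) = s x
        rw [hgx, hxy])
    exact congrFun h1 z
  have hopen : IsOpen (range s) := hsloc.isOpenMap.isOpen_range
  have hclosed : IsClosed (range s) := by
    rw [← isOpen_compl_iff, isOpen_iff_mem_nhds]
    intro x' hx'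
    obtain ⟨a, ha⟩ := hsur (p x')
    obtain ⟨s', hs'a, hs'⟩ := exists_lift_cov hπ.continuous hp a x' ha.symm
    have hs'loc : IsLocalHomeomorph s' := by
      apply IsLocalHomeomorph.of_comp _ hp.isLocalHomeomorph s'.continuous
      have h1 : p ∘ s' = π := funext hs'
      rw [h1]
      exact hπ.isLocalHomeomorph
    refine Filter.mem_of_superset (hs'loc.isOpenMap.isOpen_range.mem_nhds ⟨a, hs'a⟩) ?_
    rintro _ ⟨b, rfl⟩ ⟨c, hc⟩
    apply hx'
    obtain ⟨g, hgc, hg⟩ := htr c b (by rw [← hs, ← hs', hc])
    have h1 := lift_unique_of_cov hp (s := fun z => s' (g z)) (s' := s)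
      (s'.continuous.comp g.continuous) s.continuous (fun z => by rw [hs, hs', hg]) c (by
        show s' (g c) = s c
        rw [hgc, hc])
    refine ⟨g.symm a, ?_⟩
    have h2 := congrFun h1 (g.symm a)
    have h3 : s' (g (g.symm a)) = s (g.symm a) := h2
    rw [← h3, Homeomorph.apply_symm_apply, hs'a]
  have hsurj : Function.Surjective s := by
    rcases isClopen_iff.1 ⟨hclosed, hopen⟩ with h | h
    · exfalso
      obtain ⟨a⟩ := (inferInstance : Nonempty E)
      have : s a ∈ range s := mem_range_self a
      rw [h] at this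
      exact this
    · exact range_eq_univ.1 h
  refine ⟨?_, hsurj⟩
  let D : Subgroup (E ≃ₜ E) :=
    { carrier := {g | ∀ z, s (g z) = s z}
      mul_mem' := by
        intro a b ha hb z
        show s (a (b z)) = s z
        rw [ha, hb]
      one_mem' := fun z => rfl
      inv_mem' := by
        intro a ha z
        have h1 := ha (a.symm z)
        rw [Homeomorph.apply_symm_apply] at h1
        exact h1.symm }
  letI : MulAction D E :=
    { smul := fun g x => g.1 x
      one_smul := fun x => rfl
      mul_smul := fun g g' x => rfl }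
  have hq : IsQuotientCoveringMap s D :=
    { hsloc.isOpenMap.isQuotientMap s.continuous hsurj with
      continuous_const_smul := fun g => g.1.continuous
      apply_eq_iff_mem_orbit := by
        intro e₁ e₂
        constructor
        · intro he
          obtain ⟨g, hg, hgs⟩ := htrans e₂ e₁ he.symm
          exact ⟨⟨g, hgs⟩, hg⟩
        · rintro ⟨g, rfl⟩
          exact g.2 e₂
      disjoint := by
        intro e
        obtain ⟨U, hU, hinj⟩ := (isLocallyInjective_iff_nhds.1 hsloc.isLocallyInjective) e
        refine ⟨U, hU, ?_⟩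
        rintro g ⟨_, ⟨u, hu, rfl⟩, hgu⟩
        have h1 : g.1 u = u := hinj hgu hu (g.2 u)
        apply Subtype.ext
        apply Homeomorph.ext
        have h2 := lift_unique_of_cov hπ (s := g.1) (s' := id) g.1.continuous continuous_id
          (fun z => by rw [← hs, ← hs, g.2]; rfl) u h1
        exact fun z => congrFun h2 z }
  exact hq.isCoveringMap

/-- A covering space with finite fibres of a compact space is compact. -/
theorem compact_cov [LocallyCompactSpace E] [CompactSpace X] (hπ : IsCoveringMap π)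
    (hsur : Function.Surjective π) (hp : IsCoveringMap p) (hfin : ∀ x, (p ⁻¹' {x}).Finite) :
    CompactSpace X' := by
  classical
  obtain ⟨e₀⟩ := (inferInstance : Nonempty E)
  have hK : ∃ K : Set E, IsCompact K ∧ ∀ x, ∃ y ∈ K, π y = x := by
    choose K hK hx using fun x : E => exists_compact_mem_nhds x
    obtain ⟨t, ht⟩ := isCompact_univ.elim_finite_subcover (fun x : E => π '' interior (K x))
      (fun x => hπ.isOpenMap _ isOpen_interior) (by
        intro y _
        obtain ⟨x, rfl⟩ := hsur y
        exact mem_iUnion.2 ⟨x, x, mem_interior_iff_mem_nhds.2 (hx x), rfl⟩)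
    refine ⟨⋃ x ∈ t, K x, t.finite_toSet.isCompact_biUnion fun x _ => hK x, fun x => ?_⟩
    have h1 := ht (mem_univ x)
    simp only [mem_iUnion] at h1
    obtain ⟨z, hz, y, hy, hyx⟩ := h1
    exact ⟨y, mem_biUnion hz (interior_subset hy), hyx⟩
  obtain ⟨K, hK, hKx⟩ := hK
  have hlift : ∀ e' ∈ p ⁻¹' {π e₀}, ∃ s : C(E, X'), s e₀ = e' ∧ ∀ z, p (s z) = π z :=
    fun e' he' => exists_lift_cov hπ.continuous hp e₀ e' he'
  have hne : Nonempty (C(E, X')) ∨ IsEmpty X' := by
    rcases isEmpty_or_nonempty X' with hX | ⟨⟨x'⟩⟩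
    · exact Or.inr hX
    · exact Or.inl ⟨ContinuousMap.const _ x'⟩
  rcases hne with hne | hemp
  swap
  · infer_instance
  choose! s hs0 hs using hlift
  have hcomp : IsCompact (⋃ e' ∈ p ⁻¹' {π e₀}, s e' '' K) :=
    (hfin (π e₀)).isCompact_biUnion fun e' _ => hK.image (s e').continuous
  refine ⟨?_⟩
  convert hcomp
  symm
  rw [eq_univ_iff_forall]
  intro x'
  obtain ⟨y, hy, hyx⟩ := hKx (p x')
  obtain ⟨s', hs'y, hs'⟩ := exists_lift_cov hπ.continuous hp y x' hyx.symm
  have he' : s' e₀ ∈ p ⁻¹' {π e₀} := hs' e₀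
  have h1 := lift_unique_of_cov hp (s := s') (s' := s (s' e₀)) s'.continuous
    (s (s' e₀)).continuous (fun z => by rw [hs', hs _ he']) e₀ (hs0 _ he').symm
  simp only [mem_iUnion]
  refine ⟨s' e₀, he', y, hy, ?_⟩
  rw [← hs'y]
  exact (congrFun h1 y).symm

omit E in
/-- Covering spaces of Hausdorff spaces are Hausdorff. -/
theorem t2_of_cov [T2Space X] (hp : IsCoveringMap p) : T2Space X' := by
  refine ⟨fun x y hxy => ?_⟩
  by_cases h : p x = p y
  · exact hp.isSeparatedMap x y h hxy
  · obtain ⟨u, v, hu, hv, hxu, hyv, huv⟩ := t2_separation h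
    exact ⟨p ⁻¹' u, p ⁻¹' v, hu.preimage hp.continuous, hv.preimage hp.continuous, hxu, hyv,
      huv.preimage p⟩

end Pool.Agent.Lib.MP_271836_gt
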