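import Pool.Agent.Lib.MP_271836_gt.Nil9
import Pool.Agent.Lib.MP_271836_gt.RegCov
import Pool.Agent.Lib.MP_271836_gt.Main
import Pool.Agent.Lib.MP_271836_gt.CoverEquiv

/-!
# Weak solenoids over closed infra-nilmanifolds
-/

namespace Pool.Agent.Lib.MP_271836_gt

open Topology Set

namespace NilLaw

variable {n : ℕ} {N : NilLaw n} {X X' : Type} [TopologicalSpace X] [TopologicalSpace X']
  {F : Set (N.G ≃ₜ* N.G)} {π : N.G → X} {p : X' → X}

theorem NilCov.trans_homeo (h : NilCov F π) (x y : N.G) (hxy : π x = π y) :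
    ∃ g : N.G ≃ₜ N.G, g x = y ∧ ∀ z, π (g z) = π z := by
  obtain ⟨a, φ, -, h1, h2⟩ := h.trans x y hxy
  exact ⟨(φ : N.G ≃ₜ N.G).trans (Homeomorph.mulLeft a), h1, h2⟩

/-- A lift of the covering to a connected covering space is again such a covering. -/
theorem NilCov.nilCov_lift [ConnectedSpace X'] (h : NilCov F π) (hp : IsCoveringMap p)
    (s : C(N.G, X')) (hs : ∀ z, p (s z) = π z) : NilCov F s := by
  obtain ⟨h1, h2⟩ := cov_of_lift h.cov h.surj h.trans_homeo hp s hs
  refine ⟨h.fin, h1, h2, fun x y hxy => ?_⟩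
  obtain ⟨a, φ, hφ, hax, ha⟩ := h.trans x y (by rw [← hs, ← hs, hxy])
  refine ⟨a, φ, hφ, hax, fun z => ?_⟩
  have h3 := lift_unique_of_cov hp (s := fun z => s (a * φ z)) (s' := s)
    (s.continuous.comp (continuous_const.mul φ.continuous)) s.continuous
    (fun z => by rw [hs, hs, ha]) x (by
      show s (a * φ x) = s x
      rw [hax, hxy])
  exact congrFun h3 z

end NilLaw

open NilLaw

theorem isInfraNilmanifold_iff {n : ℕ} {X : Type} [TopologicalSpace X] :
    IsInfraNilmanifold n X ↔ IsClosedManifold n X ∧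
      ∃ (N : NilLaw n) (F : Set (N.G ≃ₜ* N.G)) (π : N.G → X), NilCov F π := by
  constructor
  · rintro ⟨h, N, F, π, h1, h2, h3, h4, h5⟩
    let J : (N.G ≃ₜ* N.G) → ((Fin n → ℝ) ≃ₜ (Fin n → ℝ)) := fun ψ => ψ.toHomeomorph
    have hJ : Function.Injective J := by
      intro ψ ψ' hψ
      apply ContinuousMulEquiv.ext
      intro x
      exact congrArg (fun e : (Fin n → ℝ) ≃ₜ (Fin n → ℝ) => e x) hψ
    refine ⟨h, N, J ⁻¹' F, π, h1.preimage hJ.injOn, h3, h4, fun x y hxy => ?_⟩
    obtain ⟨a, φ, hφ, ha, haz⟩ := h5 x y hxy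
    let ψ : N.G ≃ₜ* N.G :=
      { toFun := φ
        invFun := φ.symm
        left_inv := φ.left_inv
        right_inv := φ.right_inv
        map_mul' := h2 φ hφ
        continuous_toFun := φ.continuous
        continuous_invFun := φ.symm.continuous }
    have hψ : J ψ = φ := Homeomorph.ext fun x => rfl
    refine ⟨a, ψ, ?_, ha, haz⟩
    show J ψ ∈ F
    rw [hψ]
    exact hφ
  · rintro ⟨h, N, F, π, hπ⟩
    let J : (N.G ≃ₜ* N.G) → ((Fin n → ℝ) ≃ₜ (Fin n → ℝ)) := fun ψ => ψ.toHomeomorph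
    refine ⟨h, N, J '' F, π, hπ.fin.image J, ?_, hπ.cov, hπ.surj, fun x y hxy => ?_⟩
    · rintro _ ⟨ψ, -, rfl⟩ x y
      exact map_mul ψ (N.pt x) (N.pt y)
    · obtain ⟨a, φ, hφ, ha, haz⟩ := hπ.trans x y hxy
      exact ⟨a, J φ, ⟨φ, hφ, rfl⟩, ha, haz⟩

/-- The closed infra-nilmanifolds contain all finite connected covering spaces of their
members. -/
theorem nil_isCoverClosed (n : ℕ) : IsCoverClosed n (fun X _ => IsInfraNilmanifold n X) where
  closed_manifold X _ h := h.1
  finite_cover X Y _ _ hY hX p hp hfin := by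
    obtain ⟨hm, N, F, π, hπ⟩ := isInfraNilmanifold_iff.1 hY
    haveI : CompactSpace Y := hm.1
    haveI : T2Space Y := hm.2.2.1
    haveI : ConnectedSpace X := hX
    haveI : CompactSpace X := compact_cov hπ.cov hπ.surj hp hfin
    haveI : T2Space X := t2_of_cov hp
    obtain ⟨x⟩ := (inferInstance : Nonempty X)
    obtain ⟨a, ha⟩ := hπ.surj (p x)
    obtain ⟨s, -, hs⟩ := exists_lift_cov hπ.cov.continuous hp a x ha.symm
    exact isInfraNilmanifold_iff.2
      ⟨hm.of_local inferInstance inferInstance inferInstance hp.isLocalHomeomorph,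
        N, F, s, hπ.nilCov_lift hp s hs⟩

/-- Homotopy equivalences between closed infra-nilmanifolds are homotopic to homeomorphisms. -/
theorem nil_rigid (n : ℕ) (X Y : Type) [TopologicalSpace X] [TopologicalSpace Y]
    (hX : IsInfraNilmanifold n X) (hY : IsInfraNilmanifold n Y)
    (k : ContinuousMap.HomotopyEquiv X Y) : ∃ φ : X ≃ₜ Y, k.toFun.Homotopic (φ : C(X, Y)) := by
  obtain ⟨hm, N, F, π, hπ⟩ := isInfraNilmanifold_iff.1 hX
  obtain ⟨hm', N', F', π', hπ'⟩ := isInfraNilmanifold_iff.1 hY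
  haveI : CompactSpace X := hm.1
  haveI : ConnectedSpace X := hm.2.1
  haveI : T2Space X := hm.2.2.1
  haveI : CompactSpace Y := hm'.1
  haveI : ConnectedSpace Y := hm'.2.1
  haveI : T2Space Y := hm'.2.2.1
  exact hπ.rigid hπ' k

/-- Every shape equivalence between weak solenoids over closed infra-nilmanifolds is induced by a
homeomorphism. -/
theorem nil_realize (n : ℕ) (S T : Tower (fun X _ => IsInfraNilmanifold n X))
    (Φ : ShapeEquiv S.Limit T.Limit) :
    ∃ F : T.Limit ≃ₜ S.Limit, Φ.InducedBy (F : C(T.Limit, S.Limit)) :=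
  realize_of_rigid (nil_isCoverClosed n) (fun X Y _ _ hX hY k => nil_rigid n X Y hX hY k) S T Φ

end Pool.Agent.Lib.MP_271836_gt
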