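import Pool.Agent.Lib.MP_271836_gt.FlatMain
import Pool.Agent.Lib.MP_271836_gt.NilMain

/-!
# Closed flat manifolds are infra-nilmanifolds
-/

namespace Pool.Agent.Lib.MP_271836_gt

open Topology Set

/-- The additive law. -/
def addLaw (n : ℕ) : NilLaw n where
  mul x y := x + y
  assoc := add_assoc
  one_left := zero_add
  one_right := add_zero
  exists_inv x := ⟨-x, neg_add_cancel x⟩
  triangular i := ⟨0, fun j hj => by simp at hj, fun x y => by simp⟩

/-- Closed flat manifolds are infra-nilmanifolds, by Bieberbach's first theorem. -/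
theorem IsFlatManifold.isInfraNilmanifold {n : ℕ} {X : Type} [TopologicalSpace X]
    (h : IsFlatManifold n X) : IsInfraNilmanifold n X := by
  obtain ⟨hm, π, hπ⟩ := isFlatManifold_iff.1 h
  haveI : CompactSpace X := hm.1
  haveI : T2Space X := hm.2.2.1
  let e : EuclideanSpace ℝ (Fin n) ≃L[ℝ] (Fin n → ℝ) := EuclideanSpace.equiv (Fin n) ℝ
  let J : (EuclideanSpace ℝ (Fin n) ≃ₗᵢ[ℝ] EuclideanSpace ℝ (Fin n)) →
      ((Fin n → ℝ) ≃ₜ (Fin n → ℝ)) := fun r =>
    e.symm.toHomeomorph.trans (r.toHomeomorph.trans e.toHomeomorph)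
  have hJ : ∀ r x, J r x = e (r (e.symm x)) := fun r x => rfl
  refine ⟨hm, addLaw n, J '' (Flat.rot '' (Flat.deck π : Set _)), π ∘ e.symm,
    (Flat.finite_rot hπ.disc hπ.coc).image J, ?_, ?_, ?_, ?_⟩
  · rintro _ ⟨r, -, rfl⟩ x y
    show J r (x + y) = J r x + J r y
    rw [hJ, hJ, hJ, map_add, map_add, map_add]
  · exact hπ.cov.comp_homeomorph e.symm.toHomeomorph
  · exact hπ.surj.comp e.symm.surjective
  · intro x y hxy
    obtain ⟨g, hgx, hg⟩ := hπ.trans (e.symm x) (e.symm y) hxy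
    have h1 : ∀ z, e (g 0) + J (Flat.rot g) z = e (g (e.symm z)) := by
      intro z
      rw [hJ, ← map_add, Flat.apply_eq g (e.symm z), add_comm]
    refine ⟨e (g 0), J (Flat.rot g), ⟨_, ⟨g, hg, rfl⟩, rfl⟩, ?_, fun z => ?_⟩
    · show e (g 0) + J (Flat.rot g) x = y
      rw [h1, hgx, ContinuousLinearEquiv.apply_symm_apply]
    · show π (e.symm (e (g 0) + J (Flat.rot g) z)) = π (e.symm z)
      rw [h1, ContinuousLinearEquiv.symm_apply_apply, hg]

end Pool.Agent.Lib.MP_271836_gt
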