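import Pool.Agent.Lib.MP_271836_gt.Section

/-!
# Homeomorphisms between limits of towers over a common base
-/

namespace Pool.Agent.Lib.MP_271836_gt

open Topology Set unitInterval

section overBase

variable {B : ℕ → Type} [∀ l, TopologicalSpace (B l)] [∀ l, CompactSpace (B l)]
  [∀ l, T2Space (B l)] (q : ∀ l, C(B (l + 1), B l))
  {M : Type} [TopologicalSpace M] [T2Space M] (c : ∀ l, C(B l, M))

omit [∀ l, CompactSpace (B l)] [∀ l, T2Space (B l)] [T2Space M] in
theorem over_zero (hcq : ∀ l, (c l).comp (q l) = c (l + 1)) {x : ∀ l, B l} (hx : x ∈ lim q)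
    (l : ℕ) : c l (x l) = c 0 (x 0) := by
  induction l with
  | zero => rfl
  | succ l ih =>
    rw [← ih, ← hcq l]
    exact congrArg (c l) (hx l)

/-- A map to the base of a tower of finite coverings lifts to the limit as soon as it lifts to
every level. -/
theorem exists_lift_lim (hc : ∀ l, IsLocalHomeomorph (c l))
    (hcq : ∀ l, (c l).comp (q l) = c (l + 1)) {K : Type} [TopologicalSpace K]
    [PreconnectedSpace K] [Nonempty K] (π : C(K, M))
    (hs : ∀ l, ∃ s : C(K, B l), (c l).comp s = π) :
    ∃ U : C(K, lim q), ∀ x, c 0 ((U x).1 0) = π x := by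
  classical
  obtain ⟨x₀⟩ := (inferInstance : Nonempty K)
  let D : ℕ → Set (∀ l, B l) := fun l =>
    plim q l ∩ {z | ∃ s : C(K, B l), (c l).comp s = π ∧ s x₀ = z l}
  have hanti : ∀ l, D (l + 1) ⊆ D l := by
    rintro l z ⟨hz, s, hs1, hs2⟩
    refine ⟨plim_anti q (Nat.le_succ l) hz, (q l).comp s, ?_, ?_⟩
    · rw [← ContinuousMap.comp_assoc, hcq l, hs1]
    · show q l (s x₀) = z l
      rw [hs2]
      exact hz l (Nat.lt_succ_self l)
  have hne : ∀ l, (D l).Nonempty := by
    intro l
    obtain ⟨s, hs1⟩ := hs l
    let pt : ∀ l, B l := fun l => (hs l).choose x₀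
    exact ⟨sec q pt l (s x₀), sec_mem_plim q pt l _, s, hs1, (sec_self q pt l _).symm⟩
  have hcl : ∀ l, IsClosed (D l) := by
    intro l
    refine (isClosed_plim q l).inter ?_
    have hfin : ({b : B l | ∃ s : C(K, B l), (c l).comp s = π ∧ s x₀ = b}).Finite := by
      refine (finite_fibre (hc l) (π x₀)).subset ?_
      rintro b ⟨s, hs1, rfl⟩
      show c l (s x₀) = π x₀
      rw [← hs1]
      rfl
    exact hfin.isClosed.preimage (continuous_apply l)
  obtain ⟨z, hz⟩ := IsCompact.nonempty_iInter_of_sequence_nonempty_isCompact_isClosed D hanti hne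
    (hcl 0).isCompact hcl
  have hz' : ∀ l, z ∈ D l := mem_iInter.1 hz
  choose s hs1 hs2 using fun l => (hz' l).2
  have hzl : ∀ l, q l (z (l + 1)) = z l := fun l => (hz' (l + 1)).1 l (Nat.lt_succ_self l)
  have hco : ∀ l x, q l (s (l + 1) x) = s l x := by
    intro l x
    have h1 : (fun x => q l (s (l + 1) x)) = s l := by
      refine (covering_of_local (hc l)).eq_of_comp_eq (by fun_prop) (s l).continuous ?_ x₀ ?_
      · funext y
        have h2 : ((c l).comp (q l)).comp (s (l + 1)) = (c l).comp (s l) := by
          rw [hcq l, hs1, hs1]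
        exact congrArg (fun f : C(K, M) => f y) h2
      · show q l (s (l + 1) x₀) = s l x₀
        rw [hs2, hs2, hzl]
    exact congrFun h1 x
  refine ⟨⟨fun x => ⟨fun l => s l x, fun l => hco l x⟩, ?_⟩, ?_⟩
  · apply Continuous.subtype_mk
    exact continuous_pi fun l => (s l).continuous
  · intro x
    exact congrArg (fun f : C(K, M) => f x) (hs1 0)

/-- Self maps of the limit over the base are bijective. -/
theorem selfmap_bijective (hc : ∀ l, IsLocalHomeomorph (c l))
    (hcq : ∀ l, (c l).comp (q l) = c (l + 1)) [PreconnectedSpace (lim q)] [Nonempty (lim q)]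
    (φ : C(lim q, lim q)) (hφ : ∀ x, c 0 ((φ x).1 0) = c 0 (x.1 0)) : Function.Bijective φ := by
  classical
  obtain ⟨x₀⟩ := (inferInstance : Nonempty (lim q))
  have hiter : ∀ (a : ℕ) (x : lim q), c 0 ((φ^[a] x).1 0) = c 0 (x.1 0) := by
    intro a
    induction a with
    | zero => intro x; rfl
    | succ a ih =>
      intro x
      rw [Function.iterate_succ_apply', hφ, ih]
  have key : ∀ l, ∃ N, ∀ x : lim q, (φ^[N + 1] x).1 l = x.1 l := by
    intro l
    have hfin : Finite (c l ⁻¹' {c 0 (x₀.1 0)}) := finite_fibre (hc l) _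
    let f : ℕ → (c l ⁻¹' {c 0 (x₀.1 0)}) := fun a => ⟨(φ^[a] x₀).1 l, by
      show c l ((φ^[a] x₀).1 l) = _
      rw [over_zero q c hcq (φ^[a] x₀).2 l, hiter]⟩
    obtain ⟨a, b, hab, hfab⟩ : ∃ a b, a < b ∧ f a = f b := by
      obtain ⟨a, b, hne, hf⟩ := Finite.exists_ne_map_eq_of_infinite f
      rcases lt_or_gt_of_ne hne with h | h
      · exact ⟨a, b, h, hf⟩
      · exact ⟨b, a, h, hf.symm⟩
    obtain ⟨N, rfl⟩ : ∃ N, b = (N + 1) + a := ⟨b - a - 1, by omega⟩
    refine ⟨N, fun x => ?_⟩
    have h1 : (fun x : lim q => (φ^[N + 1] x).1 l) = fun x : lim q => x.1 l := by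
      refine (covering_of_local (hc l)).eq_of_comp_eq
        ((continuous_apply l).comp (continuous_subtype_val.comp (φ.continuous.iterate (N + 1))))
        ((continuous_apply l).comp continuous_subtype_val) ?_ (φ^[a] x₀) ?_
      · funext y
        show c l ((φ^[N + 1] y).1 l) = c l (y.1 l)
        rw [over_zero q c hcq (φ^[N + 1] y).2 l, over_zero q c hcq y.2 l, hiter]
      · show (φ^[N + 1] (φ^[a] x₀)).1 l = (φ^[a] x₀).1 l
        rw [← Function.iterate_add_apply]
        exact (congrArg Subtype.val hfab).symm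
    exact congrFun h1 x
  constructor
  · intro x y hxy
    apply Subtype.ext
    funext l
    obtain ⟨N, hN⟩ := key l
    rw [← hN x, ← hN y, Function.iterate_succ_apply, Function.iterate_succ_apply, hxy]
  · intro x
    haveI : CompactSpace (lim q) := isCompact_iff_compactSpace.1 (isClosed_lim q).isCompact
    let t : ℕ → Set (lim q) := fun l => {y | (φ y).1 l = x.1 l}
    have htcl : ∀ l, IsClosed (t l) := fun l =>
      isClosed_eq ((continuous_apply l).comp (continuous_subtype_val.comp φ.continuous))
        continuous_const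
    obtain ⟨y, hy⟩ := IsCompact.nonempty_iInter_of_sequence_nonempty_isCompact_isClosed t
      (fun l y hy => by
        have hy' : (φ y).1 (l + 1) = x.1 (l + 1) := hy
        show (φ y).1 l = x.1 l
        rw [← (φ y).2 l, hy', x.2 l])
      (fun l => by
        obtain ⟨N, hN⟩ := key l
        refine ⟨φ^[N] x, ?_⟩
        show (φ (φ^[N] x)).1 l = x.1 l
        rw [← Function.iterate_succ_apply' φ N x]
        exact hN x)
      (htcl 0).isCompact htcl
    refine ⟨y, ?_⟩
    apply Subtype.ext
    funext l
    exact mem_iInter.1 hy l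

variable {B' : ℕ → Type} [∀ l, TopologicalSpace (B' l)] [∀ l, CompactSpace (B' l)]
  [∀ l, T2Space (B' l)] (q' : ∀ l, C(B' (l + 1), B' l)) (c' : ∀ l, C(B' l, M))

/-- Two limits of towers over the same base which map to each other over the base are
homeomorphic. -/
theorem exists_homeo_over (hc : ∀ l, IsLocalHomeomorph (c l))
    (hcq : ∀ l, (c l).comp (q l) = c (l + 1)) (hc' : ∀ l, IsLocalHomeomorph (c' l))
    (hcq' : ∀ l, (c' l).comp (q' l) = c' (l + 1)) [PreconnectedSpace (lim q)]
    [Nonempty (lim q)] [PreconnectedSpace (lim q')] [Nonempty (lim q')]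
    (U : C(lim q, lim q')) (V : C(lim q', lim q)) (hU : ∀ x, c' 0 ((U x).1 0) = c 0 (x.1 0))
    (hV : ∀ x, c 0 ((V x).1 0) = c' 0 (x.1 0)) : Nonempty (lim q ≃ₜ lim q') := by
  have h1 : Function.Bijective (V.comp U) := selfmap_bijective q c hc hcq (V.comp U) fun x => by
    show c 0 ((V (U x)).1 0) = _
    rw [hV, hU]
  have h2 : Function.Bijective (U.comp V) := selfmap_bijective q' c' hc' hcq' (U.comp V) fun x => by
    show c' 0 ((U (V x)).1 0) = _
    rw [hU, hV]
  have h1' : Function.Injective (V ∘ U) := h1.1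
  have h2' : Function.Surjective (U ∘ V) := h2.2
  have hb : Function.Bijective U := ⟨h1'.of_comp, h2'.of_comp⟩
  haveI : CompactSpace (lim q) := isCompact_iff_compactSpace.1 (isClosed_lim q).isCompact
  exact ⟨Continuous.homeoOfEquivCompactToT2 (f := Equiv.ofBijective U hb) U.continuous⟩

end overBase

section twist

variable {B : ℕ → Type} [∀ l, TopologicalSpace (B l)] [∀ l, CompactSpace (B l)]
  [∀ l, TopologicalSpace.MetrizableSpace (B l)] [∀ l, ConnectedSpace (B l)]
  (q : ∀ l, C(B (l + 1), B l)) (m : ℕ)

/-- If the homotopy equivalence `k` and its inverse lift to the limit up to homotopy, then the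
twist by `k` is homeomorphic to the limit. -/
theorem exists_twist_homeo (hB : ∀ l, IsClosedMfd (B l)) (hq : ∀ l, IsLocalHomeomorph (q l))
    (k : ContinuousMap.HomotopyEquiv (B m) (B m)) (K K' : C(lim q, lim q))
    (hK : ((prj q m).comp K).Homotopic (k.toFun.comp (prj q m)))
    (hK' : ((prj q m).comp K').Homotopic (k.invFun.comp (prj q m))) :
    Nonempty (lim q ≃ₜ lim (B := PB q m k.toFun) (pq q m k.toFun)) := by
  have mP := PB_isClosedMfd q m hq k (hB m)
  haveI : ∀ j, CompactSpace (PB q m k.toFun j) := fun j => (mP j).compact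
  haveI : ∀ j, TopologicalSpace.MetrizableSpace (PB q m k.toFun j) := fun j => (mP j).metrizable
  haveI : ∀ j, ConnectedSpace (PB q m k.toFun j) := fun j => (mP j).connected
  have pt : ∀ l, B l := fun l => Classical.choice inferInstance
  have ptP : ∀ j, PB q m k.toFun j := fun j => Classical.choice inferInstance
  haveI := preconnected_lim q
  haveI := nonempty_lim q pt
  haveI := preconnected_lim (B := PB q m k.toFun) (pq q m k.toFun)
  haveI := nonempty_lim (B := PB q m k.toFun) (pq q m k.toFun) ptP
  haveI := preconnected_lim (B := fun j => B (m + j)) (fun j => q (m + j))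
  haveI := nonempty_lim (B := fun j => B (m + j)) (fun j => q (m + j)) (fun j => pt (m + j))
  have lqm : ∀ j, IsLocalHomeomorph (qm q m (Nat.le_add_right m j)) := fun j =>
    qm_isLocalHomeomorph q hq m (Nat.le_add_right m j)
  -- the maps to the base
  let c : ∀ j, C(PB q m k.toFun j, B m) := fun j => ⟨fun z => z.1.1, by fun_prop⟩
  have hc : ∀ j, IsLocalHomeomorph (c j) := fun j => isLocalHomeomorph_Pb_fst k.toFun _ (lqm j)
  have hcq : ∀ j, (c j).comp (pq q m k.toFun j) = c (j + 1) := fun j => rfl
  -- from the limit to the twist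
  obtain ⟨U, hU⟩ := exists_lift_lim (B := PB q m k.toFun) (pq q m k.toFun) c hc hcq (prj q m)
    (fun j => by
      obtain ⟨r, -, hr⟩ := exists_homotopic_lift (qm q m (Nat.le_add_right m j))
        (covering_of_local (lqm j)) ((prj q (m + j)).comp K) (k.toFun.comp (prj q m)) (by
          rw [← ContinuousMap.comp_assoc, qm_comp_prj]
          exact hK)
      refine ⟨⟨fun x => ⟨(x.1 m, r x), ?_⟩, ?_⟩, rfl⟩
      · exact (congrArg (fun f : C(lim q, B m) => f x) hr).symm
      · apply Continuous.subtype_mk
        exact ((continuous_apply m).comp continuous_subtype_val).prodMk r.continuous)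
  -- from the twist to the limit
  obtain ⟨Θ, ρ, hρ, -⟩ := exists_pullShape q m hq k
  obtain ⟨V, hV⟩ := exists_lift_lim (B := fun j => B (m + j)) (fun j => q (m + j))
    (fun j => qm q m (Nat.le_add_right m j)) lqm
    (fun j => (qm_succ q m (Nat.le_add_right m j)).symm)
    ((c 0).comp (prj (B := PB q m k.toFun) (pq q m k.toFun) 0)) (fun j => by
      obtain ⟨r, -, hr⟩ := exists_homotopic_lift (qm q m (Nat.le_add_right m j))
        (covering_of_local (lqm j)) (((prj q (m + j)).comp K').comp ρ)
        ((c 0).comp (prj (B := PB q m k.toFun) (pq q m k.toFun) 0)) (by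
          rw [← ContinuousMap.comp_assoc, ← ContinuousMap.comp_assoc, qm_comp_prj]
          refine (hK'.comp (ContinuousMap.Homotopic.refl ρ)).trans ?_
          have h1 : (k.invFun.comp (prj q m)).comp ρ = (k.invFun.comp k.toFun).comp
              ((c 0).comp (prj (B := PB q m k.toFun) (pq q m k.toFun) 0)) := by
            apply ContinuousMap.ext
            intro y
            exact congrArg k.invFun (hρ y)
          rw [h1]
          have h2 := k.left_inv.comp (ContinuousMap.Homotopic.refl
            ((c 0).comp (prj (B := PB q m k.toFun) (pq q m k.toFun) 0)))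
          rwa [ContinuousMap.id_comp] at h2)
      exact ⟨r, hr⟩)
  -- the shifted sequence
  have hsh : ∀ y : lim (B := fun j => B (m + j)) (fun j => q (m + j)),
      (shiftHomeo q m y).1 m = qm q m (Nat.le_add_right m 0) (y.1 0) := by
    intro y
    have h2 : ((shiftHomeo q m).symm (shiftHomeo q m y)).1 0 = y.1 0 := by
      rw [Homeomorph.symm_apply_apply]
    have h1 : qm q m (Nat.le_add_right m 0) = ContinuousMap.id (B m) := qm_self q m
    exact h2.trans (congrArg (fun f : C(B m, B m) => f (y.1 0)) h1).symm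
  obtain ⟨G⟩ := exists_homeo_over (B := fun j => B (m + j)) (fun j => q (m + j))
    (fun j => qm q m (Nat.le_add_right m j)) (B' := PB q m k.toFun) (pq q m k.toFun) c lqm
    (fun j => (qm_succ q m (Nat.le_add_right m j)).symm) hc hcq
    (U.comp (shiftHomeo q m : C(lim (B := fun j => B (m + j)) (fun j => q (m + j)), lim q))) V
    (fun y => (hU (shiftHomeo q m y)).trans (hsh y)) (fun x => hV x)
  exact ⟨(shiftHomeo q m).symm.trans G⟩

/-- If the limit has no finite connected coverings, then all self maps of the levels lift. -/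
theorem exists_lift_of_noFiniteCover (hq : ∀ l, IsLocalHomeomorph (q l))
    (hM : NoFiniteCover (lim q)) (f : C(B m, B m)) :
    ∃ K : C(lim q, lim q), (prj q m).comp K = f.comp (prj q m) := by
  have pt : ∀ l, B l := fun l => Classical.choice inferInstance
  haveI := preconnected_lim q
  haveI : ConnectedSpace (lim q) := ⟨nonempty_lim q pt⟩
  haveI : CompactSpace (lim q) := isCompact_iff_compactSpace.1 (isClosed_lim q).isCompact
  have lqm : ∀ j, IsLocalHomeomorph (qm q m (Nat.le_add_right m j)) := fun j =>
    qm_isLocalHomeomorph q hq m (Nat.le_add_right m j)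
  obtain ⟨U, hU⟩ := exists_lift_lim (B := fun j => B (m + j)) (fun j => q (m + j))
    (fun j => qm q m (Nat.le_add_right m j)) lqm
    (fun j => (qm_succ q m (Nat.le_add_right m j)).symm) (f.comp (prj q m)) (fun j => by
      have psurj : Function.Surjective (qm q m (Nat.le_add_right m j)) := by
        have h1 : IsOpen (range (qm q m (Nat.le_add_right m j))) := (lqm j).isOpenMap.isOpen_range
        have h2 : IsClosed (range (qm q m (Nat.le_add_right m j))) :=
          (isCompact_range (qm q m (Nat.le_add_right m j)).continuous).isClosed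
        rcases isClopen_iff.1 ⟨h2, h1⟩ with h | h
        · exfalso
          have : qm q m (Nat.le_add_right m j) (pt (m + j)) ∈
            range (qm q m (Nat.le_add_right m j)) := mem_range_self _
          rw [h] at this
          exact this
        · exact range_eq_univ.1 h
      obtain ⟨x₀⟩ := nonempty_lim q pt
      obtain ⟨z₀, hz₀⟩ := psurj (f (x₀.1 m))
      haveI : Nonempty (Pb (f.comp (prj q m)) (qm q m (Nat.le_add_right m j))) :=
        ⟨⟨(x₀, z₀), hz₀.symm⟩⟩
      haveI : CompactSpace (Pb (f.comp (prj q m)) (qm q m (Nat.le_add_right m j))) :=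
        isCompact_iff_compactSpace.1 (isClosed_Pb _ _).isCompact
      obtain ⟨s, hs⟩ := exists_section_of_noFiniteCover hM
        (⟨fun z => z.1.1, by fun_prop⟩ :
          C(Pb (f.comp (prj q m)) (qm q m (Nat.le_add_right m j)), lim q))
        (isLocalHomeomorph_Pb_fst _ _ (lqm j))
      refine ⟨⟨fun x => (s x).1.2, by fun_prop⟩, ?_⟩
      apply ContinuousMap.ext
      intro x
      have h1 : (s x).1.1 = x := congrArg (fun f : C(lim q, lim q) => f x) hs
      have h2 : (f.comp (prj q m)) (s x).1.1 = qm q m (Nat.le_add_right m j) (s x).1.2 := (s x).2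
      rw [h1] at h2
      exact h2.symm)
  refine ⟨(shiftHomeo q m : C(lim (B := fun j => B (m + j)) (fun j => q (m + j)), lim q)).comp U, ?_⟩
  apply ContinuousMap.ext
  intro x
  have h2 : ((shiftHomeo q m).symm (shiftHomeo q m (U x))).1 0 = (U x).1 0 := by
    rw [Homeomorph.symm_apply_apply]
  have h1 : qm q m (Nat.le_add_right m 0) = ContinuousMap.id (B m) := qm_self q m
  exact (h2.trans (congrArg (fun f : C(B m, B m) => f ((U x).1 0)) h1).symm).trans (hU x)

end twist

end Pool.Agent.Lib.MP_271836_gt
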