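import Pool.Agent.Lib.MP_271836_gt.Ladder

/-!
# Pullbacks of finite coverings along homotopy equivalences
-/

namespace Pool.Agent.Lib.MP_271836_gt

open Topology Set unitInterval

/-- Transport along a homotopy is onto. -/
theorem transport_surj {C X : Type} [TopologicalSpace C] [TopologicalSpace X] (c : C(C, X))
    (hc : IsCoveringMap c) (H : C(I × X, X)) (L : C(I × C, C)) (hL : ∀ t z, c (L (t, z)) = H (t, c z))
    (hL0 : ∀ z, L (0, z) = z) (x : X) (w : C) (hw : c w = H (1, x)) (hH0 : H (0, x) = x) :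
    ∃ z, c z = x ∧ L (1, z) = w := by
  let γ : C(I, X) := ⟨fun t => H (σ t, x), by fun_prop⟩
  have hγ0 : γ 0 = c w := by
    show H (σ 0, x) = c w
    rw [unitInterval.symm_zero, hw]
  set ω := hc.liftPath γ w hγ0 with hω
  have hl : ∀ t, c (ω t) = H (σ t, x) := fun t => congrFun (hc.liftPath_lifts γ w hγ0) t
  have h0 : ω 0 = w := hc.liftPath_zero γ w hγ0
  have hz : c (ω 1) = x := by
    rw [hl 1, unitInterval.symm_one, hH0]
  refine ⟨ω 1, hz, ?_⟩
  have h1 : (fun t : I => ω (σ t)) = fun t : I => L (t, ω 1) := by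
    refine hc.eq_of_comp_eq (by fun_prop) (by fun_prop) ?_ 0 ?_
    · funext t
      show c (ω (σ t)) = c (L (t, ω 1))
      rw [hl, unitInterval.symm_symm, hL, hz]
    · show ω (σ 0) = L (0, ω 1)
      rw [unitInterval.symm_zero, hL0]
  have h2 := congrFun h1 1
  rw [← h2]
  show ω (σ 1) = w
  rw [unitInterval.symm_one, h0]

section pb

variable {E X C : Type} [TopologicalSpace E] [TopologicalSpace X] [TopologicalSpace C]
  [CompactSpace E] [T2Space E] [ConnectedSpace E] [T2Space X]
  [CompactSpace C] [T2Space C] [ConnectedSpace C]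

/-- The data of the comparison map. -/
theorem exists_section (k : C(E, X)) (k' : C(X, E)) (hk : (k.comp k').Homotopic (ContinuousMap.id X))
    (c : C(C, X)) (hc : IsCoveringMap c) :
    ∃ δ : C(C, Pb k c), (∀ z, (δ z).1.1 = k' (c z)) ∧
      (ContinuousMap.id C).Homotopic ((⟨fun z => z.1.2, by fun_prop⟩ : C(Pb k c, C)).comp δ) ∧
      ∀ p : Pb k c, ∀ x, p.1.1 = k' x → ∃ z, δ z = p := by
  obtain ⟨H⟩ := hk.symm
  have hL0 : ∀ a : C, (H.toContinuousMap.comp ((ContinuousMap.id I).prodMap c)) (0, a) =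
      c ((ContinuousMap.id C) a) := fun a => H.apply_zero (c a)
  set L := hc.liftHomotopy (H.toContinuousMap.comp ((ContinuousMap.id I).prodMap c))
    (ContinuousMap.id C) hL0 with hLdef
  have hl : ∀ t z, c (L (t, z)) = H (t, c z) := fun t z =>
    congrFun (hc.liftHomotopy_lifts _ (ContinuousMap.id C) hL0) (t, z)
  have h0 : ∀ z, L (0, z) = z := fun z => hc.liftHomotopy_zero _ (ContinuousMap.id C) hL0 z
  have h1 : ∀ z, k (k' (c z)) = c (L (1, z)) := fun z => by
    rw [hl]
    exact (H.apply_one (c z)).symm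
  refine ⟨⟨fun z => ⟨(k' (c z), L (1, z)), h1 z⟩, by fun_prop⟩, fun z => rfl, ?_, ?_⟩
  · exact ⟨⟨L, fun z => h0 z, fun z => rfl⟩⟩
  · rintro ⟨⟨e, w⟩, hp⟩ x hx
    have hx' : e = k' x := hx
    subst hx'
    have hw : c w = H (1, x) := by
      have h3 : k (k' x) = c w := hp
      rw [← h3]
      exact (H.apply_one x).symm
    obtain ⟨z, hz, hzw⟩ := transport_surj c hc H.toContinuousMap L hl h0 x w hw (H.apply_zero x)
    refine ⟨z, ?_⟩
    apply Subtype.ext
    show (k' (c z), L (1, z)) = (k' x, w)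
    rw [hz, hzw]

instance compactSpace_Pb (k : C(E, X)) (c : C(C, X)) : CompactSpace (Pb k c) :=
  isCompact_iff_compactSpace.1 (isClosed_Pb k c).isCompact

/-- Pullbacks of connected finite coverings along homotopy equivalences are connected. -/
theorem connected_Pb (k : C(E, X)) (k' : C(X, E)) (hk : (k.comp k').Homotopic (ContinuousMap.id X))
    (c : C(C, X)) (hc : IsLocalHomeomorph c) : ConnectedSpace (Pb k c) := by
  obtain ⟨δ, hδ, -, hsurj⟩ := exists_section k k' hk c (covering_of_local hc)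
  have hloc := isLocalHomeomorph_Pb_fst k c hc
  obtain ⟨z₀⟩ := (inferInstance : Nonempty C)
  have key : ∀ P : Set (Pb k c), IsClopen P → P.Nonempty → ∃ z, δ z ∈ P := by
    intro P hP hne
    have h1 : IsOpen ((fun z : Pb k c => z.1.1) '' P) := hloc.isOpenMap _ hP.isOpen
    have h2 : IsClosed ((fun z : Pb k c => z.1.1) '' P) :=
      (hP.isClosed.isCompact.image hloc.continuous).isClosed
    have h3 : ((fun z : Pb k c => z.1.1) '' P) = univ := by
      rcases isClopen_iff.1 ⟨h2, h1⟩ with h | h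
      · exfalso
        obtain ⟨p, hp⟩ := hne
        have : (fun z : Pb k c => z.1.1) p ∈ (fun z : Pb k c => z.1.1) '' P := mem_image_of_mem _ hp
        rw [h] at this
        exact this
      · exact h
    have h4 : k' (c z₀) ∈ (fun z : Pb k c => z.1.1) '' P := by rw [h3]; trivial
    obtain ⟨p, hp, hpe⟩ := h4
    obtain ⟨z, hz⟩ := hsurj p (c z₀) hpe
    exact ⟨z, by rw [hz]; exact hp⟩
  have hpre : PreconnectedSpace (Pb k c) := by
    rw [preconnectedSpace_iff_clopen]
    intro P hP
    rcases isClopen_iff.1 (hP.preimage δ.continuous) with h | h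
    · left
      by_contra hne
      obtain ⟨z, hz⟩ := key P hP (nonempty_iff_ne_empty.2 hne)
      have : z ∈ δ ⁻¹' P := hz
      rw [h] at this
      exact this
    · right
      by_contra hne
      obtain ⟨z, hz⟩ := key Pᶜ hP.compl (nonempty_compl.2 hne)
      have : z ∈ δ ⁻¹' P := by rw [h]; trivial
      exact hz this
  exact ⟨⟨δ z₀⟩⟩

/-- The projection of the pullback of a connected finite covering along a homotopy equivalence is
a homotopy equivalence. -/
theorem exists_equiv_Pb (k : ContinuousMap.HomotopyEquiv E X) (c : C(C, X))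
    (hc : IsLocalHomeomorph c) : ∃ h : ContinuousMap.HomotopyEquiv (Pb k.toFun c) C,
      h.toFun = ⟨fun z => z.1.2, by fun_prop⟩ := by
  obtain ⟨δ, hδ, hid, -⟩ := exists_section k.toFun k.invFun k.right_inv c (covering_of_local hc)
  haveI := connected_Pb k.toFun k.invFun k.right_inv c hc
  have hloc := isLocalHomeomorph_Pb_fst k.toFun c hc
  set κ : C(Pb k.toFun c, C) := ⟨fun z => z.1.2, by fun_prop⟩ with hκ
  set π : C(Pb k.toFun c, E) := ⟨fun z => z.1.1, by fun_prop⟩ with hπ
  have h1 : π.comp (δ.comp κ) = (k.invFun.comp k.toFun).comp π := by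
    apply ContinuousMap.ext
    intro p
    show (δ p.1.2).1.1 = k.invFun (k.toFun p.1.1)
    rw [hδ]
    exact congrArg k.invFun p.2.symm
  have h2 : (π.comp (δ.comp κ)).Homotopic π := by
    rw [h1]
    have h3 := k.left_inv.comp (ContinuousMap.Homotopic.refl π)
    rwa [ContinuousMap.id_comp] at h3
  obtain ⟨τ, hτ, hπτ⟩ := exists_homotopic_lift π (covering_of_local hloc) (δ.comp κ) π h2
  obtain ⟨φ, hφ⟩ := exists_homeo_of_deck π hloc τ hπτ
  have hφτ : (φ : C(Pb k.toFun c, Pb k.toFun c)) = τ := ContinuousMap.ext hφ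
  have hinv : ((φ.symm : C(Pb k.toFun c, Pb k.toFun c)).comp
      (φ : C(Pb k.toFun c, Pb k.toFun c))) = ContinuousMap.id _ :=
    ContinuousMap.ext fun y => φ.symm_apply_apply y
  have hleft : ((((φ.symm : C(Pb k.toFun c, Pb k.toFun c)).comp δ)).comp κ).Homotopic
      (ContinuousMap.id _) := by
    rw [ContinuousMap.comp_assoc, ← hinv, hφτ]
    exact (ContinuousMap.Homotopic.refl _).comp hτ
  have hδ' : (((φ.symm : C(Pb k.toFun c, Pb k.toFun c)).comp δ)).Homotopic δ := by
    have h3 : (((φ.symm : C(Pb k.toFun c, Pb k.toFun c)).comp δ)).Homotopic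
        ((((φ.symm : C(Pb k.toFun c, Pb k.toFun c)).comp δ)).comp (κ.comp δ)) := by
      have h4 := (ContinuousMap.Homotopic.refl
        (((φ.symm : C(Pb k.toFun c, Pb k.toFun c)).comp δ))).comp hid
      rwa [ContinuousMap.comp_id] at h4
    refine h3.trans ?_
    rw [← ContinuousMap.comp_assoc]
    have h5 := hleft.comp (ContinuousMap.Homotopic.refl δ)
    rwa [ContinuousMap.id_comp] at h5
  refine ⟨⟨κ, (φ.symm : C(Pb k.toFun c, Pb k.toFun c)).comp δ, hleft, ?_⟩, rfl⟩
  exact ((ContinuousMap.Homotopic.refl κ).comp hδ').trans hid.symm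

end pb

end Pool.Agent.Lib.MP_271836_gt
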