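import Pool.Agent.Lib.MP_271836_gt.Twist

/-!
# Limits without finite connected coverings
-/

namespace Pool.Agent.Lib.MP_271836_gt

open Topology Set unitInterval

/-- A two point discrete space is an absolute neighbourhood retract. -/
theorem isANR_bool : IsANR Bool := by
  classical
  refine ⟨inferInstance, fun Z _ _ A hA f => ?_⟩
  letI := TopologicalSpace.metrizableSpaceMetric Z
  have h1 : IsClosed (Subtype.val '' (f ⁻¹' {true})) :=
    hA.isClosedEmbedding_subtypeVal.isClosedMap _ ((isClosed_discrete {true}).preimage f.continuous)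
  have h0 : IsClosed (Subtype.val '' (f ⁻¹' {false})) :=
    hA.isClosedEmbedding_subtypeVal.isClosedMap _ ((isClosed_discrete {false}).preimage f.continuous)
  have hd : Disjoint (Subtype.val '' (f ⁻¹' {true}) : Set Z) (Subtype.val '' (f ⁻¹' {false})) := by
    rw [Set.disjoint_left]
    rintro z ⟨a, ha, rfl⟩ ⟨b, hb, hab⟩
    have hab' : b = a := Subtype.ext hab
    subst hab'
    have e1 : f b = true := ha
    have e0 : f b = false := hb
    rw [e1] at e0
    exact Bool.noConfusion e0
  obtain ⟨U, V, hU, hV, hU1, hV0, hUV⟩ := normal_separation h1 h0 hd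
  refine ⟨U ∪ V, ?_, hU.union hV, ?_⟩
  · intro z hz
    rcases hfz : f ⟨z, hz⟩ with _ | _
    · right; exact hV0 ⟨⟨z, hz⟩, hfz, rfl⟩
    · left; exact hU1 ⟨⟨z, hz⟩, hfz, rfl⟩
  · have hcl : IsClopen {z : (U ∪ V : Set Z) | (z : Z) ∈ U} := by
      refine ⟨?_, hU.preimage continuous_subtype_val⟩
      have : {z : (U ∪ V : Set Z) | (z : Z) ∈ U} = {z : (U ∪ V : Set Z) | (z : Z) ∈ V}ᶜ := by
        ext z
        constructor
        · intro hz hz'
          exact Set.disjoint_left.1 hUV hz hz'
        · intro hz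
          rcases z.2 with h | h
          · exact h
          · exact absurd h hz
      rw [this]
      exact (hV.preimage continuous_subtype_val).isClosed_compl
    refine ⟨⟨fun z => decide ((z : Z) ∈ U), ?_⟩, ?_⟩
    · rw [continuous_discrete_rng]
      intro b
      rcases b with _ | _
      · have : (fun z : (U ∪ V : Set Z) => decide ((z : Z) ∈ U)) ⁻¹' {false} =
            {z : (U ∪ V : Set Z) | (z : Z) ∈ U}ᶜ := by
          ext z
          simp
        rw [this]
        exact hcl.compl.isOpen
      · have : (fun z : (U ∪ V : Set Z) => decide ((z : Z) ∈ U)) ⁻¹' {true} =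
            {z : (U ∪ V : Set Z) | (z : Z) ∈ U} := by
          ext z
          simp
        rw [this]
        exact hcl.isOpen
    · intro a
      show decide ((a : Z) ∈ U) = f a
      rcases hfa : f a with _ | _
      · have hV' : (a : Z) ∈ V := hV0 ⟨a, hfa, rfl⟩
        rw [decide_eq_false_iff_not]
        intro hU'
        exact Set.disjoint_left.1 hUV hU' hV'
      · have hU' : (a : Z) ∈ U := hU1 ⟨a, hfa, rfl⟩
        rw [decide_eq_true_iff]
        exact hU'

section limit

variable {B : ℕ → Type} [∀ l, TopologicalSpace (B l)] [∀ l, CompactSpace (B l)]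
  [∀ l, TopologicalSpace.MetrizableSpace (B l)] [∀ l, ConnectedSpace (B l)]
  (q : ∀ l, C(B (l + 1), B l))

/-- The inverse limit is connected. -/
theorem preconnected_lim : PreconnectedSpace (lim q) := by
  classical
  have pt : ∀ l, B l := fun l => Classical.choice inferInstance
  rw [preconnectedSpace_iff_clopen]
  intro P hP
  let a : C(lim q, Bool) := ⟨fun x => decide (x ∈ P), by
    rw [continuous_discrete_rng]
    intro b
    rcases b with _ | _
    · have : (fun x : lim q => decide (x ∈ P)) ⁻¹' {false} = Pᶜ := by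
        ext z
        simp
      rw [this]
      exact hP.compl.isOpen
    · have : (fun x : lim q => decide (x ∈ P)) ⁻¹' {true} = P := by
        ext z
        simp
      rw [this]
      exact hP.isOpen⟩
  obtain ⟨m, hm⟩ := exists_factor q isANR_bool pt a
  obtain ⟨b, ⟨hb⟩⟩ := hm m le_rfl
  have h1 : ∀ x : lim q, a x = b (pt m) := by
    intro x
    have h2 : hb (0, x) = hb (1, x) := by
      have h3 : Continuous fun t : I => hb (t, x) := by fun_prop
      exact PreconnectedSpace.constant inferInstance h3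
    rw [hb.apply_zero, hb.apply_one] at h2
    rw [h2]
    exact PreconnectedSpace.constant inferInstance b.continuous
  rcases hv : b (pt m) with _ | _
  · left
    rw [Set.eq_empty_iff_forall_notMem]
    intro x hx
    have h2 := h1 x
    rw [hv] at h2
    exact (decide_eq_false_iff_not.1 h2) hx
  · right
    rw [Set.eq_univ_iff_forall]
    intro x
    have h2 := h1 x
    rw [hv] at h2
    exact decide_eq_true_iff.1 h2

omit [∀ l, ConnectedSpace (B l)] in
theorem nonempty_lim (pt : ∀ l, B l) : Nonempty (lim q) := by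
  rcases (lim q).eq_empty_or_nonempty with hemp | ⟨x₀, hx₀⟩
  · exfalso
    obtain ⟨m, hm⟩ := exists_plim_subset (Y := Unit) (U := ∅) q isOpen_empty
      (fun x hx => by rw [hemp] at hx; exact hx.elim)
    exact hm _ (sec_mem_plim q pt m (pt m)) ()
  · exact ⟨⟨x₀, hx₀⟩⟩

end limit

/-- A finite covering of a connected compact Hausdorff space without nontrivial finite connected
coverings has a section. -/
theorem exists_section_of_noFiniteCover {M K : Type} [TopologicalSpace M] [TopologicalSpace K]
    [T2Space M] [CompactSpace M] [ConnectedSpace M] [T2Space K] [CompactSpace K] [Nonempty K]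
    (hM : NoFiniteCover M) (ϖ : C(K, M)) (hϖ : IsLocalHomeomorph ϖ) :
    ∃ s : C(M, K), ϖ.comp s = ContinuousMap.id M := by
  classical
  obtain ⟨x₀⟩ := (inferInstance : Nonempty M)
  have onto : ∀ P : Set K, IsClopen P → P.Nonempty → ϖ '' P = univ := by
    intro P hP hne
    have h1 : IsOpen (ϖ '' P) := hϖ.isOpenMap _ hP.isOpen
    have h2 : IsClosed (ϖ '' P) := (hP.isClosed.isCompact.image ϖ.continuous).isClosed
    rcases isClopen_iff.1 ⟨h2, h1⟩ with h | h
    · exfalso
      obtain ⟨p, hp⟩ := hne
      have : ϖ p ∈ ϖ '' P := mem_image_of_mem _ hp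
      rw [h] at this
      exact this
    · exact h
  have hfin : (ϖ ⁻¹' {x₀}).Finite := finite_fibre hϖ x₀
  -- a nonempty clopen set with the smallest fibre over `x₀`
  let N : Set ℕ := {d | ∃ P : Set K, IsClopen P ∧ P.Nonempty ∧ (P ∩ ϖ ⁻¹' {x₀}).ncard = d}
  have hN : N.Nonempty := ⟨_, univ, isClopen_univ, univ_nonempty, rfl⟩
  obtain ⟨P, hP, hPne, hPd⟩ := Nat.sInf_mem hN
  have hPconn : ConnectedSpace P := by
    have hpre : PreconnectedSpace P := by
      rw [preconnectedSpace_iff_clopen]
      intro Q hQ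
      by_contra hcon
      push Not at hcon
      obtain ⟨hQ1, hQ2⟩ := hcon
      have cl : ∀ R : Set P, IsClopen R → IsClopen (Subtype.val '' R : Set K) := fun R hR =>
        ⟨hP.isClosed.isClosedEmbedding_subtypeVal.isClosedMap _ hR.isClosed,
          hP.isOpen.isOpenEmbedding_subtypeVal.isOpenMap _ hR.isOpen⟩
      have hQ' := cl Q hQ
      have hQc := cl Qᶜ hQ.compl
      have hne1 : (Subtype.val '' Q : Set K).Nonempty := by
        obtain ⟨z, hz⟩ := hQ1
        exact ⟨z.1, z, hz, rfl⟩
      have hne2 : (Subtype.val '' Qᶜ : Set K).Nonempty := by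
        obtain ⟨z, hz⟩ := nonempty_compl.2 hQ2
        exact ⟨z.1, z, hz, rfl⟩
      have hlt : ((Subtype.val '' Q : Set K) ∩ ϖ ⁻¹' {x₀}).ncard < (P ∩ ϖ ⁻¹' {x₀}).ncard := by
        apply Set.ncard_lt_ncard _ (hfin.subset inter_subset_right)
        have h3 := onto _ hQc hne2
        have h4 : x₀ ∈ ϖ '' (Subtype.val '' Qᶜ : Set K) := by rw [h3]; trivial
        obtain ⟨z, ⟨w, hw, rfl⟩, hz⟩ := h4
        refine ⟨?_, ?_⟩
        · rintro y ⟨⟨w', -, rfl⟩, hy⟩
          exact ⟨w'.2, hy⟩
        · intro hsub
          obtain ⟨⟨w', hw', hww⟩, -⟩ := hsub ⟨w.2, hz⟩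
          have : w' = w := Subtype.ext hww
          subst this
          exact hw hw'
      have hle : sInf N ≤ ((Subtype.val '' Q : Set K) ∩ ϖ ⁻¹' {x₀}).ncard :=
        Nat.sInf_le ⟨_, hQ', hne1, rfl⟩
      omega
    obtain ⟨z, hz⟩ := hPne
    exact ⟨⟨⟨z, hz⟩⟩⟩
  haveI : CompactSpace P := isCompact_iff_compactSpace.1 hP.isClosed.isCompact
  have hloc : IsLocalHomeomorph (fun z : P => ϖ z) :=
    hϖ.comp hP.isOpen.isOpenEmbedding_subtypeVal.isLocalHomeomorph
  have hinj : Function.Injective (fun z : P => ϖ z) :=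
    hM P hPconn _ (covering_of_local hloc) (finite_fibre hloc)
  have hsurj : Function.Surjective (fun z : P => ϖ z) := by
    intro x
    have h4 : x ∈ ϖ '' P := by rw [onto P hP hPne]; trivial
    obtain ⟨z, hz, hzx⟩ := h4
    exact ⟨⟨z, hz⟩, hzx⟩
  let φ := hloc.toHomeomorphOfBijective ⟨hinj, hsurj⟩
  refine ⟨⟨fun x => (φ.symm x).1, by fun_prop⟩, ?_⟩
  apply ContinuousMap.ext
  intro x
  exact φ.apply_symm_apply x

end Pool.Agent.Lib.MP_271836_gt
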