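import Pool.Agent.Lib.MP_271836_gt.CoverEquiv

/-!
# The shape class of a weak solenoid consists of its twists
-/

namespace Pool.Agent.Lib.MP_271836_gt

open Topology Set unitInterval

section key

variable {B : ℕ → Type} [∀ l, TopologicalSpace (B l)] [∀ l, CompactSpace (B l)]
  [∀ l, TopologicalSpace.MetrizableSpace (B l)] [∀ l, ConnectedSpace (B l)]
  (q : ∀ l, C(B (l + 1), B l)) (m : ℕ)
  {E : Type} [TopologicalSpace E] [CompactSpace E] [TopologicalSpace.MetrizableSpace E]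
  [ConnectedSpace E]

/-- The shape equivalence between the limit and its pullback along a homotopy equivalence. -/
theorem exists_pullShape (hq : ∀ l, IsLocalHomeomorph (q l))
    (k : ContinuousMap.HomotopyEquiv E (B m)) :
    ∃ (Φ : ShapeEquiv (lim q) (lim (B := PB q m k.toFun) (pq q m k.toFun)))
      (ρ : C(lim (B := PB q m k.toFun) (pq q m k.toFun), lim q)),
      (∀ y, (ρ y).1 m = k.toFun (y.1 0).1.1) ∧
      ∀ (P : Type) [TopologicalSpace P] (hP : IsANR P) (a : C(lim q, P)),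
        Φ.toEquiv P hP (HClass.mk a) = HClass.mk (a.comp ρ) := by
  have pt : ∀ l, B l := fun l => Classical.choice inferInstance
  have hc : ∀ j, ConnectedSpace (PB q m k.toFun j) := fun j =>
    connected_Pb k.toFun k.invFun k.right_inv _
      (qm_isLocalHomeomorph q hq m (Nat.le_add_right m j))
  have pt' : ∀ j, PB q m k.toFun j := fun j => Classical.choice (hc j).toNonempty
  have he : ∀ j, ∃ s : C(B (m + j), PB q m k.toFun j),
      (s.comp (⟨fun z => z.1.2, by fun_prop⟩ : C(PB q m k.toFun j, B (m + j)))).Homotopic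
        (ContinuousMap.id _) ∧
      ((⟨fun z => z.1.2, by fun_prop⟩ : C(PB q m k.toFun j, B (m + j))).comp s).Homotopic
        (ContinuousMap.id _) := by
    intro j
    obtain ⟨h, hh⟩ := exists_equiv_Pb k (qm q m (Nat.le_add_right m j))
      (qm_isLocalHomeomorph q hq m (Nat.le_add_right m j))
    refine ⟨h.invFun, ?_, ?_⟩
    · rw [← hh]; exact h.left_inv
    · rw [← hh]; exact h.right_inv
  obtain ⟨Ψ, hΨ⟩ := exists_levelShape (B := fun j => B (m + j)) (B' := PB q m k.toFun)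
    (fun j => q (m + j)) (pq q m k.toFun) (fun j => pt (m + j)) pt'
    (fun j => ⟨fun z => z.1.2, by fun_prop⟩) (fun j => rfl) he
  set lv := levelMap (B := fun j => B (m + j)) (B' := PB q m k.toFun)
    (fun j => q (m + j)) (pq q m k.toFun) (fun j => ⟨fun z => z.1.2, by fun_prop⟩) (fun j => rfl)
    with hlv
  refine ⟨(ShapeEquiv.ofHomeo (shiftHomeo q m)).trans Ψ,
    (shiftHomeo q m : C(lim (B := fun j => B (m + j)) (fun j => q (m + j)), lim q)).comp lv, ?_, ?_⟩
  · intro y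
    have h2 : ((shiftHomeo q m).symm (shiftHomeo q m (lv y))).1 0 = (y.1 0).1.2 := by
      rw [Homeomorph.symm_apply_apply]
      rfl
    have h0 : k.toFun (y.1 0).1.1 = qm q m (Nat.le_add_right m 0) (y.1 0).1.2 := (y.1 0).2
    have h1 : qm q m (Nat.le_add_right m 0) = ContinuousMap.id (B m) := qm_self q m
    exact h2.trans ((h0.trans (congrArg (fun f : C(B m, B m) => f (y.1 0).1.2) h1)).symm)
  · intro P _ hP a
    show Ψ.toEquiv P hP ((ShapeEquiv.ofHomeo (shiftHomeo q m)).toEquiv P hP (HClass.mk a)) = _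
    rw [ShapeEquiv.ofHomeo_mk, hΨ]
    rfl

end key

theorem PB_isClosedMfd {B : ℕ → Type} [∀ l, TopologicalSpace (B l)] [∀ l, CompactSpace (B l)]
    [∀ l, TopologicalSpace.MetrizableSpace (B l)] [∀ l, ConnectedSpace (B l)]
    (q : ∀ l, C(B (l + 1), B l)) (m : ℕ) {E : Type} [TopologicalSpace E] [CompactSpace E]
    [TopologicalSpace.MetrizableSpace E] [ConnectedSpace E] (hq : ∀ l, IsLocalHomeomorph (q l))
    (k : ContinuousMap.HomotopyEquiv E (B m)) (hE : IsClosedMfd E) (j : ℕ) :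
    IsClosedMfd (PB q m k.toFun j) :=
  hE.of_local inferInstance (connected_Pb k.toFun k.invFun k.right_inv _
    (qm_isLocalHomeomorph q hq m (Nat.le_add_right m j))) inferInstance
    (isLocalHomeomorph_Pb_fst k.toFun (qm q m (Nat.le_add_right m j))
      (qm_isLocalHomeomorph q hq m (Nat.le_add_right m j)))

theorem IsClosedMfd.isANR {X : Type} [TopologicalSpace X] (h : IsClosedMfd X) : IsANR X := by
  obtain ⟨k, hk⟩ := h
  exact hk.isANR

theorem IsClosedMfd.metrizable {X : Type} [TopologicalSpace X] (h : IsClosedMfd X) :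
    TopologicalSpace.MetrizableSpace X := by
  obtain ⟨k, hk⟩ := h
  exact hk.metrizable

theorem IsClosedMfd.compact {X : Type} [TopologicalSpace X] (h : IsClosedMfd X) :
    CompactSpace X := by
  obtain ⟨k, hk⟩ := h
  exact hk.1

theorem IsClosedMfd.connected {X : Type} [TopologicalSpace X] (h : IsClosedMfd X) :
    ConnectedSpace X := by
  obtain ⟨k, hk⟩ := h
  exact hk.2.1

theorem IsClosedMfd.locallyConnected {X : Type} [TopologicalSpace X] (h : IsClosedMfd X) :
    LocallyConnectedSpace X := by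
  obtain ⟨k, hk⟩ := h
  exact hk.locallyConnected

theorem pq_isLocalHomeomorph {B : ℕ → Type} [∀ l, TopologicalSpace (B l)]
    (q : ∀ l, C(B (l + 1), B l)) (m : ℕ) {E : Type} [TopologicalSpace E]
    (hq : ∀ l, IsLocalHomeomorph (q l)) (k : C(E, B m)) (j : ℕ) :
    IsLocalHomeomorph (pq q m k j) := by
  have h1 := isLocalHomeomorph_Pb_fst k (qm q m (Nat.le_add_right m j))
      (qm_isLocalHomeomorph q hq m (Nat.le_add_right m j))
  have h2 := isLocalHomeomorph_Pb_fst k (qm q m (Nat.le_add_right m (j + 1)))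
      (qm_isLocalHomeomorph q hq m (Nat.le_add_right m (j + 1)))
  exact IsLocalHomeomorph.of_comp (g := fun z : PB q m k j => z.1.1) h2 h1 (pq q m k j).continuous

/-- The main theorem. -/
theorem shape_iff_twist {n : ℕ} {𝒜 : SpaceClass} (h𝒜 : IsBorel n 𝒜) (S : Tower 𝒜)
    (T : Tower IsClosedMfd) :
    Nonempty (ShapeEquiv S.Limit T.Limit) ↔
      ∃ (m : ℕ) (k : letI := S.top; ContinuousMap.HomotopyEquiv (S.B m) (S.B m)),
        letI := S.top
        Nonempty (T.Limit ≃ₜ S.Twist m k.toFun) := by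
  letI := S.top
  letI := T.top
  have mS' := fun l => h𝒜.closed_manifold _ (S.mem l)
  have mS : ∀ l, IsClosedMfd (S.B l) := fun l => ⟨n, mS' l⟩
  have mT := T.mem
  haveI : ∀ l, CompactSpace (S.B l) := fun l => (mS l).compact
  haveI : ∀ l, CompactSpace (T.B l) := fun l => (mT l).compact
  haveI : ∀ l, ConnectedSpace (S.B l) := fun l => (mS l).connected
  haveI : ∀ l, ConnectedSpace (T.B l) := fun l => (mT l).connected
  haveI : ∀ l, TopologicalSpace.MetrizableSpace (S.B l) := fun l => (mS l).metrizable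
  haveI : ∀ l, TopologicalSpace.MetrizableSpace (T.B l) := fun l => (mT l).metrizable
  haveI : ∀ l, LocallyConnectedSpace (T.B l) := fun l => (mT l).locallyConnected
  have hB : ∀ l, IsANR (S.B l) := fun l => (mS l).isANR
  have hB' : ∀ l, IsANR (T.B l) := fun l => (mT l).isANR
  have pt : ∀ l, S.B l := fun l => Classical.choice inferInstance
  have pt' : ∀ l, T.B l := fun l => Classical.choice inferInstance
  set q : ∀ l, C(S.B (l + 1), S.B l) := S.bond with hq
  set q' : ∀ l, C(T.B (l + 1), T.B l) := T.bond with hq'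
  have lq : ∀ l, IsLocalHomeomorph (q l) := fun l => (S.covering l).isLocalHomeomorph
  have lq' : ∀ l, IsLocalHomeomorph (q' l) := fun l => (T.covering l).isLocalHomeomorph
  constructor
  · rintro ⟨Φ⟩
    change ShapeEquiv (lim q) (lim q') at Φ
    -- three steps of the ladder
    obtain ⟨a, ha⟩ := HClass.exists_rep (Φ.symm.toEquiv _ (hB' 0) (HClass.mk (prj q' 0)))
    obtain ⟨m₀, hm₀⟩ := exists_factor q (hB' 0) pt a
    obtain ⟨h, hah⟩ := hm₀ m₀ le_rfl
    have hh : Φ.toEquiv _ (hB' 0) (HClass.mk (h.comp (prj q m₀))) = HClass.mk (prj q' 0) := by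
      have h1 : (Φ.toEquiv _ (hB' 0)).symm (HClass.mk (prj q' 0)) = HClass.mk a := ha.symm
      rw [Equiv.symm_apply_eq] at h1
      rw [h1]
      congr 1
      exact HClass.mk_eq_iff.2 hah.symm
    obtain ⟨n₀, hn₀⟩ := exists_next Φ pt' hB hB' m₀ 0 h hh
    obtain ⟨h0n, f, hf, hhf⟩ := hn₀ n₀ le_rfl
    have hf' : Φ.symm.toEquiv _ (hB m₀) (HClass.mk (f.comp (prj q' n₀))) =
        HClass.mk (prj q m₀) := by
      show (Φ.toEquiv _ (hB m₀)).symm _ = _
      rw [Equiv.symm_apply_eq]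
      exact hf.symm
    obtain ⟨m₁, hm₁⟩ := exists_next Φ.symm pt hB' hB n₀ m₀ f hf'
    obtain ⟨hmm, g, hg, hfg⟩ := hm₁ m₁ le_rfl
    obtain ⟨E, tE, cE, nE, hE, p, gt, hp, hpg⟩ := exists_cover_equiv g f h (qm q m₀ hmm)
      (qm q' 0 h0n) (qm_isLocalHomeomorph q lq m₀ hmm) (qm_isLocalHomeomorph q' lq' 0 h0n) hfg hhf
    have mE : IsClosedMfd E := (mT n₀).of_local cE nE hE hp
    haveI := mE.metrizable
    obtain ⟨ψ⟩ := h𝒜.rigid E (S.B m₁) mE (S.mem m₁) ⟨gt.symm⟩
    -- `ψ : E ≃ₜ S.B m₁`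
    obtain ⟨Θ, ρ, hρ, hΘ⟩ := exists_pullShape q m₁ lq gt.symm
    have hg' : Φ.toEquiv _ (hB' n₀) (HClass.mk (g.comp (prj q m₁))) = HClass.mk (prj q' n₀) := by
      have h2 : (Φ.toEquiv _ (hB' n₀)).symm (HClass.mk (prj q' n₀))
          = HClass.mk (g.comp (prj q m₁)) := hg
      rw [Equiv.symm_apply_eq] at h2
      exact h2.symm
    let π₀ : C(PB q m₁ gt.symm.toFun 0, E) := ⟨fun z => z.1.1, by fun_prop⟩
    have hπ₀ : IsLocalHomeomorph π₀ := isLocalHomeomorph_Pb_fst gt.symm.toFun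
      (qm q m₁ (Nat.le_add_right m₁ 0)) (qm_isLocalHomeomorph q lq m₁ (Nat.le_add_right m₁ 0))
    have hcls : (Θ.symm.trans Φ).toEquiv _ (hB' n₀) (HClass.mk ((p.comp π₀).comp
        (prj (B := PB q m₁ gt.symm.toFun) (pq q m₁ gt.symm.toFun) 0))) = HClass.mk (prj q' n₀) := by
      have h3 : Θ.toEquiv _ (hB' n₀) (HClass.mk (g.comp (prj q m₁))) = HClass.mk ((p.comp π₀).comp
          (prj (B := PB q m₁ gt.symm.toFun) (pq q m₁ gt.symm.toFun) 0)) := by
        rw [hΘ, HClass.mk_eq_iff]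
        have h4 : (g.comp (prj q m₁)).comp ρ = (p.comp (gt.toFun.comp gt.invFun)).comp
            (π₀.comp (prj (B := PB q m₁ gt.symm.toFun) (pq q m₁ gt.symm.toFun) 0)) := by
          apply ContinuousMap.ext
          intro y
          have h5 : (ρ y).1 m₁ = gt.invFun (y.1 0).1.1 := hρ y
          show g ((ρ y).1 m₁) = p (gt.toFun (gt.invFun (y.1 0).1.1))
          rw [h5, ← hpg]
          rfl
        rw [h4]
        have h6 := (((ContinuousMap.Homotopic.refl p).comp gt.right_inv)).comp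
          (ContinuousMap.Homotopic.refl
            (π₀.comp (prj (B := PB q m₁ gt.symm.toFun) (pq q m₁ gt.symm.toFun) 0)))
        rw [ContinuousMap.comp_id] at h6
        exact h6
      show Φ.toEquiv _ (hB' n₀) ((Θ.toEquiv _ (hB' n₀)).symm _) = _
      rw [← h3, Equiv.symm_apply_apply]
      exact hg'
    have mP := PB_isClosedMfd q m₁ lq gt.symm mE
    haveI : ∀ j, CompactSpace (PB q m₁ gt.symm.toFun j) := fun j => (mP j).compact
    haveI : ∀ j, TopologicalSpace.MetrizableSpace (PB q m₁ gt.symm.toFun j) :=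
      fun j => (mP j).metrizable
    have ptP : ∀ j, PB q m₁ gt.symm.toFun j := fun j => Classical.choice (mP j).connected.toNonempty
    obtain ⟨F, -⟩ := exists_homeo_of_stage (B := PB q m₁ gt.symm.toFun)
      (q := pq q m₁ gt.symm.toFun) (Θ.symm.trans Φ) ptP pt' (fun j => (mP j).isANR) hB'
      (pq_isLocalHomeomorph q m₁ lq gt.symm.toFun) lq'
      ⟨0, n₀, p.comp π₀, hp.comp hπ₀, hcls⟩
    -- rename the base
    refine ⟨m₁, (ψ.symm.toHomotopyEquiv.trans gt.symm), ⟨F.trans ((pullHomeo q m₁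
      gt.symm.toFun).trans ?_)⟩⟩
    refine ⟨⟨fun z => ⟨(ψ z.1.1, z.1.2), ?_⟩, fun z => ⟨(ψ.symm z.1.1, z.1.2), z.2⟩, ?_, ?_⟩, ?_, ?_⟩
    · show gt.invFun (ψ.symm (ψ z.1.1)) = z.1.2.1 m₁
      rw [ψ.symm_apply_apply]
      exact z.2
    · intro z
      apply Subtype.ext
      exact Prod.ext (ψ.symm_apply_apply z.1.1) rfl
    · intro z
      apply Subtype.ext
      exact Prod.ext (ψ.apply_symm_apply z.1.1) rfl
    · apply Continuous.subtype_mk
      exact (ψ.continuous.comp (continuous_fst.comp continuous_subtype_val)).prodMk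
        (continuous_snd.comp continuous_subtype_val)
    · apply Continuous.subtype_mk
      exact (ψ.symm.continuous.comp (continuous_fst.comp continuous_subtype_val)).prodMk
        (continuous_snd.comp continuous_subtype_val)
  · rintro ⟨m, k, ⟨F⟩⟩
    obtain ⟨Θ, -⟩ := exists_pullShape q m lq k
    exact ⟨Θ.trans (ShapeEquiv.ofHomeo (F.trans (pullHomeo q m k.toFun).symm))⟩

/-- The pulled back tower. -/
def Tower.pull {n : ℕ} {𝒜 : SpaceClass} (h𝒜 : IsCoverClosed n 𝒜) (S : Tower 𝒜) (m : ℕ)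
    (k : letI := S.top; ContinuousMap.HomotopyEquiv (S.B m) (S.B m)) : Tower 𝒜 :=
  letI := S.top
  haveI : ∀ l, CompactSpace (S.B l) := fun l => (h𝒜.closed_manifold _ (S.mem l)).1
  haveI : ∀ l, ConnectedSpace (S.B l) := fun l => (h𝒜.closed_manifold _ (S.mem l)).2.1
  haveI : ∀ l, T2Space (S.B l) := fun l => (h𝒜.closed_manifold _ (S.mem l)).2.2.1
  have lq : ∀ l, IsLocalHomeomorph (S.bond l) := fun l => (S.covering l).isLocalHomeomorph
  { B := PB S.bond m k.toFun
    top := inferInstance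
    q := fun l => pq S.bond m k.toFun l
    mem := fun j => h𝒜.finite_cover (PB S.bond m k.toFun j) (S.B m) (S.mem m)
      (connected_Pb k.toFun k.invFun k.right_inv _
        (qm_isLocalHomeomorph S.bond lq m (Nat.le_add_right m j)))
      (fun z => z.1.1)
      (covering_of_local (isLocalHomeomorph_Pb_fst k.toFun _
        (qm_isLocalHomeomorph S.bond lq m (Nat.le_add_right m j))))
      (finite_fibre (isLocalHomeomorph_Pb_fst k.toFun _
        (qm_isLocalHomeomorph S.bond lq m (Nat.le_add_right m j))))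
    covering := fun l => covering_of_local (pq_isLocalHomeomorph S.bond m lq k.toFun l)
    finite_fibres := fun l => finite_fibre (pq_isLocalHomeomorph S.bond m lq k.toFun l) }

/-- Every twist is the limit of a tower of members. -/
theorem exists_tower_twist {n : ℕ} {𝒜 : SpaceClass} (h𝒜 : IsCoverClosed n 𝒜) (S : Tower 𝒜) (m : ℕ)
    (k : letI := S.top; ContinuousMap.HomotopyEquiv (S.B m) (S.B m)) :
    ∃ T : Tower 𝒜, Nonempty (T.Limit ≃ₜ letI := S.top; S.Twist m k.toFun) := by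
  letI := S.top
  exact ⟨S.pull h𝒜 m k, ⟨pullHomeo S.bond m k.toFun⟩⟩

/-- A tower of members as a tower of closed manifolds. -/
def Tower.toMfd {n : ℕ} {𝒜 : SpaceClass} (h𝒜 : IsCoverClosed n 𝒜) (S : Tower 𝒜) :
    Tower IsClosedMfd :=
  letI := S.top
  { B := S.B
    top := S.top
    q := S.q
    mem := fun l => ⟨n, h𝒜.closed_manifold _ (S.mem l)⟩
    covering := S.covering
    finite_fibres := S.finite_fibres }

/-- The three descriptions of the shape class of a weak solenoid. -/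
theorem twist_tfae {n : ℕ} {𝒜 : SpaceClass} (h𝒜 : IsBorel n 𝒜) (S : Tower 𝒜) (X : Type)
    [TopologicalSpace X] :
    List.TFAE [
      Nonempty (ShapeEquiv S.Limit X) ∧ ∃ T : Tower IsClosedMfd, Nonempty (X ≃ₜ T.Limit),
      Nonempty (ShapeEquiv S.Limit X) ∧ ∃ T : Tower 𝒜, Nonempty (X ≃ₜ T.Limit),
      ∃ (m : ℕ) (k : letI := S.top; ContinuousMap.HomotopyEquiv (S.B m) (S.B m)),
        letI := S.top
        Nonempty (X ≃ₜ S.Twist m k.toFun)] := by
  letI := S.top
  tfae_have 1 → 3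
  | ⟨⟨Φ⟩, T, ⟨F⟩⟩ => by
    obtain ⟨m, k, ⟨G⟩⟩ := (shape_iff_twist h𝒜 S T).1 ⟨Φ.trans (ShapeEquiv.ofHomeo F.symm)⟩
    exact ⟨m, k, ⟨F.trans G⟩⟩
  tfae_have 3 → 2
  | ⟨m, k, ⟨F⟩⟩ => by
    obtain ⟨T, ⟨G⟩⟩ := exists_tower_twist h𝒜.toIsCoverClosed S m k
    obtain ⟨Φ⟩ := (shape_iff_twist h𝒜 S (T.toMfd h𝒜.toIsCoverClosed)).2 ⟨m, k, ⟨G⟩⟩
    exact ⟨⟨Φ.trans (ShapeEquiv.ofHomeo (F.trans G.symm))⟩, T, ⟨F.trans G.symm⟩⟩
  tfae_have 2 → 1
  | ⟨h, T, ⟨F⟩⟩ => ⟨h, T.toMfd h𝒜.toIsCoverClosed, ⟨F⟩⟩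
  tfae_finish

end Pool.Agent.Lib.MP_271836_gt
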