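import Pool.Agent.Lib.MP_271836_gt.OverBase

/-!
# Weak solenoids whose shape class is a single homeomorphism class
-/

namespace Pool.Agent.Lib.MP_271836_gt

open Topology Set unitInterval

/-- The projection of a weak solenoid to a level. -/
def Tower.proj {𝒜 : SpaceClass} (S : Tower 𝒜) (m : ℕ) : letI := S.top; C(S.Limit, S.B m) :=
  letI := S.top
  ⟨fun x => x.1 m, (continuous_apply m).comp continuous_subtype_val⟩

/-- Every self homotopy equivalence `k` of every level `S.B m` becomes liftable, together with its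
inverse, to self maps of the weak solenoid, up to homotopy and after composition with a
homeomorphism of `S.B m`. -/
def Tower.LiftsEquivalences {𝒜 : SpaceClass} (S : Tower 𝒜) : Prop :=
  letI := S.top
  ∀ (m : ℕ) (k : ContinuousMap.HomotopyEquiv (S.B m) (S.B m)),
    ∃ (φ : S.B m ≃ₜ S.B m) (K K' : C(S.Limit, S.Limit)),
      ((S.proj m).comp K).Homotopic ((k.toFun.comp (φ : C(S.B m, S.B m))).comp (S.proj m)) ∧
      ((S.proj m).comp K').Homotopic
        (((φ.symm : C(S.B m, S.B m)).comp k.invFun).comp (S.proj m))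

theorem homeo_of_liftsEquivalences {n : ℕ} {𝒜 : SpaceClass} (h𝒜 : IsBorel n 𝒜) (S : Tower 𝒜)
    (hS : S.LiftsEquivalences) (T : Tower IsClosedMfd) (h : Nonempty (ShapeEquiv S.Limit T.Limit)) :
    Nonempty (S.Limit ≃ₜ T.Limit) := by
  letI := S.top
  obtain ⟨m, k, ⟨F⟩⟩ := (shape_iff_twist h𝒜 S T).1 h
  obtain ⟨φ, K, K', hK, hK'⟩ := hS m k
  have mS : ∀ l, IsClosedMfd (S.B l) := fun l => ⟨n, h𝒜.closed_manifold _ (S.mem l)⟩
  haveI : ∀ l, CompactSpace (S.B l) := fun l => (mS l).compact
  haveI : ∀ l, ConnectedSpace (S.B l) := fun l => (mS l).connected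
  haveI : ∀ l, TopologicalSpace.MetrizableSpace (S.B l) := fun l => (mS l).metrizable
  set q : ∀ l, C(S.B (l + 1), S.B l) := S.bond with hq
  have lq : ∀ l, IsLocalHomeomorph (q l) := fun l => (S.covering l).isLocalHomeomorph
  let κ : ContinuousMap.HomotopyEquiv (S.B m) (S.B m) := φ.toHomotopyEquiv.trans k
  change C(lim q, lim q) at K K'
  obtain ⟨G⟩ := exists_twist_homeo q m mS lq κ K K' hK hK'
  have D : S.Twist m k.toFun ≃ₜ {z : S.B m × lim q // κ.toFun z.1 = z.2.1 m} :=
    { toFun := fun z => ⟨(φ.symm z.1.1, z.1.2), by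
        show k.toFun (φ (φ.symm z.1.1)) = z.1.2.1 m
        rw [φ.apply_symm_apply]
        exact z.2⟩
      invFun := fun z => ⟨(φ z.1.1, z.1.2), z.2⟩
      left_inv := fun z => Subtype.ext (Prod.ext (φ.apply_symm_apply z.1.1) rfl)
      right_inv := fun z => Subtype.ext (Prod.ext (φ.symm_apply_apply z.1.1) rfl)
      continuous_toFun := by
        apply Continuous.subtype_mk
        exact (φ.symm.continuous.comp (continuous_fst.comp continuous_subtype_val)).prodMk
          (continuous_snd.comp continuous_subtype_val)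
      continuous_invFun := by
        apply Continuous.subtype_mk
        exact (φ.continuous.comp (continuous_fst.comp continuous_subtype_val)).prodMk
          (continuous_snd.comp continuous_subtype_val) }
  exact ⟨(G.trans (pullHomeo q m κ.toFun)).trans (D.symm.trans F.symm)⟩

theorem liftsEquivalences_of_noFiniteCover {n : ℕ} {𝒜 : SpaceClass} (h𝒜 : IsCoverClosed n 𝒜)
    (S : Tower 𝒜) (hS : NoFiniteCover S.Limit) : S.LiftsEquivalences := by
  letI := S.top
  intro m k
  have mS : ∀ l, IsClosedMfd (S.B l) := fun l => ⟨n, h𝒜.closed_manifold _ (S.mem l)⟩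
  haveI : ∀ l, CompactSpace (S.B l) := fun l => (mS l).compact
  haveI : ∀ l, ConnectedSpace (S.B l) := fun l => (mS l).connected
  haveI : ∀ l, TopologicalSpace.MetrizableSpace (S.B l) := fun l => (mS l).metrizable
  have lq : ∀ l, IsLocalHomeomorph (S.bond l) := fun l => (S.covering l).isLocalHomeomorph
  obtain ⟨K, hK⟩ := exists_lift_of_noFiniteCover S.bond m lq hS k.toFun
  obtain ⟨K', hK'⟩ := exists_lift_of_noFiniteCover S.bond m lq hS k.invFun
  refine ⟨Homeomorph.refl _, K, K', ?_, ?_⟩
  · have h1 : (S.proj m).comp K =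
        (k.toFun.comp ((Homeomorph.refl (S.B m) : S.B m ≃ₜ S.B m) : C(S.B m, S.B m))).comp
          (S.proj m) := hK
    exact Eq.subst (motive := fun f => ContinuousMap.Homotopic _ f) h1
      (ContinuousMap.Homotopic.refl _)
  · have h1 : (S.proj m).comp K' =
        (((Homeomorph.refl (S.B m)).symm : C(S.B m, S.B m)).comp k.invFun).comp
          (S.proj m) := hK'
    exact Eq.subst (motive := fun f => ContinuousMap.Homotopic _ f) h1
      (ContinuousMap.Homotopic.refl _)

end Pool.Agent.Lib.MP_271836_gt
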